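import Pool.Agent.Lib.MP_d31508_co.Sharp.Cover2

set_option linter.unusedSectionVars false

/-!
# Near-cliques absorb small hanging sets
-/

namespace Pool.Agent.Lib.MP_d31508_co.Sharp

open Finset Classical
open Pool.Agent.Lib.MP_d31508_co.Asy (dg Cl D)

variable {V : Type} [Fintype V] {G : SimpleGraph V}

/-- remove `t` vertices of the core `K` from the closed set `C` -/
lemma absorb {C K : Finset V} {m t d : ℕ} (hC : Cl G C) (hKC : K ⊆ C) (hCm : C.card = m + t)
    (hK : ∀ v ∈ K, K.card ≤ dg G K v + d) (h1 : 2 * (C \ K).card + t ≤ K.card)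
    (h2 : d + t + 2 ≤ K.card) : ∃ S ⊆ C, Cl G S ∧ S.card = m := by
  have hn : ∀ x : V, ∃ p : V × V, x ∈ C → p.1 ∈ C ∧ p.2 ∈ C ∧ p.1 ≠ p.2 ∧ G.Adj x p.1 ∧
      G.Adj x p.2 := by
    intro x
    by_cases hx : x ∈ C
    · obtain ⟨y, hy, z, hz, hyz, e1, e2⟩ := two_le_dg_iff.1 (hC x hx)
      exact ⟨(y, z), fun _ => ⟨hy, hz, hyz, e1, e2⟩⟩
    · exact ⟨(x, x), fun h => absurd h hx⟩
  choose p hp using hn
  set W := (C \ K).biUnion (fun x => {(p x).1, (p x).2}) with hW
  have hWc : W.card ≤ 2 * (C \ K).card := by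
    calc W.card ≤ ∑ x ∈ C \ K, ({(p x).1, (p x).2} : Finset V).card := card_biUnion_le
      _ ≤ ∑ _x ∈ C \ K, 2 := sum_le_sum (fun x _ => card_le_two)
      _ = _ := by simp [mul_comm]
  have hKW : t ≤ (K \ W).card := by
    have := le_card_sdiff W K
    omega
  obtain ⟨T, hT, hTc⟩ := exists_subset_card_eq hKW
  have hTK : T ⊆ K := hT.trans sdiff_subset
  refine ⟨C \ T, sdiff_subset, ?_, ?_⟩
  · intro x hx
    obtain ⟨hxC, hxT⟩ := mem_sdiff.1 hx
    by_cases hxK : x ∈ K
    · -- core vertices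
      have e1 := hK x hxK
      have e2 : dg G K x ≤ dg G (K \ T) x + T.card := by
        have := dg_union_le (G := G) (K \ T) T x
        rw [sdiff_union_of_subset hTK] at this
        exact this.trans (Nat.add_le_add_left (dg_le_card T x) _)
      have e3 : dg G (K \ T) x ≤ dg G (C \ T) x := dg_mono (sdiff_subset_sdiff hKC Subset.rfl) x
      omega
    · obtain ⟨a1, a2, a3, a4, a5⟩ := hp x hxC
      have hxCK : x ∈ C \ K := mem_sdiff.2 ⟨hxC, hxK⟩
      have b1 : (p x).1 ∉ T := fun h => (mem_sdiff.1 (hT h)).2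
        (mem_biUnion.2 ⟨x, hxCK, by simp⟩)
      have b2 : (p x).2 ∉ T := fun h => (mem_sdiff.1 (hT h)).2
        (mem_biUnion.2 ⟨x, hxCK, by simp⟩)
      exact two_le_dg (mem_sdiff.2 ⟨a1, b1⟩) (mem_sdiff.2 ⟨a2, b2⟩) a3 a4 a5
  · rw [card_sdiff_of_subset (hTK.trans hKC), hTc, hCm]
    omega

/-- the core of a near-clique -/
lemma core_exists {B : Finset V} {d s : ℕ} (h : B.card * B.card ≤ D G B + s * (d + 1)) :
    ∃ K ⊆ B, (∀ v ∈ K, K.card ≤ dg G K v + d) ∧ (B \ K).card ≤ s := by
  set K := B.filter (fun v => B.card ≤ dg G B v + d) with hK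
  have hKB : K ⊆ B := filter_subset _ _
  refine ⟨K, hKB, ?_, ?_⟩
  · intro v hv
    have e1 := (mem_filter.1 hv).2
    have e2 : dg G B v ≤ dg G K v + (B \ K).card := by
      have := dg_union_le (G := G) K (B \ K) v
      rw [union_sdiff_of_subset hKB] at this
      exact this.trans (Nat.add_le_add_left (dg_le_card _ v) _)
    have e3 := card_sdiff_add_card_eq_card hKB
    omega
  · have h1 : (B \ K).card * (d + 1) + D G B ≤ B.card * B.card := by
      have e : ∑ v ∈ B, (dg G B v + if v ∈ B \ K then d + 1 else 0) ≤ ∑ _v ∈ B, B.card := by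
        apply sum_le_sum
        intro v hv
        split_ifs with h
        · obtain ⟨h1, h2⟩ := mem_sdiff.1 h
          rw [hK, mem_filter] at h2
          push Not at h2
          have := h2 h1
          omega
        · exact dg_le_card B v
      rw [sum_add_distrib, ← sum_filter] at e
      have e2 : B.filter (fun v => v ∈ B \ K) = B \ K := by
        ext v
        simp only [mem_filter]
        exact ⟨fun h => h.2, fun h => ⟨(mem_sdiff.1 h).1, h⟩⟩
      rw [e2] at e
      simp only [sum_const, smul_eq_mul] at e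
      have e3 : D G B = ∑ v ∈ B, dg G B v := rfl
      omega
    have h2 : (B \ K).card * (d + 1) ≤ s * (d + 1) := by omega
    exact Nat.le_of_mul_le_mul_right h2 (by omega)

lemma D_le (X : Finset V) : D G X ≤ X.card * (X.card - 1) := by
  unfold D
  calc ∑ x ∈ X, dg G X x ≤ ∑ _x ∈ X, (X.card - 1) := by
        apply sum_le_sum
        intro x hx
        have : dg G X x ≤ (X.erase x).card := by
          unfold dg
          apply card_le_card
          intro y hy
          obtain ⟨h1, h2⟩ := mem_filter.1 hy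
          exact mem_erase.2 ⟨h2.ne', h1⟩
        rwa [card_erase_of_mem hx] at this
    _ = _ := by simp

/-- **The near-clique case.** -/
theorem near_clique {B : Finset V} {m Q j s d : ℕ} (hB : Cl G B)
    (hG : ∀ S : Finset V, S.card = m → ¬ Cl G S)
    (hBm : B.card ≤ m + s) (hcore : B.card * B.card ≤ D G B + s * (d + 1))
    (hnum1 : 2 * m + 6 * s ≤ 3 * B.card) (hnum2 : d + 2 * s + 2 ≤ B.card) (hm : 5 ≤ m)
    (hQ : 1 ≤ Q) (hj : Fintype.card V * Q ^ j < (Q + 1) ^ (j + 1)) (hQj : 4 * (Q + j) + 3 ≤ s) :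
    Q * D G univ + 2 * (Q + 1) * (m - 1) ≤
      Q * ((m - 1) * (m - 2)) + 2 * (Q + 1) * Fintype.card V := by
  obtain ⟨K, hKB, hK, hBK⟩ := core_exists hcore
  have hKc := card_sdiff_add_card_eq_card hKB
  -- no closed set slightly larger than `m`
  have key : ∀ C : Finset V, B ⊆ C → Cl G C → C.card ≤ m + s → C.card ≤ m - 1 := by
    intro C hBC hC hCc
    by_contra hcon
    push Not at hcon
    have hne : C.card ≠ m := fun h => hG C h hC
    obtain ⟨t, ht⟩ : ∃ t, C.card = m + t := ⟨C.card - m, by omega⟩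
    have hCK := card_sdiff_add_card_eq_card (hKB.trans hBC)
    obtain ⟨S, -, hS, hSc⟩ := absorb (m := m) (t := t) (d := d) hC (hKB.trans hBC) ht hK
      (by omega) (by omega)
    exact hG S hSc hS
  have hB1 := key B Subset.rfl hB hBm
  obtain ⟨C, hC, hmax⟩ := exists_max_image
    ((univ : Finset V).powerset.filter (fun C => B ⊆ C ∧ Cl G C ∧ C.card ≤ m - 1)) card
    ⟨B, mem_filter.2 ⟨by simp, Subset.rfl, hB, hB1⟩⟩
  obtain ⟨-, hBC, hCcl, hCm⟩ := mem_filter.1 hC
  obtain ⟨R, hR, hval, hker⟩ := kernel_exists (G := G) (Q + 1) Q C (univ \ C)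
  have hCR : Disjoint C R := disjoint_of_subset_right hR disjoint_sdiff
  have hRe : R = ∅ := by
    by_contra hne
    obtain ⟨v, hv⟩ := nonempty_iff_ne_empty.2 hne
    obtain ⟨E, e1, e2, e3, e4⟩ := cover2 hker hCR hj v hv
    have hd : Disjoint C E := disjoint_of_subset_right e1 hCR
    have hc : (C ∪ E).card = C.card + E.card := card_union_of_disjoint hd
    have hpos := card_pos.2 ⟨v, e2⟩
    have h1 := key (C ∪ E) (hBC.trans subset_union_left) (e4.cl hCcl) (by omega)
    have h2 := hmax (C ∪ E) (mem_filter.2 ⟨by simp, hBC.trans subset_union_left, e4.cl hCcl, h1⟩)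
    omega
  rw [hRe, union_empty, card_empty, union_sdiff_of_subset (subset_univ C)] at hval
  have hcard := card_sdiff_add_card_eq_card (subset_univ C)
  rw [card_univ] at hcard
  have hD := D_le (G := G) C
  obtain ⟨x, hx⟩ : ∃ x, C.card = x + 3 := ⟨C.card - 3, by
    have := card_le_card hBC
    omega⟩
  obtain ⟨y, hy⟩ : ∃ y, m = x + 4 + y := ⟨m - (x + 4), by omega⟩
  have e1 : m - 1 = x + 3 + y := by omega
  have e2 : m - 2 = x + 2 + y := by omega
  have e3 : C.card - 1 = x + 2 := by omega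
  rw [e3, hx] at hD
  rw [hx] at hcard
  rw [e1, e2]
  have hD' : Q * D G C ≤ Q * ((x + 3) * (x + 2)) := Nat.mul_le_mul_left _ hD
  have hn : Fintype.card V = (univ \ C).card + (x + 3) := hcard.symm
  rw [hn]
  have hQy : 0 ≤ Q * y := Nat.zero_le _
  nlinarith [Nat.zero_le (Q * x * y), Nat.zero_le (Q * y * y), Nat.zero_le (Q * y),
    Nat.mul_le_mul_right y hQ]

end Pool.Agent.Lib.MP_d31508_co.Sharp
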