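import Pool.Agent.Lib.MP_d31508_co.Asy.Stmts

/-!
# Sharp asymptotics for `f(n,k)` (MP_d31508_co), basic facts

`dg G X x` = number of neighbours of `x` in `X`, `Cl G X` = every element of `X` has at least two
neighbours in `X`, `D G X` = twice the number of edges inside `X` (files of project AS).
-/

set_option linter.unusedSectionVars false
set_option linter.unusedSimpArgs false

namespace Pool.Agent.Lib.MP_d31508_co.Sharp

open Finset Classical
open Pool.Agent.Lib.MP_d31508_co.Asy (dg Cl D)

variable {V : Type} [Fintype V] {G : SimpleGraph V}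

lemma dg_mono {X Y : Finset V} (h : X ⊆ Y) (x : V) : dg G X x ≤ dg G Y x :=
  card_le_card (filter_subset_filter _ h)

lemma dg_le_card (X : Finset V) (x : V) : dg G X x ≤ X.card := card_le_card (filter_subset _ _)

@[simp] lemma dg_empty (x : V) : dg G (∅ : Finset V) x = 0 := by simp [dg]

lemma dg_union_disj {X Y : Finset V} (h : Disjoint X Y) (x : V) :
    dg G (X ∪ Y) x = dg G X x + dg G Y x := by
  unfold dg
  rw [filter_union, card_union_of_disjoint]
  exact disjoint_filter_filter h

lemma dg_union_le (X Y : Finset V) (x : V) : dg G (X ∪ Y) x ≤ dg G X x + dg G Y x := by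
  unfold dg
  rw [filter_union]
  exact card_union_le _ _

lemma dg_insert {X : Finset V} {v : V} (h : v ∉ X) (x : V) :
    dg G (insert v X) x = dg G X x + if G.Adj x v then 1 else 0 := by
  unfold dg
  rw [filter_insert]
  split_ifs with hv
  · rw [card_insert_of_notMem (by simp [h])]
  · simp

lemma dg_insert_self (X : Finset V) (v : V) : dg G (insert v X) v = dg G X v := by
  unfold dg
  rw [filter_insert]
  simp

lemma one_le_dg {X : Finset V} {x y : V} (hy : y ∈ X) (h : G.Adj x y) : 1 ≤ dg G X x :=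
  card_pos.2 ⟨y, by simp [hy, h]⟩

lemma one_le_dg_iff {X : Finset V} {x : V} : 1 ≤ dg G X x ↔ ∃ y ∈ X, G.Adj x y := by
  unfold dg
  rw [Nat.succ_le_iff, card_pos]
  constructor
  · rintro ⟨y, hy⟩
    exact ⟨y, (mem_filter.1 hy).1, (mem_filter.1 hy).2⟩
  · rintro ⟨y, hy, h⟩
    exact ⟨y, mem_filter.2 ⟨hy, h⟩⟩

lemma two_le_dg {X : Finset V} {x y z : V} (hy : y ∈ X) (hz : z ∈ X) (hyz : y ≠ z)
    (h1 : G.Adj x y) (h2 : G.Adj x z) : 2 ≤ dg G X x := by
  unfold dg
  have : ({y, z} : Finset V) ⊆ X.filter (fun w => G.Adj x w) := by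
    intro w hw
    simp only [mem_insert, mem_singleton] at hw
    rcases hw with rfl | rfl
    · simp [hy, h1]
    · simp [hz, h2]
  calc 2 = ({y, z} : Finset V).card := by rw [card_pair hyz]
    _ ≤ _ := card_le_card this

lemma two_le_dg_iff {X : Finset V} {x : V} :
    2 ≤ dg G X x ↔ ∃ y ∈ X, ∃ z ∈ X, y ≠ z ∧ G.Adj x y ∧ G.Adj x z := by
  constructor
  · intro h
    unfold dg at h
    obtain ⟨y, hy, z, hz, hyz⟩ := one_lt_card.1 (show 1 < _ from h)
    simp only [mem_filter] at hy hz
    exact ⟨y, hy.1, z, hz.1, hyz, hy.2, hz.2⟩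
  · rintro ⟨y, hy, z, hz, hyz, h1, h2⟩
    exact two_le_dg hy hz hyz h1 h2

lemma sum_dg_comm (A B : Finset V) : ∑ x ∈ A, dg G B x = ∑ y ∈ B, dg G A y := by
  have h1 : ∀ (A B : Finset V) x, x ∈ A → dg G B x = ∑ y ∈ B, if G.Adj x y then 1 else 0 := by
    intro A B x _
    unfold dg
    rw [card_filter]
  rw [sum_congr rfl (h1 A B), sum_comm, sum_congr rfl]
  intro y hy
  rw [h1 B A y hy]
  apply sum_congr rfl
  intro x _
  simp [G.adj_comm]

lemma D_union {A N : Finset V} (h : Disjoint A N) :
    D G (A ∪ N) = D G A + D G N + 2 * ∑ y ∈ N, dg G A y := by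
  unfold D
  rw [sum_union h, sum_congr rfl (fun x _ => dg_union_disj h x),
    sum_congr (s₁ := N) rfl (fun x _ => dg_union_disj h x), sum_add_distrib, sum_add_distrib,
    sum_dg_comm A N]
  ring

lemma D_singleton (v : V) : D G {v} = 0 := by
  simp [D, dg]

@[simp] lemma D_empty : D G (∅ : Finset V) = 0 := by simp [D]

lemma D_insert {S : Finset V} {v : V} (h : v ∉ S) : D G (insert v S) = D G S + 2 * dg G S v := by
  have : insert v S = S ∪ {v} := by
    ext w; simp [or_comm]
  rw [this, D_union (by simpa using h), D_singleton]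
  simp

lemma D_mono {X Y : Finset V} (h : X ⊆ Y) : D G X ≤ D G Y := by
  have : Y = X ∪ (Y \ X) := (union_sdiff_of_subset h).symm
  rw [this, D_union disjoint_sdiff]
  omega

lemma D_even (X : Finset V) : Even (D G X) := by
  induction X using Finset.induction_on with
  | empty => simp
  | insert a s ha ih =>
    rw [D_insert ha]
    exact ih.add (even_two_mul _)

lemma D_le_sq (X : Finset V) : D G X ≤ X.card * X.card := by
  unfold D
  calc ∑ x ∈ X, dg G X x ≤ ∑ _x ∈ X, X.card := sum_le_sum (fun x _ => dg_le_card X x)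
    _ = _ := by simp

lemma D_sub {X Y : Finset V} (h : X ⊆ Y) :
    D G Y = D G X + D G (Y \ X) + 2 * ∑ y ∈ Y \ X, dg G X y := by
  conv_lhs => rw [← union_sdiff_of_subset h]
  exact D_union disjoint_sdiff

lemma Cl_empty : Cl G (∅ : Finset V) := by intro x hx; simp at hx

lemma Cl_union {X Y : Finset V} (hX : Cl G X) (hY : Cl G Y) : Cl G (X ∪ Y) := by
  intro x hx
  rcases mem_union.1 hx with h | h
  · exact (hX x h).trans (dg_mono subset_union_left x)
  · exact (hY x h).trans (dg_mono subset_union_right x)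

/-- `E` hangs on `X`: every vertex of `E` has two neighbours in `X ∪ E`. -/
def Hang (G : SimpleGraph V) (X E : Finset V) : Prop := ∀ x ∈ E, 2 ≤ dg G (X ∪ E) x

lemma Hang_empty (X : Finset V) : Hang G X ∅ := by intro x hx; simp at hx

lemma Hang.cl {X E : Finset V} (h : Hang G X E) (hX : Cl G X) : Cl G (X ∪ E) := by
  intro x hx
  rcases mem_union.1 hx with hx | hx
  · exact (hX x hx).trans (dg_mono subset_union_left x)
  · exact h x hx

lemma Hang.mono {X X' E : Finset V} (h : Hang G X E) (hX : X ⊆ X') : Hang G X' E :=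
  fun x hx => (h x hx).trans (dg_mono (union_subset_union_left hX) x)

lemma Hang.union {X E F : Finset V} (hE : Hang G X E) (hF : Hang G X F) :
    Hang G X (E ∪ F) := by
  intro x hx
  rcases mem_union.1 hx with hx | hx
  · exact (hE x hx).trans (dg_mono (union_subset_union_right subset_union_left) x)
  · exact (hF x hx).trans (dg_mono (union_subset_union_right subset_union_right) x)

lemma Hang.biUnion {ι : Type} {X : Finset V} (s : Finset ι) (F : ι → Finset V)
    (h : ∀ i ∈ s, Hang G X (F i)) : Hang G X (s.biUnion F) := by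
  intro x hx
  obtain ⟨i, hi, hx⟩ := mem_biUnion.1 hx
  exact (h i hi x hx).trans (dg_mono (union_subset_union_right (subset_biUnion_of_mem F hi)) x)

lemma Cl.hang {X Y : Finset V} (hY : Cl G Y) (h : X ⊆ Y) : Hang G X (Y \ X) := by
  intro x hx
  rw [union_sdiff_of_subset h]
  exact hY x (mem_sdiff.1 hx).1

lemma Cl.hang' {X E : Finset V} (hY : Cl G (X ∪ E)) : Hang G X E := by
  intro x hx
  exact hY x (mem_union_right _ hx)

end Pool.Agent.Lib.MP_d31508_co.Sharp
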