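import Pool.Agent.Lib.MP_d31508_co.Sharp.MainM
import Pool.Agent.Lib.MP_d31508_co.Shr.Ext
import Pool.Agent.Lib.MP_d31508_co.Shr.BigG
import Pool.Agent.Lib.MP_d31508_co.Shr.SelL
import Pool.Agent.Lib.MP_d31508_co.Shr.FlexG
import Pool.Agent.Lib.MP_d31508_co.Shr.IncG
import Pool.Agent.Lib.MP_d31508_co.Shr.SuspG
import Pool.Agent.Lib.MP_d31508_co.Shr.PieceG
import Pool.Agent.Lib.MP_d31508_co.Shr.CutM
import Pool.Agent.Lib.MP_d31508_co.Shp.Thin

/-!
# Assembly of the main theorem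
-/

namespace Pool.Agent.Lib.MP_d31508_co.Sharp

open Pool.Agent.Lib.MP_d31508_co.Asy (f)
open Pool.Agent.Lib.MP_d31508_co.Shr

theorem ext_holds : StExt :=
  stExt Pool.Agent.Lib.MP_d31508_co.Shp.stThin
    (stBigG stSelL stFlexG (stIncG stSuspG (stPieceG stCutM)))

lemma Ex_le {n k : ℕ} (hn : 1 ≤ n) : (Ex n k : ℝ) ≤ 3 / 2 * n - 3 / 2 := by
  have h : 2 * Ex n k + 3 ≤ 3 * n ∨ 2 * Ex n k ≤ 3 * n - 3 := by
    unfold Ex
    split_ifs with he
    · left; omega
    · right; omega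
  have h2 : 2 * Ex n k + 3 ≤ 3 * n := by omega
  have h3 : 2 * (Ex n k : ℝ) + 3 ≤ 3 * n := by exact_mod_cast h2
  linarith

/-- below the threshold the value is larger than `Ex` -/
lemma below {n k : ℕ} (hk : 30 ≤ k) (hl : 200 ≤ Real.log k) (h2k : 2 * k + 1 ≤ n)
    (hx : Real.log n ≤ k) (hn : (n : ℝ) ≤ k ^ 2 + 1 / 100 * (k * Real.log k)) :
    f n k + Ex n k < n.choose 2 := by
  have h1 := lower_half hk h2k hx
  have h2 := Ex_le (n := n) (k := k) (by omega)
  have hk30 : (30 : ℝ) ≤ k := by exact_mod_cast hk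
  have hkn2 : 2 * (k : ℝ) + 1 ≤ n := by exact_mod_cast h2k
  have hk0 : (0 : ℝ) < k := by linarith
  have hn0 : (0 : ℝ) < n := by linarith
  set y := Real.log k with hy
  have key : ((n : ℝ) - k ^ 2 + k - 1) / 2 < 1 / 100 * (n / k * Real.log (n / k)) := by
    rcases le_or_gt (n : ℝ) (k ^ 2 - k) with h | h
    · have h3 : 0 ≤ Real.log ((n : ℝ) / k) := by
        apply Real.log_nonneg
        rw [le_div_iff₀ hk0]
        linarith
      have h4 : 0 ≤ (n : ℝ) / k * Real.log (n / k) := mul_nonneg (by positivity) h3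
      linarith
    · have h3 : (k : ℝ) - 1 ≤ n / k := by
        rw [le_div_iff₀ hk0]
        have : ((k : ℝ) - 1) * k = k ^ 2 - k := by ring
        rw [this]; exact h.le
      have hk1 : (0 : ℝ) < k - 1 := by linarith
      have h4 : Real.log ((k : ℝ) - 1) ≤ Real.log (n / k) := Real.log_le_log hk1 h3
      have h5 : y - 1 / (k - 1) ≤ Real.log ((k : ℝ) - 1) := by
        have h6 : Real.log ((k : ℝ) / (k - 1)) ≤ k / (k - 1) - 1 :=
          Real.log_le_sub_one_of_pos (by positivity)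
        rw [Real.log_div hk0.ne' hk1.ne'] at h6
        have h7 : (k : ℝ) / (k - 1) - 1 = 1 / (k - 1) := by
          field_simp
          ring
        rw [h7] at h6
        linarith
      have h8 : (k - 1) * (y - 1 / (k - 1)) ≤ (n : ℝ) / k * Real.log (n / k) := by
        apply mul_le_mul h3 (h5.trans h4) _ (by positivity)
        have : 1 / ((k : ℝ) - 1) ≤ 1 := by
          rw [div_le_one hk1]; linarith
        linarith
      have h9 : ((k : ℝ) - 1) * (y - 1 / (k - 1)) = k * y - y - 1 := by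
        have : ((k : ℝ) - 1) * (1 / (k - 1)) = 1 := by
          rw [mul_one_div, div_self hk1.ne']
        rw [mul_sub, this]
        ring
      rw [h9] at h8
      -- `y ≤ k - 1`
      have h10 : y ≤ k - 1 := Real.log_le_sub_one_of_pos hk0
      have h11 : 200 * (k : ℝ) ≤ k * y := by
        rw [mul_comm]
        exact mul_le_mul_of_nonneg_left hl hk0.le
      linarith
  have h3 : (Ex n k : ℝ) < (n.choose 2 : ℝ) - f n k := by
    refine lt_of_lt_of_le ?_ h1
    have e : ((k : ℝ) + 1) * k / 2 + (n - (k + 1)) = (k ^ 2 + k) / 2 + n - k - 1 := by ring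
    rw [e]
    linarith
  have h4 : (f n k : ℝ) + Ex n k < (n.choose 2 : ℝ) := by linarith
  exact_mod_cast h4

/-- **Main theorem** -/
theorem main_final : ∃ C : ℝ, 0 < C ∧ ∀ n k : ℕ, 2 ≤ k → 2 * k + 1 ≤ n →
    C * (Real.log n * Real.log k) ≤ k →
    max ((k + 1) * k / 2 + (n - (k + 1)) + 1 / 100 * (n / k * Real.log (n / k))) (Ex n k : ℝ) ≤
      (n.choose 2 : ℝ) - f n k ∧
    (n.choose 2 : ℝ) - f n k ≤
      max ((k + 1) * k / 2 + (n - (k + 1)) + 6160 * (n / k * Real.log (n / k))) (Ex n k) ∧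
    ((k : ℝ) ^ 2 + 24640 * (k * Real.log k) ≤ n → f n k + Ex n k = n.choose 2) ∧
    ((n : ℝ) ≤ k ^ 2 + 1 / 100 * (k * Real.log k) → f n k + Ex n k < n.choose 2) := by
  obtain ⟨C, hC, h⟩ := main_of_ext ext_holds
  obtain ⟨B, hB⟩ : ∃ B : ℝ, B = Real.exp 200 := ⟨_, rfl⟩
  have hB0 : 0 < B := by rw [hB]; exact Real.exp_pos _
  refine ⟨C + 3 * B + 100, by positivity, ?_⟩
  intro n k hk hn hc
  have hK2 : (2 : ℝ) ≤ k := by exact_mod_cast hk
  have hkn : (k : ℝ) ≤ n := by exact_mod_cast (by omega : k ≤ n)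
  set x := Real.log n with hx
  set y := Real.log k with hy
  have hy1 : 0.69 ≤ y := by
    have h3 : Real.log 2 ≤ Real.log k := Real.log_le_log (by norm_num) hK2
    have h4 := Real.log_two_gt_d9
    linarith
  have hxy : y ≤ x := Real.log_le_log (by linarith) hkn
  have hx1 : 0.69 ≤ x := by linarith
  have hxy0 : 0.69 * 0.69 ≤ x * y := mul_le_mul hx1 hy1 (by norm_num) (by linarith)
  have hxy1 : x * 0.69 ≤ x * y := mul_le_mul_of_nonneg_left hy1 (by linarith)
  have hC' : C * (x * y) + 3 * B * (x * y) + 100 * (x * y) ≤ k := by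
    calc _ = (C + 3 * B + 100) * (x * y) := by ring
      _ ≤ k := hc
  have hCn : 0 ≤ C * (x * y) := by positivity
  have hBn : 0 ≤ 3 * B * (x * y) := by positivity
  have hc1 : C * (x * y) ≤ k := by linarith
  have hBk : B ≤ k := by
    have h1 : 3 * B * (0.69 * 0.69) ≤ 3 * B * (x * y) :=
      mul_le_mul_of_nonneg_left hxy0 (by positivity)
    linarith
  have hk30 : 30 ≤ k := by
    have h1 : (30 : ℝ) ≤ k := by linarith
    exact_mod_cast h1
  have hxk : x ≤ k := by linarith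
  have hl : 200 ≤ y := by
    rw [hy, Real.le_log_iff_exp_le (by linarith), ← hB]
    exact hBk
  obtain ⟨h1, h2, h3⟩ := h n k hk hn hc1
  exact ⟨h1, h2, h3, below hk30 hl hn hxk⟩

end Pool.Agent.Lib.MP_d31508_co.Sharp
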