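import Pool.Agent.Lib.MP_d31508_co.Sharp.Basic

set_option linter.unusedSectionVars false

/-!
# Closed sets between two closed sets: the core lemma and the chain lemma
-/

namespace Pool.Agent.Lib.MP_d31508_co.Sharp

open Finset Classical
open Pool.Agent.Lib.MP_d31508_co.Asy (dg Cl D)

variable {V : Type} [Fintype V] {G : SimpleGraph V}

/-- Enough edges above a closed set `X` give a larger closed set. -/
lemma core {X Y : Finset V} (hX : Cl G X) (hXY : X ⊆ Y)
    (h : D G X + 2 * (Y \ X).card + 2 ≤ D G Y) :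
    ∃ Z, X ⊆ Z ∧ Z ⊆ Y ∧ Z ≠ X ∧ Cl G Z := by
  induction' hn : Y.card using Nat.strong_induction_on with N ih generalizing Y
  by_cases hY : Cl G Y
  · refine ⟨Y, hXY, Subset.rfl, ?_, hY⟩
    rintro rfl
    omega
  · unfold Cl at hY
    push Not at hY
    obtain ⟨v, hv, hdv⟩ := hY
    have hvX : v ∉ X := by
      intro hvX
      have := (hX v hvX).trans (dg_mono hXY v)
      omega
    set Y' := Y.erase v with hY'
    have hXY' : X ⊆ Y' := fun x hx => mem_erase.2 ⟨fun e => hvX (e ▸ hx), hXY hx⟩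
    have hins : insert v Y' = Y := insert_erase hv
    have hvY' : v ∉ Y' := notMem_erase v Y
    have hD : D G Y = D G Y' + 2 * dg G Y' v := by rw [← hins, D_insert hvY']
    have hdv' : dg G Y' v ≤ dg G Y v := dg_mono (erase_subset v Y) v
    have hc : (Y \ X).card = (Y' \ X).card + 1 := by
      rw [← hins, insert_sdiff_of_notMem _ hvX, card_insert_of_notMem]
      simp [hvY']
    obtain ⟨Z, h1, h2, h3, h4⟩ := ih Y'.card (by rw [← hn]; exact card_erase_lt_of_mem hv)
      hXY' (by omega) rfl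
    exact ⟨Z, h1, h2.trans (erase_subset v Y), h3, h4⟩

/-- A minimal closed set above `X`, at least two vertices larger, has few new edges. -/
lemma min_step {X Z : Finset V} (hX : Cl G X) (hZ : Cl G Z) (hXZ : X ⊆ Z)
    (hmin : ∀ Y, X ⊆ Y → Y ⊆ Z → Cl G Y → Y ≠ X → Y = Z)
    (hc : 2 ≤ (Z \ X).card) : D G Z ≤ D G X + 2 * (Z \ X).card + 2 := by
  by_contra hcon
  push Not at hcon
  have hcon2 : D G X + 2 * (Z \ X).card + 4 ≤ D G Z := by
    have h1 := D_even (G := G) X
    have h2 := D_even (G := G) Z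
    obtain ⟨a, ha⟩ := h1
    obtain ⟨b, hb⟩ := h2
    omega
  -- removing a vertex
  have key : ∀ v ∈ Z \ X, X ⊆ Z.erase v ∧ (Z.erase v \ X).card + 1 = (Z \ X).card ∧
      D G Z = D G (Z.erase v) + 2 * dg G Z v := by
    intro v hv
    obtain ⟨hvZ, hvX⟩ := mem_sdiff.1 hv
    have hins : insert v (Z.erase v) = Z := insert_erase hvZ
    have hn : v ∉ Z.erase v := notMem_erase v Z
    refine ⟨fun x hx => mem_erase.2 ⟨fun e => hvX (e ▸ hx), hXZ hx⟩, ?_, ?_⟩
    · have : (Z \ X) = insert v (Z.erase v \ X) := by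
        rw [← insert_sdiff_of_notMem _ hvX, hins]
      rw [this, card_insert_of_notMem]
      simp
    · have h1 : D G Z = D G (Z.erase v) + 2 * dg G (Z.erase v) v := by
        conv_lhs => rw [← hins]
        exact D_insert hn
      have h2 : dg G Z v = dg G (Z.erase v) v := by
        conv_lhs => rw [← hins]
        exact dg_insert_self _ _
      rw [h1, h2]
  by_cases hex : ∃ v ∈ Z \ X, dg G Z v ≤ 2
  · obtain ⟨v, hv, hdv⟩ := hex
    obtain ⟨h1, h2, h3⟩ := key v hv
    obtain ⟨Y, a1, a2, a3, a4⟩ := core hX h1 (by omega)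
    have := hmin Y a1 (a2.trans (erase_subset v Z)) a4 a3
    rw [this] at a2
    exact notMem_erase v Z (a2 (mem_sdiff.1 hv).1)
  · push Not at hex
    obtain ⟨v, hv⟩ : (Z \ X).Nonempty := card_pos.1 (by omega)
    obtain ⟨h1, h2, -⟩ := key v hv
    have hcl : Cl G (Z.erase v) := by
      intro x hx
      have hxZ := (mem_erase.1 hx).2
      by_cases hxX : x ∈ X
      · exact (hX x hxX).trans (dg_mono h1 x)
      · have h3 := hex x (mem_sdiff.2 ⟨hxZ, hxX⟩)
        have hins : insert v (Z.erase v) = Z := insert_erase (mem_sdiff.1 hv).1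
        have h4 : dg G Z x = dg G (Z.erase v) x + if G.Adj x v then 1 else 0 := by
          conv_lhs => rw [← hins]
          exact dg_insert (notMem_erase v Z) x
        split_ifs at h4 <;> omega
    have hne : Z.erase v ≠ X := by
      intro e
      rw [e] at h2
      simp at h2
      omega
    have := hmin _ h1 (erase_subset v Z) hcl hne
    exact notMem_erase v Z (by rw [this]; exact (mem_sdiff.1 hv).1)

/-- If consecutive closed sets between `X` and `Z` differ by at least `s ≥ 2` vertices, then the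
density of `Z` over `X` is at most `(s+1)/s`. -/
lemma chain {X Z : Finset V} {s : ℕ} (hs : 2 ≤ s) (hX : Cl G X) (hZ : Cl G Z) (hXZ : X ⊆ Z)
    (hgap : ∀ Y Y', X ⊆ Y → Y ⊆ Y' → Y' ⊆ Z → Cl G Y → Cl G Y' → Y ≠ Y' → s ≤ (Y' \ Y).card) :
    s * D G Z ≤ s * D G X + 2 * (s + 1) * (Z \ X).card := by
  induction' hn : (Z \ X).card using Nat.strong_induction_on with N ih generalizing X
  by_cases hXZ' : X = Z
  · subst hXZ'
    exact Nat.le_add_right _ _
  -- minimal closed set above X
  obtain ⟨Y, hY, hYmin⟩ : ∃ Y ∈ Z.powerset.filter (fun Y => X ⊆ Y ∧ Cl G Y ∧ Y ≠ X),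
      ∀ Y' ∈ Z.powerset.filter (fun Y => X ⊆ Y ∧ Cl G Y ∧ Y ≠ X), Y.card ≤ Y'.card :=
    exists_min_image _ (fun Y => Y.card)
      ⟨Z, by simp [hXZ, hZ, Ne.symm hXZ']⟩
  simp only [mem_filter, mem_powerset] at hY hYmin
  obtain ⟨hYZ, hXY, hYcl, hYX⟩ := hY
  have hmin : ∀ Y', X ⊆ Y' → Y' ⊆ Y → Cl G Y' → Y' ≠ X → Y' = Y := by
    intro Y' h1 h2 h3 h4
    exact eq_of_subset_of_card_le h2 (hYmin Y' ⟨h2.trans hYZ, h1, h3, h4⟩)
  have hsY : s ≤ (Y \ X).card := hgap X Y Subset.rfl hXY hYZ hX hYcl (Ne.symm hYX)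
  have hstep := min_step hX hYcl hXY hmin (hs.trans hsY)
  have hcard : (Z \ X).card = (Z \ Y).card + (Y \ X).card := by
    rw [card_sdiff_of_subset hXZ, card_sdiff_of_subset hYZ, card_sdiff_of_subset hXY]
    have := card_le_card hXY
    have := card_le_card hYZ
    omega
  have hIH := ih (Z \ Y).card (by omega) hYcl hYZ
    (fun A A' h1 h2 h3 h4 h5 h6 => hgap A A' (hXY.trans h1) h2 h3 h4 h5 h6) rfl
  rw [← hn, hcard]
  have h1 : s * D G Y ≤ s * D G X + 2 * (s + 1) * (Y \ X).card := by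
    calc s * D G Y ≤ s * (D G X + 2 * (Y \ X).card + 2) := Nat.mul_le_mul_left _ hstep
      _ = s * D G X + 2 * s * (Y \ X).card + 2 * s := by ring
      _ ≤ s * D G X + 2 * s * (Y \ X).card + 2 * (Y \ X).card := by omega
      _ = _ := by ring
  calc s * D G Z ≤ s * D G Y + 2 * (s + 1) * (Z \ Y).card := hIH
    _ ≤ s * D G X + 2 * (s + 1) * (Y \ X).card + 2 * (s + 1) * (Z \ Y).card := by omega
    _ = _ := by ring

end Pool.Agent.Lib.MP_d31508_co.Sharp
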