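import Pool.Agent.Lib.MP_d31508_co.Sharp.Absorb

set_option linter.unusedSectionVars false

/-!
# Sets of prescribed size in a near-clique
-/

namespace Pool.Agent.Lib.MP_d31508_co.Sharp

open Finset Classical
open Pool.Agent.Lib.MP_d31508_co.Asy (dg Cl D)

variable {V : Type} [Fintype V] {G : SimpleGraph V}

/-- few non-neighbours -/
lemma nonnb {K : Finset V} {d : ℕ} (hK : ∀ v ∈ K, K.card ≤ dg G K v + d) {v : V} (hv : v ∈ K) :
    (K.filter (fun x => ¬ G.Adj v x)).card ≤ d := by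
  have h1 := hK v hv
  have h2 := card_filter_add_card_filter_not (s := K) (fun x => G.Adj v x)
  unfold dg at h1
  omega

/-- the small sets: paths -/
lemma path_set {K : Finset V} {d : ℕ} (hK : ∀ v ∈ K, K.card ≤ dg G K v + d) :
    ∀ (t : ℕ) (A : Finset V) (w w' : V), w ∈ K → w' ∈ K → w ∉ A → w' ∉ A → w ≠ w' →
      t + A.card + 2 * d + 4 ≤ K.card →
      ∃ T ⊆ K, (∀ x ∈ T, x ∉ A) ∧ w ∈ T ∧ w' ∈ T ∧ T.card = t + 3 ∧
        (∀ x ∈ T, x ≠ w → x ≠ w' → 2 ≤ dg G T x) ∧
        (∃ y ∈ T, y ≠ w' ∧ G.Adj w y) ∧ (∃ y ∈ T, y ≠ w ∧ G.Adj w' y) := by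
  intro t
  induction t with
  | zero =>
    intro A w w' hw hw' hwA hwA' hne hc
    have h1 := nonnb hK hw
    have h2 := nonnb hK hw'
    obtain ⟨x, hx⟩ : (K \ ((K.filter (fun x => ¬ G.Adj w x) ∪ K.filter (fun x => ¬ G.Adj w' x))
        ∪ A)).Nonempty := by
      rw [← card_pos]
      have h3 := le_card_sdiff ((K.filter (fun x => ¬ G.Adj w x) ∪
        K.filter (fun x => ¬ G.Adj w' x)) ∪ A) K
      have h4 := card_union_le (K.filter (fun x => ¬ G.Adj w x) ∪
        K.filter (fun x => ¬ G.Adj w' x)) A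
      have h5 := card_union_le (K.filter (fun x => ¬ G.Adj w x)) (K.filter (fun x => ¬ G.Adj w' x))
      omega
    obtain ⟨hxK, hx2⟩ := mem_sdiff.1 hx
    simp only [mem_union, mem_filter, not_or, not_and, not_not] at hx2
    obtain ⟨⟨a1, a2⟩, a3⟩ := hx2
    have a1 := a1 hxK
    have a2 := a2 hxK
    refine ⟨{w, x, w'}, ?_, ?_, by simp, by simp, ?_, ?_, ⟨x, by simp, a2.ne', a1⟩,
      ⟨x, by simp, a1.ne', a2⟩⟩
    · intro y hy
      simp only [mem_insert, mem_singleton] at hy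
      rcases hy with rfl | rfl | rfl <;> assumption
    · intro y hy
      simp only [mem_insert, mem_singleton] at hy
      rcases hy with rfl | rfl | rfl <;> assumption
    · rw [card_insert_of_notMem, card_insert_of_notMem, card_singleton]
      · simp [a2.ne']
      · simp [a1.ne, hne]
    · intro y hy h6 h7
      simp only [mem_insert, mem_singleton] at hy
      rcases hy with rfl | rfl | rfl
      · exact absurd rfl h6
      · exact two_le_dg (y := w) (z := w') (by simp) (by simp) hne a1.symm a2.symm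
      · exact absurd rfl h7
  | succ t ih =>
    intro A w w' hw hw' hwA hwA' hne hc
    have h1 := nonnb hK hw
    obtain ⟨x, hx⟩ : (K \ (K.filter (fun x => ¬ G.Adj w x) ∪ insert w' A)).Nonempty := by
      rw [← card_pos]
      have h3 := le_card_sdiff (K.filter (fun x => ¬ G.Adj w x) ∪ insert w' A) K
      have h4 := card_union_le (K.filter (fun x => ¬ G.Adj w x)) (insert w' A)
      have h5 := card_insert_le w' A
      omega
    obtain ⟨hxK, hx2⟩ := mem_sdiff.1 hx
    simp only [mem_union, mem_filter, mem_insert, not_or, not_and, not_not] at hx2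
    obtain ⟨a1, a2, a3⟩ := hx2
    have a1 := a1 hxK
    have hxA : x ∉ insert w A := by
      simp only [mem_insert, not_or]
      exact ⟨a1.ne', a3⟩
    have hwA2 : w' ∉ insert w A := by
      simp only [mem_insert, not_or]
      exact ⟨hne.symm, hwA'⟩
    have hcard := card_insert_le w A
    obtain ⟨T, t1, t2, t3, t4, t5, t6, ⟨y, hy1, hy2, hy3⟩, ⟨z, hz1, hz2, hz3⟩⟩ :=
      ih (insert w A) x w' hxK hw' hxA hwA2 a2 (by omega)
    have hwT : w ∉ T := fun h => t2 w h (mem_insert_self _ _)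
    refine ⟨insert w T, insert_subset hw t1, ?_, mem_insert_self _ _, mem_insert_of_mem t4, ?_, ?_,
      ⟨x, mem_insert_of_mem t3, a2, a1⟩,
      ⟨z, mem_insert_of_mem hz1, fun h => hwT (h ▸ hz1), hz3⟩⟩
    · intro u hu
      rcases mem_insert.1 hu with rfl | hu
      · exact hwA
      · exact fun h => t2 u hu (mem_insert_of_mem h)
    · rw [card_insert_of_notMem hwT, t5]
    · intro u hu h6 h7
      have hu : u ∈ T := (mem_insert.1 hu).resolve_left h6
      by_cases hux : u = x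
      · subst hux
        exact two_le_dg (y := w) (z := y) (mem_insert_self _ _) (mem_insert_of_mem hy1)
          (fun h => hwT (h ▸ hy1)) a1.symm hy3
      · exact (t6 u hu hux h7).trans (dg_mono (subset_insert _ _) u)

/-- sets of all sizes through two vertices of a near-clique -/
lemma tpath {K : Finset V} {d t : ℕ} (hK : ∀ v ∈ K, K.card ≤ dg G K v + d) {w w' : V}
    (hw : w ∈ K) (hw' : w' ∈ K) (hne : w ≠ w') (hd : 3 * d + 4 ≤ K.card) (ht3 : 3 ≤ t)
    (ht : t ≤ K.card) :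
    ∃ T ⊆ K, w ∈ T ∧ w' ∈ T ∧ T.card = t ∧ (∀ x ∈ T, x ≠ w → x ≠ w' → 2 ≤ dg G T x) ∧
        (∃ y ∈ T, y ≠ w' ∧ G.Adj w y) ∧ (∃ y ∈ T, y ≠ w ∧ G.Adj w' y) := by
  rcases le_or_gt t (d + 3) with h | h
  · obtain ⟨T, t1, -, t3, t4, t5, t6, t7, t8⟩ := path_set hK (t - 3) ∅ w w' hw hw' (by simp)
      (by simp) hne (by simp; omega)
    exact ⟨T, t1, t3, t4, by omega, t6, t7, t8⟩
  · obtain ⟨T, h1, h2, h3⟩ := exists_subsuperset_card_eq (s := ({w, w'} : Finset V)) (t := K)
      (n := t) (insert_subset hw (singleton_subset_iff.2 hw'))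
      (by have := card_le_two (a := w) (b := w'); omega) ht
    have hwT : w ∈ T := h1 (by simp)
    have hwT' : w' ∈ T := h1 (by simp)
    have key : ∀ x ∈ T, 2 ≤ dg G T x := by
      intro x hx
      have e1 := hK x (h2 hx)
      have e2 : dg G K x ≤ dg G T x + (K \ T).card := by
        have := dg_union_le (G := G) T (K \ T) x
        rw [union_sdiff_of_subset h2] at this
        exact this.trans (Nat.add_le_add_left (dg_le_card _ x) _)
      have e3 := card_sdiff_add_card_eq_card h2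
      omega
    refine ⟨T, h2, hwT, hwT', h3, fun x hx _ _ => key x hx, ?_, ?_⟩
    · obtain ⟨y, hy, z, hz, hyz, a1, a2⟩ := two_le_dg_iff.1 (key w hwT)
      by_cases hyw : y = w'
      · exact ⟨z, hz, fun h => hyz (hyw.trans h.symm), a2⟩
      · exact ⟨y, hy, hyw, a1⟩
    · obtain ⟨y, hy, z, hz, hyz, a1, a2⟩ := two_le_dg_iff.1 (key w' hwT')
      by_cases hyw : y = w
      · exact ⟨z, hz, fun h => hyz (hyw.trans h.symm), a2⟩
      · exact ⟨y, hy, hyw, a1⟩

/-- closed sets of all sizes through a vertex of a near-clique -/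
lemma tclosed {K : Finset V} {d t : ℕ} (hK : ∀ v ∈ K, K.card ≤ dg G K v + d) {w : V}
    (hw : w ∈ K) (hd : 3 * d + 4 ≤ K.card) (ht3 : 3 ≤ t) (ht : t ≤ K.card) :
    ∃ T ⊆ K, w ∈ T ∧ T.card = t ∧ Cl G T := by
  have h1 := hK w hw
  obtain ⟨w', hw', hadj⟩ := one_le_dg_iff.1 (show 1 ≤ dg G K w by omega)
  obtain ⟨T, t1, t2, t3, t4, t5, ⟨y, hy1, hy2, hy3⟩, ⟨z, hz1, hz2, hz3⟩⟩ :=
    tpath hK hw hw' hadj.ne hd ht3 ht
  refine ⟨T, t1, t2, t4, ?_⟩
  intro x hx
  by_cases h2 : x = w
  · subst h2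
    exact two_le_dg hy1 t3 hy2 hy3 hadj
  · by_cases h3 : x = w'
    · subst h3
      exact two_le_dg hz1 t2 hz2 hz3 hadj.symm
    · exact t5 x hx h2 h3

end Pool.Agent.Lib.MP_d31508_co.Sharp
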