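import Pool.Agent.Lib.MP_d31508_co.Sharp.GirthG
import Pool.Agent.Lib.MP_d31508_co.Sharp.NearK

set_option linter.unusedSectionVars false

/-!
# Contraction of a near-clique
-/

namespace Pool.Agent.Lib.MP_d31508_co.Sharp

open Finset Classical
open Pool.Agent.Lib.MP_d31508_co.Asy (dg Cl D)

variable {V : Type} [Fintype V] {G : SimpleGraph V}

/-- delete the edges inside `C` and contract `K` -/
def Ctr (G : SimpleGraph V) (C K : Finset V) : SimpleGraph (Option {v : V // v ∉ K}) where
  Adj a b := match a, b with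
    | none, none => False
    | none, some x => x.1 ∉ C ∧ ∃ w ∈ K, G.Adj x.1 w
    | some x, none => x.1 ∉ C ∧ ∃ w ∈ K, G.Adj x.1 w
    | some x, some y => G.Adj x.1 y.1 ∧ ¬ (x.1 ∈ C ∧ y.1 ∈ C)
  symm := ⟨by
    intro a b h
    rcases a with _ | x <;> rcases b with _ | y
    · exact h
    · exact h
    · exact h
    · exact ⟨h.1.symm, fun h2 => h.2 ⟨h2.2, h2.1⟩⟩⟩
  loopless := ⟨by
    intro a h
    rcases a with _ | x
    · exact h
    · exact G.loopless.irrefl x.1 h.1⟩

/-- the edges are preserved -/
lemma ctr_D {C K : Finset V} (hKC : K ⊆ C) (h1 : ∀ v, v ∉ C → dg G C v ≤ 1) :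
    D G univ ≤ D G C + D (Ctr G C K) univ := by
  set F := Ctr G C K with hF
  -- the graph without the edges inside `C`
  let G' : SimpleGraph V :=
    { Adj := fun x y => G.Adj x y ∧ ¬ (x ∈ C ∧ y ∈ C)
      symm := ⟨fun x y h => ⟨h.1.symm, fun h2 => h.2 ⟨h2.2, h2.1⟩⟩⟩
      loopless := ⟨fun x h => G.loopless.irrefl x h.1⟩ }
  set L : Finset (Option {v : V // v ∉ K}) := {none} with hL
  set T : Finset (Option {v : V // v ∉ K}) := univ.map Function.Embedding.some with hT
  have hLT : Disjoint L T := by
    rw [hL, disjoint_singleton_left]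
    simp [hT]
  have hun : ∀ a : Option {v : V // v ∉ K}, a ∈ L ∨ a ∈ T := by
    intro a
    rcases a with _ | x
    · left; simp [hL]
    · right; simp [hT]
  have e1 := D_split (G := F) hLT hun
  have e2 : D F L = 0 := D_singleton _
  let G0 : SimpleGraph {v : V // v ∉ K} := G'.comap (Function.Embedding.subtype _)
  have e3 : D F T = D G0 univ := D_map (G := F) (G0 := G0) _ (fun x y => Iff.rfl) univ
  have e4 : D G' ((univ : Finset {v : V // v ∉ K}).map (Function.Embedding.subtype _)) =
    D G0 univ := D_map (G := G') (G0 := G0) _ (fun x y => Iff.rfl) univ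
  have e5 : (univ : Finset {v : V // v ∉ K}).map (Function.Embedding.subtype _) =
      (C \ K) ∪ (univ \ C) := by
    ext v
    simp only [mem_map, mem_univ, true_and, Function.Embedding.subtype_apply, Subtype.exists,
      exists_prop, exists_eq_right, mem_union, mem_sdiff]
    constructor
    · intro h
      by_cases hC : v ∈ C
      · exact Or.inl ⟨hC, h⟩
      · exact Or.inr hC
    · rintro (h | h)
      · exact h.2
      · exact fun h2 => h (hKC h2)
  have hdis : Disjoint (C \ K) (univ \ C) := by
    rw [disjoint_left]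
    intro v hv hv2
    exact (mem_sdiff.1 hv2).2 (mem_sdiff.1 hv).1
  have e6 := D_union (G := G') hdis
  have e7 : ∀ x ∉ C, ∀ X : Finset V, dg G' X x = dg G X x := by
    intro x hx X
    unfold dg
    congr 1
    ext y
    simp only [mem_filter]
    constructor
    · exact fun h => ⟨h.1, h.2.1⟩
    · exact fun h => ⟨h.1, h.2, fun h2 => hx h2.1⟩
  have e8 : D G' (univ \ C) = D G (univ \ C) := by
    unfold D
    exact sum_congr rfl (fun x hx => e7 x (mem_sdiff.1 hx).2 _)
  have e9 : ∑ x ∈ univ \ C, dg G' (C \ K) x = ∑ x ∈ univ \ C, dg G (C \ K) x :=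
    sum_congr rfl (fun x hx => e7 x (mem_sdiff.1 hx).2 _)
  obtain ⟨g0, hg0⟩ : ∃ g0 : V → ℕ, ∀ x, (x ∈ C → g0 x = 0) ∧ (x ∉ C → g0 x = dg G K x) :=
    ⟨fun x => if x ∈ C then 0 else dg G K x, fun x => ⟨fun h => if_pos h, fun h => if_neg h⟩⟩
  have e10 : ∑ x ∈ univ \ C, dg G K x ≤ ∑ y ∈ T, dg F L y := by
    rw [hT, sum_map]
    have e11 : ∑ x ∈ univ \ C, dg G K x ≤
        ∑ x ∈ (univ : Finset {v : V // v ∉ K}).map (Function.Embedding.subtype _), g0 x := by
      rw [e5, sum_union hdis]
      refine le_trans ?_ (Nat.le_add_left _ _)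
      apply sum_le_sum
      intro x hx
      rw [(hg0 x).2 (mem_sdiff.1 hx).2]
    refine e11.trans ?_
    rw [sum_map]
    apply sum_le_sum
    intro x _
    change g0 x.1 ≤ dg F L (some x)
    by_cases hx : x.1 ∈ C
    · rw [(hg0 x.1).1 hx]
      exact Nat.zero_le _
    · rw [(hg0 x.1).2 hx]
      have h2 := h1 x.1 hx
      have h3 : dg G K x.1 ≤ 1 := (dg_mono hKC _).trans h2
      rcases Nat.eq_zero_or_pos (dg G K x.1) with h4 | h4
      · omega
      · obtain ⟨w, hw, hadj⟩ := one_le_dg_iff.1 h4
        have h5 : 1 ≤ dg F L (some x) :=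
          one_le_dg (y := none) (by simp [hL]) (show F.Adj (some x) none from ⟨hx, w, hw, hadj⟩)
        omega
  have e12 : D G univ = D G C + D G (univ \ C) + 2 * ∑ x ∈ univ \ C, dg G C x := by
    have h := D_union (G := G) (A := C) (N := univ \ C) disjoint_sdiff
    rwa [union_sdiff_of_subset (subset_univ C)] at h
  have e13 : ∑ x ∈ univ \ C, dg G C x =
      ∑ x ∈ univ \ C, dg G (C \ K) x + ∑ x ∈ univ \ C, dg G K x := by
    rw [← sum_add_distrib]
    apply sum_congr rfl
    intro x _
    have h := dg_union_disj (G := G) (X := C \ K) (Y := K) sdiff_disjoint x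
    rwa [sdiff_union_of_subset hKC] at h
  rw [e12, e13, e1, e2, e3, ← e4, e5, e6, e8, e9]
  omega

lemma ctr_card {K : Finset V} : Fintype.card (Option {v : V // v ∉ K}) =
    Fintype.card V - K.card + 1 := by
  rw [Fintype.card_option, Fintype.card_subtype_compl, Fintype.card_coe]

/-- the contracted graph has large girth -/
theorem ctr_girth {C K : Finset V} {m d s : ℕ} (hG : ∀ S : Finset V, S.card = m → ¬ Cl G S)
    (hC : Cl G C) (hKC : K ⊆ C) (hK : ∀ v ∈ K, K.card ≤ dg G K v + d)
    (hs : (C \ K).card ≤ s) (hout : ∀ C' : Finset V, C ⊆ C' → C ≠ C' → Cl G C' → m < C'.card)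
    (hCm : C.card ≤ m - 1) (n1 : 3 * d + 6 ≤ K.card) (n2 : 2 * s + 3 * m ≤ 4 * K.card)
    (n3 : d + m + 2 ≤ 2 * K.card) :
    ∀ Y : Finset (Option {v : V // v ∉ K}), Y.Nonempty → Cl (Ctr G C K) Y → m - 2 ≤ Y.card := by
  rw [← girth_iff, SimpleGraph.le_egirth]
  intro a₀ p hp
  have goal : m - 2 ≤ p.length := by
    by_contra hcon
    push Not at hcon
    obtain ⟨S0, R, hcard, hsymm, hR, hnb⟩ := cycle_data hp
    have hc3 := hp.three_le_length
    set c := p.length with hc
    -- the vertices of the cycle outside the core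
    set S : Finset V := ((univ.filter (fun x : {v : V // v ∉ K} => some x ∈ S0))).map
      (Function.Embedding.subtype _) with hS
    have hSmem : ∀ v, v ∈ S ↔ ∃ h : v ∉ K, some ⟨v, h⟩ ∈ S0 := by
      intro v
      rw [hS, mem_map]
      constructor
      · rintro ⟨x, hx, rfl⟩
        exact ⟨x.2, (mem_filter.1 hx).2⟩
      · rintro ⟨h, hv⟩
        exact ⟨⟨v, h⟩, by simp [hv], rfl⟩
    have hScard : S.card = (S0.erase none).card := by
      rw [hS, card_map, ← card_map (Function.Embedding.some : {v : V // v ∉ K} ↪ _)]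
      congr 1
      ext u
      simp only [mem_map, mem_filter, mem_univ, true_and, Function.Embedding.some_apply, mem_erase]
      constructor
      · rintro ⟨x, hx, rfl⟩
        exact ⟨by simp, hx⟩
      · rintro ⟨h1, h2⟩
        rcases u with _ | x
        · exact absurd rfl h1
        · exact ⟨x, h2, rfl⟩
    have hSK : ∀ v ∈ S, v ∉ K := fun v hv => ((hSmem v).1 hv).1
    have hSK' : ∀ T : Finset V, T ⊆ K → Disjoint S T := by
      intro T hT
      rw [disjoint_left]
      exact fun v hv h => hSK v hv (hT h)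
    -- a vertex of the cycle outside `C`
    -- the conclusion from a closed union with `C`
    have small : S.card ≤ c → Cl G (C ∪ S) → (∃ v ∈ S, v ∉ C) → c + K.card ≤ m → False := by
      intro hSc hcl ⟨v, hv, hvC⟩ hcK
      have h1 := hout (C ∪ S) subset_union_left
        (fun h => hvC (h ▸ mem_union_right C hv)) hcl
      have h2 := card_union_le C S
      obtain ⟨t, ht⟩ : ∃ t, (C ∪ S).card = m + t := ⟨(C ∪ S).card - m, by omega⟩
      have h3 : ((C ∪ S) \ K).card ≤ s + S.card := by
        calc ((C ∪ S) \ K).card ≤ ((C \ K) ∪ S).card := by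
              apply card_le_card
              intro u hu
              obtain ⟨a1, a2⟩ := mem_sdiff.1 hu
              rcases mem_union.1 a1 with a3 | a3
              · exact mem_union_left _ (mem_sdiff.2 ⟨a3, a2⟩)
              · exact mem_union_right _ a3
          _ ≤ (C \ K).card + S.card := card_union_le _ _
          _ ≤ _ := Nat.add_le_add_right hs _
      obtain ⟨Z, -, z1, z2⟩ := absorb (m := m) (t := t) (d := d) hcl
        (hKC.trans subset_union_left) ht hK (by omega) (by omega)
      exact hG Z z2 z1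
    by_cases hnone : (none : Option {v : V // v ∉ K}) ∈ S0
    · -- the cycle passes through the contracted vertex
      have hSc : S.card + 1 = c := by
        rw [hScard, ← hcard]
        exact card_erase_add_one hnone
      obtain ⟨y0, z0, hyz, hy0, hz0, hall⟩ := hnb none hnone
      -- the two neighbours
      have hout2 : ∀ y, R none y → ∃ v w, ∃ h : v ∉ K, y = some ⟨v, h⟩ ∧ v ∈ S ∧ v ∉ C ∧ w ∈ K ∧
          G.Adj v w := by
        intro y hy
        obtain ⟨h1, -, h2⟩ := hR _ _ hy
        rcases y with _ | x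
        · exact absurd h1 (fun h => h)
        · obtain ⟨h3, w, hw, h4⟩ := h1
          exact ⟨x.1, w, x.2, rfl, (hSmem _).2 ⟨x.2, h2⟩, h3, hw, h4⟩
      obtain ⟨a, wa, ha, rfl, haS, haC, hwa, haw⟩ := hout2 y0 hy0
      obtain ⟨b, wb, hb, rfl, hbS, hbC, hwb, hbw⟩ := hout2 z0 hz0
      have hab : a ≠ b := by
        rintro rfl
        exact hyz rfl
      -- degrees of the vertices of the cycle
      have hdeg : ∀ X : Finset V, wa ∈ X → wb ∈ X → ∀ v ∈ S, 2 ≤ dg G (X ∪ S) v := by
        intro X hXa hXb v hv
        obtain ⟨hvK, hv0⟩ := (hSmem v).1 hv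
        obtain ⟨y, z, hyz', hy, hz, -⟩ := hnb _ hv0
        -- a neighbour along the cycle is in `S` or none
        have hstep : ∀ u, R (some ⟨v, hvK⟩) (some u) → u.1 ∈ X ∪ S ∧ G.Adj v u.1 ∧ u.1 ∉ K := by
          intro u hu
          obtain ⟨h1, -, h2⟩ := hR _ _ hu
          exact ⟨mem_union_right _ ((hSmem _).2 ⟨u.2, h2⟩), h1.1, u.2⟩
        have hnstep : R (some ⟨v, hvK⟩) none → ∃ w ∈ K, w ∈ X ∧ G.Adj v w := by
          intro h
          rcases hall _ (hsymm _ _ h) with h1 | h1
          · have : v = a := congrArg Subtype.val (Option.some.inj h1)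
            subst this
            exact ⟨wa, hwa, hXa, haw⟩
          · have : v = b := congrArg Subtype.val (Option.some.inj h1)
            subst this
            exact ⟨wb, hwb, hXb, hbw⟩
        rcases y with _ | y <;> rcases z with _ | z
        · exact absurd rfl hyz'
        · obtain ⟨w, hw, hwX, hadj⟩ := hnstep hy
          obtain ⟨h1, h2, h3⟩ := hstep z hz
          exact two_le_dg (mem_union_left _ hwX) h1 (fun h => h3 (h ▸ hw)) hadj h2
        · obtain ⟨w, hw, hwX, hadj⟩ := hnstep hz
          obtain ⟨h1, h2, h3⟩ := hstep y hy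
          exact two_le_dg (mem_union_left _ hwX) h1 (fun h => h3 (h ▸ hw)) hadj h2
        · obtain ⟨h1, h2, -⟩ := hstep y hy
          obtain ⟨h3, h4, -⟩ := hstep z hz
          refine two_le_dg h1 h3 ?_ h2 h4
          intro h
          exact hyz' (congrArg some (Subtype.ext h))
      rcases le_or_gt (c + K.card) m with hcase | hcase
      · refine small (by omega) ?_ ⟨a, haS, haC⟩ hcase
        intro v hv
        rcases mem_union.1 hv with h | h
        · exact (hC v h).trans (dg_mono subset_union_left v)
        · exact hdeg C (hKC hwa) (hKC hwb) v h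
      · -- a set `T` inside `K`
        have hT : ∃ T ⊆ K, wa ∈ T ∧ wb ∈ T ∧ T.card = m - (c - 1) ∧
            ∀ v ∈ T, 2 ≤ dg G (T ∪ S) v := by
          by_cases hw : wa = wb
          · obtain ⟨T, t1, t2, t3, t4⟩ := tclosed (t := m - (c - 1)) hK hwa (by omega) (by omega)
              (by omega)
            exact ⟨T, t1, t2, hw ▸ t2, t3, fun v hv => (t4 v hv).trans (dg_mono subset_union_left v)⟩
          · obtain ⟨T, t1, t2, t3, t4, t5, ⟨y, hy1, hy2, hy3⟩, ⟨z, hz1, hz2, hz3⟩⟩ :=
              tpath (t := m - (c - 1)) hK hwa hwb hw (by omega) (by omega) (by omega)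
            refine ⟨T, t1, t2, t3, t4, ?_⟩
            intro v hv
            by_cases h2 : v = wa
            · subst h2
              exact two_le_dg (mem_union_left _ hy1) (mem_union_right _ haS)
                (fun h => hSK a haS (t1 (h ▸ hy1))) hy3 haw.symm
            · by_cases h3 : v = wb
              · subst h3
                exact two_le_dg (mem_union_left _ hz1) (mem_union_right _ hbS)
                  (fun h => hSK b hbS (t1 (h ▸ hz1))) hz3 hbw.symm
              · exact (t5 v hv h2 h3).trans (dg_mono subset_union_left v)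
        obtain ⟨T, t1, t2, t3, t4, t5⟩ := hT
        apply hG (T ∪ S)
        · rw [card_union_of_disjoint (hSK' T t1).symm, t4]
          omega
        · intro v hv
          rcases mem_union.1 hv with h | h
          · exact t5 v h
          · exact hdeg T t2 t3 v h
    · -- the cycle avoids the contracted vertex
      have hSc : S.card = c := by
        rw [hScard, ← hcard, erase_eq_of_notMem hnone]
      have hScl : Cl G S := by
        intro v hv
        obtain ⟨hvK, hv0⟩ := (hSmem v).1 hv
        obtain ⟨y, z, hyz', hy, hz, -⟩ := hnb _ hv0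
        obtain ⟨a1, -, a2⟩ := hR _ _ hy
        obtain ⟨b1, -, b2⟩ := hR _ _ hz
        rcases y with _ | y
        · exact absurd a2 hnone
        rcases z with _ | z
        · exact absurd b2 hnone
        refine two_le_dg ((hSmem _).2 ⟨y.2, a2⟩) ((hSmem _).2 ⟨z.2, b2⟩) ?_ a1.1 b1.1
        intro h
        exact hyz' (congrArg some (Subtype.ext h))
      rcases le_or_gt (c + K.card) m with hcase | hcase
      · refine small (by omega) (Cl_union hC hScl) ?_ hcase
        obtain ⟨v, hv⟩ : S.Nonempty := by rw [← card_pos]; omega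
        obtain ⟨hvK, hv0⟩ := (hSmem v).1 hv
        obtain ⟨y, z, -, hy, -, -⟩ := hnb _ hv0
        obtain ⟨a1, -, a2⟩ := hR _ _ hy
        rcases y with _ | y
        · exact absurd a2 hnone
        by_cases hvC : v ∈ C
        · exact ⟨y.1, (hSmem _).2 ⟨y.2, a2⟩, fun h => a1.2 ⟨hvC, h⟩⟩
        · exact ⟨v, hv, hvC⟩
      · obtain ⟨w, hw⟩ : K.Nonempty := by rw [← card_pos]; omega
        obtain ⟨T, t1, -, t3, t4⟩ := tclosed (t := m - c) hK hw (by omega) (by omega) (by omega)
        apply hG (S ∪ T)
        · rw [card_union_of_disjoint (hSK' T t1), t3, hSc]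
          omega
        · exact Cl_union hScl t4
  exact_mod_cast goal

end Pool.Agent.Lib.MP_d31508_co.Sharp
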