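import Pool.Agent.Lib.MP_d31508_co.Sharp.Cover

set_option linter.unusedSectionVars false

/-!
# The cover lemma with a better radius
-/

namespace Pool.Agent.Lib.MP_d31508_co.Sharp

open Finset Classical
open Pool.Agent.Lib.MP_d31508_co.Asy (dg Cl D)

section Ball

variable {V : Type} [Fintype V] {G : SimpleGraph V} {X R : Finset V} {v u : V}

/-- Growth of balls: if no small set `E ∋ u` avoiding `v` hangs on `insert v X` then the balls
around `u` grow by a factor `(q+1)/q`. -/
lemma ball_growth {q r : ℕ} (hker : Ker G (q + 1) q X R) (hXR : Disjoint X R)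
    (hv : v ∈ R) (hu : u ∈ R) (huv : G.Adj u v)
    (hcon : ∀ E ⊆ R.erase v, u ∈ E → E.card ≤ 2 * r + 1 → ¬ Hang G (insert v X) E) :
    ∀ i < r, (q + 1) * (ball G R v u i).card ≤ q * (ball G R v u (i + 1)).card := by
  have hu' : u ∈ R.erase v := mem_erase.2 ⟨huv.ne, hu⟩
  have hvX : v ∉ X := fun h => disjoint_left.1 hXR h hv
  set b := ball G R v u with hb
  have hbR : ∀ i, b i ⊆ R.erase v := ball_sub hu'
  have hps : ∀ i, ∀ w ∈ b i, ∃ E p, PS G X v u w (b i) E p ∧ E.card ≤ i + 1 ∧
    ((w = u ∧ p = v) ∨ p ∈ E) := ps_exists huv hu'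
  -- (1) no other neighbour in the root
  have c1 : ∀ i < r, ∀ w ∈ b i, ∀ x ∈ insert v X, G.Adj w x → w = u ∧ x = v := by
    intro i hi w hw x hx hwx
    by_contra hne
    obtain ⟨E, p, hE, hc, hp⟩ := hps i w hw
    have hER : E ⊆ R.erase v := hE.sub.trans (hbR i)
    have hpx : p ≠ x := by
      rintro rfl
      rcases hp with hp | hp
      · exact hne hp
      · have := hER hp
        rcases mem_insert.1 hx with h' | h'
        · exact (mem_erase.1 this).1 h'
        · exact disjoint_left.1 hXR h' (mem_erase.1 this).2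
    refine hcon E hER hE.mu (by omega) ?_
    intro y hy
    by_cases hyw : y = w
    · subst hyw
      exact two_le_dg (y := p) (z := x) hE.mem (mem_union_left _ hx) hpx hE.adj hwx
    · exact hE.sup y hy hyw
  -- (2) a new vertex has only one neighbour in the ball
  have c2 : ∀ i < r, ∀ w ∈ R.erase v, w ∉ b i → ∀ a ∈ b i, ∀ a' ∈ b i, G.Adj w a →
      G.Adj w a' → a = a' := by
    intro i hi w hw hwb a ha a' ha' h1 h2
    by_contra hne
    obtain ⟨E, p, hE, hc, -⟩ := hps i a ha
    obtain ⟨E', p', hE', hc', -⟩ := hps i a' ha'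
    have hER : E ⊆ R.erase v := hE.sub.trans (hbR i)
    have hER' : E' ⊆ R.erase v := hE'.sub.trans (hbR i)
    have hpw : ∀ {E p a}, PS G X v u a (b i) E p → p ≠ w := by
      rintro E p a h rfl
      rcases mem_insert.1 h.mp with h' | h'
      · exact (mem_erase.1 hw).1 h'
      · exact hwb (h.sub h')
    refine hcon (insert w (E ∪ E')) ?_ (mem_insert_of_mem (mem_union_left _ hE.mu)) ?_ ?_
    · intro x hx
      rcases mem_insert.1 hx with rfl | hx
      · exact hw
      · exact union_subset hER hER' hx
    · calc (insert w (E ∪ E')).card ≤ (E ∪ E').card + 1 := card_insert_le _ _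
        _ ≤ E.card + E'.card + 1 := by have := card_union_le E E'; omega
        _ ≤ 2 * r + 1 := by omega
    · have s1 : insert v X ∪ E ⊆ insert v X ∪ insert w (E ∪ E') :=
        union_subset_union_right (subset_union_left.trans (subset_insert _ _))
      have s2 : insert v X ∪ E' ⊆ insert v X ∪ insert w (E ∪ E') :=
        union_subset_union_right (subset_union_right.trans (subset_insert _ _))
      have hwm : w ∈ insert v X ∪ insert w (E ∪ E') := mem_union_right _ (mem_insert_self _ _)
      intro y hy
      rcases mem_insert.1 hy with rfl | hy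
      · exact two_le_dg (y := a) (z := a') (s1 (mem_union_right _ hE.mw))
          (s2 (mem_union_right _ hE'.mw)) hne h1 h2
      · rcases mem_union.1 hy with hy | hy
        · by_cases hya : y = a
          · subst hya
            exact two_le_dg (s1 hE.mem) hwm (hpw hE) hE.adj h1.symm
          · exact (hE.sup y hy hya).trans (dg_mono s1 y)
        · by_cases hya : y = a'
          · subst hya
            exact two_le_dg (s2 hE'.mem) hwm (hpw hE') hE'.adj h2.symm
          · exact (hE'.sup y hy hya).trans (dg_mono s2 y)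
  have hnew : ∀ i, ∀ w ∈ b (i + 1), w ∉ b i → w ∈ R.erase v ∧ ∃ a ∈ b i, G.Adj w a := by
    intro i w hw hwb
    rw [hb, ball, mem_union] at hw
    rcases hw with h | h
    · exact absurd h hwb
    · exact mem_filter.1 h
  -- (3) new vertices are pairwise non-adjacent
  have c3 : ∀ i, i + 1 < r → ∀ w ∈ b (i + 1), w ∉ b i → ∀ w' ∈ b (i + 1), w' ∉ b i →
      ¬ G.Adj w w' := by
    intro i hi w hw hwb w' hw' hwb' hadj
    obtain ⟨hwR, a, ha, hwa⟩ := hnew i w hw hwb
    obtain ⟨hwR', a', ha', hwa'⟩ := hnew i w' hw' hwb'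
    obtain ⟨E, p, hE, hc, -⟩ := hps i a ha
    obtain ⟨E', p', hE', hc', -⟩ := hps i a' ha'
    have hER : E ⊆ R.erase v := hE.sub.trans (hbR i)
    have hER' : E' ⊆ R.erase v := hE'.sub.trans (hbR i)
    have hpw : ∀ {E p a w}, PS G X v u a (b i) E p → w ∈ R.erase v → w ∉ b i → p ≠ w := by
      rintro E p a w h hw hwb rfl
      rcases mem_insert.1 h.mp with h' | h'
      · exact (mem_erase.1 hw).1 h'
      · exact hwb (h.sub h')
    refine hcon (insert w (insert w' (E ∪ E'))) ?_
      (mem_insert_of_mem (mem_insert_of_mem (mem_union_left _ hE.mu))) ?_ ?_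
    · intro x hx
      rcases mem_insert.1 hx with rfl | hx
      · exact hwR
      rcases mem_insert.1 hx with rfl | hx
      · exact hwR'
      · exact union_subset hER hER' hx
    · calc (insert w (insert w' (E ∪ E'))).card ≤ (insert w' (E ∪ E')).card + 1 :=
            card_insert_le _ _
        _ ≤ (E ∪ E').card + 1 + 1 := by have := card_insert_le w' (E ∪ E'); omega
        _ ≤ E.card + E'.card + 2 := by have := card_union_le E E'; omega
        _ ≤ 2 * r + 1 := by omega
    · have s1 : insert v X ∪ E ⊆ insert v X ∪ insert w (insert w' (E ∪ E')) :=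
        union_subset_union_right (subset_union_left.trans ((subset_insert _ _).trans
          (subset_insert _ _)))
      have s2 : insert v X ∪ E' ⊆ insert v X ∪ insert w (insert w' (E ∪ E')) :=
        union_subset_union_right (subset_union_right.trans ((subset_insert _ _).trans
          (subset_insert _ _)))
      have hwm : w ∈ insert v X ∪ insert w (insert w' (E ∪ E')) :=
        mem_union_right _ (mem_insert_self _ _)
      have hwm' : w' ∈ insert v X ∪ insert w (insert w' (E ∪ E')) :=
        mem_union_right _ (mem_insert_of_mem (mem_insert_self _ _))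
      intro y hy
      rcases mem_insert.1 hy with rfl | hy
      · exact two_le_dg (y := a) (z := w') (s1 (mem_union_right _ hE.mw)) hwm'
          (fun e => hwb' (e ▸ ha)) hwa hadj
      rcases mem_insert.1 hy with rfl | hy
      · exact two_le_dg (y := a') (z := w) (s2 (mem_union_right _ hE'.mw)) hwm
          (fun e => hwb (e ▸ ha')) hwa' hadj.symm
      rcases mem_union.1 hy with hy | hy
      · by_cases hya : y = a
        · subst hya
          exact two_le_dg (s1 hE.mem) hwm (hpw hE hwR hwb) hE.adj hwa.symm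
        · exact (hE.sup y hy hya).trans (dg_mono s1 y)
      · by_cases hya : y = a'
        · subst hya
          exact two_le_dg (s2 hE'.mem) hwm' (hpw hE' hwR' hwb') hE'.adj hwa'.symm
        · exact (hE'.sup y hy hya).trans (dg_mono s2 y)
  have dg_le_one : ∀ i < r, ∀ w ∈ R.erase v, w ∉ b i → dg G (b i) w ≤ 1 := by
    intro i hi w hw hwb
    by_contra h
    obtain ⟨a, ha, a', ha', hne, h1, h2⟩ := two_le_dg_iff.1 (show 2 ≤ dg G (b i) w by omega)
    exact hne (c2 i hi w hw hwb a ha a' ha' h1 h2)
  -- (a)
  have ca : ∀ i < r, D G (b i) + 2 ≤ 2 * (b i).card := by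
    intro i
    induction i with
    | zero =>
      intro _
      have : b 0 = {u} := rfl
      rw [this, D_singleton]
      simp
    | succ i ih =>
      intro hi
      have h0 := ih (by omega)
      have hsub : b i ⊆ b (i + 1) := ball_mono_succ i
      have h1 : D G (b (i + 1) \ b i) = 0 := by
        unfold D
        apply sum_eq_zero
        intro y hy
        obtain ⟨hy1, hy2⟩ := mem_sdiff.1 hy
        by_contra hne
        obtain ⟨z, hz, hyz⟩ := one_le_dg_iff.1 (Nat.one_le_iff_ne_zero.2 hne)
        obtain ⟨hz1, hz2⟩ := mem_sdiff.1 hz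
        exact c3 i hi y hy1 hy2 z hz1 hz2 hyz
      have h2 : ∑ y ∈ b (i + 1) \ b i, dg G (b i) y ≤ (b (i + 1) \ b i).card := by
        calc _ ≤ ∑ _y ∈ b (i + 1) \ b i, 1 := by
              apply sum_le_sum
              intro y hy
              obtain ⟨hy1, hy2⟩ := mem_sdiff.1 hy
              exact dg_le_one i (by omega) y (hbR (i + 1) hy1) hy2
          _ = _ := by simp
      have h3 := D_sub (G := G) hsub
      have h4 := card_sdiff_add_card_eq_card hsub
      omega
  -- (b)
  have cb : ∀ i < r, ∑ y ∈ X ∪ (R \ b i), dg G (b i) y ≤ 1 + (b (i + 1) \ b i).card := by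
    intro i hi
    have hvb : v ∉ b i := fun h => (mem_erase.1 (hbR i h)).1 rfl
    have hsplit : X ∪ (R \ b i) ⊆ X ∪ insert v ((b (i + 1) \ b i) ∪
        (R.erase v \ b (i + 1))) := by
      intro y hy
      rcases mem_union.1 hy with h | h
      · exact mem_union_left _ h
      · apply mem_union_right
        obtain ⟨h1, h2⟩ := mem_sdiff.1 h
        by_cases hyv : y = v
        · rw [hyv]; exact mem_insert_self _ _
        · apply mem_insert_of_mem
          by_cases h3 : y ∈ b (i + 1)
          · exact mem_union_left _ (mem_sdiff.2 ⟨h3, h2⟩)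
          · exact mem_union_right _ (mem_sdiff.2 ⟨mem_erase.2 ⟨hyv, h1⟩, h3⟩)
    have z1 : ∑ y ∈ X, dg G (b i) y = 0 := by
      apply sum_eq_zero
      intro y hy
      by_contra hne
      obtain ⟨z, hz, hyz⟩ := one_le_dg_iff.1 (Nat.one_le_iff_ne_zero.2 hne)
      have := (c1 i hi z hz y (mem_insert_of_mem hy) hyz.symm).2
      exact hvX (this ▸ hy)
    have z2 : dg G (b i) v ≤ 1 := by
      by_contra h
      obtain ⟨a, ha, a', ha', hne, h1, h2⟩ := two_le_dg_iff.1 (show 2 ≤ dg G (b i) v by omega)
      have e1 := (c1 i hi a ha v (mem_insert_self _ _) h1.symm).1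
      have e2 := (c1 i hi a' ha' v (mem_insert_self _ _) h2.symm).1
      exact hne (e1.trans e2.symm)
    have z3 : ∑ y ∈ b (i + 1) \ b i, dg G (b i) y ≤ (b (i + 1) \ b i).card := by
      calc _ ≤ ∑ _y ∈ b (i + 1) \ b i, 1 := by
            apply sum_le_sum
            intro y hy
            obtain ⟨hy1, hy2⟩ := mem_sdiff.1 hy
            exact dg_le_one i hi y (hbR (i + 1) hy1) hy2
        _ = _ := by simp
    have z4 : ∑ y ∈ R.erase v \ b (i + 1), dg G (b i) y = 0 := by
      apply sum_eq_zero
      intro y hy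
      obtain ⟨hy1, hy2⟩ := mem_sdiff.1 hy
      by_contra hne
      obtain ⟨z, hz, hyz⟩ := one_le_dg_iff.1 (Nat.one_le_iff_ne_zero.2 hne)
      apply hy2
      rw [hb, ball]
      exact mem_union_right _ (mem_filter.2 ⟨hy1, z, hz, hyz⟩)
    calc ∑ y ∈ X ∪ (R \ b i), dg G (b i) y
        ≤ ∑ y ∈ X ∪ insert v ((b (i + 1) \ b i) ∪ (R.erase v \ b (i + 1))), dg G (b i) y :=
          sum_le_sum_of_subset hsplit
      _ ≤ ∑ y ∈ X, dg G (b i) y +
          ∑ y ∈ insert v ((b (i + 1) \ b i) ∪ (R.erase v \ b (i + 1))), dg G (b i) y := by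
          rw [← sum_union_inter]; exact Nat.le_add_right _ _
      _ ≤ 0 + (dg G (b i) v +
          ∑ y ∈ (b (i + 1) \ b i) ∪ (R.erase v \ b (i + 1)), dg G (b i) y) := by
          rw [z1]
          apply Nat.add_le_add_left
          rw [sum_insert]
          intro h
          rcases mem_union.1 h with h | h
          · exact (mem_erase.1 (hbR (i + 1) (mem_sdiff.1 h).1)).1 rfl
          · exact (mem_erase.1 (mem_sdiff.1 h).1).1 rfl
      _ ≤ 0 + (1 + (∑ y ∈ (b (i + 1) \ b i), dg G (b i) y +
          ∑ y ∈ (R.erase v \ b (i + 1)), dg G (b i) y)) := by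
          apply Nat.add_le_add_left
          apply Nat.add_le_add z2
          rw [← sum_union_inter]; exact Nat.le_add_right _ _
      _ ≤ _ := by rw [z4]; omega
  -- (c)
  have cc : ∀ i < r, (q + 1) * (b i).card ≤ q * (b (i + 1)).card := by
    intro i hi
    have hbi : b i ⊆ R := (hbR i).trans (erase_subset v R)
    have h1 := ker_sdiff hker hXR hbi ⟨u, u_mem_ball i⟩
    have h2 := ca i hi
    have h3 := cb i hi
    have h4 := card_sdiff_add_card_eq_card (ball_mono_succ (G := G) (R := R) (v := v) (u := u) i)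
    have h5 : D G (b i) + 2 * ∑ y ∈ X ∪ (R \ b i), dg G (b i) y ≤ 2 * (b (i + 1)).card := by
      have : (ball G R v u (i + 1) \ ball G R v u i).card + (ball G R v u i).card =
        (ball G R v u (i + 1)).card := h4
      simp only [← hb] at this
      omega
    have h6 := h1.trans (Nat.mul_le_mul_left q h5)
    nlinarith
  exact cc

/-- Ball lemma with the radius `q + j`. -/
lemma ball_lemma2 {q j : ℕ} (hker : Ker G (q + 1) q X R) (hXR : Disjoint X R)
    (hv : v ∈ R) (hu : u ∈ R) (huv : G.Adj u v)
    (hr : Fintype.card V * q ^ j < (q + 1) ^ (j + 1)) :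
    ∃ E ⊆ R.erase v, u ∈ E ∧ E.card ≤ 2 * (q + j) + 1 ∧ Hang G (insert v X) E := by
  by_contra hcon
  push Not at hcon
  have hg := ball_growth (r := q + j) hker hXR hv hu huv hcon
  set b := ball G R v u with hb
  have c1 : ∀ i ≤ q + j, i + 1 ≤ (b i).card := by
    intro i
    induction i with
    | zero => intro _; simp [hb, ball]
    | succ i ih =>
      intro hi
      have h1 := ih (by omega)
      have h2 := hg i (by omega)
      by_contra hne
      have h3 : (b (i + 1)).card ≤ (b i).card := by omega
      have h4 : q * (b (i + 1)).card ≤ q * (b i).card := Nat.mul_le_mul_left _ h3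
      nlinarith
  have c2 : ∀ i ≤ j, (q + 1) ^ (i + 1) ≤ q ^ i * (b (q + i)).card := by
    intro i
    induction i with
    | zero =>
      intro _
      have := c1 q (by omega)
      simpa using this
    | succ i ih =>
      intro hi
      calc (q + 1) ^ (i + 1 + 1) = (q + 1) ^ (i + 1) * (q + 1) := pow_succ _ _
        _ ≤ q ^ i * (b (q + i)).card * (q + 1) := Nat.mul_le_mul_right _ (ih (by omega))
        _ = q ^ i * ((q + 1) * (b (q + i)).card) := by ring
        _ ≤ q ^ i * (q * (b (q + i + 1)).card) := Nat.mul_le_mul_left _ (hg (q + i) (by omega))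
        _ = q ^ (i + 1) * (b (q + (i + 1))).card := by rw [← add_assoc]; ring
  have h1 := c2 j le_rfl
  have h2 : (b (q + j)).card ≤ Fintype.card V := card_le_univ _
  have h3 := Nat.mul_le_mul_left (q ^ j) h2
  rw [mul_comm] at hr
  omega

end Ball

variable {V : Type} [Fintype V] {G : SimpleGraph V}

/-- Cover lemma (better radius): in a kernel of density `(q+1)/q` over `X` every vertex lies in a small set
hanging on `X`. -/
lemma cover2 {X R : Finset V} {q j : ℕ} (hker : Ker G (q + 1) q X R) (hXR : Disjoint X R)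
    (hr : Fintype.card V * q ^ j < (q + 1) ^ (j + 1)) :
    ∀ v ∈ R, ∃ E ⊆ R, v ∈ E ∧ E.card ≤ 4 * (q + j) + 3 ∧ Hang G X E := by
  intro v hv
  -- the vertex `v` has two neighbours in `X ∪ R`
  have hdv : 2 ≤ dg G (X ∪ R) v := by
    have h1 := ker_sdiff hker hXR (singleton_subset_iff.2 hv) (singleton_nonempty v)
    rw [D_singleton, card_singleton, sum_dg_comm, sum_singleton] at h1
    have h2 : dg G (X ∪ (R \ {v})) v ≤ dg G (X ∪ R) v :=
      dg_mono (union_subset_union_right sdiff_subset) v
    by_contra h
    have h3 : dg G (X ∪ (R \ {v})) v ≤ 1 := by omega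
    have h4 : q * (0 + 2 * dg G (X ∪ (R \ {v})) v) ≤ q * (0 + 2 * 1) :=
      Nat.mul_le_mul_left _ (by omega)
    nlinarith
  obtain ⟨y, hy, z, hz, hyz, h1, h2⟩ := two_le_dg_iff.1 hdv
  -- for a neighbour `y` in `X ∪ R` a set `F` supporting it
  have key : ∀ y ∈ X ∪ R, G.Adj v y → ∃ F ⊆ R, F.card ≤ 2 * (q + j) + 1 ∧ y ∈ X ∪ F ∧
      Hang G (insert v X) F := by
    intro y hy hvy
    by_cases hyX : y ∈ X
    · exact ⟨∅, by simp, by simp, mem_union_left _ hyX, Hang_empty _⟩
    · have hyR : y ∈ R := (mem_union.1 hy).resolve_left hyX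
      obtain ⟨F, f1, f2, f3, f4⟩ := ball_lemma2 hker hXR hv hyR hvy.symm hr
      exact ⟨F, f1.trans (erase_subset v R), f3, mem_union_right _ f2, f4⟩
  obtain ⟨F, f1, f2, f3, f4⟩ := key y hy h1
  obtain ⟨F', f1', f2', f3', f4'⟩ := key z hz h2
  refine ⟨insert v (F ∪ F'), ?_, mem_insert_self _ _, ?_, ?_⟩
  · exact insert_subset hv (union_subset f1 f1')
  · calc (insert v (F ∪ F')).card ≤ (F ∪ F').card + 1 := card_insert_le _ _
      _ ≤ F.card + F'.card + 1 := by have := card_union_le F F'; omega
      _ ≤ _ := by omega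
  · have e : insert v X ∪ (F ∪ F') = X ∪ insert v (F ∪ F') := by
      rw [insert_union, union_insert]
    intro x hx
    rw [← e]
    rcases mem_insert.1 hx with rfl | hx
    · refine two_le_dg (y := y) (z := z) ?_ ?_ hyz h1 h2
      · rcases mem_union.1 f3 with h | h
        · exact mem_union_left _ (mem_insert_of_mem h)
        · exact mem_union_right _ (mem_union_left _ h)
      · rcases mem_union.1 f3' with h | h
        · exact mem_union_left _ (mem_insert_of_mem h)
        · exact mem_union_right _ (mem_union_right _ h)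
    · exact (f4.union f4') x hx

end Pool.Agent.Lib.MP_d31508_co.Sharp
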