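import Pool.Agent.Lib.MP_d31508_co.Sharp.Struct

set_option linter.unusedSectionVars false

/-!
# The decomposition above a tight root
-/

namespace Pool.Agent.Lib.MP_d31508_co.Sharp

open Finset Classical
open Pool.Agent.Lib.MP_d31508_co.Asy (dg Cl D)

variable {V : Type} [Fintype V] {G : SimpleGraph V}

/-- a record: a pair `a, b` attached to `p, q` -/
structure Rc (V : Type) where
  a : V
  b : V
  p : V
  q : V

/-- the pair of a record -/
noncomputable def Rc.pr (ρ : Rc V) : Finset V := {ρ.a, ρ.b}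

lemma mem_pr {ρ : Rc V} {v : V} : v ∈ ρ.pr ↔ v = ρ.a ∨ v = ρ.b := by
  unfold Rc.pr; simp

/-- a decomposition of `Y ∖ X` into pairs of the first and of the second level -/
structure Dec (G : SimpleGraph V) (X R Y : Finset V) (P : Finset (Rc V)) : Prop where
  ab : ∀ ρ ∈ P, G.Adj ρ.a ρ.b
  ap : ∀ ρ ∈ P, G.Adj ρ.a ρ.p
  bq : ∀ ρ ∈ P, G.Adj ρ.b ρ.q
  aR : ∀ ρ ∈ P, ρ.a ∈ R
  bR : ∀ ρ ∈ P, ρ.b ∈ R
  aY : ∀ ρ ∈ P, ρ.a ∈ Y
  bY : ∀ ρ ∈ P, ρ.b ∈ Y
  dj : ∀ ρ ∈ P, ∀ σ ∈ P, ρ ≠ σ → Disjoint ρ.pr σ.pr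
  cov : ∀ v ∈ Y, v ∈ R → ∃ ρ ∈ P, v = ρ.a ∨ v = ρ.b
  root : ∀ ρ ∈ P, (ρ.p ∈ X ∧ ρ.q ∈ X) ∨
    ∃ σ ∈ P, ρ.p = σ.a ∧ ρ.q = σ.b ∧ σ.p ∈ X ∧ σ.q ∈ X

variable {X R Y : Finset V} {P : Finset (Rc V)}

lemma Dec.neq (h : Dec G X R Y P) {ρ σ : Rc V} (hρ : ρ ∈ P) (h1 : ρ.p = σ.a) : ρ ≠ σ := by
  rintro rfl
  exact (h.ap ρ hρ).ne h1.symm

lemma Dec.two (h : Dec G X R Y P) {ρ σ : Rc V} (hρ : ρ ∈ P) (hσ : σ ∈ P) (h1 : ρ.p = σ.a)
    (h2 : ρ.q = σ.b) (h3 : σ.p ∈ X) (h4 : σ.q ∈ X) :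
    Two G X R ρ.a ρ.b σ.b σ.a ∧ Two G X R ρ.b ρ.a σ.a σ.b := by
  have hd := h.dj ρ hρ σ hσ (h.neq hρ h1)
  have d1 : ρ.a ≠ σ.b := fun e => disjoint_left.1 hd (mem_pr.2 (Or.inl rfl))
    (mem_pr.2 (Or.inr e))
  have d2 : ρ.b ≠ σ.a := fun e => disjoint_left.1 hd (mem_pr.2 (Or.inr rfl))
    (mem_pr.2 (Or.inl e))
  have e1 := h.ap ρ hρ
  have e2 := h.bq ρ hρ
  rw [h1] at e1
  rw [h2] at e2
  constructor
  · exact ⟨h.aR ρ hρ, h.bR ρ hρ, h.bR σ hσ, h.aR σ hσ, h.ab ρ hρ, e1, e2, (h.ab σ hσ).symm,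
      ⟨_, h4, h.bq σ hσ⟩, ⟨_, h3, h.ap σ hσ⟩, d1, d2⟩
  · exact ⟨h.bR ρ hρ, h.aR ρ hρ, h.aR σ hσ, h.bR σ hσ, (h.ab ρ hρ).symm, e2, e1, h.ab σ hσ,
      ⟨_, h3, h.ap σ hσ⟩, ⟨_, h4, h.bq σ hσ⟩, d2, d1⟩

lemma Dec.info (h : Dec G X R Y P) {v : V} (hv : v ∈ Y) (hvR : v ∈ R) :
    (∃ ρ ∈ P, ρ.p ∈ X ∧ ρ.q ∈ X ∧ (v = ρ.a ∨ v = ρ.b)) ∨
    ∃ d a b, Two G X R v d a b ∧ d ∈ Y ∧ a ∈ Y ∧ b ∈ Y := by
  obtain ⟨ρ, hρ, hvρ⟩ := h.cov v hv hvR
  rcases h.root ρ hρ with ⟨h1, h2⟩ | ⟨σ, hσ, h1, h2, h3, h4⟩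
  · exact Or.inl ⟨ρ, hρ, h1, h2, hvρ⟩
  · right
    obtain ⟨t1, t2⟩ := h.two hρ hσ h1 h2 h3 h4
    rcases hvρ with rfl | rfl
    · exact ⟨_, _, _, t1, h.bY ρ hρ, h.bY σ hσ, h.aY σ hσ⟩
    · exact ⟨_, _, _, t2, h.aY ρ hρ, h.aY σ hσ, h.bY σ hσ⟩

/-- one more pair -/
lemma Dec.step (h : Dec G X R Y P) (hXR : Disjoint X R) (hpar : Par G X R 7)
    (hY : Y ⊆ X ∪ R) {v w p q : V} (hv : v ∈ R) (hw : w ∈ R) (hvY : v ∉ Y)
    (hwY : w ∉ Y) (hvw : G.Adj v w) (hp : p ∈ Y) (hvp : G.Adj v p) (hq : q ∈ Y)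
    (hwq : G.Adj w q) : ∃ P', Dec G X R (insert v (insert w Y)) P' := by
  have nv : ∀ {z : V}, z ∈ Y → v ≠ z := fun hz e => hvY (e ▸ hz)
  have nw : ∀ {z : V}, z ∈ Y → w ≠ z := fun hz e => hwY (e ▸ hz)
  have inR : ∀ {z : V}, z ∈ Y → z ∉ X → z ∈ R := fun hz hzX => by
    rcases mem_union.1 (hY hz) with h | h
    · exact absurd h hzX
    · exact h
  have key : ∃ ρ : Rc V, ((ρ.a = v ∧ ρ.b = w) ∨ (ρ.a = w ∧ ρ.b = v)) ∧ G.Adj ρ.a ρ.p ∧
      G.Adj ρ.b ρ.q ∧ ((ρ.p ∈ X ∧ ρ.q ∈ X) ∨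
        ∃ σ ∈ P, ρ.p = σ.a ∧ ρ.q = σ.b ∧ σ.p ∈ X ∧ σ.q ∈ X) := by
    by_cases hpX : p ∈ X
    · by_cases hqX : q ∈ X
      · exact ⟨⟨v, w, p, q⟩, Or.inl ⟨rfl, rfl⟩, hvp, hwq, Or.inl ⟨hpX, hqX⟩⟩
      · exfalso
        rcases h.info hq (inR hq hqX) with ⟨ρ, hρ, h1, h2, h3⟩ | ⟨d, a, b, t, hd, ha, hb⟩
        · have hN : Nb G X q := by
            rcases h3 with rfl | rfl
            · exact ⟨_, h1, h.ap ρ hρ⟩
            · exact ⟨_, h2, h.bq ρ hρ⟩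
          exact no_XU hXR hpar hv hw (inR hq hqX) hvw ⟨p, hpX, hvp⟩ hwq hN (nv hq)
        · exact no_XII hXR hpar t hv hw hvw ⟨p, hpX, hvp⟩ hwq (nv hq) (nv ha) (nv hb)
            (nw ha) (nw hb)
    · have hpR := inR hp hpX
      by_cases hqX : q ∈ X
      · exfalso
        rcases h.info hp hpR with ⟨ρ, hρ, h1, h2, h3⟩ | ⟨d, a, b, t, hd, ha, hb⟩
        · have hN : Nb G X p := by
            rcases h3 with rfl | rfl
            · exact ⟨_, h1, h.ap ρ hρ⟩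
            · exact ⟨_, h2, h.bq ρ hρ⟩
          exact no_XU hXR hpar hw hv hpR hvw.symm ⟨q, hqX, hwq⟩ hvp hN (nw hp)
        · exact no_XII hXR hpar t hw hv hvw.symm ⟨q, hqX, hwq⟩ hvp (nw hp) (nw ha) (nw hb)
            (nv ha) (nv hb)
      · have hqR := inR hq hqX
        rcases h.info hp hpR with ⟨ρ, hρ, h1, h2, h3⟩ | ⟨d, a, b, t, hd, ha, hb⟩
        · -- `p` of the first level
          have Na : Nb G X ρ.a := ⟨_, h1, h.ap ρ hρ⟩
          have Nb1 : Nb G X ρ.b := ⟨_, h2, h.bq ρ hρ⟩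
          have hN : Nb G X p := by
            rcases h3 with rfl | rfl
            · exact Na
            · exact Nb1
          rcases h.info hq hqR with ⟨σ, hσ, g1, g2, g3⟩ | ⟨d', a', b', t', hd', ha', hb'⟩
          · have hNq : Nb G X q := by
              rcases g3 with rfl | rfl
              · exact ⟨_, g1, h.ap σ hσ⟩
              · exact ⟨_, g2, h.bq σ hσ⟩
            by_cases e1 : q = p
            · subst e1
              exact (no_UU_same hXR hpar hv hw hqR hvw hvp hwq).elim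
            · rcases h3 with e | e
              · by_cases e2 : q = ρ.b
                · exact ⟨⟨v, w, ρ.a, ρ.b⟩, Or.inl ⟨rfl, rfl⟩, e ▸ hvp, e2 ▸ hwq,
                    Or.inr ⟨ρ, hρ, rfl, rfl, h1, h2⟩⟩
                · exfalso
                  subst e
                  exact no_UU hXR hpar hv hw (h.bR ρ hρ) hpR hqR hvw hvp hwq
                    (h.ab ρ hρ).symm Nb1 Na hNq e1 e2 (nv (h.bY ρ hρ)) (nv hq)
                    (nw (h.bY ρ hρ)) (nw hp)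
              · by_cases e2 : q = ρ.a
                · exact ⟨⟨w, v, ρ.a, ρ.b⟩, Or.inr ⟨rfl, rfl⟩, e2 ▸ hwq, e ▸ hvp,
                    Or.inr ⟨ρ, hρ, rfl, rfl, h1, h2⟩⟩
                · exfalso
                  subst e
                  exact no_UU hXR hpar hv hw (h.aR ρ hρ) hpR hqR hvw hvp hwq
                    (h.ab ρ hρ) Na Nb1 hNq e1 e2 (nv (h.aY ρ hρ)) (nv hq)
                    (nw (h.aY ρ hρ)) (nw hp)
          · exact (no_UII hXR hpar t' hv hw hpR hvw hvp hN hwq (nv hq) (nv ha') (nv hb')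
              (nw ha') (nw hb') (nw hp)).elim
        · rcases h.info hq hqR with ⟨σ, hσ, g1, g2, g3⟩ | ⟨d', a', b', t', hd', ha', hb'⟩
          · have hNq : Nb G X q := by
              rcases g3 with rfl | rfl
              · exact ⟨_, g1, h.ap σ hσ⟩
              · exact ⟨_, g2, h.bq σ hσ⟩
            exact (no_UII hXR hpar t hw hv hqR hvw.symm hwq hNq hvp (nw hp) (nw ha) (nw hb)
              (nv ha) (nv hb) (nv hq)).elim
          · exact (no_IIII hXR hpar t t' hv hw hvw hvp hwq (nv ha) (nv hb) (nv hd) (nv hq)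
              (nv hb') (nw ha) (nw hb) (nw hp) (nw hd) (nw hb')).elim
  obtain ⟨ρ, hρ, k1, k2, k3⟩ := key
  have kab : G.Adj ρ.a ρ.b := by
    rcases hρ with ⟨e1, e2⟩ | ⟨e1, e2⟩
    · rw [e1, e2]; exact hvw
    · rw [e1, e2]; exact hvw.symm
  have kaR : ρ.a ∈ R := by
    rcases hρ with ⟨e1, e2⟩ | ⟨e1, e2⟩
    · rw [e1]; exact hv
    · rw [e1]; exact hw
  have kbR : ρ.b ∈ R := by
    rcases hρ with ⟨e1, e2⟩ | ⟨e1, e2⟩
    · rw [e2]; exact hw
    · rw [e2]; exact hv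
  have hvρ : v = ρ.a ∨ v = ρ.b := by
    rcases hρ with ⟨e1, e2⟩ | ⟨e1, e2⟩
    · exact Or.inl e1.symm
    · exact Or.inr e2.symm
  have hwρ : w = ρ.a ∨ w = ρ.b := by
    rcases hρ with ⟨e1, e2⟩ | ⟨e1, e2⟩
    · exact Or.inr e2.symm
    · exact Or.inl e1.symm
  have hpr : ∀ z ∈ ρ.pr, z = v ∨ z = w := by
    intro z hz
    rcases mem_pr.1 hz with rfl | rfl
    · rcases hρ with ⟨e1, e2⟩ | ⟨e1, e2⟩
      · exact Or.inl e1
      · exact Or.inr e1
    · rcases hρ with ⟨e1, e2⟩ | ⟨e1, e2⟩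
      · exact Or.inr e2
      · exact Or.inl e2
  have hprY : ∀ z ∈ ρ.pr, z ∉ Y := by
    intro z hz
    rcases hpr z hz with rfl | rfl
    · exact hvY
    · exact hwY
  have hdj : ∀ σ ∈ P, Disjoint ρ.pr σ.pr := by
    intro σ hσ
    rw [disjoint_left]
    intro z hz hz'
    apply hprY z hz
    rcases mem_pr.1 hz' with rfl | rfl
    · exact h.aY σ hσ
    · exact h.bY σ hσ
  have hsub : Y ⊆ insert v (insert w Y) :=
    (subset_insert _ _).trans (subset_insert _ _)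
  refine ⟨insert ρ P, ?_, ?_, ?_, ?_, ?_, ?_, ?_, ?_, ?_, ?_⟩
  · intro σ hσ
    rcases mem_insert.1 hσ with rfl | hσ
    · exact kab
    · exact h.ab σ hσ
  · intro σ hσ
    rcases mem_insert.1 hσ with rfl | hσ
    · exact k1
    · exact h.ap σ hσ
  · intro σ hσ
    rcases mem_insert.1 hσ with rfl | hσ
    · exact k2
    · exact h.bq σ hσ
  · intro σ hσ
    rcases mem_insert.1 hσ with rfl | hσ
    · exact kaR
    · exact h.aR σ hσ
  · intro σ hσ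
    rcases mem_insert.1 hσ with rfl | hσ
    · exact kbR
    · exact h.bR σ hσ
  · intro σ hσ
    rcases mem_insert.1 hσ with rfl | hσ
    · rw [mem_insert, mem_insert]
      rcases hρ with ⟨e1, e2⟩ | ⟨e1, e2⟩
      · exact Or.inl e1
      · exact Or.inr (Or.inl e1)
    · exact hsub (h.aY σ hσ)
  · intro σ hσ
    rcases mem_insert.1 hσ with rfl | hσ
    · rw [mem_insert, mem_insert]
      rcases hρ with ⟨e1, e2⟩ | ⟨e1, e2⟩
      · exact Or.inr (Or.inl e2)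
      · exact Or.inl e2
    · exact hsub (h.bY σ hσ)
  · intro σ hσ τ hτ hne
    rcases mem_insert.1 hσ with e | hσ
    · rcases mem_insert.1 hτ with e' | hτ
      · exact absurd (e.trans e'.symm) hne
      · rw [e]; exact hdj τ hτ
    · rcases mem_insert.1 hτ with e' | hτ
      · rw [e']; exact (hdj σ hσ).symm
      · exact h.dj σ hσ τ hτ hne
  · intro z hz hzR
    rcases mem_insert.1 hz with rfl | hz
    · exact ⟨ρ, mem_insert_self _ _, hvρ⟩
    · rcases mem_insert.1 hz with rfl | hz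
      · exact ⟨ρ, mem_insert_self _ _, hwρ⟩
      · obtain ⟨σ, hσ, e⟩ := h.cov z hz hzR
        exact ⟨σ, mem_insert_of_mem hσ, e⟩
  · intro σ hσ
    rcases mem_insert.1 hσ with rfl | hσ
    · rcases k3 with k3 | ⟨τ, hτ, k3⟩
      · exact Or.inl k3
      · exact Or.inr ⟨τ, mem_insert_of_mem hτ, k3⟩
    · rcases h.root σ hσ with k | ⟨τ, hτ, k⟩
      · exact Or.inl k
      · exact Or.inr ⟨τ, mem_insert_of_mem hτ, k⟩

/-- pairs of the first level hang on `X` -/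
lemma Dec.hang1 (h : Dec G X R Y P) (hXR : Disjoint X R) {σ : Rc V} (hσ : σ ∈ P)
    (h1 : σ.p ∈ X) (h2 : σ.q ∈ X) : Hang G X σ.pr := by
  intro x hx
  have ha : σ.a ∈ X ∪ σ.pr := mem_union_right _ (mem_pr.2 (Or.inl rfl))
  have hb : σ.b ∈ X ∪ σ.pr := mem_union_right _ (mem_pr.2 (Or.inr rfl))
  rcases mem_pr.1 hx with rfl | rfl
  · have e : σ.p ≠ σ.b := fun e => disjoint_left.1 hXR h1 (e ▸ h.bR σ hσ)
    exact two_le_dg (mem_union_left _ h1) hb e (h.ap σ hσ) (h.ab σ hσ)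
  · have e : σ.q ≠ σ.a := fun e => disjoint_left.1 hXR h2 (e ▸ h.aR σ hσ)
    exact two_le_dg (mem_union_left _ h2) ha e (h.bq σ hσ) (h.ab σ hσ).symm

/-- pairs of the second level hang on pairs of the first level -/
lemma Dec.hang2 (h : Dec G X R Y P) {ρ σ : Rc V} (hρ : ρ ∈ P) (hσ : σ ∈ P)
    (h1 : ρ.p = σ.a) (h2 : ρ.q = σ.b) : Hang G σ.pr ρ.pr := by
  have hd := h.dj ρ hρ σ hσ (h.neq hρ h1)
  intro x hx
  have ha : ρ.a ∈ σ.pr ∪ ρ.pr := mem_union_right _ (mem_pr.2 (Or.inl rfl))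
  have hb : ρ.b ∈ σ.pr ∪ ρ.pr := mem_union_right _ (mem_pr.2 (Or.inr rfl))
  have hp : ρ.p ∈ σ.pr ∪ ρ.pr := mem_union_left _ (mem_pr.2 (Or.inl h1))
  have hq : ρ.q ∈ σ.pr ∪ ρ.pr := mem_union_left _ (mem_pr.2 (Or.inr h2))
  rcases mem_pr.1 hx with rfl | rfl
  · have e : ρ.p ≠ ρ.b := fun e => disjoint_left.1 hd (mem_pr.2 (Or.inr rfl))
      (mem_pr.2 (Or.inl (e.symm.trans h1)))
    exact two_le_dg hp hb e (h.ap ρ hρ) (h.ab ρ hρ)
  · have e : ρ.q ≠ ρ.a := fun e => disjoint_left.1 hd (mem_pr.2 (Or.inl rfl))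
      (mem_pr.2 (Or.inr (e.symm.trans h2)))
    exact two_le_dg hq ha e (h.bq ρ hρ) (h.ab ρ hρ).symm

lemma Dec.prR (h : Dec G X R Y P) {ρ : Rc V} (hρ : ρ ∈ P) : ρ.pr ⊆ R := by
  intro x hx
  rcases mem_pr.1 hx with rfl | rfl
  · exact h.aR ρ hρ
  · exact h.bR ρ hρ

lemma Dec.prY (h : Dec G X R Y P) {ρ : Rc V} (hρ : ρ ∈ P) : ρ.pr ⊆ Y := by
  intro x hx
  rcases mem_pr.1 hx with rfl | rfl
  · exact h.aY ρ hρ
  · exact h.bY ρ hρ

lemma pr_card (ρ : Rc V) : ρ.pr.card ≤ 2 := by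
  unfold Rc.pr
  exact card_le_two

lemma Dec.pr_card2 (h : Dec G X R Y P) {ρ : Rc V} (hρ : ρ ∈ P) : ρ.pr.card = 2 := by
  unfold Rc.pr
  exact card_pair (h.ab ρ hρ).ne

/-- decomposed sets are covered by sets of four vertices -/
lemma Dec.cov4 (h : Dec G X R Y P) (hXR : Disjoint X R) (hXY : X ⊆ Y) (hY : Y ⊆ X ∪ R) :
    Cov G X R 4 Y := by
  refine ⟨hXY, hY, ?_⟩
  intro y hy hyX
  have hyR : y ∈ R := by
    rcases mem_union.1 (hY hy) with h | h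
    · exact absurd h hyX
    · exact h
  obtain ⟨ρ, hρ, e⟩ := h.cov y hy hyR
  rcases h.root ρ hρ with ⟨h1, h2⟩ | ⟨σ, hσ, h1, h2, h3, h4⟩
  · exact ⟨ρ.pr, h.prY hρ, h.prR hρ, mem_pr.2 e, (pr_card ρ).trans (by norm_num),
      h.hang1 hXR hρ h1 h2⟩
  · refine ⟨σ.pr ∪ ρ.pr, union_subset (h.prY hσ) (h.prY hρ), union_subset (h.prR hσ) (h.prR hρ),
      mem_union_right _ (mem_pr.2 e), ?_, ?_⟩
    · have := card_union_le σ.pr ρ.pr
      have := pr_card σ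
      have := pr_card ρ
      omega
    · intro x hx
      rcases mem_union.1 hx with hx | hx
      · exact (h.hang1 hXR hσ h3 h4 x hx).trans
          (dg_mono (union_subset_union_right subset_union_left) x)
      · exact (h.hang2 hρ hσ h1 h2 x hx).trans (dg_mono subset_union_right x)

/-- **Decomposition.** -/
theorem decomp {X R : Finset V} {L s s' : ℕ} (hX : Cl G X) (hXR : Disjoint X R)
    (hcov : ∀ v ∈ R, ∃ E ⊆ R, v ∈ E ∧ E.card ≤ L ∧ Hang G X E)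
    (hpar : Par G X R s) (hs7 : 7 ≤ s) (hs : 9 * L ≤ s) (hs9 : 9 ≤ s)
    (htight : ∀ F ⊆ R, Hang G X F → F.card ≤ s' → D G (X ∪ F) = D G X + 3 * F.card)
    (hs' : 9 * L ≤ s') : ∃ P, Dec G X R (X ∪ R) P := by
  obtain ⟨Y, hY, hmax⟩ := exists_max_image ((X ∪ R).powerset.filter
    (fun Y => X ⊆ Y ∧ Cl G Y ∧ ∃ P, Dec G X R Y P)) card
    ⟨X, mem_filter.2 ⟨mem_powerset.2 subset_union_left, Subset.rfl, hX, ∅, by
      constructor
      any_goals intro ρ hρ; exact absurd hρ (notMem_empty _)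
      intro v hv hvR
      exact absurd hvR (disjoint_left.1 hXR hv)⟩⟩
  obtain ⟨hY1, hXY, hYcl, P, hP⟩ := mem_filter.1 hY
  rw [mem_powerset] at hY1
  by_cases hYe : Y = X ∪ R
  · exact ⟨P, hYe ▸ hP⟩
  exfalso
  have hcovY := hP.cov4 hXR hXY hY1
  have hpar7 : Par G X R 7 := fun F h1 h2 h3 => hpar F h1 h2 (h3.trans hs7)
  -- a vertex outside
  obtain ⟨v₀, hv₀R, hv₀Y⟩ : ∃ v ∈ R, v ∉ Y := by
    by_contra hcon
    push Not at hcon
    exact hYe (Subset.antisymm hY1 (union_subset hXY hcon))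
  obtain ⟨E, hER, hvE, hEc, hEh⟩ := hcov v₀ hv₀R
  have hYE : Cl G (Y ∪ E) := (hEh.mono hXY).cl hYcl
  obtain ⟨Z, hZ, hZmin⟩ := exists_min_image ((Y ∪ E).powerset.filter
    (fun Z => Y ⊆ Z ∧ Cl G Z ∧ Z ≠ Y)) card
    ⟨Y ∪ E, mem_filter.2 ⟨mem_powerset.2 Subset.rfl, subset_union_left, hYE, fun e =>
      hv₀Y (e ▸ mem_union_right _ hvE)⟩⟩
  obtain ⟨hZ1, hYZ, hZcl, hZY⟩ := mem_filter.1 hZ
  rw [mem_powerset] at hZ1
  set F := Z \ Y with hF
  have hFE : F ⊆ E := by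
    intro x hx
    obtain ⟨h1, h2⟩ := mem_sdiff.1 hx
    rcases mem_union.1 (hZ1 h1) with h | h
    · exact absurd h h2
    · exact h
  have hFR : F ⊆ R := hFE.trans hER
  have hFc : F.card ≤ L := (card_le_card hFE).trans hEc
  have hYF : Disjoint Y F := disjoint_sdiff
  have hZe : Y ∪ F = Z := union_sdiff_of_subset hYZ
  have hFh : Hang G Y F := Cl.hang hZcl hYZ
  have hFne : 0 < F.card := by
    rw [card_pos]
    by_contra hne
    rw [not_nonempty_iff_eq_empty] at hne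
    rw [hne, union_empty] at hZe
    exact hZY hZe.symm
  -- parity above `Y`
  have hparY : ∀ F' ⊆ R, Disjoint Y F' → Hang G Y F' → 9 * F'.card ≤ s → Even F'.card := by
    intro F' h1 h2 h3 h4
    exact hcovY.par (Λ := s) hpar h1 h2 h3 (by omega)
  have hFeven := hparY F hFR hYF hFh (by
    have := Nat.mul_le_mul_left 9 hFc
    omega)
  -- tightness above `Y`
  obtain ⟨U, u1, u2, u3, u4, -, u6⟩ := localise (G := G) (X := X) (Y := Y) (R := R)
    (F₀ := ∅) (F := F) hcovY.cov (Hang_empty Y) (by rw [empty_union]; exact hFh)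
  rw [empty_union] at u3 u6
  have hUF : Disjoint U F := disjoint_of_subset_left u1 hYF
  have hUFc : (U ∪ F).card = U.card + F.card := card_union_of_disjoint hUF
  have hUc : U.card + F.card ≤ 9 * L := by
    have := Nat.mul_le_mul_left 8 hFc
    omega
  have t1 := htight U u2 u4 (by omega)
  have t2 := htight (U ∪ F) (union_subset u2 hFR) u6 (by omega)
  rw [← union_assoc] at t2
  have hXUF : Disjoint (X ∪ U) F := by
    rw [disjoint_union_left]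
    exact ⟨disjoint_of_subset_left hXY hYF, hUF⟩
  have t3 := D_union (G := G) hXUF
  have t4 := D_union (G := G) hYF
  have t5 : ∑ y ∈ F, dg G (X ∪ U) y ≤ ∑ y ∈ F, dg G Y y :=
    sum_le_sum (fun y _ => dg_mono (union_subset hXY u1) y)
  have hDZ : D G Y + 3 * F.card ≤ D G Z := by
    rw [← hZe]; omega
  have h2F : 2 ≤ F.card := by
    obtain ⟨a, ha⟩ := hFeven
    omega
  have hstep := min_step hYcl hZcl hYZ (by
    intro Y' h1 h2 h3 h4
    apply eq_of_subset_of_card_le h2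
    exact hZmin Y' (mem_filter.2 ⟨mem_powerset.2 (h2.trans hZ1), h1, h3, h4⟩)) h2F
  rw [← hF] at hstep
  have hF2 : F.card = 2 := by omega
  obtain ⟨v, w, hvw, hFvw⟩ := card_eq_two.1 hF2
  have hvF : v ∈ F := by rw [hFvw]; simp
  have hwF : w ∈ F := by rw [hFvw]; simp
  have hvY : v ∉ Y := (mem_sdiff.1 hvF).2
  have hwY : w ∉ Y := (mem_sdiff.1 hwF).2
  -- one neighbour in `Y`
  have hone : ∀ z ∈ F, dg G Y z ≤ 1 := by
    intro z hz
    by_contra hcon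
    push Not at hcon
    have h1 := hparY {z} (singleton_subset_iff.2 (hFR hz))
      (disjoint_singleton_right.2 (mem_sdiff.1 hz).2) (by
        intro x hx
        rw [mem_singleton] at hx
        subst hx
        exact le_trans hcon (dg_mono subset_union_left _)) (by rw [card_singleton]; omega)
    rw [card_singleton] at h1
    exact absurd h1 (by decide)
  have hdv : ∀ z ∈ F, ∀ z' ∈ F, (∀ u ∈ F, u = z ∨ u = z') → z ≠ z' →
      G.Adj z z' ∧ ∃ p ∈ Y, G.Adj z p := by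
    intro z hz z' hz' hzz hne
    have h1 := hFh z hz
    rw [dg_union_disj hYF] at h1
    have h2 := hone z hz
    have h3 : 1 ≤ dg G F z := by omega
    obtain ⟨u, hu, hzu⟩ := one_le_dg_iff.1 h3
    have hu' : u = z' := by
      rcases hzz u hu with e | e
      · exact absurd (e ▸ hzu) (G.irrefl)
      · exact e
    have h4 : dg G F z ≤ 1 := by
      unfold dg
      rw [card_le_one]
      intro x hx y hy
      have e1 : x = z' := by
        rcases hzz x (mem_filter.1 hx).1 with e | e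
        · exact absurd (e ▸ (mem_filter.1 hx).2) (G.irrefl)
        · exact e
      have e2 : y = z' := by
        rcases hzz y (mem_filter.1 hy).1 with e | e
        · exact absurd (e ▸ (mem_filter.1 hy).2) (G.irrefl)
        · exact e
      rw [e1, e2]
    have h5 : 1 ≤ dg G Y z := by omega
    obtain ⟨p, hp, hzp⟩ := one_le_dg_iff.1 h5
    exact ⟨hu' ▸ hzu, p, hp, hzp⟩
  obtain ⟨hadj, p, hp, hvp⟩ := hdv v hvF w hwF (by
    intro u hu; rw [hFvw] at hu; simpa using hu) hvw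
  obtain ⟨-, q, hq, hwq⟩ := hdv w hwF v hvF (by
    intro u hu; rw [hFvw] at hu
    rcases (by simpa using hu : u = v ∨ u = w) with e | e
    · exact Or.inr e
    · exact Or.inl e) hvw.symm
  obtain ⟨P', hP'⟩ := hP.step hXR hpar7 hY1 (hFR hvF) (hFR hwF) hvY hwY hadj hp hvp hq hwq
  have hZi : insert v (insert w Y) = Z := by
    rw [← hZe, hFvw]
    ext x
    simp only [mem_insert, mem_union, mem_singleton]
    tauto
  rw [hZi] at hP'
  have hle := hmax Z (mem_filter.2 ⟨mem_powerset.2 (hZ1.trans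
    (union_subset hY1 (hER.trans subset_union_right))), hXY.trans hYZ, hZcl, P', hP'⟩)
  have hlt : Y.card < Z.card := by
    rw [← hZe, card_union_of_disjoint hYF]; omega
  omega

end Pool.Agent.Lib.MP_d31508_co.Sharp
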