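import Pool.Agent.Lib.MP_d31508_co.Sharp.Chain

set_option linter.unusedSectionVars false

/-!
# The density lemma: no small gadgets means density at most `(s+1)/s`
-/

namespace Pool.Agent.Lib.MP_d31508_co.Sharp

open Finset Classical
open Pool.Agent.Lib.MP_d31508_co.Asy (dg Cl D)

variable {V : Type} [Fintype V] {G : SimpleGraph V}

/-- Localisation: let `Y ⊇ X` be closed such that every vertex of `Y \ X` lies in a set of at most
`L` vertices of `Y ∩ R` hanging on `X`.  If `Y ∪ F₀` and `Y ∪ F₀ ∪ F` are closed (`F₀, F ⊆ R`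
outside `Y`), then there is a small `U ⊆ Y ∩ R` such that `U ∪ F₀` and `U ∪ F₀ ∪ F` hang on `X`. -/
lemma localise {X Y R F₀ F : Finset V} {L : ℕ}
    (hcov : ∀ y ∈ Y, y ∉ X → ∃ E ⊆ Y, E ⊆ R ∧ y ∈ E ∧ E.card ≤ L ∧ Hang G X E)
    (h1 : Hang G Y F₀) (h2 : Hang G Y (F₀ ∪ F)) :
    ∃ U ⊆ Y, U ⊆ R ∧ U.card ≤ 2 * L * (F₀ ∪ F).card ∧ Hang G X U ∧ Hang G X (U ∪ F₀) ∧
      Hang G X (U ∪ (F₀ ∪ F)) := by
  -- the cover of a vertex of `Y`
  have hg : ∀ y : V, ∃ E : Finset V, E ⊆ Y ∧ E ⊆ R ∧ E.card ≤ L ∧ Hang G X E ∧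
      (y ∈ Y → y ∈ X ∪ E) := by
    intro y
    by_cases hy : y ∈ Y ∧ y ∉ X
    · obtain ⟨E, a1, a2, a3, a4, a5⟩ := hcov y hy.1 hy.2
      exact ⟨E, a1, a2, a4, a5, fun _ => mem_union_right _ a3⟩
    · refine ⟨∅, by simp, by simp, by simp, Hang_empty X, fun h => ?_⟩
      by_contra hX
      exact hy ⟨h, fun h' => hX (mem_union_left _ h')⟩
  choose g g1 g2 g3 g4 g5 using hg
  -- two neighbours
  have hn : ∀ x : V, ∃ p : V × V, (x ∈ F₀ → p.1 ∈ Y ∪ F₀ ∧ p.2 ∈ Y ∪ F₀) ∧
      (x ∈ F₀ ∪ F → p.1 ∈ Y ∪ (F₀ ∪ F) ∧ p.2 ∈ Y ∪ (F₀ ∪ F) ∧ p.1 ≠ p.2 ∧ G.Adj x p.1 ∧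
        G.Adj x p.2) := by
    intro x
    by_cases hx : x ∈ F₀
    · obtain ⟨y, hy, z, hz, hyz, e1, e2⟩ := two_le_dg_iff.1 (h1 x hx)
      have hsub : Y ∪ F₀ ⊆ Y ∪ (F₀ ∪ F) := union_subset_union_right subset_union_left
      exact ⟨(y, z), fun _ => ⟨hy, hz⟩, fun _ => ⟨hsub hy, hsub hz, hyz, e1, e2⟩⟩
    · by_cases hx' : x ∈ F₀ ∪ F
      · obtain ⟨y, hy, z, hz, hyz, e1, e2⟩ := two_le_dg_iff.1 (h2 x hx')
        exact ⟨(y, z), fun h => absurd h hx, fun _ => ⟨hy, hz, hyz, e1, e2⟩⟩
      · exact ⟨(x, x), fun h => absurd h hx, fun h => absurd h hx'⟩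
  choose p p1 p2 using hn
  set U := (F₀ ∪ F).biUnion (fun x => g (p x).1 ∪ g (p x).2) with hU
  have hUY : U ⊆ Y := by
    intro u hu
    obtain ⟨x, -, hx⟩ := mem_biUnion.1 hu
    rcases mem_union.1 hx with h | h
    · exact g1 _ h
    · exact g1 _ h
  have hUR : U ⊆ R := by
    intro u hu
    obtain ⟨x, -, hx⟩ := mem_biUnion.1 hu
    rcases mem_union.1 hx with h | h
    · exact g2 _ h
    · exact g2 _ h
  have hUc : U.card ≤ 2 * L * (F₀ ∪ F).card := by
    calc U.card ≤ ∑ x ∈ F₀ ∪ F, (g (p x).1 ∪ g (p x).2).card := card_biUnion_le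
      _ ≤ ∑ _x ∈ F₀ ∪ F, 2 * L := by
          apply sum_le_sum
          intro x _
          calc _ ≤ (g (p x).1).card + (g (p x).2).card := card_union_le _ _
            _ ≤ 2 * L := by have := g3 (p x).1; have := g3 (p x).2; omega
      _ = _ := by simp; ring
  have hUh : Hang G X U := Hang.biUnion _ _ (fun x _ => (g4 _).union (g4 _))
  -- anchors are in `X ∪ U`
  have hanch : ∀ x ∈ F₀ ∪ F, ∀ y, (y = (p x).1 ∨ y = (p x).2) → y ∈ Y → y ∈ X ∪ U := by
    intro x hx y hy hyY
    rcases mem_union.1 (g5 y hyY) with h | h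
    · exact mem_union_left _ h
    · apply mem_union_right
      rw [hU, mem_biUnion]
      refine ⟨x, hx, ?_⟩
      rcases hy with rfl | rfl
      · exact mem_union_left _ h
      · exact mem_union_right _ h
  refine ⟨U, hUY, hUR, hUc, hUh, ?_, ?_⟩
  · intro x hx
    rcases mem_union.1 hx with hx | hx
    · exact (hUh x hx).trans (dg_mono (union_subset_union_right subset_union_left) x)
    · have hx' : x ∈ F₀ ∪ F := mem_union_left _ hx
      obtain ⟨a1, a2⟩ := p1 x hx
      obtain ⟨-, -, b3, b4, b5⟩ := p2 x hx'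
      have hmem : ∀ y, (y = (p x).1 ∨ y = (p x).2) → y ∈ Y ∪ F₀ → y ∈ X ∪ (U ∪ F₀) := by
        intro y hy hyY
        rcases mem_union.1 hyY with h | h
        · exact union_subset_union_right subset_union_left (hanch x hx' y hy h)
        · exact mem_union_right _ (mem_union_right _ h)
      exact two_le_dg (hmem _ (Or.inl rfl) a1) (hmem _ (Or.inr rfl) a2) b3 b4 b5
  · intro x hx
    rcases mem_union.1 hx with hx | hx
    · exact (hUh x hx).trans (dg_mono (union_subset_union_right subset_union_left) x)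
    · obtain ⟨a1, a2, b3, b4, b5⟩ := p2 x hx
      have hmem : ∀ y, (y = (p x).1 ∨ y = (p x).2) → y ∈ Y ∪ (F₀ ∪ F) →
          y ∈ X ∪ (U ∪ (F₀ ∪ F)) := by
        intro y hy hyY
        rcases mem_union.1 hyY with h | h
        · exact union_subset_union_right subset_union_left (hanch x hx y hy h)
        · exact mem_union_right _ (mem_union_right _ h)
      exact two_le_dg (hmem _ (Or.inl rfl) a1) (hmem _ (Or.inr rfl) a2) b3 b4 b5

/-- Density lemma. -/
lemma density {X R : Finset V} {s L : ℕ} (hs : 2 ≤ s) (hX : Cl G X) (hXR : Disjoint X R)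
    (hcov : ∀ v ∈ R, ∃ E ⊆ R, v ∈ E ∧ E.card ≤ L ∧ Hang G X E)
    (hgad : ∀ E F : Finset V, E ⊆ R → F ⊆ R → Disjoint E F → F.Nonempty → F.card < s →
      E.card ≤ 2 * L * L + L → Hang G X E → ¬ Hang G X (E ∪ F)) :
    s * D G (X ∪ R) ≤ s * D G X + 2 * (s + 1) * R.card := by
  have hcov' : ∀ v : V, ∃ E ⊆ R, (v ∈ R → v ∈ E) ∧ E.card ≤ L ∧ Hang G X E := by
    intro v
    by_cases hv : v ∈ R
    · obtain ⟨E, a1, a2, a3, a4⟩ := hcov v hv
      exact ⟨E, a1, fun _ => a2, a3, a4⟩
    · exact ⟨∅, by simp, fun h => absurd h hv, by simp, Hang_empty X⟩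
  choose E E1 E2 E3 E4 using hcov'
  -- partial unions
  have main : ∀ T : Finset V, s * D G (X ∪ T.biUnion E) ≤
      s * D G X + 2 * (s + 1) * (T.biUnion E).card := by
    intro T
    induction T using Finset.induction_on with
    | empty => simp
    | insert v T hv ih =>
      set Y := X ∪ T.biUnion E with hYdef
      have hYcl : Cl G Y := (Hang.biUnion T E (fun i _ => E4 i)).cl hX
      have hTR : T.biUnion E ⊆ R := biUnion_subset.2 (fun i _ => E1 i)
      set Z := Y ∪ E v with hZdef
      have hZcl : Cl G Z := ((E4 v).mono (X' := Y) subset_union_left).cl hYcl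
      have hch := chain (X := Y) (Z := Z) hs hYcl hZcl subset_union_left (by
        intro A A' hYA hAA' hA'Z hA hA' hne
        by_contra hlt
        push Not at hlt
        have hF : (A' \ A).Nonempty := by
          rw [sdiff_nonempty]
          intro h
          exact hne (Subset.antisymm hAA' h)
        have hF₀E : A \ Y ⊆ E v := by
          intro x hx
          obtain ⟨hxA, hxY⟩ := mem_sdiff.1 hx
          rcases mem_union.1 (hA'Z (hAA' hxA)) with h | h
          · exact absurd h hxY
          · exact h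
        have hFE : A' \ A ⊆ E v := by
          intro x hx
          obtain ⟨hxA, hxY⟩ := mem_sdiff.1 hx
          rcases mem_union.1 (hA'Z hxA) with h | h
          · exact absurd (hYA h) hxY
          · exact h
        have e1 : Y ∪ (A \ Y) = A := union_sdiff_of_subset hYA
        have e2 : Y ∪ ((A \ Y) ∪ (A' \ A)) = A' := by
          rw [← union_assoc, e1, union_sdiff_of_subset hAA']
        have hh1 : Hang G Y (A \ Y) := by
          apply Cl.hang'; rw [e1]; exact hA
        have hh2 : Hang G Y ((A \ Y) ∪ (A' \ A)) := by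
          apply Cl.hang'; rw [e2]; exact hA'
        obtain ⟨U, u1, u2, u3, u4, u5, u6⟩ := localise (X := X) (Y := Y) (R := R) (L := L)
          (F₀ := A \ Y) (F := A' \ A) (by
            intro y hy hyX
            rcases mem_union.1 hy with h | h
            · exact absurd h hyX
            · obtain ⟨t, ht, hyt⟩ := mem_biUnion.1 h
              exact ⟨E t, fun z hz => mem_union_right _ (mem_biUnion.2 ⟨t, ht, hz⟩), E1 t, hyt,
                E3 t, E4 t⟩) hh1 hh2
        have hcard : ((A \ Y) ∪ (A' \ A)).card ≤ L :=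
          (card_le_card (union_subset hF₀E hFE)).trans (E3 v)
        have hEle : (U ∪ (A \ Y)).card ≤ 2 * L * L + L := by
          calc _ ≤ U.card + (A \ Y).card := card_union_le _ _
            _ ≤ 2 * L * L + L := by
                have h1 : U.card ≤ 2 * L * L := u3.trans (Nat.mul_le_mul_left _ hcard)
                have h2 : (A \ Y).card ≤ L := (card_le_card hF₀E).trans (E3 v)
                omega
        refine hgad (U ∪ (A \ Y)) (A' \ A) (union_subset u2 (hF₀E.trans (E1 v)))
          (hFE.trans (E1 v)) ?_ hF hlt hEle u5 (by rw [union_assoc]; exact u6)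
        rw [disjoint_union_left]
        constructor
        · exact disjoint_of_subset_left (u1.trans hYA) disjoint_sdiff
        · exact disjoint_of_subset_left sdiff_subset disjoint_sdiff)
      have hZeq : X ∪ (insert v T).biUnion E = Z := by
        rw [biUnion_insert, hZdef, hYdef, union_assoc, union_comm (E v)]
      have hcards : ((insert v T).biUnion E).card = (T.biUnion E).card + (Z \ Y).card := by
        have : (insert v T).biUnion E = T.biUnion E ∪ (Z \ Y) := by
          ext x
          simp only [biUnion_insert, mem_union, hZdef, hYdef, mem_sdiff, mem_biUnion]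
          constructor
          · rintro (h | h)
            · by_cases hx : ∃ a ∈ T, x ∈ E a
              · exact Or.inl hx
              · right
                refine ⟨Or.inr h, ?_⟩
                rintro (h' | h')
                · exact disjoint_left.1 hXR h' (E1 v h)
                · exact hx h'
            · exact Or.inl h
          · rintro (h | ⟨h1 | h1, h2⟩)
            · exact Or.inr h
            · exact absurd h1 h2
            · exact Or.inl h1
        rw [this, card_union_of_disjoint]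
        exact disjoint_of_subset_left subset_union_right disjoint_sdiff
      rw [hZeq, hcards]
      calc s * D G Z ≤ s * D G Y + 2 * (s + 1) * (Z \ Y).card := hch
        _ ≤ s * D G X + 2 * (s + 1) * (T.biUnion E).card + 2 * (s + 1) * (Z \ Y).card := by
            omega
        _ = _ := by ring
  have hR : R.biUnion E = R := by
    apply Subset.antisymm (biUnion_subset.2 (fun i _ => E1 i))
    intro x hx
    exact mem_biUnion.2 ⟨x, hx, E2 x hx⟩
  have := main R
  rwa [hR] at this

end Pool.Agent.Lib.MP_d31508_co.Sharp
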