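import Pool.Agent.Lib.MP_d31508_co.Sharp.Density
import Pool.Agent.Lib.MP_d31508_co.Sharp.Cover

set_option linter.unusedSectionVars false

/-!
# Gadgets: finding them, families of disjoint gadgets, and filling with them
-/

namespace Pool.Agent.Lib.MP_d31508_co.Sharp

open Finset Classical
open Pool.Agent.Lib.MP_d31508_co.Asy (dg Cl D)

variable {V : Type} [Fintype V] {G : SimpleGraph V}

/-- A gadget `(E, F)` over `X` in `R`: `E` and `E ∪ F` hang on `X`, `F` is disjoint from `E`,
nonempty and has fewer than `s` vertices, and `E` has at most `L` vertices. -/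
structure Gad (G : SimpleGraph V) (X R : Finset V) (L s : ℕ) (p : Finset V × Finset V) : Prop where
  s1 : p.1 ⊆ R
  s2 : p.2 ⊆ R
  dj : Disjoint p.1 p.2
  ne : p.2.Nonempty
  lt : p.2.card < s
  le : p.1.card ≤ L
  h1 : Hang G X p.1
  h2 : Hang G X (p.1 ∪ p.2)

lemma Gad.mono {X R R' : Finset V} {L s : ℕ} {p : Finset V × Finset V} (h : Gad G X R L s p)
    (hR : R ⊆ R') : Gad G X R' L s p :=
  ⟨h.s1.trans hR, h.s2.trans hR, h.dj, h.ne, h.lt, h.le, h.h1, h.h2⟩

/-- high density over `X` gives a gadget -/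
lemma find_gadget {X R : Finset V} {s r : ℕ} (hs : 2 ≤ s) (hX : Cl G X) (hXR : Disjoint X R)
    (hr : Fintype.card V * s ^ r < (s + 1) ^ r)
    (hD : s * D G X + 2 * (s + 1) * R.card < s * D G (X ∪ R)) :
    ∃ p, Gad G X R (2 * (4 * r + 3) * (4 * r + 3) + (4 * r + 3)) s p := by
  obtain ⟨R', hR', hval, hker⟩ := kernel_exists (G := G) (s + 1) s X R
  have hXR' : Disjoint X R' := disjoint_of_subset_right hR' hXR
  by_contra hcon
  push Not at hcon
  have h1 := density (G := G) (X := X) (R := R') (s := s) (L := 4 * r + 3) hs hX hXR'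
    (cover hker hXR' hr) (by
      intro E F hE hF hdj hFn hFs hEc hh1 hh2
      exact hcon (E, F) ⟨hE.trans hR', hF.trans hR', hdj, hFn, hFs, hEc, hh1, hh2⟩)
  omega

/-- the basic inequality when a set `W` is avoided -/
lemma star {B X W R : Finset V} (hR : R = (B \ X) \ W) :
    D G B + D G X ≤ D G (B \ R) + D G (X ∪ R) + 2 * ∑ y ∈ R, dg G W y := by
  have hRB : R ⊆ B := by rw [hR]; exact sdiff_subset.trans sdiff_subset
  have hXR : Disjoint X R := by
    rw [hR]
    exact disjoint_of_subset_right sdiff_subset disjoint_sdiff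
  have h1 := D_sub (G := G) (show B \ R ⊆ B from sdiff_subset)
  have e1 : B \ (B \ R) = R := by rw [Finset.sdiff_sdiff_eq_self hRB]
  rw [e1] at h1
  have h2 := D_union (G := G) hXR
  have h3 : ∑ y ∈ R, dg G (B \ R) y ≤ ∑ y ∈ R, dg G X y + ∑ y ∈ R, dg G W y := by
    rw [← sum_add_distrib]
    apply sum_le_sum
    intro y _
    have : B \ R ⊆ X ∪ W := by
      intro x hx
      obtain ⟨hxB, hxR⟩ := mem_sdiff.1 hx
      rw [hR, mem_sdiff, mem_sdiff] at hxR
      by_contra hc
      rw [mem_union] at hc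
      push Not at hc
      exact hxR ⟨⟨hxB, hc.1⟩, hc.2⟩
    exact (dg_mono this y).trans (dg_union_le X W y)
  omega

/-- few edges to the avoided set -/
lemma few_edges {B X W R : Finset V} {T S : ℕ} (hRB : R ⊆ B) (hWX : Disjoint W X)
    (hW : W.card ≤ S)
    (hpot : T * (B.filter (fun v => dg G X v ≤ 1 ∧ 1 ≤ dg G (W \ X) v)).card ≤ 2 * B.card)
    (h1 : ∀ v ∈ R, dg G X v ≤ 1) : T * ∑ y ∈ R, dg G W y ≤ 2 * B.card * S := by
  have e : W \ X = W := sdiff_eq_self_of_disjoint hWX
  rw [e] at hpot
  have h2 : ∑ y ∈ R, dg G W y ≤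
      (B.filter (fun v => dg G X v ≤ 1 ∧ 1 ≤ dg G W v)).card * S := by
    calc ∑ y ∈ R, dg G W y ≤ ∑ y ∈ R, if 1 ≤ dg G W y then S else 0 := by
          apply sum_le_sum
          intro y _
          split_ifs with h
          · exact (dg_le_card W y).trans hW
          · omega
      _ = (R.filter (fun v => 1 ≤ dg G W v)).card * S := by
          rw [← sum_filter]; simp
      _ ≤ _ := by
          apply Nat.mul_le_mul_right
          apply card_le_card
          intro y hy
          obtain ⟨hy1, hy2⟩ := mem_filter.1 hy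
          exact mem_filter.2 ⟨hRB hy1, h1 y hy1, hy2⟩
  calc T * ∑ y ∈ R, dg G W y
      ≤ T * ((B.filter (fun v => dg G X v ≤ 1 ∧ 1 ≤ dg G W v)).card * S) :=
        Nat.mul_le_mul_left _ h2
    _ = T * (B.filter (fun v => dg G X v ≤ 1 ∧ 1 ≤ dg G W v)).card * S := by ring
    _ ≤ _ := Nat.mul_le_mul_right _ hpot

/-- A family of disjoint gadgets. -/
lemma family {B X : Finset V} {s r L M S T : ℕ} (hs : 2 ≤ s) (hX : Cl G X)
    (hr : Fintype.card V * s ^ r < (s + 1) ^ r)
    (hL : L = 2 * (4 * r + 3) * (4 * r + 3) + (4 * r + 3))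
    (hS : M * (L + s) ≤ S)
    (hpot : ∀ W ⊆ B, Cl G (X ∪ W) → W.card ≤ S →
      T * (B.filter (fun v => dg G X v ≤ 1 ∧ 1 ≤ dg G (W \ X) v)).card ≤ 2 * B.card)
    (hdens : T * (2 * (s + 1) * B.card) + T * (s * ((X.card + S) * (X.card + S))) +
      4 * s * (B.card * S) < T * (s * D G B)) :
    ∃ g : ℕ → Finset V × Finset V, (∀ i < M, Gad G X (B \ X) L s (g i)) ∧
      ∀ i < M, ∀ j < M, i ≠ j → Disjoint ((g i).1 ∪ (g i).2) ((g j).1 ∪ (g j).2) := by
  -- one more gadget
  have step : ∀ W ⊆ B \ X, Hang G X W → W.card ≤ S → ∃ p, Gad G X ((B \ X) \ W) L s p := by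
    intro W hWB hW hWS
    by_cases hex : ∃ v ∈ (B \ X) \ W, 2 ≤ dg G X v
    · obtain ⟨v, hv, hdv⟩ := hex
      refine ⟨(∅, {v}), ⟨by simp, by simpa using hv, by simp, by simp, ?_, by simp,
        Hang_empty X, ?_⟩⟩
      · simp; omega
      · intro x hx
        simp only [empty_union, mem_singleton] at hx
        subst hx
        exact hdv.trans (dg_mono subset_union_left _)
    · push Not at hex
      set R := (B \ X) \ W with hR
      have hRB : R ⊆ B := sdiff_subset.trans sdiff_subset
      have hWX : Disjoint W X := disjoint_of_subset_left hWB sdiff_disjoint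
      have h1 := star (G := G) hR
      have h2 := few_edges (G := G) (T := T) (S := S) hRB hWX hWS
        (hpot W (hWB.trans sdiff_subset) (hW.cl hX) hWS) (fun v hv => by
          have := hex v hv; omega)
      have h3 : D G (B \ R) ≤ (X.card + S) * (X.card + S) := by
        have : (B \ R).card ≤ X.card + S := by
          have hsub : B \ R ⊆ X ∪ W := by
            intro x hx
            obtain ⟨hxB, hxR⟩ := mem_sdiff.1 hx
            rw [hR, mem_sdiff, mem_sdiff] at hxR
            by_contra hc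
            rw [mem_union] at hc
            push Not at hc
            exact hxR ⟨⟨hxB, hc.1⟩, hc.2⟩
          calc (B \ R).card ≤ (X ∪ W).card := card_le_card hsub
            _ ≤ X.card + W.card := card_union_le _ _
            _ ≤ _ := by omega
        exact (D_le_sq _).trans (Nat.mul_le_mul this this)
      have hXR : Disjoint X R := by
        rw [hR]
        exact disjoint_of_subset_right sdiff_subset disjoint_sdiff
      rw [hL]
      apply find_gadget hs hX hXR hr
      -- arithmetic
      have h4 : R.card ≤ B.card := card_le_card hRB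
      by_contra hcon
      push Not at hcon
      have a1 : T * (s * (D G B + D G X)) ≤
          T * (s * (D G (B \ R) + D G (X ∪ R) + 2 * ∑ y ∈ R, dg G W y)) :=
        Nat.mul_le_mul_left _ (Nat.mul_le_mul_left _ h1)
      have a2 : T * (s * D G (X ∪ R)) ≤ T * (s * D G X + 2 * (s + 1) * R.card) :=
        Nat.mul_le_mul_left _ hcon
      have a3 : T * (s * D G (B \ R)) ≤ T * (s * ((X.card + S) * (X.card + S))) :=
        Nat.mul_le_mul_left _ (Nat.mul_le_mul_left _ h3)
      have a4 : T * (2 * (s + 1) * R.card) ≤ T * (2 * (s + 1) * B.card) :=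
        Nat.mul_le_mul_left _ (Nat.mul_le_mul_left _ h4)
      have a5 : 2 * s * (T * ∑ y ∈ R, dg G W y) ≤ 2 * s * (2 * B.card * S) :=
        Nat.mul_le_mul_left _ h2
      nlinarith
  induction M with
  | zero => exact ⟨fun _ => (∅, ∅), by simp, by simp⟩
  | succ M ih =>
    obtain ⟨g, hg, hd⟩ := ih (by
      have : M * (L + s) ≤ (M + 1) * (L + s) := Nat.mul_le_mul_right _ (Nat.le_succ _)
      omega)
    set W := (range M).biUnion (fun i => (g i).1 ∪ (g i).2) with hWdef
    have hWB : W ⊆ B \ X := by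
      apply biUnion_subset.2
      intro i hi
      exact union_subset (hg i (mem_range.1 hi)).s1 (hg i (mem_range.1 hi)).s2
    have hWh : Hang G X W := Hang.biUnion _ _ (fun i hi => (hg i (mem_range.1 hi)).h2)
    have hWc : W.card ≤ M * (L + s) := by
      calc W.card ≤ ∑ i ∈ range M, ((g i).1 ∪ (g i).2).card := card_biUnion_le
        _ ≤ ∑ _i ∈ range M, (L + s) := by
            apply sum_le_sum
            intro i hi
            have h := hg i (mem_range.1 hi)
            calc _ ≤ (g i).1.card + (g i).2.card := card_union_le _ _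
              _ ≤ L + s := Nat.add_le_add h.le h.lt.le
        _ = _ := by simp
    obtain ⟨p, hp⟩ := step W hWB hWh (by
      have : M * (L + s) ≤ (M + 1) * (L + s) := Nat.mul_le_mul_right _ (Nat.le_succ _)
      omega)
    refine ⟨fun i => if i < M then g i else p, ?_, ?_⟩
    · intro i hi
      by_cases h : i < M
      · simp only [h, if_true]; exact hg i h
      · simp only [h, if_false]; exact hp.mono sdiff_subset
    · have hpW : ∀ j < M, Disjoint ((g j).1 ∪ (g j).2) (p.1 ∪ p.2) := by
        intro j hj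
        have h1 : (g j).1 ∪ (g j).2 ⊆ W := subset_biUnion_of_mem
          (fun i => (g i).1 ∪ (g i).2) (mem_range.2 hj)
        have h2 : p.1 ∪ p.2 ⊆ (B \ X) \ W := union_subset hp.s1 hp.s2
        exact disjoint_of_subset_left h1 (disjoint_of_subset_right h2 disjoint_sdiff)
      intro i hi j hj hij
      by_cases h1 : i < M
      · by_cases h2 : j < M
        · simp only [h1, h2, if_true]; exact hd i h1 j h2 hij
        · simp only [h1, h2, if_true, if_false]; exact hpW i h1
      · by_cases h2 : j < M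
        · simp only [h1, h2, if_true, if_false]; exact (hpW j h2).symm
        · omega

/-- Pigeonhole: many gadgets of the same type. -/
lemma pigeon {X R : Finset V} {L s M N : ℕ} {g : ℕ → Finset V × Finset V}
    (hg : ∀ i < M, Gad G X R L s (g i)) (hM : (L + 1) * s * N ≤ M) (hM0 : 0 < M) :
    ∃ d f : ℕ, d ≤ L ∧ 1 ≤ f ∧ f < s ∧ ∃ J ⊆ range M, N ≤ J.card ∧
      ∀ i ∈ J, (g i).1.card = d ∧ (g i).2.card = f := by
  have hmaps : ∀ i ∈ range M, ((g i).1.card, (g i).2.card) ∈ (range (L + 1)) ×ˢ (range s) := by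
    intro i hi
    have h := hg i (mem_range.1 hi)
    exact mem_product.2 ⟨mem_range.2 (Nat.lt_succ_of_le h.le), mem_range.2 h.lt⟩
  have hne : ((range (L + 1)) ×ˢ (range s)).Nonempty :=
    ⟨_, hmaps 0 (mem_range.2 hM0)⟩
  obtain ⟨⟨d, f⟩, -, hJ⟩ := exists_le_card_fiber_of_mul_le_card_of_maps_to hmaps hne
    (n := N) (by simp [card_product]; exact hM)
  set J := (range M).filter (fun i => ((g i).1.card, (g i).2.card) = (d, f)) with hJdef
  by_cases hJn : J.Nonempty
  · obtain ⟨i, hi⟩ := hJn
    obtain ⟨hi1, hi2⟩ := mem_filter.1 hi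
    have h := hg i (mem_range.1 hi1)
    have e1 : (g i).1.card = d := congrArg Prod.fst hi2
    have e2 : (g i).2.card = f := congrArg Prod.snd hi2
    refine ⟨d, f, e1 ▸ h.le, e2 ▸ card_pos.2 h.ne, e2 ▸ h.lt, J, filter_subset _ _, hJ, ?_⟩
    intro j hj
    have := (mem_filter.1 hj).2
    exact ⟨congrArg Prod.fst this, congrArg Prod.snd this⟩
  · rw [not_nonempty_iff_eq_empty] at hJn
    have h := hg 0 hM0
    have hN : N = 0 := by
      rw [hJn, card_empty] at hJ; omega
    exact ⟨(g 0).1.card, (g 0).2.card, h.le, card_pos.2 h.ne, h.lt, ∅, by simp, by simp [hN],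
      by simp⟩

/-- Filling: sets hanging on `X` of prescribed sizes. -/
lemma fill {X R : Finset V} {L s d f M : ℕ} {g : ℕ → Finset V × Finset V}
    (hg : ∀ i < M, Gad G X R L s (g i))
    (hd : ∀ i < M, ∀ j < M, i ≠ j → Disjoint ((g i).1 ∪ (g i).2) ((g j).1 ∪ (g j).2))
    {J : Finset ℕ} (hJM : J ⊆ range M) (hJ : ∀ i ∈ J, (g i).1.card = d ∧ (g i).2.card = f)
    {a b : ℕ} (ha : a ≤ J.card) (hb : b ≤ a) :
    ∃ W ⊆ J.biUnion (fun i => (g i).1 ∪ (g i).2), Hang G X W ∧ W.card = a * d + b * f := by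
  obtain ⟨J₁, hJ₁, hc₁⟩ := exists_subset_card_eq ha
  obtain ⟨J₂, hJ₂, hc₂⟩ := exists_subset_card_eq (s := J₁) (n := b) (by omega)
  set F : ℕ → Finset V := fun i => if i ∈ J₂ then (g i).1 ∪ (g i).2 else (g i).1 with hF
  have hFsub : ∀ i, F i ⊆ (g i).1 ∪ (g i).2 := by
    intro i
    simp only [hF]
    split_ifs
    · exact Subset.rfl
    · exact subset_union_left
  refine ⟨J₁.biUnion F, ?_, ?_, ?_⟩
  · apply biUnion_subset.2
    intro i hi
    exact (hFsub i).trans (subset_biUnion_of_mem (fun i => (g i).1 ∪ (g i).2) (hJ₁ hi))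
  · apply Hang.biUnion
    intro i hi
    have hiM := mem_range.1 (hJM (hJ₁ hi))
    simp only [hF]
    split_ifs
    · exact (hg i hiM).h2
    · exact (hg i hiM).h1
  · rw [card_biUnion]
    · have : ∀ i ∈ J₁, (F i).card = d + if i ∈ J₂ then f else 0 := by
        intro i hi
        have hiM := mem_range.1 (hJM (hJ₁ hi))
        obtain ⟨e1, e2⟩ := hJ i (hJ₁ hi)
        simp only [hF]
        split_ifs
        · rw [card_union_of_disjoint (hg i hiM).dj, e1, e2]
        · rw [e1]; rfl
      rw [sum_congr rfl this, sum_add_distrib, ← sum_filter]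
      have h3 : J₁.filter (fun i => i ∈ J₂) = J₂ := by
        ext i
        simp only [mem_filter]
        exact ⟨fun h => h.2, fun h => ⟨hJ₂ h, h⟩⟩
      rw [h3]
      simp [hc₁, hc₂]
    · intro i hi j hj hij
      exact disjoint_of_subset_left (hFsub i) (disjoint_of_subset_right (hFsub j)
        (hd i (mem_range.1 (hJM (hJ₁ hi))) j (mem_range.1 (hJM (hJ₁ hj))) hij))

end Pool.Agent.Lib.MP_d31508_co.Sharp
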