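import Pool.Agent.Lib.MP_d31508_co.Sharp.Basic

set_option linter.unusedSectionVars false

/-!
# Windmills and theta graphs: graphs with `3n/2` edges and closed sets of one parity only
-/

namespace Pool.Agent.Lib.MP_d31508_co.Sharp

open Finset Classical
open Pool.Agent.Lib.MP_d31508_co.Asy (dg Cl D)

/-- a set with a fixed point free involution is even -/
lemma even_of_invol (S : Finset ℕ) (σ : ℕ → ℕ) (h1 : ∀ x ∈ S, σ x ∈ S) (h2 : ∀ x ∈ S, σ x ≠ x)
    (h3 : ∀ x ∈ S, σ (σ x) = x) : Even S.card := by
  have h : ∑ _x ∈ S, (1 : ZMod 2) = 0 := by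
    apply Finset.sum_involution (fun x _ => σ x)
    · intro a _; decide
    · intro a ha _; exact h2 a ha
    · intro a ha; exact h1 a ha
    · intro a ha; exact h3 a ha
  rw [sum_const, nsmul_eq_mul, mul_one] at h
  exact (ZMod.natCast_eq_zero_iff_even).1 h

/-- a lower bound for `D` -/
lemma D_lower {V : Type} [Fintype V] (H : SimpleGraph V) (X R : Finset V)
    (hR : ∀ v, v ∈ R ↔ v ∉ X) (h1 : ∀ y ∈ R, 1 ≤ dg H X y) (z : V → Prop)
    (hz : ∀ a b, z a → z b → a = b) (h2 : ∀ y ∈ R, ¬ z y → 1 ≤ dg H R y) :
    D H X + 3 * R.card ≤ D H univ + 1 ∧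
    ((∀ y ∈ R, 1 ≤ dg H R y) → D H X + 3 * R.card ≤ D H univ) := by
  have h := D_sub (G := H) (subset_univ X)
  have e : univ \ X = R := by
    ext v
    rw [hR]; simp
  rw [e] at h
  have a1 : R.card ≤ ∑ y ∈ R, dg H X y := by
    rw [card_eq_sum_ones]
    exact sum_le_sum (fun y hy => h1 y hy)
  constructor
  · have a2 : R.card ≤ D H R + 1 := by
      have b1 : ∑ _y ∈ R, 1 ≤ ∑ y ∈ R, (dg H R y + if z y then 1 else 0) := by
        apply sum_le_sum
        intro y hy
        by_cases hz : z y
        · simp [hz]
        · simp only [hz, if_false, add_zero]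
          exact h2 y hy hz
      rw [sum_add_distrib, ← card_eq_sum_ones] at b1
      have b2 : ∑ y ∈ R, (if z y then 1 else 0) ≤ 1 := by
        rw [← sum_filter, ← card_eq_sum_ones, card_le_one]
        intro a ha b hb
        exact hz a b (mem_filter.1 ha).2 (mem_filter.1 hb).2
      have b3 : D H R = ∑ y ∈ R, dg H R y := rfl
      omega
    omega
  · intro h3
    have a2 : R.card ≤ D H R := by
      rw [card_eq_sum_ones]
      exact sum_le_sum (fun y hy => h3 y hy)
    omega

lemma D_pair {V : Type} [Fintype V] {H : SimpleGraph V} {a b : V} (h : H.Adj a b)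
    {X : Finset V} (hX : ∀ v, v ∈ X ↔ v = a ∨ v = b) : D H X = 2 := by
  have e : X = insert a {b} := by ext v; rw [hX]; simp
  rw [e, D_insert (by simpa using h.ne), D_singleton]
  have : dg H {b} a = 1 := by
    unfold dg
    rw [filter_singleton, if_pos h, card_singleton]
  rw [this]

/-- Windmill graph: triangles sharing the vertex `0`. -/
theorem windmill (n m : ℕ) (hn : 1 ≤ n) (hm : Even m) (hm0 : 1 ≤ m) :
    ∃ H : SimpleGraph (Fin n), (∀ S : Finset (Fin n), S.card = m → ¬ Cl H S) ∧
      2 * (3 * (n - 1) / 2) ≤ D H univ := by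
  obtain ⟨H, hH⟩ : ∃ H : SimpleGraph (Fin n), ∀ x y, H.Adj x y ↔
      (x ≠ y ∧ (x.val = 0 ∨ y.val = 0 ∨ (x.val + 1) / 2 = (y.val + 1) / 2)) :=
    ⟨{ Adj := fun x y => x ≠ y ∧ (x.val = 0 ∨ y.val = 0 ∨ (x.val + 1) / 2 = (y.val + 1) / 2)
       symm := ⟨fun x y h => ⟨h.1.symm, by
        rcases h.2 with h | h | h
        exacts [Or.inr (Or.inl h), Or.inl h, Or.inr (Or.inr h.symm)]⟩⟩
       loopless := ⟨fun x h => h.1 rfl⟩ }, fun x y => Iff.rfl⟩
  refine ⟨H, ?_, ?_⟩
  · intro S hS hcl
    set T : Finset ℕ := S.image (fun x => x.val) with hT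
    have hTc : T.card = m := by
      rw [hT, card_image_of_injective _ Fin.val_injective, hS]
    -- two neighbours
    have key : ∀ x ∈ T, x ≠ 0 → 0 ∈ T ∧ ∃ y ∈ T, y ≠ 0 ∧ y ≠ x ∧ (x + 1) / 2 = (y + 1) / 2 := by
      intro x hx hx0
      rw [hT, mem_image] at hx
      obtain ⟨x', hx', rfl⟩ := hx
      obtain ⟨y, hy, z, hz, hyz, h1, h2⟩ := two_le_dg_iff.1 (hcl x' hx')
      rw [hH] at h1 h2
      have hyz' : y.val ≠ z.val := fun h => hyz (Fin.ext h)
      have h1' : x'.val ≠ y.val := fun h => h1.1 (Fin.ext h)
      have h2' : x'.val ≠ z.val := fun h => h2.1 (Fin.ext h)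
      have hyT : y.val ∈ T := by rw [hT]; exact mem_image_of_mem _ hy
      have hzT : z.val ∈ T := by rw [hT]; exact mem_image_of_mem _ hz
      rcases Nat.eq_zero_or_pos y.val with h0 | h0
      · refine ⟨h0 ▸ hyT, z.val, hzT, by omega, by omega, ?_⟩
        rcases h2.2 with h | h | h <;> omega
      · rcases Nat.eq_zero_or_pos z.val with h3 | h3
        · refine ⟨h3 ▸ hzT, y.val, hyT, by omega, by omega, ?_⟩
          rcases h1.2 with h | h | h <;> omega
        · exfalso
          have e1 := h1.2
          have e2 := h2.2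
          omega
    have hne : ∃ x ∈ T, x ≠ 0 := by
      by_contra hcon
      push Not at hcon
      have : T ⊆ {0} := fun x hx => by rw [mem_singleton]; exact hcon x hx
      have h1 := card_le_card this
      rw [card_singleton] at h1
      obtain ⟨a, ha⟩ := hm
      omega
    obtain ⟨x, hx, hx0⟩ := hne
    have h0 := (key x hx hx0).1
    have hev : Even (T.erase 0).card := by
      apply even_of_invol (T.erase 0) (fun x => if x % 2 = 1 then x + 1 else x - 1)
      · intro x hx
        rw [mem_erase] at hx ⊢
        obtain ⟨-, y, hy, h1, h2, h3⟩ := key x hx.2 hx.1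
        have : (if x % 2 = 1 then x + 1 else x - 1) = y := by
          split_ifs <;> omega
        rw [this]
        exact ⟨h1, hy⟩
      · intro x hx
        rw [mem_erase] at hx
        show (if x % 2 = 1 then x + 1 else x - 1) ≠ x
        split_ifs <;> omega
      · intro x hx
        rw [mem_erase] at hx
        show (if (if x % 2 = 1 then x + 1 else x - 1) % 2 = 1 then
          (if x % 2 = 1 then x + 1 else x - 1) + 1 else (if x % 2 = 1 then x + 1 else x - 1) - 1) = x
        split_ifs <;> omega
    rw [card_erase_of_mem h0, hTc] at hev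
    obtain ⟨a, ha⟩ := hm
    obtain ⟨b, hb⟩ := hev
    omega
  · have h0 : ∀ y : Fin n, y ∉ ({⟨0, hn⟩} : Finset (Fin n)) → y.val ≠ 0 := by
      intro y hy h
      apply hy
      rw [mem_singleton]
      exact Fin.ext h
    have hc : ({⟨0, hn⟩} : Finset (Fin n)).card = 1 := card_singleton _
    have partner : ∀ y : Fin n, y.val ≠ 0 → (y.val % 2 = 1 → y.val + 1 < n) →
        1 ≤ dg H ({⟨0, hn⟩} : Finset (Fin n))ᶜ y := by
      intro y hy hyn
      have hyl := y.isLt
      by_cases hp : y.val % 2 = 1
      · apply one_le_dg (y := ⟨y.val + 1, hyn hp⟩)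
        · rw [mem_compl, mem_singleton]
          intro h
          have := congrArg Fin.val h
          simp at this
        · rw [hH]
          refine ⟨?_, Or.inr (Or.inr ?_)⟩
          · intro h
            have := congrArg Fin.val h
            simp at this
          · show (y.val + 1) / 2 = (y.val + 1 + 1) / 2
            omega
      · apply one_le_dg (y := ⟨y.val - 1, by omega⟩)
        · rw [mem_compl, mem_singleton]
          intro h
          have := congrArg Fin.val h
          simp at this
          omega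
        · rw [hH]
          refine ⟨?_, Or.inr (Or.inr ?_)⟩
          · intro h
            have := congrArg Fin.val h
            simp at this
            omega
          · show (y.val + 1) / 2 = (y.val - 1 + 1) / 2
            omega
    obtain ⟨h1, h2⟩ := D_lower H {⟨0, hn⟩} ({⟨0, hn⟩} : Finset (Fin n))ᶜ (by simp) (by
      intro y hy
      rw [mem_compl] at hy
      apply one_le_dg (G := H) (y := (⟨0, hn⟩ : Fin n)) (mem_singleton_self _)
      rw [hH]
      refine ⟨?_, Or.inr (Or.inl rfl)⟩
      intro h
      exact hy (by rw [mem_singleton, h])) (fun y => y.val = n - 1)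
      (fun a b ha hb => Fin.ext (ha.trans hb.symm)) (by
      intro y hy hyn
      rw [mem_compl] at hy
      have := y.isLt
      exact partner y (h0 y hy) (by omega))
    rw [card_compl, Fintype.card_fin, hc, D_singleton] at h1 h2
    by_cases hp : n % 2 = 1
    · have := h2 (fun y hy => partner y (h0 y (mem_compl.1 hy)) (by have := y.isLt; omega))
      omega
    · omega

/-- Theta graph: two adjacent hubs joined by paths of length three. -/
theorem theta (n m : ℕ) (hn : 2 ≤ n) (hm : Odd m) :
    ∃ H : SimpleGraph (Fin n), (∀ S : Finset (Fin n), S.card = m → ¬ Cl H S) ∧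
      2 * (3 * n / 2 - 2) ≤ D H univ := by
  obtain ⟨H, hH⟩ : ∃ H : SimpleGraph (Fin n), ∀ x y, H.Adj x y ↔
      (x ≠ y ∧ (x.val / 2 = y.val / 2 ∨ (x.val = 0 ∧ y.val % 2 = 0) ∨ (y.val = 0 ∧ x.val % 2 = 0) ∨
        (x.val = 1 ∧ y.val % 2 = 1) ∨ (y.val = 1 ∧ x.val % 2 = 1))) :=
    ⟨{ Adj := fun x y => x ≠ y ∧ (x.val / 2 = y.val / 2 ∨ (x.val = 0 ∧ y.val % 2 = 0) ∨
        (y.val = 0 ∧ x.val % 2 = 0) ∨ (x.val = 1 ∧ y.val % 2 = 1) ∨ (y.val = 1 ∧ x.val % 2 = 1))
       symm := ⟨fun x y h => ⟨h.1.symm, by
        rcases h.2 with h | h | h | h | h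
        exacts [Or.inl h.symm, Or.inr (Or.inr (Or.inl h)), Or.inr (Or.inl h),
          Or.inr (Or.inr (Or.inr (Or.inr h))), Or.inr (Or.inr (Or.inr (Or.inl h)))]⟩⟩
       loopless := ⟨fun x h => h.1 rfl⟩ }, fun x y => Iff.rfl⟩
  refine ⟨H, ?_, ?_⟩
  · intro S hS hcl
    set T : Finset ℕ := S.image (fun x => x.val) with hT
    have hTc : T.card = m := by
      rw [hT, card_image_of_injective _ Fin.val_injective, hS]
    -- the partner is in the set, and the right hub
    have key : ∀ x ∈ T, 2 ≤ x → x % 2 ∈ T ∧ ∃ y ∈ T, 2 ≤ y ∧ y ≠ x ∧ x / 2 = y / 2 := by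
      intro x hx hx0
      rw [hT, mem_image] at hx
      obtain ⟨x', hx', rfl⟩ := hx
      obtain ⟨y, hy, z, hz, hyz, h1, h2⟩ := two_le_dg_iff.1 (hcl x' hx')
      rw [hH] at h1 h2
      have hyz' : y.val ≠ z.val := fun h => hyz (Fin.ext h)
      have h1' : x'.val ≠ y.val := fun h => h1.1 (Fin.ext h)
      have h2' : x'.val ≠ z.val := fun h => h2.1 (Fin.ext h)
      have hyT : y.val ∈ T := by rw [hT]; exact mem_image_of_mem _ hy
      have hzT : z.val ∈ T := by rw [hT]; exact mem_image_of_mem _ hz
      by_cases h0 : y.val < 2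
      · have e1 : x'.val % 2 = y.val := by
          rcases h1.2 with h | h | h | h | h <;> omega
        refine ⟨e1 ▸ hyT, z.val, hzT, ?_, by omega, ?_⟩
        · by_contra hcon
          rcases h2.2 with h | h | h | h | h <;> omega
        · rcases h2.2 with h | h | h | h | h <;> omega
      · by_cases h3 : z.val < 2
        · have e1 : x'.val % 2 = z.val := by
            rcases h2.2 with h | h | h | h | h <;> omega
          refine ⟨e1 ▸ hzT, y.val, hyT, by omega, by omega, ?_⟩
          rcases h1.2 with h | h | h | h | h <;> omega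
        · exfalso
          have e1 := h1.2
          have e2 := h2.2
          omega
    have key2 : ∀ x ∈ T, 2 ≤ x → 0 ∈ T ∧ 1 ∈ T := by
      intro x hx h2
      obtain ⟨a1, y, hy, a2, a3, a4⟩ := key x hx h2
      obtain ⟨b1, -⟩ := key y hy a2
      have : (x % 2 = 0 ∧ y % 2 = 1) ∨ (x % 2 = 1 ∧ y % 2 = 0) := by omega
      rcases this with ⟨c1, c2⟩ | ⟨c1, c2⟩
      · rw [c1] at a1; rw [c2] at b1; exact ⟨a1, b1⟩
      · rw [c1] at a1; rw [c2] at b1; exact ⟨b1, a1⟩
    have hne : ∃ x ∈ T, 2 ≤ x := by
      by_contra hcon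
      push Not at hcon
      -- `T ⊆ {0, 1}`, a vertex of `S` has two neighbours
      have hpos : 0 < T.card := by
        rw [hTc]; obtain ⟨a, ha⟩ := hm; omega
      obtain ⟨x, hx⟩ := card_pos.1 hpos
      rw [hT, mem_image] at hx
      obtain ⟨x', hx', rfl⟩ := hx
      obtain ⟨y, hy, z, hz, hyz, h1, h2⟩ := two_le_dg_iff.1 (hcl x' hx')
      have hyT : y.val ∈ T := by rw [hT]; exact mem_image_of_mem _ hy
      have hzT : z.val ∈ T := by rw [hT]; exact mem_image_of_mem _ hz
      have hxT : x'.val ∈ T := by rw [hT]; exact mem_image_of_mem _ hx'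
      have e1 := hcon _ hyT
      have e2 := hcon _ hzT
      have e3 := hcon _ hxT
      have hyz' : y.val ≠ z.val := fun h => hyz (Fin.ext h)
      have h1' : x'.val ≠ y.val := fun h => h1.ne (Fin.ext h)
      have h2' : x'.val ≠ z.val := fun h => h2.ne (Fin.ext h)
      omega
    obtain ⟨x, hx, hx2⟩ := hne
    obtain ⟨h0, h1⟩ := key2 x hx hx2
    have hev : Even T.card := by
      apply even_of_invol T (fun x => if x % 2 = 1 then x - 1 else x + 1)
      · intro x hx
        by_cases hx2 : 2 ≤ x
        · obtain ⟨-, y, hy, a1, a2, a3⟩ := key x hx hx2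
          have : (if x % 2 = 1 then x - 1 else x + 1) = y := by
            split_ifs <;> omega
          show (if x % 2 = 1 then x - 1 else x + 1) ∈ T
          rw [this]
          exact hy
        · show (if x % 2 = 1 then x - 1 else x + 1) ∈ T
          have : x = 0 ∨ x = 1 := by omega
          rcases this with rfl | rfl
          · simpa using h1
          · simpa using h0
      · intro x hx
        show (if x % 2 = 1 then x - 1 else x + 1) ≠ x
        split_ifs <;> omega
      · intro x hx
        show (if (if x % 2 = 1 then x - 1 else x + 1) % 2 = 1 then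
          (if x % 2 = 1 then x - 1 else x + 1) - 1 else (if x % 2 = 1 then x - 1 else x + 1) + 1) = x
        split_ifs <;> omega
    rw [hTc] at hev
    obtain ⟨a, ha⟩ := hm
    obtain ⟨b, hb⟩ := hev
    omega
  · have h01 : (⟨0, by omega⟩ : Fin n) ≠ ⟨1, by omega⟩ := by
      intro h
      have := congrArg Fin.val h
      simp at this
    set X : Finset (Fin n) := {⟨0, by omega⟩, ⟨1, by omega⟩} with hX
    have h0 : ∀ y : Fin n, y ∉ X → 2 ≤ y.val := by
      intro y hy
      by_contra h
      apply hy
      rw [hX, mem_insert, mem_singleton]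
      have : y.val = 0 ∨ y.val = 1 := by omega
      rcases this with h | h
      · left; exact Fin.ext h
      · right; exact Fin.ext h
    have hmemX : ∀ y : Fin n, 2 ≤ y.val → y ∉ X := by
      intro y hy h
      rw [hX, mem_insert, mem_singleton] at h
      rcases h with h | h
      · have := congrArg Fin.val h
        simp at this; omega
      · have := congrArg Fin.val h
        simp at this; omega
    have hc : X.card = 2 := by rw [hX]; exact card_pair h01
    have hDX : D H X = 2 := by
      apply D_pair (a := (⟨0, by omega⟩ : Fin n)) (b := ⟨1, by omega⟩)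
      · rw [hH]
        exact ⟨h01, Or.inl (show 0 / 2 = 1 / 2 by norm_num)⟩
      · intro v; rw [hX, mem_insert, mem_singleton]
    have partner : ∀ y : Fin n, 2 ≤ y.val → (y.val % 2 = 0 → y.val + 1 < n) →
        1 ≤ dg H Xᶜ y := by
      intro y hy hyn
      have hyl := y.isLt
      by_cases hp : y.val % 2 = 0
      · apply one_le_dg (y := ⟨y.val + 1, hyn hp⟩)
        · rw [mem_compl]
          apply hmemX
          show 2 ≤ y.val + 1
          omega
        · rw [hH]
          refine ⟨?_, Or.inl ?_⟩
          · intro h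
            have := congrArg Fin.val h
            simp at this
          · show y.val / 2 = (y.val + 1) / 2
            omega
      · apply one_le_dg (y := ⟨y.val - 1, by omega⟩)
        · rw [mem_compl]
          apply hmemX
          show 2 ≤ y.val - 1
          omega
        · rw [hH]
          refine ⟨?_, Or.inl ?_⟩
          · intro h
            have := congrArg Fin.val h
            simp at this
            omega
          · show y.val / 2 = (y.val - 1) / 2
            omega
    obtain ⟨h1, h2⟩ := D_lower H X Xᶜ (by simp) (by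
      intro y hy
      rw [mem_compl] at hy
      have hy2 := h0 y hy
      by_cases hp : y.val % 2 = 0
      · apply one_le_dg (G := H) (y := (⟨0, by omega⟩ : Fin n)) (by rw [hX]; simp)
        rw [hH]
        refine ⟨?_, Or.inr (Or.inr (Or.inl ⟨rfl, hp⟩))⟩
        intro h
        have := congrArg Fin.val h
        simp at this; omega
      · apply one_le_dg (G := H) (y := (⟨1, by omega⟩ : Fin n)) (by rw [hX]; simp)
        rw [hH]
        refine ⟨?_, Or.inr (Or.inr (Or.inr (Or.inr ⟨rfl, by omega⟩)))⟩
        intro h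
        have := congrArg Fin.val h
        simp at this; omega) (fun y => y.val = n - 1)
      (fun a b ha hb => Fin.ext (ha.trans hb.symm)) (by
      intro y hy hyn
      rw [mem_compl] at hy
      have := y.isLt
      exact partner y (h0 y hy) (by omega))
    rw [card_compl, Fintype.card_fin, hc, hDX] at h1 h2
    by_cases hp : n % 2 = 0
    · have := h2 (fun y hy => partner y (h0 y (mem_compl.1 hy)) (by have := y.isLt; omega))
      omega
    · omega

end Pool.Agent.Lib.MP_d31508_co.Sharp
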