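import Pool.Agent.Lib.MP_d31508_co.Sharp.Upper
import Pool.Agent.Lib.MP_d31508_co.Sharp.Lower
import Pool.Agent.Lib.MP_d31508_co.Asy.Compl
import Pool.Agent.Lib.MP_d31508_co.Asy.Glue

set_option linter.unusedSectionVars false

/-!
# Sharp asymptotics for `f(n,k)`
-/

namespace Pool.Agent.Lib.MP_d31508_co.Sharp

open Finset Classical
open Pool.Agent.Lib.MP_d31508_co.Asy (dg Cl D f stCompl glue_part1)

lemma log_bound {n : ℕ} (hn : 2 ≤ n) : ((Nat.log 2 n + 1 : ℕ) : ℝ) ≤ 3 * Real.log n := by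
  have h1 : (2 : ℝ) ^ (Nat.log 2 n) ≤ n := by
    exact_mod_cast Nat.pow_log_le_self 2 (by omega)
  have h2 := Real.log_le_log (by positivity) h1
  rw [Real.log_pow] at h2
  have h3 : Real.log 2 ≤ Real.log n := Real.log_le_log (by norm_num) (by exact_mod_cast hn)
  have h4 := Real.log_two_gt_d9
  push_cast
  have h5 : (0 : ℝ) ≤ (Nat.log 2 n : ℝ) := Nat.cast_nonneg _
  have h6 : (Nat.log 2 n : ℝ) * 0.6931471803 ≤ Real.log n := by nlinarith
  nlinarith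

/-- the difference `C(n,2) - f(n,k)` from above -/
lemma diff_le {n k : ℕ} (hk : 1 ≤ k) : ∃ H : SimpleGraph (Fin n),
    (∀ S : Finset (Fin n), S.card = k + 2 → ¬ Cl H S) ∧
    (n.choose 2 : ℝ) - f n k = (D H univ : ℝ) / 2 := by
  obtain ⟨-, H, h1, h2⟩ := stCompl n k hk
  refine ⟨H, h1, ?_⟩
  rw [Nat.cast_choose_two]
  have h3 : 2 * (f n k : ℝ) + D H univ + n = n * n := by exact_mod_cast h2
  linarith

/-- the difference `C(n,2) - f(n,k)` from below -/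
lemma le_diff {n k : ℕ} (hk : 1 ≤ k) (H : SimpleGraph (Fin n))
    (hH : ∀ S : Finset (Fin n), S.card = k + 2 → ¬ Cl H S) :
    (D H univ : ℝ) / 2 ≤ (n.choose 2 : ℝ) - f n k := by
  have h2 := (stCompl n k hk).1 H hH
  rw [Nat.cast_choose_two]
  have h3 : 2 * (f n k : ℝ) + D H univ + n ≤ n * n := by exact_mod_cast h2
  linarith

lemma lower_sparse {n k : ℕ} (hk : 2 ≤ k) (hn : k + 2 ≤ n) :
    ((k : ℝ) + 1) * k / 2 + (n - (k + 1)) ≤ (n.choose 2 : ℝ) - f n k := by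
  obtain ⟨j, rfl⟩ : ∃ j, n = k + 1 + j := ⟨n - (k + 1), by omega⟩
  obtain ⟨H, h1, h2⟩ := glue_part1 k j
  have h3 := le_diff (by omega) H h1
  have h4 : ((k : ℝ) + 1) * k + 2 * j ≤ D H univ := by exact_mod_cast h2
  push_cast at h3 ⊢
  linarith

lemma lower_dense {n k : ℕ} (hk : 1 ≤ k) (hn : k + 2 ≤ n) :
    (3 * (n : ℝ) - 5) / 2 ≤ (n.choose 2 : ℝ) - f n k := by
  rcases Nat.even_or_odd (k + 2) with h | h
  · obtain ⟨H, h1, h2⟩ := windmill n (k + 2) (by omega) h (by omega)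
    have h3 := le_diff hk H h1
    have h4 : 3 * n ≤ D H univ + 5 := by omega
    have h5 : 3 * (n : ℝ) ≤ D H univ + 5 := by exact_mod_cast h4
    linarith
  · obtain ⟨H, h1, h2⟩ := theta n (k + 2) (by omega) h
    have h3 := le_diff hk H h1
    have h4 : 3 * n ≤ D H univ + 5 := by omega
    have h5 : 3 * (n : ℝ) ≤ D H univ + 5 := by exact_mod_cast h4
    linarith

lemma ineq_sparse {δ q k n d : ℝ} (hδ0 : 0 < δ) (hδ1 : δ ≤ 1) (hq0 : 0 < q)
    (hqδ : 8 ≤ q * δ) (hk : 2 ≤ k) (hkδ : 32 ≤ k * δ) (hn : 0 ≤ n)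
    (h1 : q * (q * d) ≤ (q + 1) * (k + 2) * ((q + 1) * (k + 2)) + 2 * q * (q + 1) * n) :
    d / 2 ≤ (1 + δ) * (n + k ^ 2 / 2) := by
  have h2 : q + 1 ≤ (1 + δ / 8) * q := by linarith
  have hk0 : 0 ≤ k * k := by positivity
  have h3 : (k + 2) * (k + 2) ≤ (1 + δ / 4) * (k * k) := by
    have e1 : 32 * k ≤ k * δ * k := mul_le_mul_of_nonneg_right hkδ (by linarith)
    have e2 : 2 * k ≤ k * k := mul_le_mul_of_nonneg_right hk (by linarith)
    linarith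
  have h4 : (q + 1) * (q + 1) ≤ (1 + δ / 8) * q * ((1 + δ / 8) * q) :=
    mul_le_mul h2 h2 (by positivity) (by positivity)
  have h5 : (q + 1) * (q + 1) * ((k + 2) * (k + 2)) ≤
      (1 + δ / 8) * q * ((1 + δ / 8) * q) * ((1 + δ / 4) * (k * k)) :=
    mul_le_mul h4 h3 (by positivity) (by positivity)
  have h6 : (1 + δ / 8) * (1 + δ / 8) * (1 + δ / 4) ≤ 1 + δ := by
    have e1 : δ * δ ≤ δ := by
      calc δ * δ ≤ 1 * δ := mul_le_mul_of_nonneg_right hδ1 hδ0.le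
        _ = δ := one_mul δ
    have e2 : δ * δ * δ ≤ δ := by
      calc δ * δ * δ ≤ δ * δ := by
            calc δ * δ * δ ≤ δ * δ * 1 := mul_le_mul_of_nonneg_left hδ1 (by positivity)
              _ = δ * δ := mul_one _
        _ ≤ δ := e1
    have e3 : (1 + δ / 8) * (1 + δ / 8) * (1 + δ / 4) =
        1 + δ / 2 + 5 / 64 * (δ * δ) + 1 / 256 * (δ * δ * δ) := by ring
    rw [e3]
    linarith
  have h7 : (1 + δ / 8) * q * ((1 + δ / 8) * q) * ((1 + δ / 4) * (k * k)) ≤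
      (1 + δ) * (q * q * (k * k)) := by
    have e : 0 ≤ q * q * (k * k) := by positivity
    calc _ = (1 + δ / 8) * (1 + δ / 8) * (1 + δ / 4) * (q * q * (k * k)) := by ring
      _ ≤ _ := mul_le_mul_of_nonneg_right h6 e
  have h8 : 2 * q * (q + 1) * n ≤ 2 * q * q * ((1 + δ) * n) := by
    have e : q + 1 ≤ (1 + δ) * q := by linarith
    calc 2 * q * (q + 1) * n = 2 * q * n * (q + 1) := by ring
      _ ≤ 2 * q * n * ((1 + δ) * q) := mul_le_mul_of_nonneg_left e (by positivity)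
      _ = _ := by ring
  have h10 : q * q * (d / 2) ≤ q * q * ((1 + δ) * (n + k ^ 2 / 2)) := by
    have e1 : q * q * (d / 2) = q * (q * d) / 2 := by ring
    have e2 : q * q * ((1 + δ) * (n + k ^ 2 / 2)) =
        (2 * q * q * ((1 + δ) * n) + (1 + δ) * (q * q * (k * k))) / 2 := by ring
    have e3 : (q + 1) * (k + 2) * ((q + 1) * (k + 2)) =
      (q + 1) * (q + 1) * ((k + 2) * (k + 2)) := by ring
    rw [e1, e2]
    rw [e3] at h1
    linarith
  exact le_of_mul_le_mul_left h10 (by positivity)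

lemma ineq_dense {δ q n d : ℝ} (hq0 : 0 < q) (hqδ : 8 ≤ q * δ) (hn : 0 ≤ n)
    (h1 : q * d ≤ (3 * q + 2) * n) : d / 2 ≤ (1 + δ) * (n + n / 2) := by
  have e1 : 8 * n ≤ q * δ * n := mul_le_mul_of_nonneg_right hqδ hn
  have h2 : q * (d / 2) ≤ q * ((1 + δ) * (n + n / 2)) := by
    have e2 : q * ((1 + δ) * (n + n / 2)) = 3 / 2 * (q * n) + 3 / 2 * (q * δ * n) := by ring
    have e3 : (3 * q + 2) * n = 3 * (q * n) + 2 * n := by ring
    rw [e2]
    rw [e3] at h1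
    linarith
  exact le_of_mul_le_mul_left h2 hq0

/-- **Sharp asymptotics.** -/
theorem sharp (ε : ℝ) (hε : 0 < ε) : ∃ C : ℝ, ∀ n k : ℕ, k + 2 ≤ n →
    C * Real.log n ^ 32 ≤ k →
    (1 - ε) * ((n : ℝ) + max ((k : ℝ) ^ 2) n / 2) ≤ (n.choose 2 : ℝ) - f n k ∧
    (n.choose 2 : ℝ) - f n k ≤ (1 + ε) * ((n : ℝ) + max ((k : ℝ) ^ 2) n / 2) := by
  set δ := min ε 1 with hδ
  have hδ0 : 0 < δ := lt_min hε one_pos
  have hδ1 : δ ≤ 1 := min_le_right _ _
  have hδε : δ ≤ ε := min_le_left _ _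
  obtain ⟨q, hq⟩ := exists_nat_ge (8 / δ)
  have hq0 : (0 : ℝ) < q := lt_of_lt_of_le (by positivity) hq
  have hq1 : 1 ≤ q := by exact_mod_cast hq0
  have hqδ : 8 ≤ q * δ := by
    rw [div_le_iff₀ hδ0] at hq; exact hq
  obtain ⟨K, hK⟩ := exists_nat_ge (32 / δ)
  set C0 : ℝ := ((578 * 24 ^ 4 * 363 ^ 16 * q ^ 37 : ℕ) : ℝ) with hC0
  have hC0n : 0 ≤ C0 := Nat.cast_nonneg _
  have hK0 : (0 : ℝ) ≤ K := Nat.cast_nonneg _
  refine ⟨(C0 + (K + 2)) * 3 ^ 32, ?_⟩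
  intro n k hn hk
  have hn2 : 2 ≤ n := by omega
  obtain ⟨l, hl1, hll, hnl⟩ : ∃ l : ℕ, 1 ≤ l ∧ (l : ℝ) ≤ 3 * Real.log n ∧ n < 2 ^ l :=
    ⟨Nat.log 2 n + 1, by omega, log_bound hn2, Nat.lt_pow_succ_log_self (by norm_num) n⟩
  have hl32 : (l : ℝ) ^ 32 ≤ 3 ^ 32 * Real.log n ^ 32 := by
    rw [← mul_pow]
    exact pow_le_pow_left₀ (Nat.cast_nonneg _) hll _
  have hl1' : (1 : ℝ) ≤ (l : ℝ) ^ 32 := by
    apply one_le_pow₀
    exact_mod_cast hl1
  have hk2 : C0 * (l : ℝ) ^ 32 + (K + 2) ≤ k := by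
    have h2 : ((K : ℝ) + 2) * 1 ≤ (K + 2) * (l : ℝ) ^ 32 :=
      mul_le_mul_of_nonneg_left hl1' (by positivity)
    calc C0 * (l : ℝ) ^ 32 + (K + 2) ≤ (C0 + (K + 2)) * (l : ℝ) ^ 32 := by linarith
      _ ≤ (C0 + (K + 2)) * (3 ^ 32 * Real.log n ^ 32) :=
        mul_le_mul_of_nonneg_left hl32 (by positivity)
      _ = (C0 + (K + 2)) * 3 ^ 32 * Real.log n ^ 32 := by ring
      _ ≤ k := hk
  have hC0l : 0 ≤ C0 * (l : ℝ) ^ 32 := by positivity
  have hKk : (K : ℝ) + 2 ≤ k := by linarith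
  have hkR : (2 : ℝ) ≤ k := by linarith
  have hk2' : 2 ≤ k := by exact_mod_cast hkR
  have hkδ : 32 ≤ k * δ := by
    rw [div_le_iff₀ hδ0] at hK
    have : (K : ℝ) * δ ≤ k * δ := mul_le_mul_of_nonneg_right (by linarith) hδ0.le
    linarith
  have hkn : (k : ℝ) ≤ n := by exact_mod_cast (by omega : k ≤ n)
  have hn0 : (0 : ℝ) ≤ n := Nat.cast_nonneg _
  have hmax1 : (k : ℝ) ^ 2 ≤ max ((k : ℝ) ^ 2) n := le_max_left _ _
  have hmax2 : (n : ℝ) ≤ max ((k : ℝ) ^ 2) n := le_max_right _ _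
  constructor
  · -- lower bound
    rcases le_total (n : ℝ) ((k : ℝ) ^ 2) with h | h
    · rw [max_eq_left h]
      have h1 := lower_sparse hk2' hn
      have h2 : 32 * (k : ℝ) ≤ k * δ * k := mul_le_mul_of_nonneg_right hkδ (by linarith)
      have h3 : δ * ((n : ℝ) + k ^ 2 / 2) ≤ ε * ((n : ℝ) + k ^ 2 / 2) :=
        mul_le_mul_of_nonneg_right hδε (by positivity)
      have h4 : 0 ≤ δ * n := by positivity
      linarith
    · rw [max_eq_right h]
      have h1 := lower_dense (by omega) hn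
      have h3 : δ * ((n : ℝ) + n / 2) ≤ ε * ((n : ℝ) + n / 2) :=
        mul_le_mul_of_nonneg_right hδε (by positivity)
      have h4 : (k : ℝ) * δ ≤ n * δ := mul_le_mul_of_nonneg_right hkn hδ0.le
      linarith
  · -- upper bound
    obtain ⟨H, hH, hHD⟩ := diff_le (n := n) (k := k) (by omega)
    rw [hHD]
    have hr := r_choice hq1 hnl
    have hr2 := r_choice2 hq1 hnl
    have hPhi : Phi q (2 * q * l) ≤ k + 2 := by
      have h1 := Phi_le hq1 hl1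
      have h2 : ((578 * 24 ^ 4 * 363 ^ 16 * q ^ 37 * l ^ 32 : ℕ) : ℝ) ≤ ((k + 2 : ℕ) : ℝ) := by
        have : ((578 * 24 ^ 4 * 363 ^ 16 * q ^ 37 * l ^ 32 : ℕ) : ℝ) = C0 * (l : ℝ) ^ 32 := by
          rw [hC0, Nat.cast_mul, Nat.cast_pow]
        rw [this, Nat.cast_add, Nat.cast_ofNat]
        linarith
      exact h1.trans (by exact_mod_cast h2)
    have hup := upper (G := H) (q := q) (r := 2 * q * l) (m := k + 2) hq1
      (by rw [Fintype.card_fin]; exact hr) (by rw [Fintype.card_fin]; exact hr2) hPhi hH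
    rw [Fintype.card_fin] at hup
    have hmax0 : (0 : ℝ) ≤ max ((k : ℝ) ^ 2) n := le_trans hn0 hmax2
    have hεM : (1 + δ) * ((n : ℝ) + max ((k : ℝ) ^ 2) n / 2) ≤
        (1 + ε) * ((n : ℝ) + max ((k : ℝ) ^ 2) n / 2) :=
      mul_le_mul_of_nonneg_right (by linarith) (by positivity)
    refine le_trans ?_ hεM
    rcases hup with h | h
    · have h1 : (q : ℝ) * D H univ ≤ (3 * q + 2) * n := by exact_mod_cast h
      refine (ineq_dense hq0 hqδ hn0 h1).trans ?_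
      apply mul_le_mul_of_nonneg_left _ (by linarith)
      linarith
    · have h1 : (q : ℝ) * (q * D H univ) ≤
          (q + 1) * (k + 2) * ((q + 1) * (k + 2)) + 2 * q * (q + 1) * n := by exact_mod_cast h
      refine (ineq_sparse hδ0 hδ1 hq0 hqδ hkR hkδ hn0 h1).trans ?_
      apply mul_le_mul_of_nonneg_left _ (by linarith)
      linarith

end Pool.Agent.Lib.MP_d31508_co.Sharp
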