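import Pool.Agent.Lib.MP_d31508_co.Sharp.UpperB
import Pool.Agent.Lib.MP_d31508_co.Sharp.Final

set_option linter.unusedSectionVars false

/-!
# The exact value of `f(n,k)` above the threshold `n = k²`
-/

namespace Pool.Agent.Lib.MP_d31508_co.Sharp

open Finset Classical
open Pool.Agent.Lib.MP_d31508_co.Asy (dg Cl D f stCompl glue_part1)

/-- from a bound for `D` to the exact value -/
lemma exact_of_bound {n k : ℕ} (hk : 1 ≤ k) (hn : k + 2 ≤ n)
    (h : ∀ H : SimpleGraph (Fin n), (∀ S : Finset (Fin n), S.card = k + 2 → ¬ Cl H S) →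
      (Even (k + 2) → D H univ + 3 ≤ 3 * n) ∧ (Odd (k + 2) → D H univ + 4 ≤ 3 * n)) :
    (Even k → f n k + 3 * (n - 1) / 2 = n.choose 2) ∧
    (Odd k → f n k + (3 * n / 2 - 2) = n.choose 2) := by
  obtain ⟨hlow, H, hH, hval⟩ := stCompl n k hk
  have hch : 2 * n.choose 2 + n = n * n := by
    rw [Nat.choose_two_right]
    obtain ⟨j, rfl⟩ : ∃ j, n = j + 1 := ⟨n - 1, by omega⟩
    have h1 : j + 1 - 1 = j := by omega
    rw [h1]
    have h2 : 2 ∣ (j + 1) * j := by
      rw [mul_comm]; exact (Nat.even_mul_succ_self j).two_dvd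
    rw [Nat.mul_div_cancel' h2]
    ring
  obtain ⟨d, hd⟩ := D_even (G := H) univ
  obtain ⟨h1, h2⟩ := h H hH
  constructor
  · intro he
    have he2 : Even (k + 2) := by
      obtain ⟨a, ha⟩ := he
      exact ⟨a + 1, by omega⟩
    have h3 := h1 he2
    obtain ⟨W, w1, w2⟩ := windmill n (k + 2) (by omega) he2 (by omega)
    have h4 := hlow W w1
    omega
  · intro ho
    have ho2 : Odd (k + 2) := by
      obtain ⟨a, ha⟩ := ho
      exact ⟨a + 1, by omega⟩
    have h3 := h2 ho2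
    obtain ⟨W, w1, w2⟩ := theta n (k + 2) (by omega) ho2
    have h4 := hlow W w1
    omega

/-- the numerical conditions -/
lemma numeric {δ q k n W : ℝ} (hδ0 : 0 < δ) (hδ1 : δ ≤ 1) (hq : 64 ≤ q * δ) (hq0 : 0 < q)
    (hW : q ≤ W) (hk : 100 * W ≤ k) (hn : (1 + δ) * k ^ 2 ≤ n) :
    (q + 1) * (k + 2) * ((q + 1) * (k + 2)) + 3 * q * q ≤ q * ((q - 2) * n) ∧
    q * (W * (k + 2) + 4) ≤ (q - 2) * n := by
  have hq64 : 64 ≤ q := by
    have : q * δ ≤ q * 1 := mul_le_mul_of_nonneg_left hδ1 hq0.le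
    linarith
  have hk0 : 0 < k := by linarith
  have hk1 : 6400 ≤ k := by linarith
  have hkδ : 6400 ≤ k * δ := by
    have : 100 * q * δ ≤ k * δ := mul_le_mul_of_nonneg_right (by linarith) hδ0.le
    linarith
  have hkk : k ^ 2 ≤ n := by
    have : 0 ≤ δ * k ^ 2 := by positivity
    linarith
  constructor
  · -- factor `q + 1`
    have a1 : q + 1 ≤ (1 + δ / 64) * q := by linarith
    have a2 : k + 2 ≤ (1 + δ / 3200) * k := by linarith
    have a3 : (q + 1) * (k + 2) ≤ (1 + δ / 64) * q * ((1 + δ / 3200) * k) :=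
      mul_le_mul a1 a2 (by positivity) (by positivity)
    have a4 : (q + 1) * (k + 2) * ((q + 1) * (k + 2)) ≤
        ((1 + δ / 64) * q * ((1 + δ / 3200) * k)) * ((1 + δ / 64) * q * ((1 + δ / 3200) * k)) :=
      mul_le_mul a3 a3 (by positivity) (by positivity)
    have a5 : ((1 + δ / 64) * (1 + δ / 3200)) * ((1 + δ / 64) * (1 + δ / 3200)) ≤ 1 + δ / 16 := by
      have b1 : (1 + δ / 64) * (1 + δ / 3200) ≤ 1 + δ / 50 := by nlinarith
      have b2 : (0 : ℝ) ≤ (1 + δ / 64) * (1 + δ / 3200) := by positivity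
      have b3 : ((1 + δ / 64) * (1 + δ / 3200)) * ((1 + δ / 64) * (1 + δ / 3200)) ≤
          (1 + δ / 50) * (1 + δ / 50) := mul_le_mul b1 b1 b2 (by positivity)
      nlinarith
    have a6 : (q + 1) * (k + 2) * ((q + 1) * (k + 2)) ≤ (1 + δ / 16) * (q * q * (k * k)) := by
      refine a4.trans ?_
      calc _ = ((1 + δ / 64) * (1 + δ / 3200)) * ((1 + δ / 64) * (1 + δ / 3200)) *
              (q * q * (k * k)) := by ring
        _ ≤ _ := mul_le_mul_of_nonneg_right a5 (by positivity)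
    have a7 : 3 * q * q ≤ δ / 16 * (q * q * (k * k)) := by
      have b1 : 48 ≤ δ * (k * k) := by
        have : 6400 * k ≤ k * δ * k := mul_le_mul_of_nonneg_right hkδ hk0.le
        nlinarith
      have b2 : q * q * 48 ≤ q * q * (δ * (k * k)) := mul_le_mul_of_nonneg_left b1 (by positivity)
      linarith
    have a8 : (1 - δ / 32) * q ≤ q - 2 := by linarith
    have a9 : (1 - δ / 32) * q * ((1 + δ) * k ^ 2) ≤ (q - 2) * n :=
      mul_le_mul a8 hn (by positivity) (by linarith)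
    have a10 : q * ((1 - δ / 32) * q * ((1 + δ) * k ^ 2)) ≤ q * ((q - 2) * n) :=
      mul_le_mul_of_nonneg_left a9 hq0.le
    have a11 : (1 + δ / 8) * (q * q * (k * k)) ≤ q * ((1 - δ / 32) * q * ((1 + δ) * k ^ 2)) := by
      have b1 : 1 + δ / 8 ≤ (1 - δ / 32) * (1 + δ) := by nlinarith
      calc (1 + δ / 8) * (q * q * (k * k)) ≤ ((1 - δ / 32) * (1 + δ)) * (q * q * (k * k)) :=
            mul_le_mul_of_nonneg_right b1 (by positivity)
        _ = _ := by ring
    linarith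
  · have c1 : W * (k + 2) + 4 ≤ k ^ 2 / 2 := by
      have d1 : 100 * W * (k + 2) ≤ k * (k + 2) := mul_le_mul_of_nonneg_right hk (by linarith)
      nlinarith
    have c2 : q * (W * (k + 2) + 4) ≤ q * (k ^ 2 / 2) := mul_le_mul_of_nonneg_left c1 hq0.le
    have c3 : q / 2 * k ^ 2 ≤ (q - 2) * n :=
      mul_le_mul (by linarith) hkk (by positivity) (by linarith)
    linarith

/-- **Exact values.** -/
theorem exact_values : ∃ C : ℝ, ∀ (δ : ℝ) (n k : ℕ), 0 < δ → δ ≤ 1 → k + 2 ≤ n →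
    C * Real.log n ^ 70 ≤ δ ^ 78 * k → (1 + δ) * (k : ℝ) ^ 2 ≤ n →
    (Even k → f n k + 3 * (n - 1) / 2 = n.choose 2) ∧
    (Odd k → f n k + (3 * n / 2 - 2) = n.choose 2) := by
  refine ⟨100 * (cB : ℝ) * 65 ^ 78 * 3 ^ 70, ?_⟩
  intro δ n k hδ0 hδ1 hnk hk hn
  have hn2 : 2 ≤ n := by omega
  obtain ⟨l, hl1, hll, hnl⟩ : ∃ l : ℕ, 1 ≤ l ∧ (l : ℝ) ≤ 3 * Real.log n ∧ n < 2 ^ l :=
    ⟨Nat.log 2 n + 1, by omega, log_bound hn2, Nat.lt_pow_succ_log_self (by norm_num) n⟩
  obtain ⟨q, hq1, hq2⟩ : ∃ q : ℕ, 64 / δ ≤ q ∧ (q : ℝ) ≤ 65 / δ := by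
    refine ⟨⌈64 / δ⌉₊, Nat.le_ceil _, ?_⟩
    have h1 := Nat.ceil_lt_add_one (show 0 ≤ 64 / δ by positivity)
    have h2 : (1 : ℝ) ≤ 1 / δ := by rw [le_div_iff₀ hδ0]; linarith
    have h3 : 65 / δ = 64 / δ + 1 / δ := by ring
    linarith
  have hq0 : (0 : ℝ) < q := lt_of_lt_of_le (by positivity) hq1
  have hqδ : 64 ≤ (q : ℝ) * δ := by
    rw [div_le_iff₀ hδ0] at hq1; exact hq1
  have hq64 : (64 : ℝ) ≤ q := by
    have : (q : ℝ) * δ ≤ q * 1 := mul_le_mul_of_nonneg_left hδ1 hq0.le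
    linarith
  have hq3 : 3 ≤ q := by
    have : (3 : ℝ) ≤ q := by linarith
    exact_mod_cast this
  -- the main quantity
  set W : ℕ := cB * q ^ 78 * l ^ 70 with hW
  have hcB1 : 1 ≤ cB := by unfold cB cA; norm_num
  have hWk : 100 * (W : ℝ) ≤ k := by
    have h1 : (q : ℝ) ^ 78 * δ ^ 78 ≤ 65 ^ 78 := by
      rw [← mul_pow]
      apply pow_le_pow_left₀ (by positivity)
      rw [le_div_iff₀ hδ0] at hq2
      exact hq2
    have h2 : (l : ℝ) ^ 70 ≤ 3 ^ 70 * Real.log n ^ 70 := by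
      rw [← mul_pow]
      exact pow_le_pow_left₀ (Nat.cast_nonneg _) hll _
    have h3 : δ ^ 78 * (100 * (W : ℝ)) ≤ δ ^ 78 * k := by
      calc δ ^ 78 * (100 * (W : ℝ)) = 100 * (cB : ℝ) * ((q : ℝ) ^ 78 * δ ^ 78) * (l : ℝ) ^ 70 := by
            rw [hW]; push_cast; ring
        _ ≤ 100 * (cB : ℝ) * (65 ^ 78) * (3 ^ 70 * Real.log n ^ 70) := by
            apply mul_le_mul _ h2 (by positivity) (by positivity)
            exact mul_le_mul_of_nonneg_left h1 (by positivity)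
        _ = 100 * (cB : ℝ) * 65 ^ 78 * 3 ^ 70 * Real.log n ^ 70 := by ring
        _ ≤ δ ^ 78 * k := hk
    exact le_of_mul_le_mul_left h3 (by positivity)
  have hqW : q ≤ W := by
    calc q = 1 * q ^ 1 * 1 := by ring
      _ ≤ cB * q ^ 78 * l ^ 70 := Nat.mul_le_mul (Nat.mul_le_mul hcB1
          (Nat.pow_le_pow_right (by omega) (by norm_num))) (Nat.one_le_pow _ _ hl1)
  have hWkN : 100 * W ≤ k := by exact_mod_cast hWk
  obtain ⟨c1, c2⟩ := numeric (δ := δ) (q := q) (k := k) (n := n) (W := W) hδ0 hδ1 hqδ hq0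
    (by exact_mod_cast hqW) hWk hn
  have hPB : PhiB q (2 * q * l) ≤ k + 2 := by
    have := PhiB_le (q := q) (l := l) (by omega) hl1
    omega
  have hP : Phi q (2 * q * l) ≤ k + 2 := by
    have h1 := Phi_le (q := q) (l := l) (by omega) hl1
    have h2 : 578 * 24 ^ 4 * 363 ^ 16 * q ^ 37 * l ^ 32 ≤ W := by
      rw [hW]
      apply Nat.mul_le_mul (Nat.mul_le_mul _ (Nat.pow_le_pow_right (by omega) (by norm_num)))
        (Nat.pow_le_pow_right hl1 (by norm_num))
      unfold cB cA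
      norm_num
    omega
  have hBg := Big_le (q := q) (l := l) (m := k + 2) (by omega) hl1 hPB
  rw [← hW] at hBg
  obtain ⟨p, hp⟩ : ∃ p, q = p + 2 := ⟨q - 2, by omega⟩
  have hp2 : q - 2 = p := by omega
  have hpR : (q : ℝ) - 2 = p := by rw [hp]; push_cast; ring
  rw [hpR] at c1 c2
  apply exact_of_bound (by omega) hnk
  intro H hH
  have hup := upperB (G := H) (q := q) (r := 2 * q * l) (m := k + 2) hq3
    (by rw [Fintype.card_fin]; exact r_choice (by omega) hnl)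
    (by rw [Fintype.card_fin]; exact r_choice2 (by omega) hnl)
    (by rw [Fintype.card_fin]; exact r_choice3 hq3 hnl) hH hP hPB
    (by
      rw [Fintype.card_fin, hp2]
      have : (((q + 1) * (k + 2) * ((q + 1) * (k + 2)) + 3 * q * q : ℕ) : ℝ) ≤
          ((q * (p * n) : ℕ) : ℝ) := by
        push_cast; exact c1
      exact_mod_cast this)
    (by
      rw [Fintype.card_fin, hp2]
      have h1 : q * (W * (k + 2) + 4) ≤ p * n := by
        have : ((q * (W * (k + 2) + 4) : ℕ) : ℝ) ≤ ((p * n : ℕ) : ℝ) := by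
          push_cast; exact c2
        exact_mod_cast this
      exact (Nat.mul_le_mul_left _ (by omega)).trans h1)
  rw [Fintype.card_fin] at hup
  exact hup

end Pool.Agent.Lib.MP_d31508_co.Sharp
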