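import Pool.Agent.Lib.MP_d31508_co.Sharp.GirthG
import Pool.Agent.Lib.MP_d31508_co.Asy.Girth

set_option linter.unusedSectionVars false

/-!
# A clique glued to a graph of large girth
-/

namespace Pool.Agent.Lib.MP_d31508_co.Sharp

open Finset Classical
open Pool.Agent.Lib.MP_d31508_co.Asy (dg Cl D stPeel)

lemma PG_glue {N e g k : ℕ} (hN : 1 ≤ N) (hg : k + 3 ≤ g) (h : PG N e g) :
    ∃ H : SimpleGraph (Fin (k + N)),
      (∀ S : Finset (Fin (k + N)), S.card = k + 2 → ¬ Cl H S) ∧
      (k + 1) * k + 2 * e ≤ D H univ := by
  obtain ⟨G, h1, h2⟩ := h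
  let z : Fin N := ⟨0, hN⟩
  let R : Fin k ⊕ Fin N → Fin k ⊕ Fin N → Prop := fun u v => match u, v with
    | Sum.inl x, Sum.inl y => x ≠ y
    | Sum.inl _, Sum.inr y => y = z
    | Sum.inr x, Sum.inl _ => x = z
    | Sum.inr x, Sum.inr y => G.Adj x y
  let H : SimpleGraph (Fin k ⊕ Fin N) :=
    { Adj := R
      symm := ⟨by
        intro u v huv
        rcases u with x | i <;> rcases v with y | j
        · exact Ne.symm huv
        · exact huv
        · exact huv
        · exact SimpleGraph.Adj.symm (G := G) huv⟩
      loopless := ⟨by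
        intro u hu
        rcases u with x | i
        · exact hu rfl
        · exact G.loopless.irrefl i hu⟩ }
  have hR : ∀ x y, H.Adj (Function.Embedding.inr x) (Function.Embedding.inr y) ↔ G.Adj x y :=
    fun x y => Iff.rfl
  have hL : ∀ x y, H.Adj (Function.Embedding.inl x) (Function.Embedding.inl y) ↔
    (⊤ : SimpleGraph (Fin k)).Adj x y := fun x y => Iff.rfl
  set L : Finset (Fin k ⊕ Fin N) := univ.map Function.Embedding.inl with hLdef
  set T : Finset (Fin k ⊕ Fin N) := univ.map Function.Embedding.inr with hTdef
  have hLT : Disjoint L T := by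
    rw [disjoint_left]
    intro u hu hv
    obtain ⟨x, -, rfl⟩ := mem_map.1 hu
    obtain ⟨y, -, hy⟩ := mem_map.1 hv
    cases hy
  have hun : ∀ u : Fin k ⊕ Fin N, u ∈ L ∨ u ∈ T := by
    intro u
    rcases u with x | i
    · left; simp [hLdef]
    · right; simp [hTdef]
  obtain ⟨H', p1, p2⟩ := transport (V := Fin k ⊕ Fin N) (N := k + N) (by simp) H
  refine ⟨H', ?_, ?_⟩
  · intro S hS hcl
    obtain ⟨Z, z1, z2⟩ := p2 S hcl
    rw [hS] at z2
    set Y : Finset (Fin N) := univ.filter (fun x => Sum.inr x ∈ Z) with hY
    have hZsub : Y.map Function.Embedding.inr ⊆ Z := by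
      intro u hu
      obtain ⟨x, hx, rfl⟩ := mem_map.1 hu
      exact (mem_filter.1 hx).2
    have hYZ : Y.card ≤ k + 2 := by
      have h7 := card_le_card hZsub
      rwa [card_map, z2] at h7
    have hYcl : ∀ x ∈ Y, x ≠ z → 2 ≤ dg G Y x := by
      intro x hx hxz
      have h3 := z1 _ (mem_filter.1 hx).2
      refine h3.trans ?_
      rw [← dg_map Function.Embedding.inr hR]
      apply card_le_card
      intro u hu
      rw [mem_filter] at hu ⊢
      rcases u with y | y
      · exact absurd hu.2 hxz
      · exact ⟨mem_map_of_mem _ (mem_filter.2 ⟨mem_univ _, hu.1⟩), hu.2⟩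
    have hY2 : 2 ≤ Y.card := by
      have h4 : Z ⊆ L ∪ Y.map Function.Embedding.inr := by
        intro u hu
        rcases u with x | x
        · exact mem_union_left _ (by simp [hLdef])
        · exact mem_union_right _ (mem_map_of_mem _ (mem_filter.2 ⟨mem_univ _, hu⟩))
      have h5 := (card_le_card h4).trans (card_union_le _ _)
      rw [z2, hLdef, card_map, card_map, card_univ, Fintype.card_fin] at h5
      omega
    have hYne : Y.Nonempty := by rw [← card_pos]; omega
    by_cases hz : z ∈ Y
    · by_cases hz1 : 1 ≤ dg G Y z
      · obtain ⟨Y', y1, y2, y3⟩ := stPeel (Fin N) G Y z hz hz1 hYcl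
        have h6 := h2 Y' y2 y3
        have h7 := card_le_card y1
        omega
      · -- `z` is isolated in `Y`
        have h8 : Cl G (Y.filter (fun x => x ≠ z)) := by
          intro x hx
          obtain ⟨hx1, hx2⟩ := mem_filter.1 hx
          refine (hYcl x hx1 hx2).trans ?_
          unfold dg
          apply card_le_card
          intro y hy
          obtain ⟨hy1, hy2⟩ := mem_filter.1 hy
          refine mem_filter.2 ⟨mem_filter.2 ⟨hy1, ?_⟩, hy2⟩
          rintro rfl
          exact hz1 (one_le_dg hx1 hy2.symm)
        have h9 : (Y.filter (fun x => x ≠ z)).Nonempty := by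
          rw [← card_pos]
          have h10 := card_filter_add_card_filter_not (s := Y) (fun x => x ≠ z)
          have h11 : (Y.filter (fun x => ¬ x ≠ z)).card ≤ 1 := by
            rw [card_le_one]
            intro a ha b hb
            have ha' := (mem_filter.1 ha).2
            have hb' := (mem_filter.1 hb).2
            push Not at ha' hb'
            rw [ha', hb']
          omega
        have h6 := h2 _ h9 h8
        have h7 := card_le_card (filter_subset (fun x => x ≠ z) Y)
        omega
    · have h8 : Cl G Y := fun x hx => hYcl x hx (fun h => hz (h ▸ hx))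
      have h6 := h2 Y hYne h8
      omega
  · rw [p1, D_split hLT hun]
    have e1 : D H L = D (⊤ : SimpleGraph (Fin k)) univ := D_map _ hL univ
    have e2 : D H T = D G univ := D_map _ hR univ
    have e3 : k * (k - 1) ≤ D (⊤ : SimpleGraph (Fin k)) univ := by
      unfold D
      calc k * (k - 1) = ∑ _x : Fin k, (k - 1) := by simp
        _ ≤ _ := sum_le_sum (fun x _ => by
          have : (univ : Finset (Fin k)).erase x ⊆
              univ.filter (fun y => (⊤ : SimpleGraph (Fin k)).Adj x y) := by
            intro y hy
            simp only [mem_filter, mem_univ, true_and, SimpleGraph.top_adj]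
            exact (ne_of_mem_erase hy).symm
          have h5 := card_le_card this
          rw [card_erase_of_mem (mem_univ _), card_univ, Fintype.card_fin] at h5
          refine h5.trans (le_of_eq ?_)
          unfold dg
          congr)
    have e4 : k ≤ ∑ y ∈ T, dg H L y := by
      have h3 : dg H L (Sum.inr z) = k := by
        unfold dg
        rw [filter_true_of_mem, hLdef, card_map, card_univ, Fintype.card_fin]
        intro u hu
        obtain ⟨x, -, rfl⟩ := mem_map.1 hu
        rfl
      refine le_trans (le_of_eq h3.symm) ?_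
      exact single_le_sum (f := fun y => dg H L y) (fun _ _ => Nat.zero_le _) (by simp [hTdef])
    have e5 : (k + 1) * k = k * (k - 1) + 2 * k := by
      rcases k with _ | k
      · simp
      · simp; ring
    omega

end Pool.Agent.Lib.MP_d31508_co.Sharp
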