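import Pool.Agent.Lib.MP_d31508_co.Sharp.UpperG2
import Pool.Agent.Lib.MP_d31508_co.Sharp.LowerG
import Pool.Agent.Lib.MP_d31508_co.Sharp.AssembleM

set_option linter.unusedSectionVars false

/-!
# The girth reduction
-/

namespace Pool.Agent.Lib.MP_d31508_co.Sharp

open Finset Classical
open Pool.Agent.Lib.MP_d31508_co.Asy (dg Cl D f stCompl)
open Pool.Agent.Lib.MP_d31508_co.Shr (StExt stExact)

lemma choose_two_mul (k : ℕ) : 2 * (k + 1).choose 2 = (k + 1) * k := by
  rw [Nat.choose_two_right, Nat.add_sub_cancel]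
  exact Nat.mul_div_cancel' (Nat.even_mul_pred_self (k + 1)).two_dvd

/-- the lower bound -/
theorem girth_lower {n k : ℕ} (hk : 1 ≤ k) (hn : k + 2 ≤ n) :
    max ((k + 1).choose 2 + exG (n - k) (k + 3)) (Ex n k) + f n k ≤ n.choose 2 := by
  have h1 : Ex n k + f n k ≤ n.choose 2 := by
    have := lower_E hk hn
    have h : (Ex n k : ℝ) + f n k ≤ n.choose 2 := by linarith
    exact_mod_cast h
  have h2 : (k + 1).choose 2 + exG (n - k) (k + 3) + f n k ≤ n.choose 2 := by
    obtain ⟨N, rfl⟩ : ∃ N, n = k + N := ⟨n - k, by omega⟩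
    rw [Nat.add_sub_cancel_left]
    have h4 : ∃ H : SimpleGraph (Fin (k + N)),
        (∀ S : Finset (Fin (k + N)), S.card = k + 2 → ¬ Cl H S) ∧
        (k + 1) * k + 2 * exG N (k + 3) ≤ D H univ := by
      obtain ⟨F, hF, hFD⟩ := exG_attained N (k + 3)
      exact PG_glue (k := k) (by omega) le_rfl ⟨F, by omega, hF⟩
    obtain ⟨H', r1, r2⟩ := h4
    have h3 := le_diff hk H' r1
    have h5 := choose_two_mul k
    have h6 : 2 * ((k + 1).choose 2 + exG N (k + 3)) ≤ D H' univ := by omega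
    have h7 : (2 : ℝ) * (((k + 1).choose 2 + exG N (k + 3) : ℕ) : ℝ) ≤ D H' univ := by
      exact_mod_cast h6
    have h8 : (((k + 1).choose 2 + exG N (k + 3) + f (k + N) k : ℕ) : ℝ) ≤
        ((k + N).choose 2 : ℕ) := by
      push_cast at h7 ⊢
      linarith
    exact_mod_cast h8
  rcases le_total ((k + 1).choose 2 + exG (n - k) (k + 3)) (Ex n k) with h | h
  · rw [max_eq_right h]; exact h1
  · rw [max_eq_left h]; exact h2

/-- the upper bound in the first range -/
theorem girth_half : ∃ C : ℝ, ∀ n k : ℕ, k + 2 ≤ n → C * Real.log n ^ 70 ≤ k →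
    n.choose 2 ≤ f n k + max ((k + 1).choose 2 + exG (n - k) k) (Ex n k) := by
  refine ⟨100 * (cB : ℝ) * ((1000 : ℕ) : ℝ) ^ 78 * 3 ^ 70, ?_⟩
  intro n k hnk hk
  obtain ⟨l, W, hl1, hnl, hlW, hWkN, hPB, hP, hBg⟩ := thresholds (q := 1000) (by norm_num) hnk hk
  clear hk
  have hlW2 : 1000000 * l ≤ W := by
    calc 1000000 * l = 1000 ^ 2 * l := by norm_num
      _ ≤ W := hlW
  clear hlW
  have hBig : 4 * (Big 1000 (2 * 1000 * l) (k + 2) + 4) ≤ (k + 2) * (k + 2) := by
    have h1 : 8 * (W * (k + 2)) ≤ k * (k + 2) := by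
      calc 8 * (W * (k + 2)) = 8 * W * (k + 2) := by ring
        _ ≤ k * (k + 2) := Nat.mul_le_mul_right _ (by omega)
    have h2 : (k + 2) * (k + 2) = k * (k + 2) + 2 * (k + 2) := by ring
    have h3 : 8 * (k + 2) ≤ W * (k + 2) := Nat.mul_le_mul_right _ (by omega)
    rw [h2]
    generalize W * (k + 2) = a at *
    generalize k * (k + 2) = b at *
    omega
  have hj' : n * 3 ^ (3 * l) < 4 ^ (3 * l + 1) := by
    have e1 : (3 : ℕ) ^ (3 * l) = 27 ^ l := by rw [pow_mul]; norm_num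
    have e2 : (4 : ℕ) ^ (3 * l + 1) = 64 ^ l * 4 := by rw [pow_succ, pow_mul]; norm_num
    rw [e1, e2]
    calc n * 27 ^ l ≤ 2 ^ l * 27 ^ l := Nat.mul_le_mul_right _ hnl.le
      _ = 54 ^ l := by rw [← mul_pow]; norm_num
      _ ≤ 64 ^ l := Nat.pow_le_pow_left (by norm_num) l
      _ < 64 ^ l * 4 := by
        have : 0 < 64 ^ l := by positivity
        omega
  obtain ⟨H, hH, hHD⟩ := diff_le (n := n) (k := k) (by omega)
  have hup := upper_girth (G := H) (r := 2 * 1000 * l) (m := k + 2) (j' := 3 * l)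
      (by rw [Fintype.card_fin]; exact r_choice (by norm_num) hnl)
      (by rw [Fintype.card_fin]; exact r_choice2 (by norm_num) hnl)
      (by rw [Fintype.card_fin]; exact r_choice3 (by norm_num) hnl) hH hP hPB (by omega)
      (by rw [Fintype.card_fin]; exact hnk) hBig (by rw [Fintype.card_fin]; exact hj')
      (by omega)
  rw [Fintype.card_fin] at hup
  have e1 : k + 2 - 1 = k + 1 := by omega
  have e2 : k + 2 - 2 = k := by omega
  rw [e1, e2] at hup
  have hval : (n.choose 2 : ℝ) = f n k + (D H univ : ℝ) / 2 := by linarith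
  rcases hup with h | ⟨h1, h2⟩
  · have h3 := choose_two_mul k
    have h4 : D H univ ≤ 2 * ((k + 1).choose 2 + exG (n - k) k) := by omega
    have h5 : (D H univ : ℝ) ≤ 2 * (((k + 1).choose 2 + exG (n - k) k : ℕ) : ℝ) := by
      exact_mod_cast h4
    have h6 : (n.choose 2 : ℝ) ≤ ((f n k + ((k + 1).choose 2 + exG (n - k) k) : ℕ) : ℝ) := by
      push_cast at h5 ⊢
      linarith
    have h7 : n.choose 2 ≤ f n k + ((k + 1).choose 2 + exG (n - k) k) := by exact_mod_cast h6
    exact h7.trans (Nat.add_le_add_left (le_max_left _ _) _)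
  · obtain ⟨d, hd⟩ := D_even (G := H) univ
    have h3 : d ≤ Ex n k := by
      unfold Ex
      split_ifs with he
      · have he2 : Even (k + 2) := by
          obtain ⟨a, ha⟩ := he
          exact ⟨a + 1, by omega⟩
        have := h1 he2
        omega
      · have ho2 : Odd (k + 2) := by
          obtain ⟨a, ha⟩ := Nat.not_even_iff_odd.1 he
          exact ⟨a + 1, by omega⟩
        have := h2 ho2
        omega
    have h4 : (n.choose 2 : ℝ) = ((f n k + d : ℕ) : ℝ) := by
      rw [hval, hd]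
      push_cast
      ring
    have h5 : n.choose 2 = f n k + d := by exact_mod_cast h4
    rw [h5]
    exact Nat.add_le_add_left (h3.trans (le_max_right _ _)) _

/-- **Girth reduction** -/
theorem girth_main : ∃ C : ℝ, 0 < C ∧ ∀ n k : ℕ, 2 ≤ k → k + 2 ≤ n →
    C * (Real.log n * Real.log k) ≤ k →
    max ((k + 1).choose 2 + exG (n - k) (k + 3)) (Ex n k) + f n k ≤ n.choose 2 ∧
    n.choose 2 ≤ f n k + max ((k + 1).choose 2 + exG (n - k) k) (Ex n k) := by
  obtain ⟨C₁, hC₁, hex⟩ := stExact ext_holds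
  obtain ⟨C₀, hup⟩ := girth_half
  obtain ⟨P, hP⟩ : ∃ P : ℝ, P = 120 ^ 70 := ⟨_, rfl⟩
  have hP0 : 0 ≤ P := by rw [hP]; exact pow_nonneg (by norm_num) 70
  obtain ⟨K, hK0, hK⟩ := log_pow_small (|C₀| * P + C₁)
  refine ⟨C₁ + 3 * K + 100, by positivity, ?_⟩
  intro n k hk hnk hC
  refine ⟨girth_lower (by omega) hnk, ?_⟩
  have hK2 : (2 : ℝ) ≤ k := by exact_mod_cast hk
  have hkn : (k : ℝ) ≤ n := by exact_mod_cast (by omega : k ≤ n)
  set x := Real.log n with hx
  set y := Real.log k with hy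
  have hy1 : 0.69 ≤ y := by
    have h3 : Real.log 2 ≤ Real.log k := Real.log_le_log (by norm_num) hK2
    have h4 := Real.log_two_gt_d9
    linarith
  have hlog2 : Real.log ((k + 2 : ℕ) : ℝ) ≤ 2 * y := by
    have h1 : ((k + 2 : ℕ) : ℝ) ≤ (k : ℝ) ^ 2 := by push_cast; exact sq_bound hK2
    have h2 := Real.log_le_log (by positivity) h1
    rw [Real.log_pow] at h2
    exact_mod_cast h2
  have hxy : y ≤ x := Real.log_le_log (by linarith) hkn
  have hx1 : 0.69 ≤ x := by linarith
  have hxy0 : 0.69 * 0.69 ≤ x * y := mul_le_mul hx1 hy1 (by norm_num) (by linarith)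
  have hxyn : 0 ≤ x * y := by linarith
  have hC' : C₁ * (x * y) + 3 * K * (x * y) + 100 * (x * y) ≤ k := by
    calc _ = (C₁ + 3 * K + 100) * (x * y) := by ring
      _ ≤ k := hC
  have hC1n : 0 ≤ C₁ * (x * y) := by positivity
  have hKn : 0 ≤ 3 * K * (x * y) := by positivity
  have hc1 : C₁ * (x * y) ≤ k := by linarith
  have hKk : K ≤ k := by
    have h1 : 3 * K * (0.69 * 0.69) ≤ 3 * K * (x * y) :=
      mul_le_mul_of_nonneg_left hxy0 (by positivity)
    linarith
  have hyK := hK k hKk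
  rw [← hy] at hyK
  have hy70 : 0 ≤ y ^ 70 := pow_nonneg (by linarith) 70
  rcases le_or_gt n ((k + 2) ^ 60) with hcase | hcase
  · have h1 : x ≤ 120 * y := by
      have h2 : (n : ℝ) ≤ ((k + 2 : ℕ) : ℝ) ^ 60 := by exact_mod_cast hcase
      have h3 := Real.log_le_log (by linarith) h2
      rw [Real.log_pow] at h3
      push_cast at h3 hlog2
      linarith
    exact hup n k hnk (pow_bound (by linarith) h1 hP hC₁.le hy70 hyK)
  · have h2 : (1 + 1) * (k : ℝ) ^ 2 ≤ n := by
      have h3 : 2 * k ^ 2 ≤ (k + 2) ^ 60 := by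
        calc 2 * k ^ 2 ≤ (k + 2) * (k + 2) ^ 2 := Nat.mul_le_mul (by omega)
              (Nat.pow_le_pow_left (by omega) 2)
          _ = (k + 2) ^ 3 := by ring
          _ ≤ _ := Nat.pow_le_pow_right (by omega) (by norm_num)
      have h4 : 2 * k ^ 2 ≤ n := h3.trans hcase.le
      have h5 : (2 : ℝ) * (k : ℝ) ^ 2 ≤ n := by exact_mod_cast h4
      linarith
    have h3 : C₁ * y ^ 70 ≤ 1 ^ 78 * k := pow_bound2 hP0 hy70 hyK
    obtain ⟨v1, v2⟩ := hex 1 n k one_pos le_rfl hk h2 h3 hc1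
    have hval : f n k + Ex n k = n.choose 2 := by
      unfold Ex
      split_ifs with he
      · exact v1 he
      · exact v2 (Nat.not_even_iff_odd.1 he)
    rw [← hval]
    exact Nat.add_le_add_left (le_max_right _ _) _

end Pool.Agent.Lib.MP_d31508_co.Sharp
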