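import Pool.Agent.Lib.MP_d31508_co.Sharp.GirthG
import Pool.Agent.Lib.MP_d31508_co.Asy.Girth

set_option linter.unusedSectionVars false

/-!
# Graphs with more edges than vertices contain a cycle of length at most `2(N+1)/3`
-/

namespace Pool.Agent.Lib.MP_d31508_co.Sharp

open Finset Classical
open Pool.Agent.Lib.MP_d31508_co.Asy (dg Cl D stPeel)

variable {V : Type} [Fintype V] {G : SimpleGraph V}

/-- as many edges as vertices: a closed set -/
lemma exists_cl {X : Finset V} (hX : X.Nonempty) (h : 2 * X.card ≤ D G X) :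
    ∃ Y ⊆ X, Y.Nonempty ∧ Cl G Y := by
  obtain ⟨Y, hY, hmin⟩ := exists_min_image
    (X.powerset.filter (fun Y => Y.Nonempty ∧ 2 * Y.card ≤ D G Y)) card
    ⟨X, mem_filter.2 ⟨mem_powerset_self X, hX, h⟩⟩
  obtain ⟨hYX, hYne, hYD⟩ := mem_filter.1 hY
  refine ⟨Y, mem_powerset.1 hYX, hYne, ?_⟩
  intro v hv
  by_contra hcon
  push Not at hcon
  have h1 := D_insert (G := G) (notMem_erase v Y)
  rw [insert_erase hv] at h1
  have h2 : dg G (Y.erase v) v ≤ dg G Y v := dg_mono (erase_subset _ _) v
  have h3 := card_erase_add_one hv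
  have h4 : (Y.erase v).Nonempty := by
    rw [nonempty_iff_ne_empty]
    intro h5
    rw [h5, D_empty, dg_empty] at h1
    have h7 := card_pos.2 hYne
    omega
  have h6 := hmin (Y.erase v) (mem_filter.2 ⟨mem_powerset.2 ((erase_subset _ _).trans
    (mem_powerset.1 hYX)), h4, by omega⟩)
  omega

/-- removing an edge -/
lemma remove_edge {a b : V} (hab : G.Adj a b) :
    ∃ G1 : SimpleGraph V, (∀ x y, G1.Adj x y → G.Adj x y) ∧ ¬ G1.Adj a b ∧
      D G univ = D G1 univ + 2 := by
  let G1 : SimpleGraph V :=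
    { Adj := fun x y => G.Adj x y ∧ ¬ ((x = a ∧ y = b) ∨ (x = b ∧ y = a))
      symm := ⟨by
        intro x y h
        refine ⟨h.1.symm, ?_⟩
        rintro (⟨h1, h2⟩ | ⟨h1, h2⟩)
        · exact h.2 (Or.inr ⟨h2, h1⟩)
        · exact h.2 (Or.inl ⟨h2, h1⟩)⟩
      loopless := ⟨fun x h => G.loopless.irrefl x h.1⟩ }
  refine ⟨G1, fun x y h => h.1, fun h => h.2 (Or.inl ⟨rfl, rfl⟩), ?_⟩
  have hne := hab.ne
  have key : ∀ x, dg G univ x = dg G1 univ x + ((if x = a then 1 else 0) + if x = b then 1 else 0) := by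
    intro x
    by_cases hxa : x = a
    · subst hxa
      rw [if_pos rfl, if_neg hne, add_zero]
      have e : univ.filter (fun y => G.Adj x y) = insert b (univ.filter (fun y => G1.Adj x y)) := by
        ext y
        simp only [mem_filter, mem_univ, true_and, mem_insert]
        constructor
        · intro h
          by_cases hyb : y = b
          · exact Or.inl hyb
          · right
            refine ⟨h, ?_⟩
            rintro (⟨-, h2⟩ | ⟨h1, -⟩)
            · exact hyb h2
            · exact hne h1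
        · rintro (rfl | h)
          · exact hab
          · exact h.1
      unfold dg
      have hn : b ∉ univ.filter (fun y => G1.Adj x y) := by
        intro h
        exact (mem_filter.1 h).2.2 (Or.inl ⟨rfl, rfl⟩)
      rw [e, card_insert_of_notMem hn]
      congr!
    · by_cases hxb : x = b
      · subst hxb
        rw [if_neg hxa, if_pos rfl, zero_add]
        have e : univ.filter (fun y => G.Adj x y) = insert a (univ.filter (fun y => G1.Adj x y)) := by
          ext y
          simp only [mem_filter, mem_univ, true_and, mem_insert]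
          constructor
          · intro h
            by_cases hyb : y = a
            · exact Or.inl hyb
            · right
              refine ⟨h, ?_⟩
              rintro (⟨h1, -⟩ | ⟨-, h2⟩)
              · exact hxa h1
              · exact hyb h2
          · rintro (rfl | h)
            · exact hab.symm
            · exact h.1
        unfold dg
        have hn : a ∉ univ.filter (fun y => G1.Adj x y) := by
          intro h
          exact (mem_filter.1 h).2.2 (Or.inr ⟨rfl, rfl⟩)
        rw [e, card_insert_of_notMem hn]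
        congr!
      · rw [if_neg hxa, if_neg hxb, add_zero, add_zero]
        unfold dg
        congr 1
        ext y
        simp only [mem_filter, mem_univ, true_and]
        constructor
        · intro h
          refine ⟨h, ?_⟩
          rintro (⟨h1, -⟩ | ⟨h1, -⟩)
          · exact hxa h1
          · exact hxb h1
        · exact fun h => h.1
  unfold D
  rw [sum_congr rfl (fun x _ => key x), sum_add_distrib, sum_add_distrib, sum_ite_eq' univ a,
    sum_ite_eq' univ b]
  simp

/-- the neighbours along a cycle -/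
lemma cyc_nb {S : Finset V} {R : V → V → Prop} (hR : ∀ x y, R x y → G.Adj x y ∧ x ∈ S ∧ y ∈ S)
    (hnb : ∀ x ∈ S, ∃ y z, y ≠ z ∧ R x y ∧ R x z ∧ ∀ u, R x u → u = y ∨ u = z) (x : V) :
    (univ.filter (fun y => R x y)).card = if x ∈ S then 2 else 0 := by
  split_ifs with h
  · obtain ⟨y, z, hyz, hy, hz, hall⟩ := hnb x h
    have e : univ.filter (fun y => R x y) = {y, z} := by
      ext u
      simp only [mem_filter, mem_univ, true_and, mem_insert, mem_singleton]
      constructor
      · exact hall u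
      · rintro (rfl | rfl) <;> assumption
    rw [e, card_pair hyz]
  · rw [card_eq_zero, filter_eq_empty_iff]
    intro y _ hy
    exact h (hR _ _ hy).2.1

/-- exactly one more edge than vertices -/
lemma theta_bound_eq {g : ℕ} (hD : D G univ = 2 * (Fintype.card V + 1))
    (hg : ∀ Y : Finset V, Y.Nonempty → Cl G Y → g ≤ Y.card) :
    3 * g ≤ 2 * Fintype.card V + 2 := by
  have hne : (univ : Finset V).Nonempty := by
    rw [nonempty_iff_ne_empty]
    intro h
    rw [h, D_empty] at hD
    omega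
  -- the first cycle
  obtain ⟨Y1, -, hY1, hc1⟩ := exists_cl (G := G) hne (by rw [card_univ]; omega)
  obtain ⟨a1, p1, hp1, -⟩ := cycle_of_cl hY1 hc1
  obtain ⟨S1, R1, hS1, hs1, hR1, hnb1⟩ := cycle_data hp1
  have hS1ne : S1.Nonempty := by
    rw [← card_pos, hS1]
    have := hp1.three_le_length
    omega
  obtain ⟨a, ha⟩ := hS1ne
  obtain ⟨b, -, -, hab, -, -⟩ := hnb1 a ha
  -- the graph without an edge of this cycle
  obtain ⟨G1, hG1, hnot, hDG⟩ := remove_edge (hR1 a b hab).1
  obtain ⟨Y2, -, hY2, hc2⟩ := exists_cl (G := G1) hne (by rw [card_univ]; omega)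
  obtain ⟨a2, p2, hp2, -⟩ := cycle_of_cl hY2 hc2
  obtain ⟨S2, R2, hS2, hs2, hR2, hnb2⟩ := cycle_data hp2
  -- lengths
  have hcl1 : Cl G S1 := by
    intro x hx
    obtain ⟨y, z, hyz, hy, hz, -⟩ := hnb1 x hx
    exact two_le_dg (hR1 x y hy).2.2 (hR1 x z hz).2.2 hyz (hR1 x y hy).1 (hR1 x z hz).1
  have hcl2 : Cl G S2 := by
    intro x hx
    obtain ⟨y, z, hyz, hy, hz, -⟩ := hnb2 x hx
    exact two_le_dg (hR2 x y hy).2.2 (hR2 x z hz).2.2 hyz (hG1 _ _ (hR2 x y hy).1)
      (hG1 _ _ (hR2 x z hz).1)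
  have hg1 := hg S1 ⟨a, ha⟩ hcl1
  have hS2ne : S2.Nonempty := by
    rw [← card_pos, hS2]
    have := hp2.three_le_length
    omega
  have hg2 := hg S2 hS2ne hcl2
  -- the neighbourhoods
  obtain ⟨N1, hN1⟩ : ∃ N1 : V → Finset V, ∀ x, N1 x = univ.filter (fun y => R1 x y) :=
    ⟨_, fun _ => rfl⟩
  obtain ⟨N2, hN2⟩ : ∃ N2 : V → Finset V, ∀ x, N2 x = univ.filter (fun y => R2 x y) :=
    ⟨_, fun _ => rfl⟩
  have m1 : ∀ x y, y ∈ N1 x ↔ R1 x y := fun x y => by rw [hN1]; simp
  have m2 : ∀ x y, y ∈ N2 x ↔ R2 x y := fun x y => by rw [hN2]; simp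
  have k1 : ∀ x, (N1 x).card = if x ∈ S1 then 2 else 0 := fun x => by
    rw [hN1]; exact cyc_nb hR1 hnb1 x
  have k2 : ∀ x, (N2 x).card = if x ∈ S2 then 2 else 0 := fun x => by
    rw [hN2]; exact cyc_nb hR2 hnb2 x
  have hsymd : ∀ x, (symmDiff (N1 x) (N2 x)).card + 2 * (N1 x ∩ N2 x).card =
      (N1 x).card + (N2 x).card := by
    intro x
    have h1 := card_sdiff_add_card_inter (N1 x) (N2 x)
    have h2 := card_sdiff_add_card_inter (N2 x) (N1 x)
    rw [inter_comm (N2 x)] at h2
    have h3 : (symmDiff (N1 x) (N2 x)).card = (N1 x \ N2 x).card + (N2 x \ N1 x).card := by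
      rw [symmDiff_def, sup_eq_union, card_union_of_disjoint disjoint_sdiff_sdiff]
    omega
  -- the third even subgraph
  set S3 : Finset V := univ.filter (fun x => (symmDiff (N1 x) (N2 x)).Nonempty) with hS3
  have hS3mem : ∀ x, x ∈ S3 ↔ ∃ y, y ∈ symmDiff (N1 x) (N2 x) := by
    intro x
    rw [hS3, mem_filter]
    exact ⟨fun h => h.2, fun h => ⟨mem_univ _, h⟩⟩
  have hsy : ∀ x y, y ∈ symmDiff (N1 x) (N2 x) → x ∈ symmDiff (N1 y) (N2 y) := by
    intro x y h
    rw [mem_symmDiff, m1, m2] at h ⊢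
    rcases h with ⟨h1, h2⟩ | ⟨h1, h2⟩
    · exact Or.inl ⟨hs1 _ _ h1, fun h3 => h2 (hs2 _ _ h3)⟩
    · exact Or.inr ⟨hs2 _ _ h1, fun h3 => h2 (hs1 _ _ h3)⟩
  have hge : ∀ x ∈ S3, 2 ≤ (symmDiff (N1 x) (N2 x)).card := by
    intro x hx
    have h1 := card_pos.2 (mem_filter.1 hx).2
    have h2 := hsymd x
    rw [k1, k2] at h2
    split_ifs at h2 <;> omega
  have hadj3 : ∀ x y, y ∈ symmDiff (N1 x) (N2 x) → G.Adj x y := by
    intro x y h
    rw [mem_symmDiff, m1, m2] at h
    rcases h with ⟨h1, -⟩ | ⟨h1, -⟩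
    · exact (hR1 _ _ h1).1
    · exact hG1 _ _ (hR2 _ _ h1).1
  have hcl3 : Cl G S3 := by
    intro x hx
    refine (hge x hx).trans ?_
    unfold dg
    apply card_le_card
    intro y hy
    exact mem_filter.2 ⟨(hS3mem y).2 ⟨x, hsy x y hy⟩, hadj3 x y hy⟩
  have hS3ne : S3.Nonempty := by
    refine ⟨a, (hS3mem a).2 ⟨b, ?_⟩⟩
    rw [mem_symmDiff, m1, m2]
    exact Or.inl ⟨hab, fun h => hnot (hR2 _ _ h).1⟩
  have hg3 := hg S3 hS3ne hcl3
  -- counting
  have c1 : ∑ x, (N1 x).card = 2 * S1.card := by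
    rw [sum_congr rfl (fun x _ => k1 x), ← sum_filter]
    simp [mul_comm]
  have c2 : ∑ x, (N2 x).card = 2 * S2.card := by
    rw [sum_congr rfl (fun x _ => k2 x), ← sum_filter]
    simp [mul_comm]
  have c3 : 2 * S3.card ≤ ∑ x, (symmDiff (N1 x) (N2 x)).card := by
    calc 2 * S3.card = ∑ _x ∈ S3, 2 := by simp [mul_comm]
      _ ≤ ∑ x ∈ S3, (symmDiff (N1 x) (N2 x)).card := sum_le_sum hge
      _ ≤ _ := sum_le_sum_of_subset (subset_univ _)
  have c4 : ∑ x, ((symmDiff (N1 x) (N2 x)).card + ((N1 x).card + (N2 x).card)) ≤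
      ∑ x, 2 * dg G univ x := by
    apply sum_le_sum
    intro x _
    have h1 := hsymd x
    have h2 := card_union_add_card_inter (N1 x) (N2 x)
    have h3 : (N1 x ∪ N2 x).card ≤ dg G univ x := by
      unfold dg
      apply card_le_card
      intro y hy
      refine mem_filter.2 ⟨mem_univ _, ?_⟩
      rcases mem_union.1 hy with h | h
      · exact (hR1 _ _ ((m1 x y).1 h)).1
      · exact hG1 _ _ (hR2 _ _ ((m2 x y).1 h)).1
    omega
  rw [sum_add_distrib, sum_add_distrib, c1, c2, ← mul_sum] at c4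
  have c5 : ∑ x, dg G univ x = D G univ := rfl
  rw [c5, hD] at c4
  omega

/-- more edges than vertices -/
lemma theta_bound {g : ℕ} : ∀ (e : ℕ) (G : SimpleGraph V),
    D G univ = 2 * (Fintype.card V + 1 + e) →
    (∀ Y : Finset V, Y.Nonempty → Cl G Y → g ≤ Y.card) → 3 * g ≤ 2 * Fintype.card V + 2 := by
  intro e
  induction e with
  | zero => intro G hD hg; exact theta_bound_eq hD hg
  | succ e ih =>
    intro G hD hg
    obtain ⟨x, y, hxy⟩ : ∃ x y, G.Adj x y := by
      by_contra hcon
      push Not at hcon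
      have : D G univ = 0 := by
        unfold D
        apply sum_eq_zero
        intro x _
        unfold dg
        rw [card_eq_zero, filter_eq_empty_iff]
        exact fun y _ h => hcon x y h
      omega
    obtain ⟨G1, h1, -, h2⟩ := remove_edge hxy
    refine ih G1 (by omega) ?_
    intro Y hY hcl
    apply hg Y hY
    intro v hv
    refine (hcl v hv).trans ?_
    unfold dg
    apply card_le_card
    intro u hu
    obtain ⟨a1, a2⟩ := mem_filter.1 hu
    exact mem_filter.2 ⟨a1, h1 _ _ a2⟩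

lemma exG_small {N g : ℕ} (h : 2 * N + 2 < 3 * g) : exG N g ≤ N := by
  obtain ⟨F, hF, hFD⟩ := exG_attained N g
  by_contra hcon
  push Not at hcon
  have h1 := theta_bound (g := g) (exG N g - (N + 1)) F (by rw [Fintype.card_fin]; omega) hF
  rw [Fintype.card_fin] at h1
  omega

end Pool.Agent.Lib.MP_d31508_co.Sharp
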