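import Pool.Agent.Lib.MP_d31508_co.Sharp.SmallG

set_option linter.unusedSectionVars false

/-!
# A clique with a cycle of length `k` attached
-/

namespace Pool.Agent.Lib.MP_d31508_co.Sharp

open Finset Classical
open Pool.Agent.Lib.MP_d31508_co.Asy (dg Cl D stPeel)

open Fin.NatCast Fin.CommRing in
/-- the cycle -/
lemma PG_cycle (n : ℕ) : PG (n + 3) (n + 3) (n + 3) := by
  have h1 : (1 : Fin (n + 3)) ≠ -1 := by
    intro h
    have h2 : (1 : Fin (n + 3)) + 1 = 0 := by
      nth_rewrite 2 [h]
      ring
    have h3 := congrArg Fin.val h2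
    simp [Fin.val_add] at h3
    rw [Nat.mod_eq_of_lt (by omega)] at h3
    omega
  refine ⟨SimpleGraph.cycleGraph (n + 3), ?_, ?_⟩
  · unfold D
    calc 2 * (n + 3) = ∑ _x : Fin (n + 3), 2 := by simp [mul_comm]
      _ ≤ _ := sum_le_sum (fun x _ => ?_)
    apply two_le_dg (y := x + 1) (z := x - 1) (mem_univ _) (mem_univ _)
    · intro h
      apply h1
      have h2 : x + 1 = x + (-1) := by rw [h]; ring
      exact add_left_cancel h2
    · rw [SimpleGraph.cycleGraph_adj]
      right; ring
    · rw [SimpleGraph.cycleGraph_adj]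
      left; ring
  · intro Y hY hcl
    have hstep : ∀ x ∈ Y, x + 1 ∈ Y := by
      intro x hx
      obtain ⟨y, hy, z, hz, hyz, a1, a2⟩ := two_le_dg_iff.1 (hcl x hx)
      rw [SimpleGraph.cycleGraph_adj] at a1 a2
      rcases a1 with a1 | a1 <;> rcases a2 with a2 | a2
      · exfalso
        apply hyz
        have e1 : y = x - 1 := by rw [← a1]; ring
        have e2 : z = x - 1 := by rw [← a2]; ring
        rw [e1, e2]
      · have : z = x + 1 := by rw [← a2]; ring
        rwa [← this]
      · have : y = x + 1 := by rw [← a1]; ring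
        rwa [← this]
      · have : y = x + 1 := by rw [← a1]; ring
        rwa [← this]
    obtain ⟨x, hx⟩ := hY
    have hall : ∀ j : ℕ, x + (j : Fin (n + 3)) ∈ Y := by
      intro j
      induction j with
      | zero => simpa using hx
      | succ j ih =>
        have := hstep _ ih
        have e : x + ((j + 1 : ℕ) : Fin (n + 3)) = x + (j : Fin (n + 3)) + 1 := by
          push_cast; ring
        rwa [e]
    have hun : Y = univ := by
      ext y
      simp only [mem_univ, iff_true]
      have := hall (y - x).val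
      rw [Fin.cast_val_eq_self] at this
      have e : x + (y - x) = y := by ring
      rwa [e] at this
    rw [hun, card_univ, Fintype.card_fin]

/-- a clique and a small set of girth `k`, joined by one edge -/
lemma join_abs {V : Type} [Fintype V] {G : SimpleGraph V} {A B : Finset V} {a b : V} {k : ℕ}
    (hk : 3 ≤ k) (hun : ∀ v, v ∈ A ∨ v ∈ B) (hA : A.card = k + 1) (hB : B.card ≤ k + 1)
    (hAB : ∀ x ∈ A, ∀ y ∈ B, G.Adj x y → x = a ∧ y = b)
    (hcl : ∀ Y ⊆ B, Y.Nonempty → Cl G Y → k ≤ Y.card) :
    ∀ S : Finset V, S.card = k + 2 → ¬ Cl G S := by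
  intro S hS hScl
  have hdeg : ∀ (P Q : Finset V) (c : V), (∀ x ∈ Q, ∀ y ∈ P, G.Adj x y → y = c) →
      ∀ x ∈ Q, dg G P x ≤ 1 := by
    intro P Q c h x hx
    unfold dg
    rw [card_le_one]
    intro u hu v hv
    rw [h x hx u (mem_filter.1 hu).1 (mem_filter.1 hu).2,
      h x hx v (mem_filter.1 hv).1 (mem_filter.1 hv).2]
  set X := S.filter (fun v => v ∈ A) with hX
  set Y := S.filter (fun v => v ∉ A) with hY
  have hXA : ∀ v ∈ X, v ∈ A := fun v hv => (mem_filter.1 hv).2
  have hYB : Y ⊆ B := fun v hv => (hun v).resolve_left (mem_filter.1 hv).2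
  have hcard : X.card + Y.card = k + 2 := by
    rw [← hS]; exact card_filter_add_card_filter_not (s := S) (fun v => v ∈ A)
  have hSeq : X ∪ Y = S := filter_union_filter_not_eq _ S
  have hXle : X.card ≤ k + 1 := by rw [← hA]; exact card_le_card hXA
  have hYle : Y.card ≤ k + 1 := (card_le_card hYB).trans hB
  have hsum : ∀ v ∈ S, 2 ≤ dg G X v + dg G Y v := by
    intro v hv
    refine (hScl v hv).trans ?_
    have h := dg_union_le (G := G) X Y v
    rwa [hSeq] at h
  have hY1 : ∀ y ∈ Y, dg G X y ≤ 1 ∧ (y ≠ b → dg G X y = 0) := by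
    intro y hy
    refine ⟨hdeg X Y a (fun u hu v hv h => (hAB v (hXA v hv) u (hYB hu) h.symm).1) y hy, ?_⟩
    intro hyb
    unfold dg
    rw [card_eq_zero, filter_eq_empty_iff]
    intro v hv h
    exact hyb (hAB v (hXA v hv) y (hYB hy) h.symm).2
  have hX1 : ∀ x ∈ X, dg G Y x ≤ 1 ∧ (x ≠ a → dg G Y x = 0) := by
    intro x hx
    refine ⟨hdeg Y X b (fun u hu v hv h => (hAB u (hXA u hu) v (hYB hv) h).2) x hx, ?_⟩
    intro hxa
    unfold dg
    rw [card_eq_zero, filter_eq_empty_iff]
    intro v hv h
    exact hxa (hAB x (hXA x hx) v (hYB hv) h).1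
  have hYne : Y.Nonempty := by rw [← card_pos]; omega
  have hYk : k ≤ Y.card := by
    by_cases hb : b ∈ Y
    · have h1 := hsum b (mem_filter.1 hb).1
      have h2 := (hY1 b hb).1
      obtain ⟨Y', y1, y2, y3⟩ := stPeel V G Y b hb (by omega) (by
        intro y hy hyb
        have h3 := hsum y (mem_filter.1 hy).1
        have h4 := (hY1 y hy).2 hyb
        omega)
      exact (hcl Y' (y1.trans hYB) y2 y3).trans (card_le_card y1)
    · apply hcl Y hYB hYne
      intro y hy
      have h3 := hsum y (mem_filter.1 hy).1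
      have h4 := (hY1 y hy).2 (fun h => hb (h ▸ hy))
      omega
  have hself : ∀ x ∈ X, dg G X x ≤ X.card - 1 := by
    intro x hx
    have h1 : dg G X x ≤ (X.erase x).card := by
      unfold dg
      apply card_le_card
      intro y hy
      obtain ⟨h1, h2⟩ := mem_filter.1 hy
      exact mem_erase.2 ⟨h2.ne', h1⟩
    rwa [card_erase_of_mem hx] at h1
  have hX0 : X.Nonempty := by rw [← card_pos]; omega
  obtain ⟨x, hx⟩ := hX0
  have key : ∀ y ∈ X, y ≠ a → False := by
    intro y hy hya
    have h1 := hsum y (mem_filter.1 hy).1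
    have h2 := (hX1 y hy).2 hya
    have h3 := hself y hy
    omega
  by_cases hxa : x = a
  · have h1 := hsum x (mem_filter.1 hx).1
    have h2 := (hX1 x hx).1
    have h3 := hself x hx
    obtain ⟨y, hy, hyx⟩ := exists_mem_ne (show 1 < X.card by omega) x
    exact key y hy (fun h => hyx (h.trans hxa.symm))
  · exact key x hx hxa

/-- joining a small graph of girth `k` to a clique -/
lemma PG_join {N e k : ℕ} (hN : 1 ≤ N) (hNk : N ≤ k + 1) (hk : 3 ≤ k) (h : PG N e k) :
    ∃ H : SimpleGraph (Fin (k + 1 + N)),
      (∀ S : Finset (Fin (k + 1 + N)), S.card = k + 2 → ¬ Cl H S) ∧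
      (k + 1) * k + 2 * (e + 1) ≤ D H univ := by
  obtain ⟨G, h1, h2⟩ := h
  let z : Fin N := ⟨0, hN⟩
  let R : Fin (k + 1) ⊕ Fin N → Fin (k + 1) ⊕ Fin N → Prop := fun u v => match u, v with
    | Sum.inl x, Sum.inl y => x ≠ y
    | Sum.inl x, Sum.inr y => x = 0 ∧ y = z
    | Sum.inr x, Sum.inl y => y = 0 ∧ x = z
    | Sum.inr x, Sum.inr y => G.Adj x y
  let H : SimpleGraph (Fin (k + 1) ⊕ Fin N) :=
    { Adj := R
      symm := ⟨by
        intro u v huv
        rcases u with x | i <;> rcases v with y | j
        · exact Ne.symm huv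
        · exact huv
        · exact huv
        · exact SimpleGraph.Adj.symm (G := G) huv⟩
      loopless := ⟨by
        intro u hu
        rcases u with x | i
        · exact hu rfl
        · exact G.loopless.irrefl i hu⟩ }
  have hR : ∀ x y, H.Adj (Function.Embedding.inr x) (Function.Embedding.inr y) ↔ G.Adj x y :=
    fun x y => Iff.rfl
  have hL : ∀ x y, H.Adj (Function.Embedding.inl x) (Function.Embedding.inl y) ↔
    (⊤ : SimpleGraph (Fin (k + 1))).Adj x y := fun x y => Iff.rfl
  set L : Finset (Fin (k + 1) ⊕ Fin N) := univ.map Function.Embedding.inl with hLdef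
  set T : Finset (Fin (k + 1) ⊕ Fin N) := univ.map Function.Embedding.inr with hTdef
  have hLT : Disjoint L T := by
    rw [disjoint_left]
    intro u hu hv
    obtain ⟨x, -, rfl⟩ := mem_map.1 hu
    obtain ⟨y, -, hy⟩ := mem_map.1 hv
    cases hy
  have hun : ∀ u : Fin (k + 1) ⊕ Fin N, u ∈ L ∨ u ∈ T := by
    intro u
    rcases u with x | i
    · left; simp [hLdef]
    · right; simp [hTdef]
  obtain ⟨H', p1, p2⟩ := transport (V := Fin (k + 1) ⊕ Fin N) (N := k + 1 + N) (by simp) H
  refine ⟨H', ?_, ?_⟩
  · intro S hS hcl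
    obtain ⟨Z, z1, z2⟩ := p2 S hcl
    refine join_abs (G := H) (A := L) (B := T) (a := Sum.inl 0) (b := Sum.inr z) hk hun
      (by simp [hLdef]) (by simpa [hTdef] using hNk) ?_ ?_ Z (z2.trans hS) z1
    · intro x hx y hy hxy
      obtain ⟨x, -, rfl⟩ := mem_map.1 hx
      obtain ⟨y, -, rfl⟩ := mem_map.1 hy
      exact ⟨congrArg Sum.inl hxy.1, congrArg Sum.inr hxy.2⟩
    · intro Y hYT hYne hYcl
      obtain ⟨Y', -, rfl⟩ := subset_map_iff.1 hYT
      rw [card_map]
      apply h2 Y'
      · simpa using hYne
      · intro x hx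
        have h3 := hYcl _ (mem_map_of_mem _ hx)
        rwa [dg_map Function.Embedding.inr hR] at h3
  · rw [p1, D_split hLT hun]
    have e1 : D H L = D (⊤ : SimpleGraph (Fin (k + 1))) univ := D_map _ hL univ
    have e2 : D H T = D G univ := D_map _ hR univ
    have e3 : (k + 1) * k ≤ D (⊤ : SimpleGraph (Fin (k + 1))) univ := by
      unfold D
      calc (k + 1) * k = ∑ _x : Fin (k + 1), k := by simp
        _ ≤ _ := sum_le_sum (fun x _ => by
          have : (univ : Finset (Fin (k + 1))).erase x ⊆
              univ.filter (fun y => (⊤ : SimpleGraph (Fin (k + 1))).Adj x y) := by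
            intro y hy
            simp only [mem_filter, mem_univ, true_and, SimpleGraph.top_adj]
            exact (ne_of_mem_erase hy).symm
          have h5 := card_le_card this
          rw [card_erase_of_mem (mem_univ _), card_univ, Fintype.card_fin,
            Nat.add_sub_cancel] at h5
          refine h5.trans (le_of_eq ?_)
          unfold dg
          congr)
    have e4 : 1 ≤ ∑ y ∈ T, dg H L y := by
      have h3 : 1 ≤ dg H L (Sum.inr z) := by
        apply one_le_dg (y := Sum.inl 0) (by simp [hLdef])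
        exact ⟨rfl, rfl⟩
      exact h3.trans (single_le_sum (f := fun y => dg H L y) (fun _ _ => Nat.zero_le _)
        (by simp [hTdef]))
    omega

/-- adding a pendant vertex -/
lemma pend_one {M m d : ℕ} (hM : 1 ≤ M) (h : ∃ H : SimpleGraph (Fin M),
      (∀ S : Finset (Fin M), S.card = m → ¬ Cl H S) ∧ d ≤ D H univ) :
    ∃ H : SimpleGraph (Fin (M + 1)),
      (∀ S : Finset (Fin (M + 1)), S.card = m → ¬ Cl H S) ∧ d + 2 ≤ D H univ := by
  obtain ⟨G, h1, h2⟩ := h
  let z : Fin M := ⟨0, hM⟩
  let R : Option (Fin M) → Option (Fin M) → Prop := fun u v => match u, v with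
    | none, none => False
    | none, some y => y = z
    | some x, none => x = z
    | some x, some y => G.Adj x y
  let H : SimpleGraph (Option (Fin M)) :=
    { Adj := R
      symm := ⟨by
        intro u v huv
        rcases u with _ | i <;> rcases v with _ | j
        · exact huv
        · exact huv
        · exact huv
        · exact SimpleGraph.Adj.symm (G := G) huv⟩
      loopless := ⟨by
        intro u hu
        rcases u with _ | i
        · exact hu
        · exact G.loopless.irrefl i hu⟩ }
  have hR : ∀ x y, H.Adj (Function.Embedding.some x) (Function.Embedding.some y) ↔ G.Adj x y :=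
    fun x y => Iff.rfl
  set L : Finset (Option (Fin M)) := {none} with hLdef
  set T : Finset (Option (Fin M)) := univ.map Function.Embedding.some with hTdef
  have hLT : Disjoint L T := by
    rw [hLdef, disjoint_singleton_left]
    simp [hTdef]
  have hun : ∀ u : Option (Fin M), u ∈ L ∨ u ∈ T := by
    intro u
    rcases u with _ | i
    · left; simp [hLdef]
    · right; simp [hTdef]
  obtain ⟨H', p1, p2⟩ := transport (V := Option (Fin M)) (N := M + 1) (by simp) H
  refine ⟨H', ?_, ?_⟩
  · intro S hS hcl
    obtain ⟨Z, z1, z2⟩ := p2 S hcl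
    rw [hS] at z2
    have hnone : none ∉ Z := by
      intro hmem
      have h3 := z1 _ hmem
      have h4 : dg H Z none ≤ 1 := by
        unfold dg
        rw [card_le_one]
        have key : ∀ a ∈ Z.filter (fun y => H.Adj none y), a = some z := by
          intro a ha
          obtain ⟨ha1, ha2⟩ := mem_filter.1 ha
          rcases a with _ | y
          · exact ha2.elim
          · exact congrArg some ha2
        intro a ha b hb
        rw [key a ha, key b hb]
      omega
    set Y : Finset (Fin M) := univ.filter (fun x => some x ∈ Z) with hY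
    have hZeq : Y.map Function.Embedding.some = Z := by
      ext u
      rcases u with _ | x
      · constructor
        · intro h
          obtain ⟨y, -, hy2⟩ := mem_map.1 h
          cases hy2
        · intro h
          exact absurd h hnone
      · constructor
        · intro h
          obtain ⟨y, hy, hy2⟩ := mem_map.1 h
          rw [← hy2]
          exact (mem_filter.1 hy).2
        · intro h
          exact mem_map_of_mem _ (mem_filter.2 ⟨mem_univ _, h⟩)
    apply h1 Y
    · rw [← card_map Function.Embedding.some, hZeq, z2]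
    · intro x hx
      have h3 := z1 _ (mem_filter.1 hx).2
      rw [← hZeq] at h3
      have h4 : dg H (Y.map Function.Embedding.some) (some x) = dg G Y x :=
        dg_map Function.Embedding.some hR Y x
      rwa [h4] at h3
  · rw [p1, D_split hLT hun]
    have e1 : D H T = D G univ := D_map _ hR univ
    have e4 : 1 ≤ ∑ y ∈ T, dg H L y := by
      have h3 : 1 ≤ dg H L (some z) := by
        apply one_le_dg (y := none) (by simp [hLdef])
        exact rfl
      exact h3.trans (single_le_sum (f := fun y => dg H L y) (fun _ _ => Nat.zero_le _)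
        (by simp [hTdef]))
    omega

lemma pend_many {M m d : ℕ} (hM : 1 ≤ M) (h : ∃ H : SimpleGraph (Fin M),
      (∀ S : Finset (Fin M), S.card = m → ¬ Cl H S) ∧ d ≤ D H univ) (p : ℕ) :
    ∃ H : SimpleGraph (Fin (M + p)),
      (∀ S : Finset (Fin (M + p)), S.card = m → ¬ Cl H S) ∧ d + 2 * p ≤ D H univ := by
  induction p with
  | zero => simpa using h
  | succ p ih =>
    have := pend_one (by omega) ih
    exact this

/-- the lower bound for `n ≥ 2k + 1` -/
lemma lower_cycle {k n : ℕ} (hk : 3 ≤ k) (hn : 2 * k + 1 ≤ n) :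
    ∃ H : SimpleGraph (Fin n), (∀ S : Finset (Fin n), S.card = k + 2 → ¬ Cl H S) ∧
      (k + 1) * k + 2 * (n - k) ≤ D H univ := by
  obtain ⟨j, rfl⟩ : ∃ j, k = j + 3 := ⟨k - 3, by omega⟩
  obtain ⟨p, rfl⟩ : ∃ p, n = j + 3 + 1 + (j + 3) + p := ⟨n - (j + 3 + 1 + (j + 3)), by omega⟩
  have h1 := PG_join (N := j + 3) (e := j + 3) (k := j + 3) (by omega) (by omega) (by omega)
    (PG_cycle j)
  obtain ⟨H, a1, a2⟩ := pend_many (by omega) h1 p
  refine ⟨H, a1, le_trans ?_ a2⟩
  omega

end Pool.Agent.Lib.MP_d31508_co.Sharp
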