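import Pool.Agent.Lib.MP_d31508_co.Sharp.FinalG
import Pool.Agent.Lib.MP_d31508_co.Sharp.SmallG
import Pool.Agent.Lib.MP_d31508_co.Sharp.SmallL

set_option linter.unusedSectionVars false

/-!
# The girth reduction, with the exact value for `2k + 1 ≤ n ≤ (5k - 3)/2`
-/

namespace Pool.Agent.Lib.MP_d31508_co.Sharp

open Finset Classical
open Pool.Agent.Lib.MP_d31508_co.Asy (dg Cl D f stCompl)

theorem girth_final : ∃ C : ℝ, 0 < C ∧ ∀ n k : ℕ, 2 ≤ k → k + 2 ≤ n →
    C * (Real.log n * Real.log k) ≤ k →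
    max ((k + 1).choose 2 + exG (n - k) (k + 3)) (Ex n k) + f n k ≤ n.choose 2 ∧
    n.choose 2 ≤ f n k + max ((k + 1).choose 2 + exG (n - k) k) (Ex n k) ∧
    (2 * k + 1 ≤ n → 2 * n + 3 ≤ 5 * k → f n k + (k + 1).choose 2 + (n - k) = n.choose 2) := by
  obtain ⟨C, hC, hmain⟩ := girth_main
  refine ⟨C + 100, by positivity, ?_⟩
  intro n k hk hnk hc
  have hK2 : (2 : ℝ) ≤ k := by exact_mod_cast hk
  have hkn : (k : ℝ) ≤ n := by exact_mod_cast (by omega : k ≤ n)
  set x := Real.log n with hx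
  set y := Real.log k with hy
  have hy1 : 0.69 ≤ y := by
    have h3 : Real.log 2 ≤ Real.log k := Real.log_le_log (by norm_num) hK2
    have h4 := Real.log_two_gt_d9
    linarith
  have hxy : y ≤ x := Real.log_le_log (by linarith) hkn
  have hx1 : 0.69 ≤ x := by linarith
  have hxy0 : 0.69 * 0.69 ≤ x * y := mul_le_mul hx1 hy1 (by norm_num) (by linarith)
  have hC' : C * (x * y) + 100 * (x * y) ≤ k := by
    calc C * (x * y) + 100 * (x * y) = (C + 100) * (x * y) := by ring
      _ ≤ k := hc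
  have hCn : 0 ≤ C * (x * y) := by positivity
  have hc1 : C * (x * y) ≤ k := by linarith
  have hk30 : 30 ≤ k := by
    have h1 : (30 : ℝ) ≤ k := by linarith
    exact_mod_cast h1
  obtain ⟨h1, h2⟩ := hmain n k hk hnk hc1
  refine ⟨h1, h2, ?_⟩
  intro hn1 hn2
  have h5 := choose_two_mul k
  have h6 : 31 * k ≤ (k + 1) * k := Nat.mul_le_mul_right _ (by omega)
  have h7 : exG (n - k) k ≤ n - k := exG_small (by omega)
  have h8 : Ex n k ≤ 3 * n / 2 := by
    unfold Ex
    split_ifs <;> omega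
  have h9 : max ((k + 1).choose 2 + exG (n - k) k) (Ex n k) ≤ (k + 1).choose 2 + (n - k) := by
    apply max_le <;> omega
  obtain ⟨H, r1, r2⟩ := lower_cycle (k := k) (n := n) (by omega) hn1
  have h10 := le_diff (by omega) H r1
  have h11 : 2 * ((k + 1).choose 2 + (n - k)) ≤ D H univ := by omega
  have h12 : (2 : ℝ) * (((k + 1).choose 2 + (n - k) : ℕ) : ℝ) ≤ D H univ := by
    exact_mod_cast h11
  have h13 : ((f n k + ((k + 1).choose 2 + (n - k)) : ℕ) : ℝ) ≤ (n.choose 2 : ℕ) := by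
    rw [Nat.cast_add]
    linarith
  have h14 : f n k + ((k + 1).choose 2 + (n - k)) ≤ n.choose 2 := by exact_mod_cast h13
  omega

end Pool.Agent.Lib.MP_d31508_co.Sharp
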