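import Pool.Agent.Lib.MP_d31508_co.Sharp.NumM

set_option linter.unusedSectionVars false

/-!
# The main theorem: upper half
-/

namespace Pool.Agent.Lib.MP_d31508_co.Sharp

open Finset Classical
open Pool.Agent.Lib.MP_d31508_co.Asy (dg Cl D f stCompl glue_part1)

/-- the number of edges of the sparse extremal graph -/
def Ex (n k : ℕ) : ℕ := if Even k then 3 * (n - 1) / 2 else 3 * n / 2 - 2

/-- the first alternative in real form -/
lemma first_real {n k Q d w : ℕ} (hQ : 1 ≤ Q) (hk : 1 ≤ k) (hn : k + 2 ≤ n)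
    (h : Q * d + 2 * (Q + 1) * (k + 1) ≤ Q * ((k + 1) * k) + 2 * (Q + 1) * n)
    (hw : k + 2 ≤ 140 * w * Q) :
    (d : ℝ) / 2 ≤ (k + 1) * k / 2 + (n - (k + 1)) + 140 * w * (n / k) := by
  have hQ0 : (0 : ℝ) < Q := by exact_mod_cast hQ
  have hk0 : (0 : ℝ) < k := by exact_mod_cast hk
  have hn' : (k : ℝ) + 2 ≤ n := by exact_mod_cast hn
  have h' : (Q : ℝ) * d + 2 * (Q + 1) * (k + 1) ≤ Q * ((k + 1) * k) + 2 * (Q + 1) * n := by
    exact_mod_cast h
  have hw' : (k : ℝ) + 2 ≤ 140 * w * Q := by exact_mod_cast hw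
  have h1 : (n : ℝ) - (k + 1) ≤ Q * (140 * w * (n / k)) := by
    have e : (Q : ℝ) * (140 * w * (n / k)) = (140 * w * Q) * n / k := by ring
    rw [e, le_div_iff₀ hk0]
    have h2 : (k : ℝ) * n ≤ (140 * w * Q) * n :=
      mul_le_mul_of_nonneg_right (by linarith) (by linarith)
    nlinarith
  have h3 : (Q : ℝ) * (d / 2) ≤ Q * ((k + 1) * k / 2 + (n - (k + 1)) + 140 * w * (n / k)) := by
    have e : (Q : ℝ) * ((k + 1) * k / 2 + (n - (k + 1)) + 140 * w * (n / k)) =
      Q * ((k + 1) * k) / 2 + Q * (n - (k + 1)) + Q * (140 * w * (n / k)) := by ring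
    rw [e]
    linarith
  exact le_of_mul_le_mul_left h3 hQ0

/-- the first alternative beyond the threshold -/
lemma beyond {n k d l : ℝ} (hk : 4 ≤ k) (hn : k + 2 ≤ n) (hl : Real.log n ≤ l)
    (hkl : 12320 * l ≤ k)
    (h1 : d / 2 ≤ (k + 1) * k / 2 + (n - (k + 1)) + 3080 * (n / k * Real.log (2 * n / k)))
    (h2 : k ^ 2 + 24640 * (k * Real.log k) ≤ n) : d + 4 ≤ 3 * n := by
  have hk0 : 0 < k := by linarith
  have hn0 : 0 < n := by linarith
  have hr0 : 0 < 2 * n / k := by positivity
  have h3 : 3080 * (n / k * Real.log (2 * n / k)) ≤ (n - k ^ 2) / 2 := by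
    rcases le_total n (2 * k ^ 2) with hc | hc
    · have a1 : n / k ≤ 2 * k := by
        rw [div_le_iff₀ hk0]; nlinarith
      have a2 : Real.log (2 * n / k) ≤ 2 * Real.log k := by
        have : Real.log (k ^ 2) = 2 * Real.log k := by
          rw [Real.log_pow]; norm_num
        rw [← this]
        apply Real.log_le_log hr0
        rw [div_le_iff₀ hk0]
        nlinarith
      have a3 : 0 ≤ Real.log (2 * n / k) := by
        apply Real.log_nonneg
        rw [le_div_iff₀ hk0]
        linarith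
      have a4 : n / k * Real.log (2 * n / k) ≤ 2 * k * (2 * Real.log k) :=
        mul_le_mul a1 a2 a3 (by positivity)
      linarith
    · have a1 : Real.log (2 * n / k) ≤ l := by
        refine le_trans (Real.log_le_log hr0 ?_) hl
        rw [div_le_iff₀ hk0]
        nlinarith
      have a2 : 3080 * (n / k * Real.log (2 * n / k)) ≤ 3080 * (n / k * (k / 12320)) := by
        apply mul_le_mul_of_nonneg_left _ (by norm_num)
        apply mul_le_mul_of_nonneg_left _ (by positivity)
        linarith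
      have a3 : 3080 * (n / k * (k / 12320)) = n / 4 := by
        field_simp
        norm_num
      rw [a3] at a2
      linarith
  nlinarith

/-- the thresholds -/
lemma thresholds {q n k : ℕ} (hq : 3 ≤ q) (hnk : k + 2 ≤ n)
    (hk : 100 * (cB : ℝ) * q ^ 78 * 3 ^ 70 * Real.log n ^ 70 ≤ k) :
    ∃ l W : ℕ, 1 ≤ l ∧ n < 2 ^ l ∧ q ^ 2 * l ≤ W ∧ 100 * W ≤ k ∧
      PhiB q (2 * q * l) ≤ k + 2 ∧ Phi q (2 * q * l) ≤ k + 2 ∧
      Big q (2 * q * l) (k + 2) ≤ W * (k + 2) := by
  have hn2 : 2 ≤ n := by omega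
  obtain ⟨l, hl1, hll, hnl⟩ : ∃ l : ℕ, 1 ≤ l ∧ (l : ℝ) ≤ 3 * Real.log n ∧ n < 2 ^ l :=
    ⟨Nat.log 2 n + 1, by omega, log_bound hn2, Nat.lt_pow_succ_log_self (by norm_num) n⟩
  obtain ⟨W, hW⟩ : ∃ W : ℕ, W = cB * q ^ 78 * l ^ 70 := ⟨_, rfl⟩
  have hcB1 : 1 ≤ cB := by unfold cB cA; norm_num
  have hWk : 100 * (W : ℝ) ≤ k := by
    have h2 : (l : ℝ) ^ 70 ≤ 3 ^ 70 * Real.log n ^ 70 := by
      rw [← mul_pow]
      exact pow_le_pow_left₀ (Nat.cast_nonneg _) hll _
    calc (100 * (W : ℝ)) = 100 * (cB : ℝ) * (q ^ 78) * (l : ℝ) ^ 70 := by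
            rw [hW]; push_cast; ring
        _ ≤ 100 * (cB : ℝ) * (q ^ 78) * (3 ^ 70 * Real.log n ^ 70) := by
            apply mul_le_mul_of_nonneg_left h2 (by positivity)
        _ = 100 * (cB : ℝ) * q ^ 78 * 3 ^ 70 * Real.log n ^ 70 := by ring
        _ ≤ k := hk
  have hlW : q ^ 2 * l ≤ W := by
    calc q ^ 2 * l = 1 * q ^ 2 * l ^ 1 := by ring
      _ ≤ cB * q ^ 78 * l ^ 70 := Nat.mul_le_mul (Nat.mul_le_mul hcB1
          (Nat.pow_le_pow_right (by omega) (by norm_num))) (Nat.pow_le_pow_right hl1 (by norm_num))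
      _ = W := hW.symm
  have hWkN : 100 * W ≤ k := by exact_mod_cast hWk
  have hPB : PhiB q (2 * q * l) ≤ k + 2 := by
    have := PhiB_le (q := q) (l := l) (by omega) hl1
    rw [← hW] at this
    omega
  have hP : Phi q (2 * q * l) ≤ k + 2 := by
    have h1 := Phi_le (q := q) (l := l) (by omega) hl1
    have h2 : 578 * 24 ^ 4 * 363 ^ 16 * q ^ 37 * l ^ 32 ≤ W := by
      rw [hW]
      apply Nat.mul_le_mul (Nat.mul_le_mul _ (Nat.pow_le_pow_right (by omega) (by norm_num)))
        (Nat.pow_le_pow_right hl1 (by norm_num))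
      unfold cB cA
      norm_num
    omega
  have hBg := Big_le (q := q) (l := l) (m := k + 2) (by omega) hl1 hPB
  rw [← hW] at hBg
  exact ⟨l, W, hl1, hnl, hlW, hWkN, hPB, hP, hBg⟩

/-- **Upper half of the main theorem** -/
theorem upper_half : ∃ C : ℝ, ∀ n k : ℕ, k + 2 ≤ n → C * Real.log n ^ 70 ≤ k →
    ((n.choose 2 : ℝ) - f n k ≤
      max ((k + 1) * k / 2 + (n - (k + 1)) + 3080 * (n / k * Real.log (2 * n / k))) (Ex n k)) ∧
    ((k : ℝ) ^ 2 + 24640 * (k * Real.log k) ≤ n → f n k + Ex n k = n.choose 2) := by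
  refine ⟨100 * (cB : ℝ) * ((1000 : ℕ) : ℝ) ^ 78 * 3 ^ 70, ?_⟩
  intro n k hnk hk
  obtain ⟨l, W, hl1, hnl, hlW, hWkN, hPB, hP, hBg⟩ := thresholds (q := 1000) (by norm_num) hnk hk
  clear hk
  have hlW2 : 1000000 * l ≤ W := by
    calc 1000000 * l = 1000 ^ 2 * l := by norm_num
      _ ≤ W := hlW
  clear hlW
  have hBig : 4 * (Big 1000 (2 * 1000 * l) (k + 2) + 4) ≤ (k + 2) * (k + 2) := by
    have h1 : 8 * (W * (k + 2)) ≤ k * (k + 2) := by
      calc 8 * (W * (k + 2)) = 8 * W * (k + 2) := by ring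
        _ ≤ k * (k + 2) := Nat.mul_le_mul_right _ (by omega)
    have h2 : (k + 2) * (k + 2) = k * (k + 2) + 2 * (k + 2) := by ring
    have h3 : 8 * (k + 2) ≤ W * (k + 2) := Nat.mul_le_mul_right _ (by omega)
    rw [h2]
    generalize W * (k + 2) = a at *
    generalize k * (k + 2) = b at *
    omega
  have hlk : Nat.log 2 (n / (k + 2)) + 1 ≤ l := by
    have h1 : n / (k + 2) < 2 ^ l := lt_of_le_of_lt (Nat.div_le_self _ _) hnl
    rcases Nat.eq_zero_or_pos (n / (k + 2)) with h0 | h0
    · rw [h0]; simpa using hl1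
    · exact Nat.log_lt_of_lt_pow (by omega) h1
  obtain ⟨Q, j, hQ, hj, hQj, hQw⟩ := Q_choice (n := n) (m := k + 2) (by omega) (by omega)
  have hlogn : Real.log n ≤ l := by
    have h1 : (n : ℝ) ≤ 2 ^ l := by exact_mod_cast hnl.le
    have h2 := Real.log_le_log (by exact_mod_cast (by omega : 0 < n)) h1
    rw [Real.log_pow] at h2
    have h3 : Real.log 2 ≤ 1 := by linarith [Real.log_two_lt_d9]
    have h4 : (0 : ℝ) ≤ l := Nat.cast_nonneg _
    exact h2.trans ((mul_le_mul_of_nonneg_left h3 h4).trans (mul_one _).le)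
  -- the alternative for graphs
  have key : ∀ H : SimpleGraph (Fin n), (∀ S : Finset (Fin n), S.card = k + 2 → ¬ Cl H S) →
      (D H univ : ℝ) / 2 ≤ (k + 1) * k / 2 + (n - (k + 1)) +
        3080 * (n / k * Real.log (2 * n / k)) ∨
      ((Even (k + 2) → D H univ + 3 ≤ 3 * n) ∧ (Odd (k + 2) → D H univ + 4 ≤ 3 * n)) := by
    intro H hH
    have hup := upper_main (G := H) (r := 2 * 1000 * l) (m := k + 2) (Q := Q) (j := j)
      (by rw [Fintype.card_fin]; exact r_choice (by norm_num) hnl)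
      (by rw [Fintype.card_fin]; exact r_choice2 (by norm_num) hnl)
      (by rw [Fintype.card_fin]; exact r_choice3 (by norm_num) hnl) hH hP hPB (by omega)
      (by rw [Fintype.card_fin]; exact hnk) hBig hQ (by rw [Fintype.card_fin]; exact hj) hQj
    rw [Fintype.card_fin] at hup
    rcases hup with h | h
    · left
      have e1 : k + 2 - 1 = k + 1 := by omega
      have e2 : k + 2 - 2 = k := by omega
      rw [e1, e2] at h
      have h1 := first_real hQ (by omega) hnk h hQw
      have h2 := log_ratio (n := n) (m := k + 2) (by omega) hnk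
      have hk0 : (0 : ℝ) < k := by exact_mod_cast (by omega : 0 < k)
      have hn0 : (0 : ℝ) < n := by exact_mod_cast (by omega : 0 < n)
      have h3 : Real.log (2 * n / ((k + 2 : ℕ) : ℝ)) ≤ Real.log (2 * n / k) := by
        apply Real.log_le_log (by positivity)
        apply div_le_div_of_nonneg_left (by positivity) hk0
        push_cast; linarith
      have h4 : 140 * ((2 * (Nat.log 2 (n / (k + 2)) + 1) + 13 : ℕ) : ℝ) * (n / k) ≤
          140 * (22 * Real.log (2 * n / k)) * (n / k) := by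
        apply mul_le_mul_of_nonneg_right _ (by positivity)
        linarith
      have h5 : 140 * (22 * Real.log (2 * n / k)) * ((n : ℝ) / k) =
        3080 * (n / k * Real.log (2 * n / k)) := by ring
      rw [h5] at h4
      linarith
    · right; exact h
  constructor
  · obtain ⟨H, hH, hHD⟩ := diff_le (n := n) (k := k) (by omega)
    rw [hHD]
    rcases key H hH with h | ⟨h1, h2⟩
    · exact le_max_of_le_left h
    · apply le_max_of_le_right
      obtain ⟨d, hd⟩ := D_even (G := H) univ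
      rw [hd]
      have e : (((d + d : ℕ) : ℝ)) / 2 = d := by push_cast; ring
      rw [e]
      have : d ≤ Ex n k := by
        unfold Ex
        split_ifs with he
        · have he2 : Even (k + 2) := by
            obtain ⟨a, ha⟩ := he
            exact ⟨a + 1, by omega⟩
          have := h1 he2
          omega
        · have ho2 : Odd (k + 2) := by
            obtain ⟨a, ha⟩ := Nat.not_even_iff_odd.1 he
            exact ⟨a + 1, by omega⟩
          have := h2 ho2
          omega
      exact_mod_cast this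
  · intro hbig
    have hex := exact_of_bound (n := n) (k := k) (by omega) hnk (by
      intro H hH
      rcases key H hH with h | h
      · have h1 := beyond (n := n) (k := k) (d := D H univ) (l := l)
          (by exact_mod_cast (by omega : 4 ≤ k)) (by exact_mod_cast hnk) hlogn
          (by exact_mod_cast (by omega : 12320 * l ≤ k)) h hbig
        have h2 : D H univ + 4 ≤ 3 * n := by exact_mod_cast h1
        exact ⟨fun _ => by omega, fun _ => h2⟩
      · exact h)
    unfold Ex
    split_ifs with he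
    · exact hex.1 he
    · exact hex.2 (Nat.not_even_iff_odd.1 he)

end Pool.Agent.Lib.MP_d31508_co.Sharp
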