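import Pool.Agent.Lib.MP_d31508_co.Sharp.SubdivM
import Pool.Agent.Lib.MP_d31508_co.Asy.Compl

set_option linter.unusedSectionVars false

/-!
# Girth and closed sets, the extremal function for girth
-/

namespace Pool.Agent.Lib.MP_d31508_co.Sharp

open Finset Classical
open Pool.Agent.Lib.MP_d31508_co
open Pool.Agent.Lib.MP_d31508_co.Asy (dg Cl D)

variable {V : Type} [Fintype V] {G : SimpleGraph V}

/-- the vertex set of a cycle with the neighbour relation along the cycle -/
lemma cycle_data {a : V} {p : G.Walk a a} (hp : p.IsCycle) :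
    ∃ (S : Finset V) (R : V → V → Prop), S.card = p.length ∧ (∀ x y, R x y → R y x) ∧
      (∀ x y, R x y → G.Adj x y ∧ x ∈ S ∧ y ∈ S) ∧
      (∀ x ∈ S, ∃ y z, y ≠ z ∧ R x y ∧ R x z ∧ ∀ u, R x u → u = y ∨ u = z) := by
  refine ⟨p.support.toFinset, p.toSubgraph.Adj, ?_, fun x y h => h.symm, ?_, ?_⟩
  · have h1 : p.support.toFinset = p.support.tail.toFinset := by
      ext v
      rw [List.mem_toFinset, List.mem_toFinset]
      constructor
      · intro hv
        rcases eq_or_ne v a with rfl | hne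
        · exact SimpleGraph.Walk.end_mem_tail_support hp.not_nil
        · rw [← p.cons_tail_support] at hv
          rcases List.mem_cons.1 hv with h3 | h3
          · exact absurd h3 hne
          · exact h3
      · intro hv
        exact List.mem_of_mem_tail hv
    rw [h1, List.toFinset_card_of_nodup hp.support_nodup]
    simp
  · intro x y h
    refine ⟨h.adj_sub, ?_, ?_⟩
    · rw [List.mem_toFinset]
      exact p.mem_verts_toSubgraph.1 (p.toSubgraph.edge_vert h)
    · rw [List.mem_toFinset]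
      exact p.mem_verts_toSubgraph.1 (p.toSubgraph.edge_vert h.symm)
  · intro x hx
    rw [List.mem_toFinset] at hx
    have h1 := hp.ncard_neighborSet_toSubgraph_eq_two hx
    obtain ⟨y, z, hyz, h2⟩ := Set.ncard_eq_two.1 h1
    have h3 : ∀ u, p.toSubgraph.Adj x u ↔ u = y ∨ u = z := by
      intro u
      have : u ∈ p.toSubgraph.neighborSet x ↔ u ∈ ({y, z} : Set V) := by rw [h2]
      simpa using this
    exact ⟨y, z, hyz, (h3 y).2 (Or.inl rfl), (h3 z).2 (Or.inr rfl), fun u hu => (h3 u).1 hu⟩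

/-- a nonempty closed set contains a cycle -/
lemma cycle_of_cl {S : Finset V} (hne : S.Nonempty) (hS : Cl G S) :
    ∃ (a : V) (w : G.Walk a a), w.IsCycle ∧ w.length ≤ S.card := by
  set H : SimpleGraph S := G.induce (S : Set V) with hH
  have hneS : Nonempty S := ⟨⟨hne.choose, hne.choose_spec⟩⟩
  have hnot : ¬ H.IsAcyclic := by
    intro hac
    have ⟨u, v, p, hp, hmax⟩ := SimpleGraph.Walk.exists_isPath_forall_isPath_length_le_length H
    obtain ⟨y, hy, z, hz, hyz, h1, h2⟩ := two_le_dg_iff.1 (hS u.1 u.2)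
    have key : ∀ w : S, H.Adj u w → w = p.snd := by
      intro w hw
      apply hac.eq_snd_of_adj_start hp hw
      have : ¬(p.cons hw.symm).IsPath := by
        intro hc
        have := hmax _ _ _ hc
        rw [SimpleGraph.Walk.length_cons] at this
        omega
      by_contra hmem
      exact this (hp.cons hmem)
    have e1 := key ⟨y, hy⟩ h1
    have e2 := key ⟨z, hz⟩ h2
    exact hyz (congrArg Subtype.val (e1.trans e2.symm))
  unfold SimpleGraph.IsAcyclic at hnot
  push Not at hnot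
  obtain ⟨a, w, hw⟩ := hnot
  obtain ⟨φ, hφ⟩ : ∃ φ : H ↪g G, φ = SimpleGraph.Embedding.induce (S : Set V) := ⟨_, rfl⟩
  refine ⟨_, w.map φ.toHom, ?_, ?_⟩
  · exact hw.map φ.injective
  · rw [SimpleGraph.Walk.length_map]
    obtain ⟨T, -, h1, -⟩ := cycle_data hw
    rw [← h1]
    calc T.card ≤ Fintype.card S := card_le_univ T
      _ = S.card := Fintype.card_coe S

/-- a cycle gives a closed set -/
lemma cl_of_cycle {a : V} {p : G.Walk a a} (hp : p.IsCycle) :
    ∃ S : Finset V, S.Nonempty ∧ Cl G S ∧ S.card = p.length := by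
  obtain ⟨S, R, h1, h2, h3, h4⟩ := cycle_data hp
  refine ⟨S, ?_, ?_, h1⟩
  · rw [← card_pos, h1]
    have := hp.three_le_length
    omega
  · intro x hx
    obtain ⟨y, z, hyz, hy, hz, -⟩ := h4 x hx
    exact two_le_dg (h3 x y hy).2.2 (h3 x z hz).2.2 hyz (h3 x y hy).1 (h3 x z hz).1

/-- girth in terms of closed sets -/
lemma girth_iff (g : ℕ) :
    (g : ℕ∞) ≤ G.egirth ↔ ∀ Y : Finset V, Y.Nonempty → Cl G Y → g ≤ Y.card := by
  constructor
  · intro h Y hY hcl
    obtain ⟨a, w, hw, hlen⟩ := cycle_of_cl hY hcl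
    have h1 := h.trans (SimpleGraph.egirth_le_length hw)
    have h2 : g ≤ w.length := by exact_mod_cast h1
    omega
  · intro h
    rw [SimpleGraph.le_egirth]
    intro a w hw
    obtain ⟨S, h1, h2, h3⟩ := cl_of_cycle hw
    have := h S h1 h2
    rw [h3] at this
    exact_mod_cast this

/-- the largest number of edges of a graph on `N` vertices with girth at least `g` -/
noncomputable def exG (N g : ℕ) : ℕ :=
  sSup {e | ∃ F : SimpleGraph (Fin N), (g : ℕ∞) ≤ F.egirth ∧ F.edgeSet.ncard = e}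

lemma exG_bdd (N g : ℕ) :
    BddAbove {e | ∃ F : SimpleGraph (Fin N), (g : ℕ∞) ≤ F.egirth ∧ F.edgeSet.ncard = e} := by
  refine ⟨N * N, ?_⟩
  rintro e ⟨F, -, rfl⟩
  have h1 := Asy.compl_D_univ F
  have h2 := D_le_sq (G := F) univ
  rw [card_univ, Fintype.card_fin] at h2
  omega

lemma exG_ne (N g : ℕ) :
    {e | ∃ F : SimpleGraph (Fin N), (g : ℕ∞) ≤ F.egirth ∧ F.edgeSet.ncard = e}.Nonempty :=
  ⟨_, ⊥, by simp, rfl⟩

lemma exG_attained (N g : ℕ) : ∃ F : SimpleGraph (Fin N),
    (∀ Y : Finset (Fin N), Y.Nonempty → Cl F Y → g ≤ Y.card) ∧ D F univ = 2 * exG N g := by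
  obtain ⟨F, h1, h2⟩ := Nat.sSup_mem (exG_ne N g) (exG_bdd N g)
  refine ⟨F, (girth_iff g).1 h1, ?_⟩
  rw [Asy.compl_D_univ, h2]
  rfl

lemma le_exG {W : Type} [Fintype W] {N g : ℕ} (hN : Fintype.card W = N) (F : SimpleGraph W)
    (hF : ∀ Y : Finset W, Y.Nonempty → Cl F Y → g ≤ Y.card) : D F univ ≤ 2 * exG N g := by
  obtain ⟨H, h1, h2⟩ := transport hN F
  have h3 : (g : ℕ∞) ≤ H.egirth := by
    rw [girth_iff]
    intro Y hY hcl
    obtain ⟨Z, z1, z2⟩ := h2 Y hcl
    rw [← z2]
    apply hF Z _ z1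
    rw [← card_pos, z2]
    exact card_pos.2 hY
  rw [← h1, Asy.compl_D_univ]
  exact Nat.mul_le_mul_left _ (le_csSup (exG_bdd N g) ⟨H, h3, rfl⟩)

end Pool.Agent.Lib.MP_d31508_co.Sharp
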