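import Pool.Agent.Lib.MP_d31508_co.Sharp.Basic

set_option linter.unusedSectionVars false

/-!
# A small closed set which already sees almost everything that its small extensions see
-/

namespace Pool.Agent.Lib.MP_d31508_co.Sharp

open Finset Classical
open Pool.Agent.Lib.MP_d31508_co.Asy (dg Cl D)

variable {V : Type} [Fintype V] {G : SimpleGraph V}

lemma potential (G : SimpleGraph V) (B A : Finset V) (T S : ℕ) :
    ∃ X ⊆ A, Cl G X ∧ X.card ≤ T * S ∧ ∀ W ⊆ A, Cl G (X ∪ W) → W.card ≤ S →
      T * (B.filter (fun v => dg G X v ≤ 1 ∧ 1 ≤ dg G (W \ X) v)).card ≤ 2 * B.card := by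
  by_cases hB : B.card = 0
  · rw [card_eq_zero] at hB
    subst hB
    exact ⟨∅, by simp, Cl_empty, by simp, fun W _ _ _ => by simp⟩
  have hBpos : 0 < B.card := Nat.pos_of_ne_zero hB
  set ψ : Finset V → ℕ := fun X => ∑ v ∈ B, min 2 (dg G X v) with hψ
  obtain ⟨X, hX, hmax⟩ := exists_max_image (A.powerset.filter (fun X => Cl G X))
    (fun X => ((T * S * ψ X : ℕ) : ℤ) - 2 * B.card * X.card) ⟨∅, by simp [Cl_empty]⟩
  simp only [mem_filter, mem_powerset] at hX hmax
  obtain ⟨hXA, hXcl⟩ := hX
  refine ⟨X, hXA, hXcl, ?_, ?_⟩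
  · have h1 := hmax ∅ ⟨by simp, Cl_empty⟩
    have h0 : ψ ∅ = 0 := by simp [hψ]
    rw [h0] at h1
    have h2 : ψ X ≤ 2 * B.card := by
      calc ψ X ≤ ∑ _v ∈ B, 2 := sum_le_sum (fun v _ => min_le_left _ _)
        _ = 2 * B.card := by simp [mul_comm]
    have h3 : 2 * B.card * X.card ≤ T * S * ψ X := by
      simp at h1
      zify
      try push_cast at h1
      linarith
    have h4 : 2 * B.card * X.card ≤ 2 * B.card * (T * S) := by
      calc 2 * B.card * X.card ≤ T * S * ψ X := h3
        _ ≤ T * S * (2 * B.card) := Nat.mul_le_mul_left _ h2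
        _ = _ := by ring
    exact Nat.le_of_mul_le_mul_left h4 (by omega)
  · intro W hWA hW hWS
    by_cases hS : S = 0
    · have : W = ∅ := card_eq_zero.1 (by omega)
      subst this
      simp
    have h1 := hmax (X ∪ W) ⟨union_subset hXA hWA, hW⟩
    have h2 : (X ∪ W).card ≤ X.card + S := (card_union_le _ _).trans (by omega)
    have h3 : ψ X + (B.filter (fun v => dg G X v ≤ 1 ∧ 1 ≤ dg G (W \ X) v)).card ≤
        ψ (X ∪ W) := by
      rw [card_filter, hψ]
      simp only
      rw [← sum_add_distrib]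
      apply sum_le_sum
      intro v _
      have e : X ∪ W = X ∪ (W \ X) := by simp
      have h5 : dg G (X ∪ W) v = dg G X v + dg G (W \ X) v := by
        rw [e]; exact dg_union_disj disjoint_sdiff v
      split_ifs with h
      · rw [h5]; omega
      · rw [h5]; omega
    set c := (B.filter (fun v => dg G X v ≤ 1 ∧ 1 ≤ dg G (W \ X) v)).card with hc
    have h6 : T * S * c ≤ 2 * B.card * S := by
      have h7 : (T * S * (ψ X + c) : ℕ) ≤ T * S * ψ (X ∪ W) := Nat.mul_le_mul_left _ h3
      have h8 : 2 * B.card * (X ∪ W).card ≤ 2 * B.card * (X.card + S) :=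
        Nat.mul_le_mul_left _ h2
      zify at h7 h8 ⊢
      try push_cast at h1
      nlinarith
    have h9 : S * (T * c) ≤ S * (2 * B.card) := by
      calc S * (T * c) = T * S * c := by ring
        _ ≤ 2 * B.card * S := h6
        _ = _ := by ring
    exact Nat.le_of_mul_le_mul_left h9 (Nat.pos_of_ne_zero hS)

end Pool.Agent.Lib.MP_d31508_co.Sharp
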