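import Pool.Agent.Lib.MP_d31508_co.Sharp.Family
import Pool.Agent.Lib.MP_d31508_co.Sharp.Potential

set_option linter.unusedSectionVars false

/-!
# Growing a closed set inside a kernel
-/

namespace Pool.Agent.Lib.MP_d31508_co.Sharp

open Finset Classical
open Pool.Agent.Lib.MP_d31508_co.Asy (dg Cl D)

variable {V : Type} [Fintype V] {G : SimpleGraph V}

/-- A closed set in a kernel which is not too large can be enlarged by a small set avoiding `W`. -/
lemma grow_step {B X X' W : Finset V} {q r S T m : ℕ} (hq : 1 ≤ q)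
    (hr : Fintype.card V * (2 * q) ^ r < (2 * q + 1) ^ r)
    (hker : Ker G (q + 1) q ∅ B) (hB : (q + 1) * m ≤ q * B.card)
    (hXX : X ⊆ X') (hX'B : X' ⊆ B \ W) (hX'm : X'.card ≤ m)
    (hWX : Disjoint W X) (hWS : W.card ≤ S)
    (hT : T = 8 * q * (q + 1) * S) (hS : 1 ≤ S) (hBS : 2 * (q + 1) * S < B.card)
    (hpot : T * (B.filter (fun v => dg G X v ≤ 1 ∧ 1 ≤ dg G (W \ X) v)).card ≤ 2 * B.card) :
    ∃ E ⊆ (B \ X') \ W, E.Nonempty ∧ E.card ≤ 4 * r + 3 ∧ Hang G X' E := by
  by_cases hex : ∃ v ∈ (B \ X') \ W, 2 ≤ dg G X' v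
  · obtain ⟨v, hv, hdv⟩ := hex
    refine ⟨{v}, by simpa using hv, by simp, by simp, ?_⟩
    intro x hx
    rw [mem_singleton] at hx
    subst hx
    exact hdv.trans (dg_mono subset_union_left _)
  · push Not at hex
    set R := (B \ X') \ W with hR
    have hRB : R ⊆ B := sdiff_subset.trans sdiff_subset
    have h1 := star (G := G) hR
    have h2 := few_edges (G := G) (T := T) (S := S) hRB hWX hWS hpot (fun v hv => by
      have h3 := hex v hv
      have h4 := dg_mono (G := G) hXX v
      omega)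
    have hXR : Disjoint X' R := by
      rw [hR]
      exact disjoint_of_subset_right sdiff_subset disjoint_sdiff
    -- size of `R`
    have hcard : B.card ≤ R.card + X'.card + S := by
      have hsub : B ⊆ R ∪ (X' ∪ W) := by
        intro x hx
        by_cases h : x ∈ X' ∪ W
        · exact mem_union_right _ h
        · rw [mem_union] at h
          push Not at h
          apply mem_union_left
          rw [hR, mem_sdiff, mem_sdiff]
          exact ⟨⟨hx, h.1⟩, h.2⟩
      calc B.card ≤ (R ∪ (X' ∪ W)).card := card_le_card hsub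
        _ ≤ R.card + (X' ∪ W).card := card_union_le _ _
        _ ≤ R.card + (X'.card + W.card) := Nat.add_le_add_left (card_union_le _ _) _
        _ ≤ _ := by omega
    have hRbig : B.card ≤ (q + 1) * R.card + (q + 1) * S := by
      have a1 : (q + 1) * B.card ≤ (q + 1) * (R.card + X'.card + S) :=
        Nat.mul_le_mul_left _ hcard
      have a2 : (q + 1) * X'.card ≤ (q + 1) * m := Nat.mul_le_mul_left _ hX'm
      nlinarith
    set sg := ∑ y ∈ R, dg G W y with hsg
    have hRS : 2 * q * sg < R.card := by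
      have b1 : T * R.card = 8 * q * S * ((q + 1) * R.card) := by rw [hT]; ring
      have b2 : 8 * q * S * B.card ≤ 8 * q * S * ((q + 1) * R.card) + 8 * q * S * ((q + 1) * S) := by
        rw [← mul_add]
        exact Nat.mul_le_mul_left _ hRbig
      have b3 : 8 * q * S * ((q + 1) * S) < 4 * q * S * B.card := by
        have : 4 * q * S * (2 * (q + 1) * S) < 4 * q * S * B.card := by
          apply Nat.mul_lt_mul_of_pos_left hBS
          positivity
        calc _ = 4 * q * S * (2 * (q + 1) * S) := by ring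
          _ < _ := this
      have b4 : 2 * q * (T * sg) ≤ 2 * q * (2 * B.card * S) := Nat.mul_le_mul_left _ h2
      have b5 : T * (2 * q * sg) < T * R.card := by nlinarith
      exact lt_of_mul_lt_mul_left b5 (Nat.zero_le _)
    have hRne : R.Nonempty := card_pos.1 (by omega)
    -- density over `X'`
    have h3 := hker R hRB hRne
    simp only [empty_union] at h3
    obtain ⟨R', hR', hval, hker'⟩ := kernel_exists (G := G) (2 * q + 1) (2 * q) X' R
    have hR'ne : R'.Nonempty := by
      by_contra hne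
      rw [not_nonempty_iff_eq_empty] at hne
      rw [hne] at hval
      simp only [union_empty, card_empty, mul_zero, add_zero] at hval
      have c1 : 2 * q * (D G B + D G X') ≤ 2 * q * (D G (B \ R) + D G (X' ∪ R) + 2 * sg) :=
        Nat.mul_le_mul_left _ h1
      nlinarith
    obtain ⟨v, hv⟩ := hR'ne
    obtain ⟨E, e1, e2, e3, e4⟩ := cover hker' (disjoint_of_subset_right hR' hXR) hr v hv
    exact ⟨E, e1.trans hR', ⟨v, e2⟩, e3, e4⟩

/-- Growing into a window. -/
lemma grow {B X W : Finset V} {q r S T m K : ℕ} (hq : 1 ≤ q)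
    (hr : Fintype.card V * (2 * q) ^ r < (2 * q + 1) ^ r)
    (hker : Ker G (q + 1) q ∅ B) (hB : (q + 1) * m ≤ q * B.card)
    (hX : Cl G X) (hXB : X ⊆ B \ W) (hXm : X.card + K ≤ m)
    (hWX : Disjoint W X) (hWS : W.card ≤ S)
    (hT : T = 8 * q * (q + 1) * S) (hS : 1 ≤ S) (hBS : 2 * (q + 1) * S < B.card)
    (hpot : T * (B.filter (fun v => dg G X v ≤ 1 ∧ 1 ≤ dg G (W \ X) v)).card ≤ 2 * B.card) :
    ∃ X', X ⊆ X' ∧ X' ⊆ B \ W ∧ Cl G X' ∧ X'.card + K ≤ m ∧ m < X'.card + K + (4 * r + 3) := by
  obtain ⟨X', hX', hmax⟩ := exists_max_image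
    ((B \ W).powerset.filter (fun Y => X ⊆ Y ∧ Cl G Y ∧ Y.card + K ≤ m)) card
    ⟨X, by simp [hXB, hX, hXm]⟩
  obtain ⟨h1, h2, h3, h4⟩ := mem_filter.1 hX'
  rw [mem_powerset] at h1
  refine ⟨X', h2, h1, h3, h4, ?_⟩
  obtain ⟨E, e1, e2, e3, e4⟩ := grow_step hq hr hker hB h2 h1 (by omega) hWX hWS hT hS hBS hpot
  by_contra hcon
  push Not at hcon
  have hdisj : Disjoint X' E := by
    apply disjoint_of_subset_right (e1.trans sdiff_subset) disjoint_sdiff
  have hc : (X' ∪ E).card = X'.card + E.card := card_union_of_disjoint hdisj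
  have hEp := card_pos.2 e2
  have := hmax (X' ∪ E) (by
    rw [mem_filter, mem_powerset]
    refine ⟨union_subset h1 ?_, h2.trans subset_union_left, e4.cl h3, by omega⟩
    intro x hx
    have := e1 hx
    rw [mem_sdiff, mem_sdiff] at this
    exact mem_sdiff.2 ⟨this.1.1, this.2⟩)
  omega

end Pool.Agent.Lib.MP_d31508_co.Sharp
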