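import Pool.Agent.Lib.MP_d31508_co.Sharp.SubdivM
import Pool.Agent.Lib.MP_d31508_co.Sharp.Final
import Pool.Agent.Results.MP_d31508_co.CliqueRange

set_option linter.unusedSectionVars false

/-!
# The main theorem: lower half
-/

namespace Pool.Agent.Lib.MP_d31508_co.Sharp

open Finset Classical
open Pool.Agent.Lib.MP_d31508_co.Asy (dg Cl D f stGirth stBfs)

/-- the gain of the subdivided graph -/
lemma lower_gain {n k μ g j : ℕ} (hk : 1 ≤ k) (hg : 1 ≤ g) (hμ : 5 ^ g ≤ 2 * μ)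
    (hj : k + 3 ≤ 2 ^ j * (g + 1)) (hn : 5 * μ * 2 ^ j + (k + 1) ≤ n) :
    ((k : ℝ) + 1) * k / 2 + (n - (k + 1)) + μ ≤ (n.choose 2 : ℝ) - f n k := by
  obtain ⟨G, h1, h2⟩ := stGirth stBfs (4 * μ) g 5 hg (by norm_num) (by omega)
  have hPG : PG (4 * μ) (5 * μ) (g + 1) := ⟨G, by omega, fun Y hY hc => h1 Y hY hc⟩
  have hPG2 := PG_iter hPG j
  have hμ0 : 1 ≤ μ := by
    have : 0 < 5 ^ g := by positivity
    omega
  obtain ⟨T, hT⟩ : ∃ T, 2 ^ j = T + 1 := ⟨2 ^ j - 1, by have := Nat.one_le_two_pow (n := j); omega⟩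
  rw [hT] at hPG2 hj hn
  have e1 : 4 * μ + (T + 1 - 1) * (5 * μ) = 4 * μ + T * (5 * μ) := by rw [Nat.add_sub_cancel]
  rw [e1] at hPG2
  have e2 : (T + 1) * (5 * μ) = 4 * μ + T * (5 * μ) + μ := by ring
  have e3 : 5 * μ * (T + 1) = 4 * μ + T * (5 * μ) + μ := by ring
  rw [e3] at hn
  rw [e2] at hPG2
  obtain ⟨p, hp⟩ : ∃ p, n = k + 1 + (4 * μ + T * (5 * μ) + p) :=
    ⟨n - (k + 1) - (4 * μ + T * (5 * μ)), by omega⟩
  have hPG3 := PG_pend (p := p) (by omega) hPG2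
  obtain ⟨H, q1, q2⟩ := PG_clique hj hPG3
  subst hp
  have h3 := le_diff hk H q1
  have q2' : ((k : ℝ) + 1) * k + 2 * (((4 * μ + T * (5 * μ) + μ : ℕ) : ℝ) + p) ≤ D H univ := by
    exact_mod_cast q2
  push_cast at q2' h3 ⊢
  linarith

/-- the choice of the parameters -/
lemma lower_choice {n k : ℕ} (hk : 30 ≤ k) (hn : 25 * k + (k + 1) ≤ n)
    (hlog : Real.log n ≤ k) :
    ∃ μ g j x : ℕ, 1 ≤ g ∧ 5 ^ g ≤ 2 * μ ∧ k + 3 ≤ 2 ^ j * (g + 1) ∧
      5 * μ * 2 ^ j + (k + 1) ≤ n ∧ 25 ≤ x ∧ n < (x + 1) * k + (k + 1) ∧ x < 5 ^ (g + 2) ∧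
      x * (g + 1) ≤ 14 * μ := by
  obtain ⟨n', hn'⟩ : ∃ n', n = n' + (k + 1) := ⟨n - (k + 1), by omega⟩
  subst hn'
  have hn' : 25 * k ≤ n' := by omega
  set x := n' / k with hx
  have hk0 : 0 < k := by omega
  have hx1 : x * k ≤ n' := Nat.div_mul_le_self _ _
  have hx2 : n' < (x + 1) * k := (Nat.div_lt_iff_lt_mul hk0).1 (Nat.lt_succ_self _)
  have hx3 : 25 ≤ x := (Nat.le_div_iff_mul_le hk0).2 hn'
  have hl2 : 2 ≤ Nat.log 5 x := by
    apply Nat.le_log_of_pow_le (by norm_num)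
    omega
  obtain ⟨g, hg⟩ : ∃ g, Nat.log 5 x = g + 1 := ⟨Nat.log 5 x - 1, by omega⟩
  have hg1 : 1 ≤ g := by omega
  have hgx : 5 ^ (g + 1) ≤ x := by
    rw [← hg]; exact Nat.pow_log_le_self 5 (by omega)
  have hgx2 : x < 5 ^ (g + 2) := by
    have := Nat.lt_pow_succ_log_self (b := 5) (by norm_num) x
    rw [hg] at this
    exact this
  -- `g + 1 ≤ k + 3`
  have hgk : g + 1 ≤ k + 3 := by
    have h1 : (5 : ℝ) ^ (g + 1) ≤ ((n' + (k + 1) : ℕ) : ℝ) := by
      have h2 : 5 ^ (g + 1) ≤ n' + (k + 1) := by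
        have : x ≤ n' := Nat.div_le_self _ _
        omega
      exact_mod_cast h2
    have h2 := Real.log_le_log (by positivity) h1
    rw [Real.log_pow] at h2
    have h3 : 1 ≤ Real.log 5 := by
      rw [Real.le_log_iff_exp_le (by norm_num)]
      linarith [Real.exp_one_lt_d9]
    have h4 : ((g + 1 : ℕ) : ℝ) ≤ k := by
      have h5 : ((g + 1 : ℕ) : ℝ) * 1 ≤ ((g + 1 : ℕ) : ℝ) * Real.log 5 :=
        mul_le_mul_of_nonneg_left h3 (Nat.cast_nonneg _)
      linarith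
    have h5 : g + 1 ≤ k := by exact_mod_cast h4
    omega
  set q := (k + 3) / (g + 1) with hq
  have hq1 : 1 ≤ q := (Nat.le_div_iff_mul_le (by omega)).2 (by omega)
  have hq2 : q * (g + 1) ≤ k + 3 := Nat.div_mul_le_self _ _
  have hq3 : k + 3 < (q + 1) * (g + 1) :=
    (Nat.div_lt_iff_lt_mul (by omega)).1 (Nat.lt_succ_self _)
  have hj1 : q < 2 ^ (Nat.log 2 q + 1) := Nat.lt_pow_succ_log_self (by norm_num) _
  have hj2 : 2 ^ (Nat.log 2 q) ≤ q := Nat.pow_log_le_self 2 (by omega)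
  obtain ⟨P, hP⟩ : ∃ P, 2 ^ (Nat.log 2 q + 1) = P := ⟨_, rfl⟩
  have hP1 : q + 1 ≤ P := by rw [← hP]; exact hj1
  have hP2 : P ≤ 2 * q := by rw [← hP, pow_succ]; omega
  have hP3 : k + 3 ≤ P * (g + 1) := by
    have : (q + 1) * (g + 1) ≤ P * (g + 1) := Nat.mul_le_mul_right _ hP1
    omega
  have hP4 : P * (g + 1) ≤ 2 * (k + 3) := by
    calc P * (g + 1) ≤ 2 * q * (g + 1) := Nat.mul_le_mul_right _ hP2
      _ = 2 * (q * (g + 1)) := by ring
      _ ≤ _ := Nat.mul_le_mul_left _ hq2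
  have hP0 : 0 < 5 * P := by omega
  set μ := n' / (5 * P) with hμ
  have hμ1 : μ * (5 * P) ≤ n' := Nat.div_mul_le_self _ _
  have hμ2 : n' < (μ + 1) * (5 * P) := (Nat.div_lt_iff_lt_mul hP0).1 (Nat.lt_succ_self _)
  have h11 : x * (g + 1) ≤ 11 * (μ + 1) := by
    have h1 : k * (x * (g + 1)) ≤ k * (11 * (μ + 1)) := by
      calc k * (x * (g + 1)) = x * k * (g + 1) := by ring
        _ ≤ n' * (g + 1) := Nat.mul_le_mul_right _ hx1
        _ ≤ (μ + 1) * (5 * P) * (g + 1) := Nat.mul_le_mul_right _ hμ2.le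
        _ = 5 * (μ + 1) * (P * (g + 1)) := by ring
        _ ≤ 5 * (μ + 1) * (2 * (k + 3)) := Nat.mul_le_mul_left _ hP4
        _ = (μ + 1) * (10 * (k + 3)) := by ring
        _ ≤ (μ + 1) * (11 * k) := Nat.mul_le_mul_left _ (by omega)
        _ = _ := by ring
    exact Nat.le_of_mul_le_mul_left h1 hk0
  have h50 : 50 ≤ x * (g + 1) := by
    calc 50 = 25 * 2 := by norm_num
      _ ≤ _ := Nat.mul_le_mul hx3 (by omega)
  have h14 : x * (g + 1) ≤ 14 * μ := by omega
  have h5g : 5 ^ g ≤ 2 * μ := by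
    have h1 : 5 * 5 ^ g ≤ x := by rw [pow_succ] at hgx; omega
    have h2 : x * 2 ≤ x * (g + 1) := Nat.mul_le_mul_left _ (by omega)
    omega
  refine ⟨μ, g, Nat.log 2 q + 1, x, hg1, h5g, by rw [hP]; exact hP3, ?_, hx3, ?_, hgx2, h14⟩
  · rw [hP]
    have : 5 * μ * P = μ * (5 * P) := by ring
    omega
  · omega

/-- **Lower half of the main theorem** -/
theorem lower_half {n k : ℕ} (hk : 30 ≤ k) (hn : 2 * k + 1 ≤ n) (hlog : Real.log n ≤ k) :
    ((k : ℝ) + 1) * k / 2 + (n - (k + 1)) + 1 / 100 * (n / k * Real.log (n / k)) ≤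
      (n.choose 2 : ℝ) - f n k := by
  have hk0 : (0 : ℝ) < k := by exact_mod_cast (by omega : 0 < k)
  have hn0 : (0 : ℝ) < n := by exact_mod_cast (by omega : 0 < n)
  have hl2 := Real.log_two_lt_d9
  have hl20 := Real.log_two_gt_d9
  by_cases hc : 25 * k + (k + 1) ≤ n
  · obtain ⟨μ, g, j, x, h1, h2, h3, h4, h5, h6, h7, h8⟩ := lower_choice hk hc hlog
    have h9 := lower_gain (by omega) h1 h2 h3 h4
    have h10 : 1 / 100 * ((n : ℝ) / k * Real.log (n / k)) ≤ μ := by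
      have a1 : (n : ℝ) / k ≤ 28 / 25 * x := by
        rw [div_le_iff₀ hk0]
        have b1 : (n : ℝ) < (x + 1) * k + (k + 1) := by exact_mod_cast h6
        have b2 : (25 : ℝ) ≤ x := by exact_mod_cast h5
        have b3 : (30 : ℝ) ≤ k := by exact_mod_cast hk
        have b4 : 25 * (k : ℝ) ≤ x * k := mul_le_mul_of_nonneg_right b2 hk0.le
        nlinarith
      have b2 : (25 : ℝ) ≤ x := by exact_mod_cast h5
      have a2 : Real.log ((n : ℝ) / k) ≤ ((g : ℝ) + 3) * (3 * Real.log 2) := by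
        have c1 : (n : ℝ) / k ≤ 5 ^ (g + 3) := by
          have c2 : (x : ℝ) ≤ 5 ^ (g + 2) := by exact_mod_cast h7.le
          have c3 : (5 : ℝ) ^ (g + 3) = 5 ^ (g + 2) * 5 := by ring
          rw [c3]
          linarith
        have c4 := Real.log_le_log (by positivity) c1
        rw [Real.log_pow] at c4
        have c5 : Real.log 5 ≤ 3 * Real.log 2 := by
          have : (3 : ℝ) * Real.log 2 = Real.log 8 := by
            rw [show (8 : ℝ) = 2 ^ 3 by norm_num, Real.log_pow]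
            norm_num
          rw [this]
          exact Real.log_le_log (by norm_num) (by norm_num)
        have c6 : ((g + 3 : ℕ) : ℝ) * Real.log 5 ≤ ((g + 3 : ℕ) : ℝ) * (3 * Real.log 2) :=
          mul_le_mul_of_nonneg_left c5 (Nat.cast_nonneg _)
        push_cast at c4 c6
        linarith
      have a3 : Real.log ((n : ℝ) / k) ≤ 25 / 6 * ((g : ℝ) + 1) := by
        have hg1 : (1 : ℝ) ≤ g := by exact_mod_cast h1
        have c1 : ((g : ℝ) + 3) * (3 * Real.log 2) ≤ ((g : ℝ) + 3) * (25 / 12) := by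
          apply mul_le_mul_of_nonneg_left _ (by positivity)
          linarith
        linarith
      have a4 : 0 ≤ Real.log ((n : ℝ) / k) := by
        apply Real.log_nonneg
        rw [le_div_iff₀ hk0]
        have : (k : ℝ) ≤ n := by exact_mod_cast (by omega : k ≤ n)
        linarith
      have a5 : (n : ℝ) / k * Real.log (n / k) ≤ 28 / 25 * x * (25 / 6 * ((g : ℝ) + 1)) :=
        mul_le_mul a1 a3 a4 (by positivity)
      have a6 : (x : ℝ) * (g + 1) ≤ 14 * μ := by exact_mod_cast h8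
      nlinarith
    linarith
  · push Not at hc
    obtain ⟨r1, r2⟩ := Pool.Agent.Results.MP_d31508_co.CliqueRange.result n k (by omega) (by omega)
    have hf : Pool.Agent.Results.MP_d31508_co.CliqueRange.f n k = f n k := rfl
    rw [hf] at r1 r2
    have r3 : f n k + k.choose 2 + 1 ≤ (n - 1).choose 2 := by
      rcases Nat.lt_or_ge (f n k + k.choose 2) ((n - 1).choose 2) with h | h
      · exact h
      · have := r2.1 (le_antisymm r1 h)
        omega
    have r4 : (f n k : ℝ) + (k : ℝ) * (k - 1) / 2 + 1 ≤ ((n : ℝ) - 1) * (n - 2) / 2 := by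
      have s1 : ((n - 1 : ℕ) : ℝ) = (n : ℝ) - 1 := by
        rw [Nat.cast_sub (by omega)]; norm_num
      have s2 : (((n - 1).choose 2 : ℕ) : ℝ) = ((n : ℝ) - 1) * (n - 2) / 2 := by
        rw [Nat.cast_choose_two, s1]; ring
      rw [← s2, ← Nat.cast_choose_two]
      exact_mod_cast r3
    have r5 : 1 / 100 * ((n : ℝ) / k * Real.log (n / k)) ≤ 1 := by
      have a1 : (n : ℝ) / k ≤ 26 + 1 / 30 := by
        rw [div_le_iff₀ hk0]
        have b1 : (n : ℝ) ≤ 26 * k + 1 := by exact_mod_cast (by omega : n ≤ 26 * k + 1)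
        have b3 : (30 : ℝ) ≤ k := by exact_mod_cast hk
        linarith
      have a2 : Real.log ((n : ℝ) / k) ≤ 5 * Real.log 2 := by
        have : (5 : ℝ) * Real.log 2 = Real.log 32 := by
          rw [show (32 : ℝ) = 2 ^ 5 by norm_num, Real.log_pow]
          norm_num
        rw [this]
        exact Real.log_le_log (by positivity) (by linarith)
      have a4 : 0 ≤ Real.log ((n : ℝ) / k) := by
        apply Real.log_nonneg
        rw [le_div_iff₀ hk0]
        have : (k : ℝ) ≤ n := by exact_mod_cast (by omega : k ≤ n)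
        linarith
      have a5 : (n : ℝ) / k * Real.log (n / k) ≤ (26 + 1 / 30) * (5 * Real.log 2) :=
        mul_le_mul a1 a2 a4 (by norm_num)
      nlinarith
    rw [Nat.cast_choose_two]
    nlinarith

end Pool.Agent.Lib.MP_d31508_co.Sharp
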