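import Pool.Agent.Lib.MP_d31508_co.Sharp.FinalM
import Pool.Agent.Lib.MP_d31508_co.Sharp.LowerM
import Pool.Agent.Lib.MP_d31508_co.Shr.Final

set_option linter.unusedSectionVars false

/-!
# The main theorem
-/

namespace Pool.Agent.Lib.MP_d31508_co.Sharp

open Finset Classical
open Pool.Agent.Lib.MP_d31508_co.Asy (dg Cl D f stCompl)
open Pool.Agent.Lib.MP_d31508_co.Shr (StExt stExact)

/-- the lower bound by windmills and theta graphs -/
lemma lower_E {n k : ℕ} (hk : 1 ≤ k) (hn : k + 2 ≤ n) :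
    (Ex n k : ℝ) ≤ (n.choose 2 : ℝ) - f n k := by
  unfold Ex
  split_ifs with he
  · have he2 : Even (k + 2) := by
      obtain ⟨a, ha⟩ := he
      exact ⟨a + 1, by omega⟩
    obtain ⟨H, h1, h2⟩ := windmill n (k + 2) (by omega) he2 (by omega)
    have h3 := le_diff hk H h1
    obtain ⟨d, hd⟩ := D_even (G := H) univ
    have h4 : 3 * (n - 1) / 2 ≤ d := by omega
    rw [hd] at h3
    have h5 : ((3 * (n - 1) / 2 : ℕ) : ℝ) ≤ d := by exact_mod_cast h4
    push_cast at h3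
    linarith
  · have ho2 : Odd (k + 2) := by
      obtain ⟨a, ha⟩ := Nat.not_even_iff_odd.1 he
      exact ⟨a + 1, by omega⟩
    obtain ⟨H, h1, h2⟩ := theta n (k + 2) (by omega) ho2
    have h3 := le_diff hk H h1
    obtain ⟨d, hd⟩ := D_even (G := H) univ
    have h4 : 3 * n / 2 - 2 ≤ d := by omega
    rw [hd] at h3
    have h5 : ((3 * n / 2 - 2 : ℕ) : ℝ) ≤ d := by exact_mod_cast h4
    push_cast at h3
    linarith

/-- powers of the logarithm -/
lemma log_pow_small (c : ℝ) : ∃ K : ℝ, 0 < K ∧ ∀ k : ℝ, K ≤ k → c * Real.log k ^ 70 ≤ k := by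
  have h := Real.isLittleO_pow_log_id_atTop (n := 70)
  rw [Asymptotics.isLittleO_iff] at h
  have h1 := h (c := 1 / (|c| + 1)) (by positivity)
  obtain ⟨K, hK⟩ := Filter.eventually_atTop.1 h1
  refine ⟨max K 1, by positivity, ?_⟩
  intro k hk
  have hk1 : 1 ≤ k := (le_max_right _ _).trans hk
  have h2 := hK k ((le_max_left _ _).trans hk)
  have hlog : 0 ≤ Real.log k := Real.log_nonneg hk1
  rw [Real.norm_of_nonneg (pow_nonneg hlog 70), id, Real.norm_of_nonneg (by linarith)] at h2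
  have h3 : (|c| + 1) * Real.log k ^ 70 ≤ k := by
    have h4 := mul_le_mul_of_nonneg_left h2 (show 0 ≤ |c| + 1 by positivity)
    have h5 : (|c| + 1) * (1 / (|c| + 1) * k) = k := by field_simp
    rw [h5] at h4
    exact h4
  have h6 : c * Real.log k ^ 70 ≤ (|c| + 1) * Real.log k ^ 70 :=
    mul_le_mul_of_nonneg_right (by linarith [le_abs_self c]) (pow_nonneg hlog 70)
  exact h6.trans h3

/-- the error term -/
lemma err_le {n k : ℝ} (hk : 0 < k) (hn : 2 * k ≤ n) :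
    3080 * (n / k * Real.log (2 * n / k)) ≤ 6160 * (n / k * Real.log (n / k)) := by
  have hn0 : 0 < n := by linarith
  have hr : 2 ≤ n / k := by rwa [le_div_iff₀ hk]
  have h1 : Real.log (2 * n / k) ≤ 2 * Real.log (n / k) := by
    have e : 2 * Real.log (n / k) = Real.log ((n / k) ^ 2) := by
      rw [Real.log_pow]; norm_num
    rw [e]
    apply Real.log_le_log (by positivity)
    have e2 : 2 * n / k = 2 * (n / k) := by ring
    rw [e2, sq]
    exact mul_le_mul_of_nonneg_right hr (by positivity)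
  have h2 : n / k * Real.log (2 * n / k) ≤ n / k * (2 * Real.log (n / k)) :=
    mul_le_mul_of_nonneg_left h1 (by positivity)
  linarith

lemma sq_bound {K : ℝ} (hK : 2 ≤ K) : K + 2 ≤ K ^ 2 := by nlinarith

lemma pow_bound {C₀ C₁ P x y k : ℝ} (hx : 0 ≤ x) (hxy : x ≤ 120 * y) (hP : P = 120 ^ 70)
    (hC₁ : 0 ≤ C₁) (hy : 0 ≤ y ^ 70) (h : (|C₀| * P + C₁) * y ^ 70 ≤ k) : C₀ * x ^ 70 ≤ k := by
  have h5 : x ^ 70 ≤ (120 * y) ^ 70 := pow_le_pow_left₀ hx hxy 70
  have h6 : (120 * y) ^ 70 = P * y ^ 70 := by rw [mul_pow, hP]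
  rw [h6] at h5
  have h7 : C₀ * x ^ 70 ≤ |C₀| * x ^ 70 :=
    mul_le_mul_of_nonneg_right (le_abs_self _) (pow_nonneg hx 70)
  have h8 : |C₀| * x ^ 70 ≤ |C₀| * (P * y ^ 70) := mul_le_mul_of_nonneg_left h5 (abs_nonneg _)
  have h9 : 0 ≤ C₁ * y ^ 70 := mul_nonneg hC₁ hy
  have h10 : (|C₀| * P + C₁) * y ^ 70 = |C₀| * (P * y ^ 70) + C₁ * y ^ 70 := by ring
  rw [h10] at h
  exact h7.trans (h8.trans ((le_add_of_nonneg_right h9).trans h))

lemma pow_bound2 {C₀ C₁ P z k : ℝ} (hP : 0 ≤ P) (hz : 0 ≤ z)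
    (h : (|C₀| * P + C₁) * z ≤ k) : C₁ * z ≤ 1 ^ 78 * k := by
  rw [one_pow, one_mul]
  have h9 : 0 ≤ |C₀| * P * z := mul_nonneg (mul_nonneg (abs_nonneg _) hP) hz
  rw [add_mul] at h
  exact (le_add_of_nonneg_left h9).trans h

/-- **Main theorem**, assuming the extension module -/
theorem main_of_ext (hE : StExt) : ∃ C : ℝ, 0 < C ∧ ∀ n k : ℕ, 2 ≤ k → 2 * k + 1 ≤ n →
    C * (Real.log n * Real.log k) ≤ k →
    max ((k + 1) * k / 2 + (n - (k + 1)) + 1 / 100 * (n / k * Real.log (n / k))) (Ex n k : ℝ) ≤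
      (n.choose 2 : ℝ) - f n k ∧
    (n.choose 2 : ℝ) - f n k ≤
      max ((k + 1) * k / 2 + (n - (k + 1)) + 6160 * (n / k * Real.log (n / k))) (Ex n k) ∧
    ((k : ℝ) ^ 2 + 24640 * (k * Real.log k) ≤ n → f n k + Ex n k = n.choose 2) := by
  obtain ⟨C₁, hC₁, hex⟩ := stExact hE
  obtain ⟨C₀, hup⟩ := upper_half
  obtain ⟨P, hP⟩ : ∃ P : ℝ, P = 120 ^ 70 := ⟨_, rfl⟩
  have hP0 : 0 ≤ P := by rw [hP]; exact pow_nonneg (by norm_num) 70
  obtain ⟨K, hK0, hK⟩ := log_pow_small (|C₀| * P + C₁)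
  refine ⟨C₁ + 3 * K + 100, by positivity, ?_⟩
  intro n k hk hn hC
  have hK2 : (2 : ℝ) ≤ k := by exact_mod_cast hk
  have hnk : k + 2 ≤ n := by omega
  have hkn : (k : ℝ) ≤ n := by exact_mod_cast (by omega : k ≤ n)
  have hkn2 : 2 * (k : ℝ) ≤ n := by exact_mod_cast (by omega : 2 * k ≤ n)
  set x := Real.log n with hx
  set y := Real.log k with hy
  have hy1 : 0.69 ≤ y := by
    have h3 : Real.log 2 ≤ Real.log k := Real.log_le_log (by norm_num) hK2
    have h4 := Real.log_two_gt_d9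
    linarith
  have hlog2 : Real.log ((k + 2 : ℕ) : ℝ) ≤ 2 * y := by
    have h1 : ((k + 2 : ℕ) : ℝ) ≤ (k : ℝ) ^ 2 := by push_cast; exact sq_bound hK2
    have h2 := Real.log_le_log (by positivity) h1
    rw [Real.log_pow] at h2
    exact_mod_cast h2
  have hxy : y ≤ x := Real.log_le_log (by linarith) hkn
  have hx1 : 0.69 ≤ x := by linarith
  have hxy0 : 0.69 * 0.69 ≤ x * y := mul_le_mul hx1 hy1 (by norm_num) (by linarith)
  have hxy1 : x * 0.69 ≤ x * y := mul_le_mul_of_nonneg_left hy1 (by linarith)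
  have hxyn : 0 ≤ x * y := by linarith
  have hC' : C₁ * (x * y) + 3 * K * (x * y) + 100 * (x * y) ≤ k := by
    calc _ = (C₁ + 3 * K + 100) * (x * y) := by ring
      _ ≤ k := hC
  have hC1n : 0 ≤ C₁ * (x * y) := by positivity
  have hKn : 0 ≤ 3 * K * (x * y) := by positivity
  have hc1 : C₁ * (x * y) ≤ k := by linarith
  have hKk : K ≤ k := by
    have h1 : 3 * K * (0.69 * 0.69) ≤ 3 * K * (x * y) :=
      mul_le_mul_of_nonneg_left hxy0 (by positivity)
    linarith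
  have hk30 : 30 ≤ k := by
    have h1 : (30 : ℝ) ≤ k := by linarith
    exact_mod_cast h1
  have hxk : x ≤ k := by linarith
  have hyK := hK k hKk
  rw [← hy] at hyK
  have hy70 : 0 ≤ y ^ 70 := pow_nonneg (by linarith) 70
  have hk0 : (0 : ℝ) < k := by linarith
  have hlow : max ((k + 1) * k / 2 + (n - (k + 1)) + 1 / 100 * (n / k * Real.log (n / k)))
      (Ex n k : ℝ) ≤ (n.choose 2 : ℝ) - f n k :=
    max_le (lower_half hk30 hn hxk) (lower_E (by omega) hnk)
  refine ⟨hlow, ?_⟩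
  rcases le_or_gt n ((k + 2) ^ 60) with hcase | hcase
  · -- the range of the first theorem
    have h1 : x ≤ 120 * y := by
      have h2 : (n : ℝ) ≤ ((k + 2 : ℕ) : ℝ) ^ 60 := by exact_mod_cast hcase
      have h3 := Real.log_le_log (by linarith) h2
      rw [Real.log_pow] at h3
      push_cast at h3 hlog2
      linarith
    have h2 : C₀ * x ^ 70 ≤ k := pow_bound (by linarith) h1 hP hC₁.le hy70 hyK
    obtain ⟨u1, u2⟩ := hup n k hnk h2
    refine ⟨u1.trans ?_, u2⟩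
    apply max_le_max _ le_rfl
    have := err_le hk0 hkn2
    linarith
  · have h2 : (1 + 1) * (k : ℝ) ^ 2 ≤ n := by
      have h3 : 2 * k ^ 2 ≤ (k + 2) ^ 60 := by
        calc 2 * k ^ 2 ≤ (k + 2) * (k + 2) ^ 2 := Nat.mul_le_mul (by omega)
              (Nat.pow_le_pow_left (by omega) 2)
          _ = (k + 2) ^ 3 := by ring
          _ ≤ _ := Nat.pow_le_pow_right (by omega) (by norm_num)
      have h4 : 2 * k ^ 2 ≤ n := h3.trans hcase.le
      have h5 : (2 : ℝ) * (k : ℝ) ^ 2 ≤ n := by exact_mod_cast h4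
      linarith
    have h3 : C₁ * y ^ 70 ≤ 1 ^ 78 * k := pow_bound2 hP0 hy70 hyK
    obtain ⟨v1, v2⟩ := hex 1 n k one_pos le_rfl hk h2 h3 hc1
    have hval : f n k + Ex n k = n.choose 2 := by
      unfold Ex
      split_ifs with he
      · exact v1 he
      · exact v2 (Nat.not_even_iff_odd.1 he)
    refine ⟨le_max_of_le_right ?_, fun _ => hval⟩
    have : (n.choose 2 : ℝ) = f n k + Ex n k := by exact_mod_cast hval.symm
    rw [this]
    linarith

end Pool.Agent.Lib.MP_d31508_co.Sharp
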