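import Pool.Agent.Lib.MP_d31508_co.Sharp.UpperM
import Pool.Agent.Lib.MP_d31508_co.Sharp.FinalB

set_option linter.unusedSectionVars false

/-!
# Numerical part of the main theorem
-/

namespace Pool.Agent.Lib.MP_d31508_co.Sharp

open Finset Classical
open Pool.Agent.Lib.MP_d31508_co.Asy (dg Cl D f stCompl glue_part1)

lemma two_pow_le {Q : ℕ} (hQ : 1 ≤ Q) : 2 * Q ^ Q ≤ (Q + 1) ^ Q := by
  have hb := one_add_mul_le_pow (a := (1 / (Q : ℝ))) (by
    have : (0 : ℝ) ≤ 1 / (Q : ℝ) := by positivity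
    linarith) Q
  have hq0 : (0 : ℝ) < Q := by exact_mod_cast hQ
  have e1 : (1 : ℝ) + (Q : ℝ) * (1 / (Q : ℝ)) = 2 := by
    field_simp
    norm_num
  rw [e1] at hb
  have e2 : ((Q : ℝ)) ^ Q * (1 + 1 / (Q : ℝ)) ^ Q = (Q + 1 : ℝ) ^ Q := by
    rw [← mul_pow]
    congr 1
    field_simp
  have h : (2 : ℝ) * Q ^ Q ≤ (Q + 1) ^ Q := by
    rw [← e2]
    have : (0 : ℝ) ≤ (Q : ℝ) ^ Q := by positivity
    nlinarith
  exact_mod_cast h

lemma pow_four {x : ℕ} : 70 * (2 * x + 13) ≤ 2 ^ (x + 12) := by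
  induction x with
  | zero => norm_num
  | succ x ih =>
    have : 2 ^ (x + 1 + 12) = 2 * 2 ^ (x + 12) := by ring
    rw [this]
    omega

/-- the choice of `Q` and `j` -/
lemma Q_choice {n m : ℕ} (hm : 1000 ≤ m)
    (hl : 140 * (2 * (Nat.log 2 (n / m) + 1) + 13) ≤ m) :
    ∃ Q j : ℕ, 1 ≤ Q ∧ n * Q ^ j < (Q + 1) ^ (j + 1) ∧ 4 * (Q + j) + 3 ≤ m / 16 ∧
      m ≤ 140 * (2 * (Nat.log 2 (n / m) + 1) + 13) * Q := by
  set x := Nat.log 2 (n / m) + 1 with hx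
  have hx2 : n / m < 2 ^ x := Nat.lt_pow_succ_log_self (by norm_num) _
  have hn : n < 2 ^ x * m := (Nat.div_lt_iff_lt_mul (by omega)).1 hx2
  set w := 2 * x + 13 with hw
  have hw0 : 0 < 70 * w := by omega
  set Q := m / (70 * w) with hQ
  have hQ1 : Q * (70 * w) ≤ m := Nat.div_mul_le_self _ _
  have hQ2 : m < (Q + 1) * (70 * w) :=
    (Nat.div_lt_iff_lt_mul hw0).1 (Nat.lt_succ_self _)
  have hQ3 : 2 ≤ Q := by
    refine (Nat.le_div_iff_mul_le hw0).2 ?_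
    linarith
  refine ⟨Q, Q * (w - 1), by omega, ?_, ?_, ?_⟩
  · have h1 : 2 ^ (w - 1) * Q ^ (Q * (w - 1)) ≤ (Q + 1) ^ (Q * (w - 1)) := by
      rw [pow_mul, pow_mul, ← mul_pow]
      exact Nat.pow_le_pow_left (two_pow_le (by omega)) _
    have h2 : n < (Q + 1) * 2 ^ (w - 1) := by
      have e : w - 1 = x + (x + 12) := by omega
      rw [e, pow_add]
      have h3 : 2 ^ x * m < 2 ^ x * ((Q + 1) * (70 * w)) :=
        Nat.mul_lt_mul_of_pos_left hQ2 (by positivity)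
      have h4 : 70 * w ≤ 2 ^ (x + 12) := pow_four
      calc n < 2 ^ x * m := hn
        _ < 2 ^ x * ((Q + 1) * (70 * w)) := h3
        _ ≤ 2 ^ x * ((Q + 1) * 2 ^ (x + 12)) :=
          Nat.mul_le_mul_left _ (Nat.mul_le_mul_left _ h4)
        _ = _ := by ring
    have hQpos : 0 < Q := by omega
    have h5 : 0 < Q ^ (Q * (w - 1)) := Nat.pow_pos hQpos
    calc n * Q ^ (Q * (w - 1)) < (Q + 1) * 2 ^ (w - 1) * Q ^ (Q * (w - 1)) :=
          Nat.mul_lt_mul_of_pos_right h2 h5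
      _ = (Q + 1) * (2 ^ (w - 1) * Q ^ (Q * (w - 1))) := by ring
      _ ≤ (Q + 1) * (Q + 1) ^ (Q * (w - 1)) := Nat.mul_le_mul_left _ h1
      _ = (Q + 1) ^ (Q * (w - 1) + 1) := by ring
  · have e : Q + Q * (w - 1) = Q * w := by
      have : w = (w - 1) + 1 := by omega
      calc Q + Q * (w - 1) = Q * ((w - 1) + 1) := by ring
        _ = Q * w := by rw [← this]
    rw [e]
    have h1 : 70 * (Q * w) ≤ m := by
      calc 70 * (Q * w) = Q * (70 * w) := by ring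
        _ ≤ m := hQ1
    omega
  · have h1 : (Q + 1) * (70 * w) ≤ 140 * w * Q := by
      have h2 : Q + 1 ≤ 2 * Q := by omega
      calc (Q + 1) * (70 * w) ≤ 2 * Q * (70 * w) := Nat.mul_le_mul_right _ h2
        _ = _ := by ring
    omega

/-- real form of the logarithm -/
lemma log_ratio {n m : ℕ} (hm : 1 ≤ m) (hn : m ≤ n) :
    ((2 * (Nat.log 2 (n / m) + 1) + 13 : ℕ) : ℝ) ≤ 22 * Real.log (2 * n / m) := by
  have h0 : n / m ≠ 0 := by
    have : 1 ≤ n / m := (Nat.one_le_div_iff (by omega)).2 hn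
    omega
  have hm0 : (0 : ℝ) < m := by exact_mod_cast hm
  have h1 : (2 : ℝ) ^ (Nat.log 2 (n / m)) ≤ (n : ℝ) / m := by
    have h2 : 2 ^ (Nat.log 2 (n / m)) ≤ n / m := Nat.pow_log_le_self 2 h0
    have h3 : ((2 ^ (Nat.log 2 (n / m)) : ℕ) : ℝ) ≤ ((n / m : ℕ) : ℝ) := by exact_mod_cast h2
    refine le_trans ?_ (h3.trans Nat.cast_div_le)
    push_cast
    exact le_refl _
  have h2 : (2 : ℝ) ^ (Nat.log 2 (n / m) + 1) ≤ 2 * n / m := by
    rw [pow_succ]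
    have : (2 : ℝ) * n / m = n / m * 2 := by ring
    rw [this]
    exact mul_le_mul_of_nonneg_right h1 (by norm_num)
  have h3 := Real.log_le_log (by positivity) h2
  rw [Real.log_pow] at h3
  have h4 := Real.log_two_gt_d9
  set x := Nat.log 2 (n / m) + 1 with hx
  have hx1 : (1 : ℝ) ≤ x := by rw [hx]; push_cast; linarith [Nat.cast_nonneg (α := ℝ) (Nat.log 2 (n / m))]
  have h5 : (x : ℝ) * 0.6931471803 ≤ Real.log (2 * n / m) := by
    have : (x : ℝ) * 0.6931471803 ≤ x * Real.log 2 := mul_le_mul_of_nonneg_left h4.le (by linarith)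
    linarith
  push_cast
  linarith

end Pool.Agent.Lib.MP_d31508_co.Sharp
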