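import Pool.Agent.Lib.MP_d31508_co.Sharp.PropM

set_option linter.unusedSectionVars false

/-!
# Parity: small sets hanging on a potential set have even size
-/

namespace Pool.Agent.Lib.MP_d31508_co.Sharp

open Finset Classical
open Pool.Agent.Lib.MP_d31508_co.Asy (dg Cl D)

variable {V : Type} [Fintype V] {G : SimpleGraph V}

/-- solving `a d + b f = t` -/
lemma arith {d f t L : ℕ} (hd : d ≤ L) (hf : f = 1 ∨ f = 2) (ht : L * (L + 1) ≤ t)
    (he : Even t) : ∃ a b, a ≤ t ∧ b ≤ a ∧ a * d + b * f = t := by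
  rcases Nat.eq_zero_or_pos d with h0 | h0
  · subst h0
    rcases hf with rfl | rfl
    · exact ⟨t, t, le_rfl, le_rfl, by omega⟩
    · obtain ⟨u, hu⟩ := he
      exact ⟨u, u, by omega, le_rfl, by omega⟩
  · have h1 : t % d < d := Nat.mod_lt _ h0
    have h2 : d + 1 ≤ t / d := by
      rw [Nat.le_div_iff_mul_le h0]
      calc (d + 1) * d = d * (d + 1) := by ring
        _ ≤ L * (L + 1) := Nat.mul_le_mul hd (by omega)
        _ ≤ t := ht
    have h3 : t / d ≤ t := Nat.div_le_self _ _
    have h4 : d * (t / d) + t % d = t := Nat.div_add_mod t d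
    rcases hf with rfl | rfl
    · exact ⟨t / d, t % d, h3, by omega, by rw [mul_one, mul_comm]; exact h4⟩
    · rcases Nat.even_or_odd (t % d) with h5 | h5
      · obtain ⟨u, hu⟩ := h5
        refine ⟨t / d, u, h3, by omega, ?_⟩
        rw [mul_comm (t / d) d]
        omega
      · -- `t % d` odd, so `d` is odd
        have hdo : Odd d := by
          rcases Nat.even_or_odd d with h6 | h6
          · exfalso
            have h7 : Even (d * (t / d)) := h6.mul_right _
            obtain ⟨a, ha⟩ := h7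
            obtain ⟨b, hb⟩ := h5
            obtain ⟨c, hc⟩ := he
            omega
          · exact h6
        obtain ⟨a, ha⟩ := h5
        obtain ⟨b, hb⟩ := hdo
        refine ⟨t / d - 1, a + b + 1, by omega, by omega, ?_⟩
        obtain ⟨c, hc⟩ : ∃ c, t / d = c + 1 := ⟨t / d - 1, by omega⟩
        rw [hc] at h4 ⊢
        have e1 : d * (c + 1) = d * c + d := by ring
        have e2 : (c + 1 - 1) * d = d * c := by
          rw [Nat.add_sub_cancel]; ring
        rw [e2]
        omega

/-- few members of a disjoint family meet a small set -/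
lemma few_meet {ι : Type} (J : Finset ι) (A : ι → Finset V) (E : Finset V)
    (hd : ∀ i ∈ J, ∀ j ∈ J, i ≠ j → Disjoint (A i) (A j)) :
    J.card ≤ (J.filter (fun i => Disjoint (A i) E)).card + E.card := by
  have h1 : (J.filter (fun i => ¬ Disjoint (A i) E)).card ≤ E.card := by
    have hne : ∀ i : ι, ∃ x : Option V, i ∈ J.filter (fun i => ¬ Disjoint (A i) E) →
        ∃ y, x = some y ∧ y ∈ A i ∧ y ∈ E := by
      intro i
      by_cases h : i ∈ J.filter (fun i => ¬ Disjoint (A i) E)
      · obtain ⟨y, hy1, hy2⟩ := not_disjoint_iff.1 (mem_filter.1 h).2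
        exact ⟨some y, fun _ => ⟨y, rfl, hy1, hy2⟩⟩
      · exact ⟨none, fun h' => absurd h' h⟩
    choose x hx using hne
    have h2 : (J.filter (fun i => ¬ Disjoint (A i) E)).card ≤ (E.image some).card := by
      apply card_le_card_of_injOn x
      · intro i hi
        obtain ⟨y, e, -, hy⟩ := hx i hi
        rw [e]
        exact mem_coe.2 (mem_image_of_mem _ hy)
      · intro i hi j hj hij
        by_contra hne
        obtain ⟨y, e, hy, -⟩ := hx i hi
        obtain ⟨z, e', hz, -⟩ := hx j hj
        have : y = z := by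
          have := e.symm.trans (hij.trans e')
          exact Option.some.inj this
        subst this
        exact disjoint_left.1 (hd i (mem_filter.1 hi).1 j (mem_filter.1 hj).1 hne) hy hz
    exact h2.trans card_image_le
  have h3 := card_filter_add_card_filter_not (s := J) (fun i => Disjoint (A i) E)
  omega

/-- **Parity.** -/
theorem parity_X {B X : Finset V} {q r m S T Λ L M d f : ℕ} (hq : 1 ≤ q)
    (hr : Fintype.card V * (2 * q) ^ r < (2 * q + 1) ^ r)
    (hker : Ker G (q + 1) q ∅ B) (hB : (q + 1) * m ≤ q * B.card)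
    (hG : ∀ Z ⊆ B, Cl G Z → Z.card ≠ m)
    (hX : Cl G X) (hXB : X ⊆ B) (hXm : X.card + (L * (L + 1) + Λ) ≤ m)
    (hT : T = 8 * q * (q + 1) * S) (hS : 1 ≤ S) (hBS : 2 * (q + 1) * S < B.card)
    (hpot : ∀ W ⊆ B, Cl G (X ∪ W) → W.card ≤ S →
      T * (B.filter (fun v => dg G X v ≤ 1 ∧ 1 ≤ dg G (W \ X) v)).card ≤ 2 * B.card)
    {g : ℕ → Finset V × Finset V} (hg : ∀ i < M, Gad G X (B \ X) L 3 (g i))
    (hgd : ∀ i < M, ∀ j < M, i ≠ j → Disjoint ((g i).1 ∪ (g i).2) ((g j).1 ∪ (g j).2))
    (hMS : M * (L + 3) + Λ ≤ S) {J : Finset ℕ} (hJM : J ⊆ range M)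
    (hJ : ∀ i ∈ J, (g i).1.card = d ∧ (g i).2.card = f) (hd : d ≤ L) (hf : f = 1 ∨ f = 2)
    (hN : L * (L + 1) + 2 * Λ + (4 * r + 3) ≤ J.card) :
    ∀ E ⊆ B \ X, Hang G X E → E.card ≤ Λ → Even E.card := by
  intro E hEB hE hEc
  by_contra hodd
  rw [Nat.not_even_iff_odd] at hodd
  -- the union of all gadgets and `E`
  set W := (range M).biUnion (fun i => (g i).1 ∪ (g i).2) ∪ E with hWdef
  have hWB : W ⊆ B \ X := by
    apply union_subset _ hEB
    apply biUnion_subset.2
    intro i hi
    exact union_subset (hg i (mem_range.1 hi)).s1 (hg i (mem_range.1 hi)).s2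
  have hWX : Disjoint W X := disjoint_of_subset_left hWB sdiff_disjoint
  have hWh : Hang G X W :=
    (Hang.biUnion _ _ (fun i hi => (hg i (mem_range.1 hi)).h2)).union hE
  have hWc : W.card ≤ S := by
    have h1 : ((range M).biUnion (fun i => (g i).1 ∪ (g i).2)).card ≤ M * (L + 3) := by
      calc _ ≤ ∑ i ∈ range M, ((g i).1 ∪ (g i).2).card := card_biUnion_le
        _ ≤ ∑ _i ∈ range M, (L + 3) := by
            apply sum_le_sum
            intro i hi
            have h := hg i (mem_range.1 hi)
            calc _ ≤ (g i).1.card + (g i).2.card := card_union_le _ _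
              _ ≤ L + 3 := Nat.add_le_add h.le h.lt.le
        _ = _ := by simp
    calc W.card ≤ ((range M).biUnion (fun i => (g i).1 ∪ (g i).2)).card + E.card :=
          card_union_le _ _
      _ ≤ _ := by omega
  have hXBW : X ⊆ B \ W := by
    intro x hx
    exact mem_sdiff.2 ⟨hXB hx, fun h => disjoint_left.1 hWX h hx⟩
  obtain ⟨X', hX1, hX2, hX3, hX4, hX5⟩ := grow (K := L * (L + 1) + Λ) hq hr hker hB hX hXBW
    hXm hWX hWc hT hS hBS (hpot W (hWB.trans sdiff_subset) (hWh.cl hX) hWc)
  have hEX' : Disjoint X' E := by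
    apply disjoint_of_subset_left hX2
    exact disjoint_of_subset_right subset_union_right sdiff_disjoint
  -- choose the right parity
  obtain ⟨E', hE'E, hE'h, hE't⟩ : ∃ E' ⊆ E, Hang G X E' ∧
      ∃ t, m = X'.card + E'.card + t ∧ Even t := by
    rcases Nat.even_or_odd (m - X'.card) with h | h
    · exact ⟨∅, empty_subset _, Hang_empty X, m - X'.card, by rw [card_empty]; omega, h⟩
    · refine ⟨E, Subset.rfl, hE, m - X'.card - E.card, by omega, ?_⟩
      obtain ⟨a, ha⟩ := h
      obtain ⟨b, hb⟩ := hodd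
      exact ⟨a - b, by omega⟩
  obtain ⟨t, ht, hteven⟩ := hE't
  have hE'c : E'.card ≤ Λ := (card_le_card hE'E).trans hEc
  have htK : L * (L + 1) ≤ t := by omega
  have htN : t ≤ L * (L + 1) + Λ + (4 * r + 3) := by omega
  -- gadgets avoiding `E`
  set J' := J.filter (fun i => Disjoint ((g i).1 ∪ (g i).2) E) with hJ'
  have hJ'c : J.card ≤ J'.card + E.card := few_meet J (fun i => (g i).1 ∪ (g i).2) E
    (fun i hi j hj hij => hgd i (mem_range.1 (hJM hi)) j (mem_range.1 (hJM hj)) hij)
  obtain ⟨a, b, ha, hb, hab⟩ := arith hd hf htK hteven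
  obtain ⟨W', hW'1, hW'2, hW'3⟩ := fill hg hgd ((filter_subset _ _).trans hJM)
    (fun i hi => hJ i (mem_filter.1 hi).1) (J := J') (a := a) (b := b) (by omega) hb
  have hW'W : W' ⊆ W := hW'1.trans ((biUnion_subset_biUnion_of_subset_left _
    ((filter_subset _ _).trans hJM)).trans subset_union_left)
  have hdisj : Disjoint X' W' := by
    apply disjoint_of_subset_left hX2
    exact disjoint_of_subset_right hW'W sdiff_disjoint
  have hdisj2 : Disjoint E W' := by
    apply disjoint_of_subset_right hW'1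
    rw [disjoint_biUnion_right]
    intro i hi
    exact (mem_filter.1 hi).2.symm
  have hd3 : Disjoint (X' ∪ E') W' := by
    rw [disjoint_union_left]
    exact ⟨hdisj, disjoint_of_subset_left hE'E hdisj2⟩
  apply hG ((X' ∪ E') ∪ W')
  · apply union_subset (union_subset (hX2.trans sdiff_subset) ?_)
      (hW'W.trans (hWB.trans sdiff_subset))
    exact (hE'E.trans hEB).trans sdiff_subset
  · exact (hW'2.mono (hX1.trans subset_union_left)).cl ((hE'h.mono hX1).cl hX3)
  · rw [card_union_of_disjoint hd3, card_union_of_disjoint (disjoint_of_subset_right hE'E hEX'),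
      hW'3, hab, ht]

end Pool.Agent.Lib.MP_d31508_co.Sharp
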