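import Pool.Agent.Lib.MP_d31508_co.Sharp.Supply

set_option linter.unusedSectionVars false

/-!
# The exact bound for kernels
-/

namespace Pool.Agent.Lib.MP_d31508_co.Sharp

open Finset Classical
open Pool.Agent.Lib.MP_d31508_co.Asy (dg Cl D)

variable {V : Type} [Fintype V] {G : SimpleGraph V}

/-- parity above `Z` bounds the number of edges -/
lemma final_dens {B Z : Finset V} {q r : ℕ} (hq : 1 ≤ q)
    (hr : Fintype.card V * (2 * q) ^ r < (2 * q + 1) ^ r) (hZ : Cl G Z) (hZB : Z ⊆ B)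
    (hpar : ∀ F ⊆ B \ Z, Hang G Z F → F.card ≤ L2 r + 1 → Even F.card) :
    D G B ≤ D G Z + 3 * (B \ Z).card := by
  obtain ⟨R, hR, hval, hker⟩ := kernel_exists (G := G) (2 * q + 1) (2 * q) Z (B \ Z)
  have hZR : Disjoint Z R := disjoint_of_subset_right hR disjoint_sdiff
  rw [union_sdiff_of_subset hZB] at hval
  have hcov := cover hker hZR hr
  have h1 := density (G := G) (X := Z) (R := R) (s := 2) (L := 4 * r + 3) le_rfl hZ hZR hcov (by
    intro E F hE hF hEF hFn hFs hEc hE1 hE2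
    have hL : L2 r = 2 * (4 * r + 3) * (4 * r + 3) + (4 * r + 3) := rfl
    obtain ⟨a, ha⟩ := hpar E (hE.trans hR) hE1 (by omega)
    obtain ⟨b, hb⟩ := hpar (E ∪ F) (union_subset (hE.trans hR) (hF.trans hR)) hE2 (by
      have := card_union_le E F
      omega)
    rw [card_union_of_disjoint hEF] at hb
    have := card_pos.2 hFn
    omega)
  have h2 : D G (Z ∪ R) ≤ D G Z + 3 * R.card := by omega
  have h3 : R.card ≤ (B \ Z).card := card_le_card hR
  have h4 : 2 * q * D G (Z ∪ R) ≤ 2 * q * (D G Z + 3 * R.card) := Nat.mul_le_mul_left _ h2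
  obtain ⟨c, hc⟩ : ∃ c, (B \ Z).card = R.card + c := ⟨(B \ Z).card - R.card, by omega⟩
  rw [hc] at hval ⊢
  have h5 : 2 * q * D G B ≤ 2 * q * (D G Z + 3 * (R.card + c)) := by nlinarith
  exact Nat.le_of_mul_le_mul_left h5 (by omega)

/-- from a supply to the bound -/
lemma from_supply {B U Z : Finset V} {q r m : ℕ} (hq : 1 ≤ q)
    (hr : Fintype.card V * (2 * q) ^ r < (2 * q + 1) ^ r)
    (hG : ∀ Z ⊆ B, Cl G Z → Z.card ≠ m) (hm : L2 r + 7 ≤ m) (hUB : U ⊆ B)
    (hZ : Cl G Z) (hZB : Z ⊆ B)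
    (hc : (Z.card = 6 ∧ D G Z ≤ 14) ∨ (Z.card = 5 ∧ D G Z ≤ 12))
    (hsup : Sup G U Z (L2 r + 1) m) :
    (Even m → D G B + 3 ≤ 3 * B.card) ∧ (Odd m → D G B + 4 ≤ 3 * B.card) := by
  -- the parity of `m - |Z|`
  have hodd : Odd (m - Z.card) := by
    rw [← Nat.not_even_iff_odd]
    intro heven
    obtain ⟨W, w1, w2, w3, w4, w5⟩ := hsup ∅ (by simp) (m - Z.card) (Nat.sub_le _ _) heven
    apply hG (Z ∪ W) (union_subset hZB (w1.trans hUB)) (w4.cl hZ)
    rw [card_union_of_disjoint w2.symm, w5]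
    omega
  have hpar : ∀ F ⊆ B \ Z, Hang G Z F → F.card ≤ L2 r + 1 → Even F.card := by
    intro F hF hFh hFc
    by_contra hne
    rw [Nat.not_even_iff_odd] at hne
    have heven : Even (m - Z.card - F.card) := by
      obtain ⟨a, ha⟩ := hodd
      obtain ⟨b, hb⟩ := hne
      exact ⟨a - b, by omega⟩
    obtain ⟨W, w1, w2, w3, w4, w5⟩ := hsup F hFc (m - Z.card - F.card) (by omega) heven
    apply hG (Z ∪ (F ∪ W))
    · exact union_subset hZB (union_subset (hF.trans sdiff_subset) (w1.trans hUB))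
    · exact (hFh.union w4).cl hZ
    · rw [card_union_of_disjoint, card_union_of_disjoint w3.symm, w5]
      · omega
      · rw [disjoint_union_right]
        exact ⟨disjoint_of_subset_right hF disjoint_sdiff, w2.symm⟩
  have hfin := final_dens hq hr hZ hZB hpar
  have hBc : B.card = Z.card + (B \ Z).card := by
    rw [card_sdiff_of_subset hZB]
    have := card_le_card hZB
    omega
  constructor
  · intro he
    obtain ⟨a, ha⟩ := he
    obtain ⟨b, hb⟩ := hodd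
    rcases hc with ⟨h1, h2⟩ | ⟨h1, h2⟩
    · omega
    · omega
  · intro ho
    obtain ⟨a, ha⟩ := ho
    obtain ⟨b, hb⟩ := hodd
    rcases hc with ⟨h1, h2⟩ | ⟨h1, h2⟩
    · omega
    · omega

/-- the parity range -/
def Lam (r : ℕ) : ℕ := 30 * (4 * r + 3) ^ 3

def N3 (r : ℕ) : ℕ := L2 r * (L2 r + 1) + 2 * Lam r + (4 * r + 3)

def M3 (r : ℕ) : ℕ := (L2 r + 1) * 3 * N3 r

def S3 (r : ℕ) : ℕ := M3 r * (L2 r + 3) + Lam r

def T3 (q r : ℕ) : ℕ := 8 * q * (q + 1) * S3 r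

/-- bound for the root -/
def A3 (q r : ℕ) : ℕ := T3 q r * S3 r + S3 r

/-- bound for the tight root -/
def Y3 (q r : ℕ) : ℕ := (10 * (4 * r + 3) ^ 2 + 1) * (A3 q r * A3 q r + 3) + A3 q r

/-- the threshold for `m` -/
def PhiB (q r : ℕ) : ℕ := 4 * (A3 q r * A3 q r) + 13

lemma Lam_pos (r : ℕ) : 27 ≤ Lam r := by
  unfold Lam
  have : 3 ^ 3 ≤ (4 * r + 3) ^ 3 := Nat.pow_le_pow_left (by omega) 3
  omega

lemma N3_pos (r : ℕ) : 1 ≤ N3 r := by unfold N3; omega

lemma M3_pos (r : ℕ) : 0 < M3 r := by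
  unfold M3
  have := N3_pos r
  positivity

lemma N3_le_S3 (r : ℕ) : N3 r ≤ S3 r := by
  unfold S3 M3
  nlinarith [N3_pos r, Nat.zero_le (L2 r), Nat.zero_le (L2 r * N3 r),
    Nat.zero_le (L2 r * L2 r * N3 r)]

lemma S3_pos (r : ℕ) : 1 ≤ S3 r := (N3_pos r).trans (N3_le_S3 r)

/-- the potential set with parity -/
lemma exists_root {B : Finset V} {q r m : ℕ} (hq : 2 ≤ q)
    (hr : Fintype.card V * (2 * q) ^ r < (2 * q + 1) ^ r)
    (hr3 : Fintype.card V * 3 ^ r < (3 + 1) ^ r)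
    (hker : Ker G (q + 1) q ∅ B) (hB : (q + 1) * m ≤ q * B.card)
    (hG : ∀ Z ⊆ B, Cl G Z → Z.card ≠ m) (hm : PhiB q r ≤ m) (hD : 3 * B.card ≤ D G B + 3) :
    ∃ X ⊆ B, Cl G X ∧ X.card ≤ A3 q r ∧
      ∀ E ⊆ B \ X, Hang G X E → E.card ≤ Lam r → Even E.card := by
  have hS1 := S3_pos r
  have hT : T3 q r = 8 * q * (q + 1) * S3 r := rfl
  have hNS := N3_le_S3 r
  set S := S3 r with hSdef
  set T := T3 q r with hTdef
  have hqq : 48 * S ≤ T := by
    rw [hT]
    have : 2 * 3 ≤ q * (q + 1) := Nat.mul_le_mul hq (by omega)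
    nlinarith [Nat.mul_le_mul_right S this]
  have hBm : m ≤ B.card := by
    have : q * m ≤ q * B.card := by nlinarith
    exact Nat.le_of_mul_le_mul_left this (by omega)
  set A := A3 q r with hA
  have hAe : A = T * S + S := rfl
  have hA1 : 1 ≤ A := by omega
  have hPhi : 4 * (A * A) + 13 ≤ m := hm
  have hAA : A ≤ A * A := by
    calc A = A * 1 := by ring
      _ ≤ A * A := Nat.mul_le_mul_left _ hA1
  have hTS : 2 * (q + 1) * S ≤ T * S := by
    rw [hT]
    nlinarith [Nat.mul_le_mul hq hS1, Nat.mul_le_mul_left (q * S) hS1]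
  obtain ⟨X, hXB, hXcl, hXc, hXpot⟩ := potential G B B T S
  have hfam : ∃ g : ℕ → Finset V × Finset V,
      (∀ i < M3 r, Gad G X (B \ X) (L2 r) 3 (g i)) ∧
      ∀ i < M3 r, ∀ j < M3 r, i ≠ j → Disjoint ((g i).1 ∪ (g i).2) ((g j).1 ∪ (g j).2) := by
    apply family (S := S) (T := T) (r := r) (by norm_num) hXcl hr3 rfl _ hXpot
    · have h1 : (X.card + S) * (X.card + S) ≤ A * A := Nat.mul_le_mul (by omega) (by omega)
      have h2 : T * (3 * ((X.card + S) * (X.card + S))) ≤ T * (3 * (A * A)) :=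
        Nat.mul_le_mul_left _ (Nat.mul_le_mul_left _ h1)
      have h3 : 3 * T * (3 * B.card) ≤ 3 * T * (D G B + 3) := Nat.mul_le_mul_left _ hD
      have h4 : T * (4 * (A * A) + 13) ≤ T * B.card := Nat.mul_le_mul_left _ (by omega)
      have h5 : 48 * S * B.card ≤ T * B.card := Nat.mul_le_mul_right _ hqq
      have hTpos : 0 < T := by omega
      nlinarith
    · show M3 r * (L2 r + 3) ≤ S
      rw [hSdef]; unfold S3; omega
  obtain ⟨g, hg, hgd⟩ := hfam
  obtain ⟨d, f, hd, hf1, hf2, J, hJM, hJN, hJ⟩ := pigeon (N := N3 r) hg le_rfl (M3_pos r)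
  refine ⟨X, hXB, hXcl, by omega, ?_⟩
  have hNe : N3 r = L2 r * (L2 r + 1) + 2 * Lam r + (4 * r + 3) := rfl
  exact parity_X (m := m) (by omega) hr hker hB hG hXcl hXB (by omega) hT hS1 (by omega) hXpot
    hg hgd le_rfl hJM hJ hd (by omega) (by omega)

/-- **The exact bound for kernels.** -/
theorem propB {B : Finset V} {q r m : ℕ} (hq : 2 ≤ q)
    (hr : Fintype.card V * (2 * q) ^ r < (2 * q + 1) ^ r)
    (hr3 : Fintype.card V * 3 ^ r < (3 + 1) ^ r)
    (hker : Ker G (q + 1) q ∅ B) (hB : (q + 1) * m ≤ q * B.card)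
    (hG : ∀ Z ⊆ B, Cl G Z → Z.card ≠ m) (hm : PhiB q r ≤ m) (hD : 3 * B.card ≤ D G B + 3)
    (hBig : 2 * (Y3 q r * Y3 q r * ((L2 r + 9) * (m + L2 r + 3) + (L2 r + 7) + m)) +
      2 * (A3 q r * A3 q r) + 6 + Y3 q r + A3 q r < B.card) :
    (Even m → D G B + 3 ≤ 3 * B.card) ∧ (Odd m → D G B + 4 ≤ 3 * B.card) := by
  obtain ⟨X, hXB, hX, hXc, hpar⟩ := exists_root hq hr hr3 hker hB hG hm hD
  -- the kernel above `X`
  obtain ⟨R, hR, hval, hkerR⟩ := kernel_exists (G := G) (2 * q + 1) (2 * q) X (B \ X)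
  have hXR : Disjoint X R := disjoint_of_subset_right hR disjoint_sdiff
  rw [union_sdiff_of_subset hXB] at hval
  have hcov := cover hkerR hXR hr
  have hparR : ∀ E ⊆ R, Hang G X E → E.card ≤ Lam r → Even E.card :=
    fun E h1 h2 h3 => hpar E (h1.trans hR) h2 h3
  have hRc : R.card ≤ (B \ X).card := card_le_card hR
  have hBX : B.card = X.card + (B \ X).card := by
    rw [card_sdiff_of_subset hXB]
    have := card_le_card hXB
    omega
  obtain ⟨c, hc⟩ : ∃ c, (B \ X).card = R.card + c := ⟨(B \ X).card - R.card, by omega⟩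
  have hXRc : (X ∪ R).card = X.card + R.card := card_union_of_disjoint hXR
  rw [hc] at hval hBX
  obtain ⟨q', rfl⟩ : ∃ q', q = q' + 2 := ⟨q - 2, by omega⟩
  have hlow : 3 * (X ∪ R).card ≤ D G (X ∪ R) + 3 := by
    rw [hXRc]
    have h1 : 2 * (q' + 2) * (3 * B.card) ≤ 2 * (q' + 2) * (D G B + 3) :=
      Nat.mul_le_mul_left _ hD
    rw [hBX] at h1
    have h2 : 2 * (q' + 2) * (3 * (X.card + R.card)) ≤ 2 * (q' + 2) * (D G (X ∪ R) + 3) := by
      linarith [Nat.zero_le (q' * c), Nat.zero_le c]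
    exact Nat.le_of_mul_le_mul_left h2 (by omega)
  -- arithmetic of `L`
  set L := 4 * r + 3 with hL
  have hL3 : 3 ≤ L := by omega
  have hΛ : Lam r = 30 * L ^ 3 := rfl
  have hLL : L * L * L = L ^ 3 := by ring
  have hL1 : L * L ≤ L * L * L := Nat.le_mul_of_pos_right _ (by omega)
  have hL0 : 3 * L ≤ L * L := Nat.mul_le_mul_right _ hL3
  have hΛ1 : (2 * L + 1) * (2 * L * L + L + 1) ≤ Lam r := by
    rw [hΛ, ← hLL]; nlinarith
  have hΛ2 : (2 * L + 1) * (L * (10 * L)) ≤ Lam r := by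
    rw [hΛ, ← hLL]; nlinarith
  obtain ⟨Y, hY, hYc, htight⟩ := exists_tight (s := 10 * L) (P := 10 * L ^ 2 + 1) hX hXR hcov hparR
    hΛ1 hΛ2 (by nlinarith) hlow
  have hYcl := hY.cl hX
  -- sizes
  have hYc2 : Y.card ≤ Y3 (q' + 2) r := by
    have h1 : X.card * X.card ≤ A3 (q' + 2) r * A3 (q' + 2) r := Nat.mul_le_mul hXc hXc
    calc Y.card ≤ _ := hYc
      _ ≤ (10 * L ^ 2 + 1) * (A3 (q' + 2) r * A3 (q' + 2) r + 3) + A3 (q' + 2) r :=
          Nat.add_le_add (Nat.mul_le_mul_left _ (by omega)) hXc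
      _ = _ := rfl
  have hcc : c ≤ 2 * (A3 (q' + 2) r * A3 (q' + 2) r) + 6 := by
    have h1 := (Cov.self X R L).dens hX hcov hparR hΛ1
    have h2 := D_le_sq (G := G) X
    have h3 : (R \ X).card ≤ R.card := card_le_card sdiff_subset
    have h4 : D G (X ∪ R) ≤ X.card * X.card + 3 * R.card := by omega
    have h5 : X.card * X.card ≤ A3 (q' + 2) r * A3 (q' + 2) r := Nat.mul_le_mul hXc hXc
    have h6 : 2 * (q' + 2) * D G (X ∪ R) ≤ 2 * (q' + 2) * (X.card * X.card + 3 * R.card) :=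
      Nat.mul_le_mul_left _ h4
    have h7 : 2 * (q' + 2) * (3 * B.card) ≤ 2 * (q' + 2) * (D G B + 3) :=
      Nat.mul_le_mul_left _ hD
    rw [hBX] at h7
    have h8 : (q' + 1) * c ≤ (q' + 2) * (X.card * X.card + 3) := by
      linarith [Nat.zero_le (q' * X.card), Nat.zero_le X.card]
    have h9 : (q' + 1) * c ≤ (q' + 1) * (2 * (X.card * X.card) + 6) := by
      refine h8.trans ?_
      calc (q' + 2) * (X.card * X.card + 3) ≤ (2 * (q' + 1)) * (X.card * X.card + 3) :=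
            Nat.mul_le_mul_right _ (by omega)
        _ = _ := by ring
    have h10 := Nat.le_of_mul_le_mul_left h9 (by omega)
    omega
  -- above `Y`
  set R₁ := R \ Y with hR₁
  have hYR₁ : Disjoint Y R₁ := disjoint_sdiff
  have hYR : Y ∪ R₁ = X ∪ R := by
    ext x
    simp only [hR₁, mem_union, mem_sdiff]
    constructor
    · rintro (h1 | h1)
      · exact mem_union.1 (hY.le h1)
      · exact Or.inr h1.1
    · rintro (h1 | h1)
      · exact Or.inl (hY.sub h1)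
      · by_cases h2 : x ∈ Y
        · exact Or.inl h2
        · exact Or.inr ⟨h1, h2⟩
  have hXRB : X ∪ R ⊆ B := union_subset hXB (hR.trans sdiff_subset)
  have hcov₁ : ∀ v ∈ R₁, ∃ E ⊆ R₁, v ∈ E ∧ E.card ≤ L ∧ Hang G Y E := by
    intro v hv
    obtain ⟨hvR, hvY⟩ := mem_sdiff.1 hv
    obtain ⟨E, a1, a2, a3, a4⟩ := hcov v hvR
    refine ⟨E \ Y, sdiff_subset_sdiff a1 Subset.rfl, mem_sdiff.2 ⟨a2, hvY⟩,
      (card_le_card sdiff_subset).trans a3, ?_⟩
    intro x hx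
    have h5 := (a4.mono hY.sub) x (mem_sdiff.1 hx).1
    rwa [union_sdiff_self_eq_union]
  have hpar₁ : Par G Y R₁ (L * (10 * L)) := by
    intro F h1 h2 h3
    exact hY.par hparR (h1.trans sdiff_subset) (disjoint_of_subset_right h1 hYR₁) h2
      ((Nat.mul_le_mul_left _ h3).trans hΛ2)
  have htight₁ : ∀ F ⊆ R₁, Hang G Y F → F.card ≤ 10 * L → D G (Y ∪ F) = D G Y + 3 * F.card :=
    fun F h1 h2 h3 => htight F (h1.trans sdiff_subset) (disjoint_of_subset_right h1 hYR₁) h2 h3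
  have hLL2 : 9 * L ≤ L * (10 * L) := by nlinarith
  obtain ⟨P, hP⟩ := decomp hYcl hYR₁ hcov₁ hpar₁ (by omega) hLL2 (by omega) htight₁ (by omega)
  have hR₁c : R.card ≤ R₁.card + Y.card := by
    have := card_le_card (show R ⊆ R₁ ∪ Y by
      intro x hx
      by_cases h : x ∈ Y
      · exact mem_union_right _ h
      · exact mem_union_left _ (mem_sdiff.2 ⟨hx, h⟩))
    exact this.trans (card_union_le _ _)
  have hXA : X.card ≤ Y.card := card_le_card hY.sub
  obtain ⟨Z, hZ1, hZ2, hZ3, hZ4⟩ := supply (κ := L2 r + 1) (m := m) hP hYR₁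
    (fun F h1 h2 h3 => htight₁ F h1 h2 (by omega)) (by
      have h1 : Y.card * Y.card ≤ Y3 (q' + 2) r * Y3 (q' + 2) r := Nat.mul_le_mul hYc2 hYc2
      have h2 : Y.card * Y.card * ((L2 r + 1 + 8) * (m + (L2 r + 1) + 2) + (L2 r + 1) + 6 + m) ≤
          Y3 (q' + 2) r * Y3 (q' + 2) r *
            ((L2 r + 9) * (m + L2 r + 3) + (L2 r + 7) + m) := by
        calc _ ≤ Y3 (q' + 2) r * Y3 (q' + 2) r *
              ((L2 r + 1 + 8) * (m + (L2 r + 1) + 2) + (L2 r + 1) + 6 + m) :=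
              Nat.mul_le_mul_right _ h1
          _ = _ := by ring
      omega)
  have hm2 : L2 r + 7 ≤ m := by
    have h1 : L2 r ≤ N3 r := by unfold N3; nlinarith [Nat.zero_le (L2 r * L2 r)]
    have h2 := N3_le_S3 r
    have h3 : S3 r ≤ A3 (q' + 2) r := Nat.le_add_left _ _
    have h4 := S3_pos r
    have h5 : A3 (q' + 2) r * 1 ≤ A3 (q' + 2) r * A3 (q' + 2) r :=
      Nat.mul_le_mul_left _ (by omega)
    have h6 : 4 * (A3 (q' + 2) r * A3 (q' + 2) r) + 13 ≤ m := hm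
    omega
  exact from_supply (by omega) hr hG hm2 ((sdiff_subset.trans hR).trans sdiff_subset) hZ2
    (hZ1.trans (hYR ▸ hXRB)) hZ3 hZ4

end Pool.Agent.Lib.MP_d31508_co.Sharp
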