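import Pool.Agent.Lib.MP_d31508_co.Sharp.Grow

set_option linter.unusedSectionVars false

/-!
# Closed sets of every size in dense kernels
-/

namespace Pool.Agent.Lib.MP_d31508_co.Sharp

open Finset Classical
open Pool.Agent.Lib.MP_d31508_co.Asy (dg Cl D)

variable {V : Type} [Fintype V] {G : SimpleGraph V}

/-- size of the first half of a gadget -/
def L2 (r : ℕ) : ℕ := 2 * (4 * r + 3) * (4 * r + 3) + (4 * r + 3)

/-- the number of gadgets of one type -/
def NN (r : ℕ) : ℕ := L2 r * L2 r + (4 * r + 3)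

/-- the number of gadgets -/
def MM (r : ℕ) : ℕ := (L2 r + 1) * 2 * NN r

/-- bound for the union of the gadgets -/
def SS (r : ℕ) : ℕ := MM r * (L2 r + 2)

/-- the potential parameter -/
def TT (q r : ℕ) : ℕ := 8 * q * (q + 1) * SS r

/-- the threshold -/
def Phi (q r : ℕ) : ℕ := q * ((TT q r * SS r + SS r) * (TT q r * SS r + SS r)) + 1

lemma NN_pos (r : ℕ) : 1 ≤ NN r := by unfold NN; omega

lemma NN_le_SS (r : ℕ) : NN r ≤ SS r := by
  unfold SS MM
  nlinarith [NN_pos r, Nat.zero_le (L2 r), Nat.zero_le (L2 r * NN r),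
    Nat.zero_le (L2 r * L2 r * NN r)]

lemma SS_pos (r : ℕ) : 1 ≤ SS r := (NN_pos r).trans (NN_le_SS r)

lemma MM_pos (r : ℕ) : 0 < MM r := by
  unfold MM
  have := NN_pos r
  positivity

/-- **Proposition M**: in a kernel with average degree above `3` there are closed sets of every
size `m` with `Phi q r ≤ m ≤ q |B| / (q + 1)`. -/
theorem propM {B : Finset V} {q r m : ℕ} (hq : 1 ≤ q)
    (hr : Fintype.card V * (2 * q) ^ r < (2 * q + 1) ^ r)
    (hr2 : Fintype.card V * 2 ^ r < (2 + 1) ^ r)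
    (hker : Ker G (q + 1) q ∅ B) (hB : (q + 1) * m ≤ q * B.card) (hm : Phi q r ≤ m)
    (hD : (3 * q + 2) * B.card ≤ q * D G B) : ∃ Z ⊆ B, Cl G Z ∧ Z.card = m := by
  have hS1 := SS_pos r
  have hT : TT q r = 8 * q * (q + 1) * SS r := rfl
  set S := SS r with hSdef
  set T := TT q r with hTdef
  have hTS : 2 * (q + 1) * S ≤ T * S := by
    rw [hT]
    nlinarith [Nat.mul_le_mul hq hS1, Nat.mul_le_mul_left (q * S) hS1]
  -- size of `B`
  have hBm : m ≤ B.card := by
    have : q * m ≤ q * B.card := by nlinarith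
    exact Nat.le_of_mul_le_mul_left this hq
  set A := T * S + S with hA
  have hA1 : 1 ≤ A := by omega
  have hPhi : q * (A * A) + 1 ≤ m := hm
  have hAA : A ≤ q * (A * A) := by
    calc A = 1 * (1 * A) := by ring
      _ ≤ q * (A * A) := Nat.mul_le_mul hq (Nat.mul_le_mul_right _ hA1)
  obtain ⟨X, hXB, hXcl, hXc, hXpot⟩ := potential G B B T S
  -- gadgets
  have hfam : ∃ g : ℕ → Finset V × Finset V,
      (∀ i < MM r, Gad G X (B \ X) (L2 r) 2 (g i)) ∧
      ∀ i < MM r, ∀ j < MM r, i ≠ j → Disjoint ((g i).1 ∪ (g i).2) ((g j).1 ∪ (g j).2) := by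
    apply family (S := S) (T := T) (r := r) le_rfl hXcl hr2 rfl le_rfl hXpot
    -- density condition
    have h1 : (X.card + S) * (X.card + S) ≤ A * A := Nat.mul_le_mul (by omega) (by omega)
    have h2 : T * (2 * ((X.card + S) * (X.card + S))) ≤ T * (2 * (A * A)) :=
      Nat.mul_le_mul_left _ (Nat.mul_le_mul_left _ h1)
    have h3 : q * (T * (2 * (A * A))) < q * (T * (2 * (A * A))) + 1 := by omega
    have h4 : 2 * T * ((3 * q + 2) * B.card) ≤ 2 * T * (q * D G B) := Nat.mul_le_mul_left _ hD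
    have h5 : q * (A * A) < B.card := by omega
    -- T * 2 * (q A A) < 2 T |B|, and 8 q |B| S ≤ ... 4 T |B| = 4·8q(q+1)S|B|
    have hTpos : 0 < T := by rw [hT]; positivity
    have h6 : 2 * T * (q * (A * A)) < 2 * T * B.card :=
      Nat.mul_lt_mul_of_pos_left h5 (by positivity)
    have h7 : q * (8 * (B.card * S)) ≤ 2 * T * B.card := by
      rw [hT]
      have : q * (8 * (B.card * S)) * 1 ≤ q * (8 * (B.card * S)) * (2 * (q + 1)) :=
        Nat.mul_le_mul_left _ (by omega)
      nlinarith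
    have h8 : q * (T * (2 * (2 + 1) * B.card) + T * (2 * ((X.card + S) * (X.card + S))) +
        4 * 2 * (B.card * S)) < q * (T * (2 * D G B)) := by nlinarith
    exact lt_of_mul_lt_mul_left h8 (Nat.zero_le _)
  obtain ⟨g, hg, hgd⟩ := hfam
  obtain ⟨d, f, hd, hf1, hf2, J, hJM, hJN, hJ⟩ := pigeon (N := NN r) hg le_rfl (MM_pos r)
  have hf : f = 1 := by omega
  subst hf
  -- the union of all gadgets
  set W := (range (MM r)).biUnion (fun i => (g i).1 ∪ (g i).2) with hWdef
  have hWB : W ⊆ B \ X := by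
    apply biUnion_subset.2
    intro i hi
    exact union_subset (hg i (mem_range.1 hi)).s1 (hg i (mem_range.1 hi)).s2
  have hWX : Disjoint W X := disjoint_of_subset_left hWB sdiff_disjoint
  have hWh : Hang G X W := Hang.biUnion _ _ (fun i hi => (hg i (mem_range.1 hi)).h2)
  have hWc : W.card ≤ S := by
    calc W.card ≤ ∑ i ∈ range (MM r), ((g i).1 ∪ (g i).2).card := card_biUnion_le
      _ ≤ ∑ _i ∈ range (MM r), (L2 r + 2) := by
          apply sum_le_sum
          intro i hi
          have h := hg i (mem_range.1 hi)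
          calc _ ≤ (g i).1.card + (g i).2.card := card_union_le _ _
            _ ≤ L2 r + 2 := Nat.add_le_add h.le h.lt.le
      _ = _ := by simp [hSdef, SS]
  have hXBW : X ⊆ B \ W := by
    intro x hx
    exact mem_sdiff.2 ⟨hXB hx, fun h => disjoint_left.1 hWX h hx⟩
  have hNS := NN_le_SS r
  have hK : L2 r * L2 r ≤ NN r := by unfold NN; omega
  obtain ⟨X', hX1, hX2, hX3, hX4, hX5⟩ := grow (K := L2 r * L2 r) hq hr hker hB hXcl hXBW
    (by omega) hWX hWc hT hS1 (by omega) (hXpot W (hWB.trans sdiff_subset) (hWh.cl hXcl) hWc)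
  -- filling
  obtain ⟨t, ht⟩ : ∃ t, m = X'.card + t := ⟨m - X'.card, by omega⟩
  have htK : L2 r * L2 r ≤ t := by omega
  have htN : t ≤ NN r := by unfold NN; omega
  obtain ⟨a, b, ha, hb, hab⟩ : ∃ a b, a ≤ t ∧ b ≤ a ∧ a * d + b * 1 = t := by
    rcases Nat.eq_zero_or_pos d with h0 | h0
    · exact ⟨t, t, le_rfl, le_rfl, by rw [h0]; omega⟩
    · refine ⟨t / d, t % d, Nat.div_le_self _ _, ?_, ?_⟩
      · have h1 : t % d < d := Nat.mod_lt _ h0
        have h2 : d ≤ t / d := by
          rw [Nat.le_div_iff_mul_le h0]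
          exact (Nat.mul_le_mul hd hd).trans htK
        omega
      · rw [mul_one, mul_comm]; exact Nat.div_add_mod t d
  obtain ⟨W', hW'1, hW'2, hW'3⟩ := fill hg hgd hJM hJ (a := a) (b := b) (by omega) hb
  have hW'W : W' ⊆ W := hW'1.trans (biUnion_subset_biUnion_of_subset_left _ hJM)
  have hdisj : Disjoint X' W' := by
    apply disjoint_of_subset_left hX2
    exact disjoint_of_subset_right hW'W sdiff_disjoint
  refine ⟨X' ∪ W', union_subset (hX2.trans sdiff_subset) (hW'W.trans (hWB.trans sdiff_subset)),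
    (hW'2.mono hX1).cl hX3, ?_⟩
  rw [card_union_of_disjoint hdisj, hW'3, hab, ht]

end Pool.Agent.Lib.MP_d31508_co.Sharp
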