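import Pool.Agent.Lib.MP_d31508_co.Sharp.Tight

set_option linter.unusedSectionVars false

/-!
# The structure above a tight root: pairs attached to the root and pairs attached to pairs
-/

namespace Pool.Agent.Lib.MP_d31508_co.Sharp

open Finset Classical
open Pool.Agent.Lib.MP_d31508_co.Asy (dg Cl D)

variable {V : Type} [Fintype V] {G : SimpleGraph V}

/-- `z` has a neighbour in `X` -/
def Nb (G : SimpleGraph V) (X : Finset V) (z : V) : Prop := ∃ x ∈ X, G.Adj z x

/-- the parity hypothesis -/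
def Par (G : SimpleGraph V) (X R : Finset V) (s : ℕ) : Prop :=
  ∀ F ⊆ R, Hang G X F → F.card ≤ s → Even F.card

lemma contra {X R : Finset V} (hXR : Disjoint X R) (hpar : Par G X R 7) (l : List V)
    (hl : l.Nodup) (hodd : Odd l.length) (h7 : l.length ≤ 7) (hR : ∀ x ∈ l, x ∈ R)
    (h : ∀ x ∈ l, (Nb G X x ∧ ∃ z ∈ l, G.Adj x z) ∨
      (∃ y ∈ l, ∃ z ∈ l, y ≠ z ∧ G.Adj x y ∧ G.Adj x z)) : False := by
  have h1 := hpar l.toFinset (by
    intro x hx
    exact hR x (List.mem_toFinset.1 hx)) (by
    intro x hx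
    rcases h x (List.mem_toFinset.1 hx) with ⟨⟨y, hy, hxy⟩, z, hz, hxz⟩ | ⟨y, hy, z, hz, hyz, h1, h2⟩
    · apply two_le_dg (mem_union_left _ hy) (mem_union_right _ (List.mem_toFinset.2 hz)) _ hxy hxz
      rintro rfl
      exact disjoint_left.1 hXR hy (hR _ hz)
    · exact two_le_dg (mem_union_right _ (List.mem_toFinset.2 hy))
        (mem_union_right _ (List.mem_toFinset.2 hz)) hyz h1 h2) (by
    rw [List.toFinset_card_of_nodup hl]; exact h7)
  rw [List.toFinset_card_of_nodup hl] at h1
  obtain ⟨a, ha⟩ := h1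
  obtain ⟨b, hb⟩ := hodd
  omega

/-- a vertex `c` of the second level, with its partner `d` and the pair `a, b` below -/
structure Two (G : SimpleGraph V) (X R : Finset V) (c d a b : V) : Prop where
  cR : c ∈ R
  dR : d ∈ R
  aR : a ∈ R
  bR : b ∈ R
  cd : G.Adj c d
  cb : G.Adj c b
  da : G.Adj d a
  ab : G.Adj a b
  Na : Nb G X a
  Nb' : Nb G X b
  ca : c ≠ a
  db : d ≠ b

variable {X R : Finset V}

lemma Two.notNb (hXR : Disjoint X R) (hpar : Par G X R 7) {c d a b : V} (h : Two G X R c d a b) :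
    ¬ Nb G X c := by
  intro hN
  have e1 := h.cb.ne
  have e2 := h.ab.ne
  have e3 := h.ca
  apply contra hXR hpar [c, b, a]
  · simp [e1, e2.symm, e3]
  · simp only [List.length_cons, List.length_nil]; decide
  · simp only [List.length_cons, List.length_nil]; decide
  · intro x hx
    simp only [List.mem_cons, List.not_mem_nil, or_false] at hx
    rcases hx with rfl | rfl | rfl
    exacts [h.cR, h.bR, h.aR]
  · intro x hx
    simp only [List.mem_cons, List.not_mem_nil, or_false] at hx
    rcases hx with rfl | rfl | rfl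
    · exact Or.inl ⟨hN, b, by simp, h.cb⟩
    · exact Or.inl ⟨h.Nb', c, by simp, h.cb.symm⟩
    · exact Or.inl ⟨h.Na, b, by simp, h.ab⟩

variable {v w : V}

lemma no_XU (hXR : Disjoint X R) (hpar : Par G X R 7) {b : V} (hv : v ∈ R) (hw : w ∈ R)
    (hb : b ∈ R) (hvw : G.Adj v w) (hN : Nb G X v) (hwb : G.Adj w b) (hNb : Nb G X b)
    (hvb : v ≠ b) : False := by
  apply contra hXR hpar [v, w, b]
  · simp [hvw.ne, hwb.ne, hvb]
  · simp only [List.length_cons, List.length_nil]; decide
  · simp only [List.length_cons, List.length_nil]; decide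
  · intro x hx
    simp only [List.mem_cons, List.not_mem_nil, or_false] at hx
    rcases hx with rfl | rfl | rfl
    exacts [hv, hw, hb]
  · intro x hx
    simp only [List.mem_cons, List.not_mem_nil, or_false] at hx
    rcases hx with rfl | rfl | rfl
    · exact Or.inl ⟨hN, w, by simp, hvw⟩
    · exact Or.inr ⟨v, by simp, b, by simp, hvb, hvw.symm, hwb⟩
    · exact Or.inl ⟨hNb, w, by simp, hwb.symm⟩

lemma no_XII (hXR : Disjoint X R) (hpar : Par G X R 7) {c d a b : V} (h : Two G X R c d a b)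
    (hv : v ∈ R) (hw : w ∈ R) (hvw : G.Adj v w) (hN : Nb G X v) (hwc : G.Adj w c)
    (v1 : v ≠ c) (v2 : v ≠ a) (v3 : v ≠ b) (w2 : w ≠ a) (w3 : w ≠ b) : False := by
  apply contra hXR hpar [v, w, c, b, a]
  · simp [hvw.ne, hwc.ne, v1, v2, v3, w2, w3, h.cb.ne, h.ca, h.ab.ne.symm]
  · simp only [List.length_cons, List.length_nil]; decide
  · simp only [List.length_cons, List.length_nil]; decide
  · intro x hx
    simp only [List.mem_cons, List.not_mem_nil, or_false] at hx
    rcases hx with rfl | rfl | rfl | rfl | rfl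
    exacts [hv, hw, h.cR, h.bR, h.aR]
  · intro x hx
    simp only [List.mem_cons, List.not_mem_nil, or_false] at hx
    rcases hx with rfl | rfl | rfl | rfl | rfl
    · exact Or.inl ⟨hN, w, by simp, hvw⟩
    · exact Or.inr ⟨v, by simp, c, by simp, v1, hvw.symm, hwc⟩
    · exact Or.inr ⟨w, by simp, b, by simp, w3, hwc.symm, h.cb⟩
    · exact Or.inl ⟨h.Nb', c, by simp, h.cb.symm⟩
    · exact Or.inl ⟨h.Na, b, by simp, h.ab⟩

lemma no_UU_same (hXR : Disjoint X R) (hpar : Par G X R 7) {b : V} (hv : v ∈ R) (hw : w ∈ R)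
    (hb : b ∈ R) (hvw : G.Adj v w) (hvb : G.Adj v b) (hwb : G.Adj w b) : False := by
  apply contra hXR hpar [v, w, b]
  · simp [hvw.ne, hwb.ne, hvb.ne]
  · simp only [List.length_cons, List.length_nil]; decide
  · simp only [List.length_cons, List.length_nil]; decide
  · intro x hx
    simp only [List.mem_cons, List.not_mem_nil, or_false] at hx
    rcases hx with rfl | rfl | rfl
    exacts [hv, hw, hb]
  · intro x hx
    simp only [List.mem_cons, List.not_mem_nil, or_false] at hx
    rcases hx with rfl | rfl | rfl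
    · exact Or.inr ⟨w, by simp, b, by simp, hwb.ne, hvw, hvb⟩
    · exact Or.inr ⟨v, by simp, b, by simp, hvb.ne, hvw.symm, hwb⟩
    · exact Or.inr ⟨v, by simp, w, by simp, hvw.ne, hvb.symm, hwb.symm⟩

lemma no_UU (hXR : Disjoint X R) (hpar : Par G X R 7) {a b b' : V} (hv : v ∈ R) (hw : w ∈ R)
    (ha : a ∈ R) (hb : b ∈ R) (hb' : b' ∈ R) (hvw : G.Adj v w) (hvb : G.Adj v b)
    (hwb' : G.Adj w b') (hab : G.Adj a b) (Na : Nb G X a) (Nb1 : Nb G X b) (Nb2 : Nb G X b')
    (h1 : b' ≠ b) (h2 : b' ≠ a) (v1 : v ≠ a) (v2 : v ≠ b') (w1 : w ≠ a) (w2 : w ≠ b) : False := by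
  apply contra hXR hpar [v, w, b, a, b']
  · simp [hvw.ne, hvb.ne, v1, v2, w1, w2, hwb'.ne, hab.ne.symm, h1.symm, h2.symm]
  · simp only [List.length_cons, List.length_nil]; decide
  · simp only [List.length_cons, List.length_nil]; decide
  · intro x hx
    simp only [List.mem_cons, List.not_mem_nil, or_false] at hx
    rcases hx with rfl | rfl | rfl | rfl | rfl
    exacts [hv, hw, hb, ha, hb']
  · intro x hx
    simp only [List.mem_cons, List.not_mem_nil, or_false] at hx
    rcases hx with rfl | rfl | rfl | rfl | rfl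
    · exact Or.inr ⟨w, by simp, b, by simp, w2, hvw, hvb⟩
    · exact Or.inr ⟨v, by simp, b', by simp, v2, hvw.symm, hwb'⟩
    · exact Or.inl ⟨Nb1, v, by simp, hvb.symm⟩
    · exact Or.inl ⟨Na, b, by simp, hab⟩
    · exact Or.inl ⟨Nb2, w, by simp, hwb'.symm⟩

lemma no_UII (hXR : Disjoint X R) (hpar : Par G X R 7) {p c d a b : V} (h : Two G X R c d a b)
    (hv : v ∈ R) (hw : w ∈ R) (hp : p ∈ R) (hvw : G.Adj v w) (hvp : G.Adj v p) (Np : Nb G X p)
    (hwc : G.Adj w c) (v1 : v ≠ c) (v2 : v ≠ a) (v3 : v ≠ b) (w2 : w ≠ a) (w3 : w ≠ b)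
    (w4 : w ≠ p) : False := by
  have hpc : p ≠ c := by
    rintro rfl
    exact h.notNb hXR hpar Np
  by_cases h1 : p = b
  · subst h1
    apply contra hXR hpar [v, w, c, p, a]
    · simp [hvw.ne, hwc.ne, v1, v2, v3, w2, w3, h.cb.ne, h.ca, h.ab.ne.symm]
    · simp only [List.length_cons, List.length_nil]; decide
    · simp only [List.length_cons, List.length_nil]; decide
    · intro x hx
      simp only [List.mem_cons, List.not_mem_nil, or_false] at hx
      rcases hx with rfl | rfl | rfl | rfl | rfl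
      exacts [hv, hw, h.cR, h.bR, h.aR]
    · intro x hx
      simp only [List.mem_cons, List.not_mem_nil, or_false] at hx
      rcases hx with rfl | rfl | rfl | rfl | rfl
      · exact Or.inr ⟨w, by simp, p, by simp, w3, hvw, hvp⟩
      · exact Or.inr ⟨v, by simp, c, by simp, v1, hvw.symm, hwc⟩
      · exact Or.inr ⟨w, by simp, p, by simp, w3, hwc.symm, h.cb⟩
      · exact Or.inl ⟨h.Nb', c, by simp, h.cb.symm⟩
      · exact Or.inl ⟨h.Na, p, by simp, h.ab⟩
  by_cases h2 : p = a
  · subst h2
    apply contra hXR hpar [v, w, c, b, p]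
    · simp [hvw.ne, hwc.ne, v1, v2, v3, w2, w3, h.cb.ne, h.ca, h.ab.ne.symm]
    · simp only [List.length_cons, List.length_nil]; decide
    · simp only [List.length_cons, List.length_nil]; decide
    · intro x hx
      simp only [List.mem_cons, List.not_mem_nil, or_false] at hx
      rcases hx with rfl | rfl | rfl | rfl | rfl
      exacts [hv, hw, h.cR, h.bR, h.aR]
    · intro x hx
      simp only [List.mem_cons, List.not_mem_nil, or_false] at hx
      rcases hx with rfl | rfl | rfl | rfl | rfl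
      · exact Or.inr ⟨w, by simp, p, by simp, w2, hvw, hvp⟩
      · exact Or.inr ⟨v, by simp, c, by simp, v1, hvw.symm, hwc⟩
      · exact Or.inr ⟨w, by simp, b, by simp, w3, hwc.symm, h.cb⟩
      · exact Or.inl ⟨h.Nb', c, by simp, h.cb.symm⟩
      · exact Or.inl ⟨h.Na, b, by simp, h.ab⟩
  · apply contra hXR hpar [v, w, p, c, b]
    · simp [hvw.ne, hvp.ne, hwc.ne, v1, v3, w3, w4, h.cb.ne, hpc, h1]
    · simp only [List.length_cons, List.length_nil]; decide
    · simp only [List.length_cons, List.length_nil]; decide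
    · intro x hx
      simp only [List.mem_cons, List.not_mem_nil, or_false] at hx
      rcases hx with rfl | rfl | rfl | rfl | rfl
      exacts [hv, hw, hp, h.cR, h.bR]
    · intro x hx
      simp only [List.mem_cons, List.not_mem_nil, or_false] at hx
      rcases hx with rfl | rfl | rfl | rfl | rfl
      · exact Or.inr ⟨w, by simp, p, by simp, w4, hvw, hvp⟩
      · exact Or.inr ⟨v, by simp, c, by simp, v1, hvw.symm, hwc⟩
      · exact Or.inl ⟨Np, v, by simp, hvp.symm⟩
      · exact Or.inr ⟨w, by simp, b, by simp, w3, hwc.symm, h.cb⟩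
      · exact Or.inl ⟨h.Nb', c, by simp, h.cb.symm⟩

lemma no_IIII (hXR : Disjoint X R) (hpar : Par G X R 7) {c d a b c' d' a' b' : V}
    (h : Two G X R c d a b) (h' : Two G X R c' d' a' b')
    (hv : v ∈ R) (hw : w ∈ R) (hvw : G.Adj v w) (hvc : G.Adj v c) (hwc' : G.Adj w c')
    (v1 : v ≠ a) (v2 : v ≠ b) (v3 : v ≠ d) (v4 : v ≠ c') (v5 : v ≠ b')
    (w1 : w ≠ a) (w2 : w ≠ b) (w3 : w ≠ c) (w4 : w ≠ d) (w5 : w ≠ b') : False := by
  by_cases h1 : c' = c
  · subst h1
    apply contra hXR hpar [v, w, c', b, a]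
    · simp [hvw.ne, hvc.ne, hwc'.ne, v1, v2, w1, w2, h.cb.ne, h.ca, h.ab.ne.symm]
    · simp only [List.length_cons, List.length_nil]; decide
    · simp only [List.length_cons, List.length_nil]; decide
    · intro x hx
      simp only [List.mem_cons, List.not_mem_nil, or_false] at hx
      rcases hx with rfl | rfl | rfl | rfl | rfl
      exacts [hv, hw, h.cR, h.bR, h.aR]
    · intro x hx
      simp only [List.mem_cons, List.not_mem_nil, or_false] at hx
      rcases hx with rfl | rfl | rfl | rfl | rfl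
      · exact Or.inr ⟨w, by simp, c', by simp, w3, hvw, hvc⟩
      · exact Or.inr ⟨v, by simp, c', by simp, v4, hvw.symm, hwc'⟩
      · exact Or.inr ⟨v, by simp, w, by simp, hvw.ne, hvc.symm, hwc'.symm⟩
      · exact Or.inl ⟨h.Nb', c', by simp, h.cb.symm⟩
      · exact Or.inl ⟨h.Na, b, by simp, h.ab⟩
  by_cases h2 : c' = d
  · subst h2
    apply contra hXR hpar [v, w, c, c', b]
    · simp [hvw.ne, hvc.ne, v2, v4, w2, w3, hwc'.ne, h.cb.ne, h.cd.ne, h.db]
    · simp only [List.length_cons, List.length_nil]; decide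
    · simp only [List.length_cons, List.length_nil]; decide
    · intro x hx
      simp only [List.mem_cons, List.not_mem_nil, or_false] at hx
      rcases hx with rfl | rfl | rfl | rfl | rfl
      exacts [hv, hw, h.cR, h.dR, h.bR]
    · intro x hx
      simp only [List.mem_cons, List.not_mem_nil, or_false] at hx
      rcases hx with rfl | rfl | rfl | rfl | rfl
      · exact Or.inr ⟨w, by simp, c, by simp, w3, hvw, hvc⟩
      · exact Or.inr ⟨v, by simp, c', by simp, v4, hvw.symm, hwc'⟩
      · exact Or.inr ⟨v, by simp, c', by simp, v4, hvc.symm, h.cd⟩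
      · exact Or.inr ⟨w, by simp, c, by simp, w3, hwc'.symm, h.cd.symm⟩
      · exact Or.inl ⟨h.Nb', c, by simp, h.cb.symm⟩
  have nc := h.notNb hXR hpar
  have nc' := h'.notNb hXR hpar
  by_cases h3 : b' = b
  · subst h3
    apply contra hXR hpar [v, w, c, c', b']
    · simp [hvw.ne, hvc.ne, v2, v4, w2, w3, hwc'.ne, h.cb.ne, Ne.symm h1, h'.cb.ne]
    · simp only [List.length_cons, List.length_nil]; decide
    · simp only [List.length_cons, List.length_nil]; decide
    · intro x hx
      simp only [List.mem_cons, List.not_mem_nil, or_false] at hx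
      rcases hx with rfl | rfl | rfl | rfl | rfl
      exacts [hv, hw, h.cR, h'.cR, h.bR]
    · intro x hx
      simp only [List.mem_cons, List.not_mem_nil, or_false] at hx
      rcases hx with rfl | rfl | rfl | rfl | rfl
      · exact Or.inr ⟨w, by simp, c, by simp, w3, hvw, hvc⟩
      · exact Or.inr ⟨v, by simp, c', by simp, v4, hvw.symm, hwc'⟩
      · exact Or.inr ⟨v, by simp, b', by simp, v2, hvc.symm, h.cb⟩
      · exact Or.inr ⟨w, by simp, b', by simp, w2, hwc'.symm, h'.cb⟩
      · exact Or.inl ⟨h.Nb', c, by simp, h.cb.symm⟩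
  have k1 : c' ≠ b := by rintro rfl; exact nc' h.Nb'
  have k2 : c' ≠ a := by rintro rfl; exact nc' h.Na
  have k3 : c ≠ b' := by rintro rfl; exact nc h'.Nb'
  by_cases h4 : a = b'
  · subst h4
    apply contra hXR hpar [v, w, c, b, a, c', d]
    · simp [hvw.ne, hvc.ne, v1, v2, v3, v4, w1, w2, w3, w4, hwc'.ne, h.cb.ne, h.ca, h.cd.ne,
        Ne.symm h1, h.ab.ne.symm, Ne.symm k1, Ne.symm k2, h.db.symm, h.da.ne.symm, h2]
    · simp only [List.length_cons, List.length_nil]; decide
    · simp only [List.length_cons, List.length_nil]; decide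
    · intro x hx
      simp only [List.mem_cons, List.not_mem_nil, or_false] at hx
      rcases hx with rfl | rfl | rfl | rfl | rfl | rfl | rfl
      exacts [hv, hw, h.cR, h.bR, h.aR, h'.cR, h.dR]
    · intro x hx
      simp only [List.mem_cons, List.not_mem_nil, or_false] at hx
      rcases hx with rfl | rfl | rfl | rfl | rfl | rfl | rfl
      · exact Or.inr ⟨w, by simp, c, by simp, w3, hvw, hvc⟩
      · exact Or.inr ⟨v, by simp, c', by simp, v4, hvw.symm, hwc'⟩
      · exact Or.inr ⟨v, by simp, b, by simp, v2, hvc.symm, h.cb⟩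
      · exact Or.inl ⟨h.Nb', c, by simp, h.cb.symm⟩
      · exact Or.inl ⟨h.Na, b, by simp, h.ab⟩
      · exact Or.inr ⟨w, by simp, a, by simp, w1, hwc'.symm, h'.cb⟩
      · exact Or.inr ⟨c, by simp, a, by simp, h.ca, h.cd.symm, h.da⟩
  · apply contra hXR hpar [v, w, c, b, a, c', b']
    · simp [hvw.ne, hvc.ne, v1, v2, v4, v5, w1, w2, w3, w5, hwc'.ne, h.cb.ne, h.ca,
        Ne.symm h1, h.ab.ne.symm, Ne.symm k1, Ne.symm k2, k3, Ne.symm h3, h4, h'.cb.ne]
    · simp only [List.length_cons, List.length_nil]; decide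
    · simp only [List.length_cons, List.length_nil]; decide
    · intro x hx
      simp only [List.mem_cons, List.not_mem_nil, or_false] at hx
      rcases hx with rfl | rfl | rfl | rfl | rfl | rfl | rfl
      exacts [hv, hw, h.cR, h.bR, h.aR, h'.cR, h'.bR]
    · intro x hx
      simp only [List.mem_cons, List.not_mem_nil, or_false] at hx
      rcases hx with rfl | rfl | rfl | rfl | rfl | rfl | rfl
      · exact Or.inr ⟨w, by simp, c, by simp, w3, hvw, hvc⟩
      · exact Or.inr ⟨v, by simp, c', by simp, v4, hvw.symm, hwc'⟩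
      · exact Or.inr ⟨v, by simp, b, by simp, v2, hvc.symm, h.cb⟩
      · exact Or.inl ⟨h.Nb', c, by simp, h.cb.symm⟩
      · exact Or.inl ⟨h.Na, b, by simp, h.ab⟩
      · exact Or.inr ⟨w, by simp, b', by simp, w5, hwc'.symm, h'.cb⟩
      · exact Or.inl ⟨h'.Nb', c', by simp, h'.cb.symm⟩

end Pool.Agent.Lib.MP_d31508_co.Sharp
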