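import Pool.Agent.Lib.MP_d31508_co.Sharp.Basic
import Pool.Agent.Lib.MP_d31508_co.Asy.Girth
import Pool.Agent.Lib.MP_d31508_co.Asy.Bfs

set_option linter.unusedSectionVars false

/-!
# Subdivided graphs of large girth next to a clique
-/

namespace Pool.Agent.Lib.MP_d31508_co.Sharp

open Finset Classical
open Pool.Agent.Lib.MP_d31508_co.Asy (dg Cl D StGirth)

section map
variable {V W : Type} [Fintype V] [Fintype W] {G : SimpleGraph V} {G0 : SimpleGraph W}

lemma dg_map (ι : W ↪ V) (h : ∀ x y, G.Adj (ι x) (ι y) ↔ G0.Adj x y) (Y : Finset W) (x : W) :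
    dg G (Y.map ι) (ι x) = dg G0 Y x := by
  unfold dg
  rw [filter_map, card_map]
  congr 1
  ext y
  simp [h]

lemma D_map (ι : W ↪ V) (h : ∀ x y, G.Adj (ι x) (ι y) ↔ G0.Adj x y) (Y : Finset W) :
    D G (Y.map ι) = D G0 Y := by
  unfold D
  rw [sum_map]
  exact sum_congr rfl (fun x _ => dg_map ι h Y x)

lemma D_split {L T : Finset V} (h : Disjoint L T) (hu : ∀ v, v ∈ L ∨ v ∈ T) :
    D G univ = D G L + D G T + 2 * ∑ y ∈ T, dg G L y := by
  have e : (univ : Finset V) = L ∪ T := by
    ext v
    simp only [mem_univ, mem_union, true_iff]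
    exact hu v
  rw [e, D_union h]

end map

/-- transport to `Fin N` -/
lemma transport {V : Type} [Fintype V] {N : ℕ} (hN : Fintype.card V = N) (G : SimpleGraph V) :
    ∃ H : SimpleGraph (Fin N), D H univ = D G univ ∧
      ∀ Y : Finset (Fin N), Cl H Y → ∃ Z : Finset V, Cl G Z ∧ Z.card = Y.card := by
  let φ : Fin N ≃ V := (Fintype.equivFinOfCardEq hN).symm
  let H : SimpleGraph (Fin N) := G.comap φ
  have hH : ∀ x y, G.Adj (φ.toEmbedding x) (φ.toEmbedding y) ↔ H.Adj x y := fun x y => Iff.rfl
  refine ⟨H, ?_, ?_⟩
  · rw [← D_map φ.toEmbedding hH univ]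
    congr 1
    exact (map_univ_equiv φ)
  · intro Y hY
    refine ⟨Y.map φ.toEmbedding, ?_, card_map _⟩
    intro v hv
    obtain ⟨x, hx, rfl⟩ := mem_map.1 hv
    rw [dg_map φ.toEmbedding hH]
    exact hY x hx

/-- graphs with `N` vertices, at least `e` edges and no closed set with less than `g` elements -/
def PG (N e g : ℕ) : Prop := ∃ G : SimpleGraph (Fin N), 2 * e ≤ D G univ ∧
  ∀ Y : Finset (Fin N), Y.Nonempty → Cl G Y → g ≤ Y.card

lemma PG_of {V : Type} [Fintype V] {N e g : ℕ} (hN : Fintype.card V = N) (G : SimpleGraph V)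
    (hD : 2 * e ≤ D G univ) (hc : ∀ Y : Finset V, Y.Nonempty → Cl G Y → g ≤ Y.card) :
    PG N e g := by
  obtain ⟨H, h1, h2⟩ := transport hN G
  refine ⟨H, by rw [h1]; exact hD, ?_⟩
  intro Y hY hcl
  obtain ⟨Z, z1, z2⟩ := h2 Y hcl
  rw [← z2]
  apply hc Z _ z1
  rw [← card_pos, z2]
  exact card_pos.2 hY

/-- adding pendant vertices -/
lemma PG_pend {N e g p : ℕ} (hN : 1 ≤ N) (h : PG N e g) : PG (N + p) (e + p) g := by
  obtain ⟨G, h1, h2⟩ := h
  let z : Fin N := ⟨0, hN⟩
  let R : Fin N ⊕ Fin p → Fin N ⊕ Fin p → Prop := fun a b => match a, b with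
    | Sum.inl x, Sum.inl y => G.Adj x y
    | Sum.inl x, Sum.inr _ => x = z
    | Sum.inr _, Sum.inl y => y = z
    | Sum.inr _, Sum.inr _ => False
  let H : SimpleGraph (Fin N ⊕ Fin p) :=
    { Adj := R
      symm := ⟨by
        intro a b hab
        rcases a with x | i <;> rcases b with y | j
        · exact SimpleGraph.Adj.symm (G := G) hab
        · exact hab
        · exact hab
        · exact hab⟩
      loopless := ⟨by
        intro a ha
        rcases a with x | i
        · exact G.loopless.irrefl x ha
        · exact ha⟩ }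
  have hL : ∀ x y, H.Adj (Function.Embedding.inl x) (Function.Embedding.inl y) ↔ G.Adj x y :=
    fun x y => Iff.rfl
  set L : Finset (Fin N ⊕ Fin p) := univ.map Function.Embedding.inl with hLdef
  set T : Finset (Fin N ⊕ Fin p) := univ.map Function.Embedding.inr with hTdef
  have hLT : Disjoint L T := by
    rw [disjoint_left]
    intro a ha hb
    obtain ⟨x, -, rfl⟩ := mem_map.1 ha
    obtain ⟨y, -, hy⟩ := mem_map.1 hb
    cases hy
  have hun : ∀ a : Fin N ⊕ Fin p, a ∈ L ∨ a ∈ T := by
    intro a
    rcases a with x | i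
    · left; simp [hLdef]
    · right; simp [hTdef]
  refine PG_of (V := Fin N ⊕ Fin p) (by simp) H ?_ ?_
  · rw [D_split hLT hun]
    have e1 : D H L = D G univ := D_map _ hL univ
    have e2 : p ≤ ∑ y ∈ T, dg H L y := by
      calc p = ∑ _y ∈ T, 1 := by simp [hTdef]
        _ ≤ _ := sum_le_sum (fun y hy => by
          obtain ⟨i, -, rfl⟩ := mem_map.1 hy
          exact one_le_dg (y := Sum.inl z) (by simp [hLdef]) rfl)
    omega
  · intro Y hY hcl
    have hno : ∀ i, Sum.inr i ∉ Y := by
      intro i hi
      have h3 := hcl _ hi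
      have h4 : dg H Y (Sum.inr i) ≤ 1 := by
        unfold dg
        rw [card_le_one]
        have key : ∀ a ∈ Y.filter (fun y => H.Adj (Sum.inr i) y), a = Sum.inl z := by
          intro a ha
          have h5 := (mem_filter.1 ha).2
          rcases a with x | j
          · exact congrArg Sum.inl h5
          · exact h5.elim
        intro a ha b hb
        rw [key a ha, key b hb]
      omega
    set Z : Finset (Fin N) := univ.filter (fun x => Sum.inl x ∈ Y) with hZ
    have hYZ : Y = Z.map Function.Embedding.inl := by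
      ext a
      rcases a with x | i
      · simp [hZ]
      · simp [hno i]
    have hZc : Z.card = Y.card := by rw [hYZ, card_map]
    rw [← hZc]
    apply h2
    · rw [← card_pos, hZc]; exact card_pos.2 hY
    · intro x hx
      rw [← dg_map Function.Embedding.inl hL, ← hYZ]
      apply hcl
      rw [hYZ]
      exact mem_map_of_mem _ hx

/-- the number of ordered edges -/
lemma D_edges {N : ℕ} (G : SimpleGraph (Fin N)) :
    D G univ = 2 * (univ.filter (fun p : Fin N × Fin N => p.1 < p.2 ∧ G.Adj p.1 p.2)).card := by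
  have h1 : D G univ = (univ.filter (fun p : Fin N × Fin N => G.Adj p.1 p.2)).card := by
    unfold D dg
    rw [← card_sigma]
    apply card_bij (fun a _ => (a.1, a.2))
    · rintro ⟨a, b⟩ h
      simp only [mem_sigma, mem_filter, mem_univ, true_and] at h ⊢
      exact h
    · rintro ⟨a, b⟩ _ ⟨c, d⟩ _ h
      simp only [Prod.mk.injEq] at h
      obtain ⟨rfl, rfl⟩ := h
      rfl
    · rintro ⟨a, b⟩ h
      simp only [mem_filter, mem_univ, true_and] at h
      exact ⟨⟨a, b⟩, by simpa using h, rfl⟩
  have h2 : univ.filter (fun p : Fin N × Fin N => G.Adj p.1 p.2) =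
      univ.filter (fun p : Fin N × Fin N => p.1 < p.2 ∧ G.Adj p.1 p.2) ∪
      univ.filter (fun p : Fin N × Fin N => p.2 < p.1 ∧ G.Adj p.1 p.2) := by
    ext ⟨a, b⟩
    simp only [mem_filter, mem_univ, true_and, mem_union]
    constructor
    · intro h
      rcases lt_or_gt_of_ne h.ne with h3 | h3
      · exact Or.inl ⟨h3, h⟩
      · exact Or.inr ⟨h3, h⟩
    · rintro (h | h) <;> exact h.2
  have h3 : Disjoint (univ.filter (fun p : Fin N × Fin N => p.1 < p.2 ∧ G.Adj p.1 p.2))
      (univ.filter (fun p : Fin N × Fin N => p.2 < p.1 ∧ G.Adj p.1 p.2)) := by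
    rw [disjoint_left]
    rintro ⟨a, b⟩ h4 h5
    simp only [mem_filter, mem_univ, true_and] at h4 h5
    exact lt_asymm h4.1 h5.1
  have h4 : (univ.filter (fun p : Fin N × Fin N => p.2 < p.1 ∧ G.Adj p.1 p.2)).card =
      (univ.filter (fun p : Fin N × Fin N => p.1 < p.2 ∧ G.Adj p.1 p.2)).card := by
    apply card_bij (fun p _ => (p.2, p.1))
    · rintro ⟨a, b⟩ h
      simp only [mem_filter, mem_univ, true_and] at h ⊢
      exact ⟨h.1, h.2.symm⟩
    · rintro ⟨a, b⟩ _ ⟨c, d⟩ _ h
      simp only [Prod.mk.injEq] at h
      obtain ⟨rfl, rfl⟩ := h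
      rfl
    · rintro ⟨a, b⟩ h
      simp only [mem_filter, mem_univ, true_and] at h
      exact ⟨(b, a), by simpa using ⟨h.1, h.2.symm⟩, rfl⟩
  rw [h1, h2, card_union_of_disjoint h3, h4]
  ring

/-- subdividing `e` edges once -/
lemma PG_sub {N e g : ℕ} (h : PG N e g) : PG (N + e) (2 * e) (2 * g) := by
  obtain ⟨G, h1, h2⟩ := h
  rw [D_edges] at h1
  obtain ⟨ε⟩ : Nonempty (Fin e ↪ (univ.filter
      (fun p : Fin N × Fin N => p.1 < p.2 ∧ G.Adj p.1 p.2) : Finset (Fin N × Fin N))) := by
    apply Function.Embedding.nonempty_of_card_le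
    rw [Fintype.card_fin, Fintype.card_coe]
    omega
  let a : Fin e → Fin N := fun i => (ε i).1.1
  let b : Fin e → Fin N := fun i => (ε i).1.2
  have hab : ∀ i, a i < b i := fun i => (mem_filter.1 (ε i).2).2.1
  have hG : ∀ i, G.Adj (a i) (b i) := fun i => (mem_filter.1 (ε i).2).2.2
  have hinj : ∀ i j, a i = a j → b i = b j → i = j := by
    intro i j h3 h4
    apply ε.injective
    apply Subtype.ext
    exact Prod.ext h3 h4
  let R : Fin N ⊕ Fin e → Fin N ⊕ Fin e → Prop := fun u v => match u, v with
    | Sum.inl _, Sum.inl _ => False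
    | Sum.inl x, Sum.inr i => x = a i ∨ x = b i
    | Sum.inr i, Sum.inl x => x = a i ∨ x = b i
    | Sum.inr _, Sum.inr _ => False
  let H : SimpleGraph (Fin N ⊕ Fin e) :=
    { Adj := R
      symm := ⟨by
        intro u v huv
        rcases u with x | i <;> rcases v with y | j <;> exact huv⟩
      loopless := ⟨by
        intro u hu
        rcases u with x | i <;> exact hu⟩ }
  set L : Finset (Fin N ⊕ Fin e) := univ.map Function.Embedding.inl with hLdef
  set T : Finset (Fin N ⊕ Fin e) := univ.map Function.Embedding.inr with hTdef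
  have hLT : Disjoint L T := by
    rw [disjoint_left]
    intro u hu hv
    obtain ⟨x, -, rfl⟩ := mem_map.1 hu
    obtain ⟨y, -, hy⟩ := mem_map.1 hv
    cases hy
  have hun : ∀ u : Fin N ⊕ Fin e, u ∈ L ∨ u ∈ T := by
    intro u
    rcases u with x | i
    · left; simp [hLdef]
    · right; simp [hTdef]
  refine PG_of (V := Fin N ⊕ Fin e) (by simp) H ?_ ?_
  · rw [D_split hLT hun]
    have e2 : 2 * e ≤ ∑ y ∈ T, dg H L y := by
      calc 2 * e = ∑ _y ∈ T, 2 := by simp [hTdef, mul_comm]
        _ ≤ _ := sum_le_sum (fun y hy => by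
          obtain ⟨i, -, rfl⟩ := mem_map.1 hy
          refine two_le_dg (y := Sum.inl (a i)) (z := Sum.inl (b i)) (by simp [hLdef])
            (by simp [hLdef]) ?_ (Or.inl rfl) (Or.inr rfl)
          intro hc
          exact (hab i).ne (Sum.inl_injective hc))
    omega
  · intro S hS hcl
    -- inner vertices have both ends in `S`
    have hends : ∀ i, Sum.inr i ∈ S → Sum.inl (a i) ∈ S ∧ Sum.inl (b i) ∈ S := by
      intro i hi
      have h3 := hcl _ hi
      have hsub : S.filter (fun y => H.Adj (Sum.inr i) y) ⊆ {Sum.inl (a i), Sum.inl (b i)} := by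
        intro u hu
        have h5 := (mem_filter.1 hu).2
        rcases u with x | j
        · rcases h5 with h5 | h5
          · simp [h5]
          · simp [h5]
        · exact h5.elim
      have heq : S.filter (fun y => H.Adj (Sum.inr i) y) = {Sum.inl (a i), Sum.inl (b i)} := by
        apply eq_of_subset_of_card_le hsub
        calc ({Sum.inl (a i), Sum.inl (b i)} : Finset (Fin N ⊕ Fin e)).card ≤ 2 := card_le_two
          _ ≤ _ := h3
      constructor
      · have : (Sum.inl (a i) : Fin N ⊕ Fin e) ∈ S.filter (fun y => H.Adj (Sum.inr i) y) := by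
          rw [heq]; simp
        exact (mem_filter.1 this).1
      · have : (Sum.inl (b i) : Fin N ⊕ Fin e) ∈ S.filter (fun y => H.Adj (Sum.inr i) y) := by
          rw [heq]; simp
        exact (mem_filter.1 this).1
    set Y : Finset (Fin N) := univ.filter (fun x => Sum.inl x ∈ S) with hY
    set I : Finset (Fin e) := univ.filter (fun i => Sum.inr i ∈ S) with hI
    have hSY : S = Y.map Function.Embedding.inl ∪ I.map Function.Embedding.inr := by
      ext u
      rcases u with x | i
      · simp [hY]
      · simp [hI]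
    have hdisj : Disjoint (Y.map (Function.Embedding.inl : Fin N ↪ Fin N ⊕ Fin e))
        (I.map Function.Embedding.inr) :=
      disjoint_of_subset_left (map_subset_map.2 (subset_univ _))
        (disjoint_of_subset_right (map_subset_map.2 (subset_univ _)) hLT)
    have hcard : S.card = Y.card + I.card := by
      rw [hSY, card_union_of_disjoint hdisj, card_map, card_map]
    -- the degree of an old vertex
    have hdeg : ∀ x, dg H S (Sum.inl x) = (I.filter (fun i => x = a i ∨ x = b i)).card := by
      intro x
      unfold dg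
      rw [← card_map (Function.Embedding.inr : Fin e ↪ Fin N ⊕ Fin e)]
      congr 1
      ext u
      rcases u with y | i
      · simp only [mem_filter, mem_map, Function.Embedding.inr_apply, reduceCtorEq, and_false,
          exists_false, iff_false, not_and]
        intro _ hc
        exact hc
      · simp only [mem_filter, mem_map, Function.Embedding.inr_apply, hI, mem_univ, true_and,
          Sum.inr.injEq, exists_eq_right]
        exact Iff.rfl
    have hYcl : Cl G Y := by
      intro x hx
      have h3 : 2 ≤ dg H S (Sum.inl x) := hcl _ (mem_filter.1 hx).2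
      rw [hdeg] at h3
      refine h3.trans ?_
      unfold dg
      apply card_le_card_of_injOn (fun i => if x = a i then b i else a i)
      · intro i hi
        have hi' := mem_filter.1 (mem_coe.1 hi)
        have hi2 := hends i (mem_filter.1 hi'.1).2
        apply mem_coe.2
        rw [mem_filter]
        by_cases hc : x = a i
        · simp only [if_pos hc]
          refine ⟨mem_filter.2 ⟨mem_univ _, hi2.2⟩, ?_⟩
          rw [hc]; exact hG i
        · simp only [if_neg hc]
          have hb : x = b i := hi'.2.resolve_left hc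
          refine ⟨mem_filter.2 ⟨mem_univ _, hi2.1⟩, ?_⟩
          rw [hb]; exact (hG i).symm
      · intro i hi j hj hij
        have hi' := (mem_filter.1 (mem_coe.1 hi)).2
        have hj' := (mem_filter.1 (mem_coe.1 hj)).2
        have hai := hab i
        have haj := hab j
        simp only at hij
        by_cases hc : x = a i
        · by_cases hd : x = a j
          · rw [if_pos hc, if_pos hd] at hij
            exact hinj i j (hc.symm.trans hd) hij
          · exfalso
            rw [if_pos hc, if_neg hd] at hij
            have hb : x = b j := hj'.resolve_left hd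
            rw [← hc, hb, hij] at hai
            exact lt_asymm hai haj
        · by_cases hd : x = a j
          · exfalso
            rw [if_neg hc, if_pos hd] at hij
            have hb : x = b i := hi'.resolve_left hc
            rw [← hd, hb, ← hij] at haj
            exact lt_asymm hai haj
          · rw [if_neg hc, if_neg hd] at hij
            have hb1 : x = b i := hi'.resolve_left hc
            have hb2 : x = b j := hj'.resolve_left hd
            exact hinj i j hij (hb1.symm.trans hb2)
    have hYne : Y.Nonempty := by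
      obtain ⟨u, hu⟩ := hS
      rcases u with x | i
      · exact ⟨x, mem_filter.2 ⟨mem_univ _, hu⟩⟩
      · exact ⟨a i, mem_filter.2 ⟨mem_univ _, (hends i hu).1⟩⟩
    have hg := h2 Y hYne hYcl
    -- double counting
    have hYI : Y.card ≤ I.card := by
      have h3 : ∑ x ∈ Y, (I.filter (fun i => x = a i ∨ x = b i)).card =
          ∑ i ∈ I, (Y.filter (fun x => x = a i ∨ x = b i)).card :=
        sum_card_bipartiteAbove_eq_sum_card_bipartiteBelow _
      have h4 : 2 * Y.card ≤ ∑ x ∈ Y, (I.filter (fun i => x = a i ∨ x = b i)).card := by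
        calc 2 * Y.card = ∑ _x ∈ Y, 2 := by simp [mul_comm]
          _ ≤ _ := sum_le_sum (fun x hx => by
            rw [← hdeg]; exact hcl _ (mem_filter.1 hx).2)
      have h5 : ∑ i ∈ I, (Y.filter (fun x => x = a i ∨ x = b i)).card ≤ 2 * I.card := by
        calc _ ≤ ∑ _i ∈ I, 2 := sum_le_sum (fun i _ => by
              calc (Y.filter (fun x => x = a i ∨ x = b i)).card ≤ ({a i, b i} : Finset _).card :=
                    card_le_card (by
                      intro x hx
                      rcases (mem_filter.1 hx).2 with h | h <;> simp [h])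
                _ ≤ 2 := card_le_two)
          _ = _ := by simp [mul_comm]
      omega
    omega

/-- subdividing `j` times -/
lemma PG_iter {N e g : ℕ} (h : PG N e g) (j : ℕ) :
    PG (N + (2 ^ j - 1) * e) (2 ^ j * e) (2 ^ j * g) := by
  induction j with
  | zero => simpa using h
  | succ j ih =>
    have h1 := PG_sub ih
    have e1 : N + (2 ^ j - 1) * e + 2 ^ j * e = N + (2 ^ (j + 1) - 1) * e := by
      have h2 : 1 ≤ 2 ^ j := Nat.one_le_two_pow
      have h3 : 2 ^ (j + 1) - 1 = (2 ^ j - 1) + 2 ^ j := by rw [pow_succ]; omega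
      rw [h3]; ring
    have e2 : 2 * (2 ^ j * e) = 2 ^ (j + 1) * e := by rw [pow_succ]; ring
    have e3 : 2 * (2 ^ j * g) = 2 ^ (j + 1) * g := by rw [pow_succ]; ring
    rw [e1, e2, e3] at h1
    exact h1

/-- gluing a clique -/
lemma PG_clique {N e g k : ℕ} (hg : k + 3 ≤ g) (h : PG N e g) :
    ∃ H : SimpleGraph (Fin (k + 1 + N)),
      (∀ S : Finset (Fin (k + 1 + N)), S.card = k + 2 → ¬ Cl H S) ∧
      (k + 1) * k + 2 * e ≤ D H univ := by
  obtain ⟨G, h1, h2⟩ := h
  let R : Fin (k + 1) ⊕ Fin N → Fin (k + 1) ⊕ Fin N → Prop := fun u v => match u, v with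
    | Sum.inl x, Sum.inl y => x ≠ y
    | Sum.inl _, Sum.inr _ => False
    | Sum.inr _, Sum.inl _ => False
    | Sum.inr x, Sum.inr y => G.Adj x y
  let H : SimpleGraph (Fin (k + 1) ⊕ Fin N) :=
    { Adj := R
      symm := ⟨by
        intro u v huv
        rcases u with x | i <;> rcases v with y | j
        · exact Ne.symm huv
        · exact huv
        · exact huv
        · exact SimpleGraph.Adj.symm (G := G) huv⟩
      loopless := ⟨by
        intro u hu
        rcases u with x | i
        · exact hu rfl
        · exact G.loopless.irrefl i hu⟩ }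
  have hR : ∀ x y, H.Adj (Function.Embedding.inr x) (Function.Embedding.inr y) ↔ G.Adj x y :=
    fun x y => Iff.rfl
  have hL : ∀ x y, H.Adj (Function.Embedding.inl x) (Function.Embedding.inl y) ↔
    (⊤ : SimpleGraph (Fin (k + 1))).Adj x y := fun x y => Iff.rfl
  set L : Finset (Fin (k + 1) ⊕ Fin N) := univ.map Function.Embedding.inl with hLdef
  set T : Finset (Fin (k + 1) ⊕ Fin N) := univ.map Function.Embedding.inr with hTdef
  have hLT : Disjoint L T := by
    rw [disjoint_left]
    intro u hu hv
    obtain ⟨x, -, rfl⟩ := mem_map.1 hu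
    obtain ⟨y, -, hy⟩ := mem_map.1 hv
    cases hy
  have hun : ∀ u : Fin (k + 1) ⊕ Fin N, u ∈ L ∨ u ∈ T := by
    intro u
    rcases u with x | i
    · left; simp [hLdef]
    · right; simp [hTdef]
  obtain ⟨H', p1, p2⟩ := transport (V := Fin (k + 1) ⊕ Fin N) (N := k + 1 + N) (by simp) H
  refine ⟨H', ?_, ?_⟩
  · intro S hS hcl
    obtain ⟨Z, z1, z2⟩ := p2 S hcl
    rw [hS] at z2
    set Y : Finset (Fin N) := univ.filter (fun x => Sum.inr x ∈ Z) with hY
    have hZsub : Y.map Function.Embedding.inr ⊆ Z := by
      intro u hu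
      obtain ⟨x, hx, rfl⟩ := mem_map.1 hu
      exact (mem_filter.1 hx).2
    have hYcl : Cl G Y := by
      intro x hx
      have h3 := z1 _ (mem_filter.1 hx).2
      refine h3.trans ?_
      rw [← dg_map Function.Embedding.inr hR]
      apply card_le_card
      intro u hu
      rw [mem_filter] at hu ⊢
      rcases u with y | y
      · exact hu.2.elim
      · exact ⟨mem_map_of_mem _ (mem_filter.2 ⟨mem_univ _, hu.1⟩), hu.2⟩
    have hYne : Y.Nonempty := by
      by_contra hc
      rw [not_nonempty_iff_eq_empty] at hc
      have h4 : Z ⊆ L := by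
        intro u hu
        rcases u with x | x
        · simp [hLdef]
        · exfalso
          have : x ∈ Y := mem_filter.2 ⟨mem_univ _, hu⟩
          rw [hc] at this
          simp at this
      have h5 := card_le_card h4
      rw [z2, hLdef, card_map, card_univ, Fintype.card_fin] at h5
      omega
    have h6 := h2 Y hYne hYcl
    have h7 := card_le_card hZsub
    rw [card_map, z2] at h7
    omega
  · rw [p1, D_split hLT hun]
    have e1 : D H L = D (⊤ : SimpleGraph (Fin (k + 1))) univ := D_map _ hL univ
    have e2 : D H T = D G univ := D_map _ hR univ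
    have e3 : (k + 1) * k ≤ D (⊤ : SimpleGraph (Fin (k + 1))) univ := by
      unfold D
      calc (k + 1) * k = ∑ _x : Fin (k + 1), k := by simp
        _ ≤ _ := sum_le_sum (fun x _ => by
          have : (univ : Finset (Fin (k + 1))).erase x ⊆
              univ.filter (fun y => (⊤ : SimpleGraph (Fin (k + 1))).Adj x y) := by
            intro y hy
            simp only [mem_filter, mem_univ, true_and, SimpleGraph.top_adj]
            exact (ne_of_mem_erase hy).symm
          have h5 := card_le_card this
          rw [card_erase_of_mem (mem_univ _), card_univ, Fintype.card_fin,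
            Nat.add_sub_cancel] at h5
          refine h5.trans (le_of_eq ?_)
          unfold dg
          congr)
    omega

end Pool.Agent.Lib.MP_d31508_co.Sharp
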