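import Pool.Agent.Lib.MP_d31508_co.Sharp.Decomp

set_option linter.unusedSectionVars false

/-!
# The main pair and its supply
-/

namespace Pool.Agent.Lib.MP_d31508_co.Sharp

open Finset Classical
open Pool.Agent.Lib.MP_d31508_co.Asy (dg Cl D)

variable {V : Type} [Fintype V] {G : SimpleGraph V}

/-- `Z` has a supply: for all small `Φ` and even `t ≤ m` a set of `t` vertices avoiding `Φ` and `Z`
hangs on `Z` -/
def Sup (G : SimpleGraph V) (U Z : Finset V) (κ m : ℕ) : Prop :=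
  ∀ Φ : Finset V, Φ.card ≤ κ → ∀ t ≤ m, Even t →
    ∃ W ⊆ U, Disjoint W Z ∧ Disjoint W Φ ∧ Hang G Z W ∧ W.card = t

/-- root-closed selection -/
lemma select {α : Type} [DecidableEq α] (I : Finset α) (U : α → Prop) (B : α → α → Prop)
    (hB : ∀ ρ ∈ I, ¬ U ρ → ∃ σ ∈ I, U σ ∧ B ρ σ) (n : ℕ) (hn : n ≤ I.card) :
    ∃ S ⊆ I, S.card = n ∧ ∀ ρ ∈ S, ¬ U ρ → ∃ σ ∈ S, U σ ∧ B ρ σ := by
  classical
  obtain ⟨S, hS, hmax⟩ := exists_max_image (I.powerset.filter (fun S => S.card ≤ n ∧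
    ∀ ρ ∈ S, ¬ U ρ → ∃ σ ∈ S, U σ ∧ B ρ σ)) card
    ⟨∅, mem_filter.2 ⟨by simp, by simp, by simp⟩⟩
  obtain ⟨h1, h2, h3⟩ := mem_filter.1 hS
  rw [mem_powerset] at h1
  refine ⟨S, h1, ?_, h3⟩
  by_contra hne
  have hlt : S.card < n := lt_of_le_of_ne h2 hne
  obtain ⟨ρ, hρI, hρS⟩ : ∃ ρ ∈ I, ρ ∉ S := by
    by_contra hcon
    push Not at hcon
    have := card_le_card (show I ⊆ S from hcon)
    omega
  -- one more element
  have key : ∀ τ ∈ I, τ ∉ S → (¬ U τ → ∃ σ ∈ S, U σ ∧ B τ σ) → False := by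
    intro τ hτI hτS hτ
    have hc : (insert τ S).card = S.card + 1 := card_insert_of_notMem hτS
    have := hmax (insert τ S) (mem_filter.2 ⟨mem_powerset.2 (insert_subset hτI h1), by omega, by
      intro x hx hxU
      rcases mem_insert.1 hx with rfl | hx
      · obtain ⟨σ, a1, a2⟩ := hτ hxU
        exact ⟨σ, mem_insert_of_mem a1, a2⟩
      · obtain ⟨σ, a1, a2⟩ := h3 x hx hxU
        exact ⟨σ, mem_insert_of_mem a1, a2⟩⟩)
    omega
  by_cases hU : U ρ
  · exact key ρ hρI hρS (fun h => absurd hU h)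
  · obtain ⟨σ, hσI, hσU, hσB⟩ := hB ρ hρI hU
    by_cases hσS : σ ∈ S
    · exact key ρ hρI hρS (fun _ => ⟨σ, hσS, hσU, hσB⟩)
    · exact key σ hσI hσS (fun h => absurd hσU h)

variable {X R Y : Finset V} {P : Finset (Rc V)}

lemma Dec.card_biUnion (h : Dec G X R Y P) {S : Finset (Rc V)} (hS : S ⊆ P) :
    (S.biUnion Rc.pr).card = 2 * S.card := by
  rw [Finset.card_biUnion]
  · rw [sum_congr rfl (fun ρ hρ => h.pr_card2 (hS hρ))]
    simp [mul_comm]
  · intro ρ hρ σ hσ hne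
    exact h.dj ρ (hS hρ) σ (hS hσ) hne

/-- a pair of the first level hangs on the set of its two roots -/
lemma Dec.hangA (h : Dec G X R Y P) (hXR : Disjoint X R) {σ : Rc V} (hσ : σ ∈ P) {A : Finset V}
    (hA : A ⊆ X) (h1 : σ.p ∈ A) (h2 : σ.q ∈ A) : Hang G A σ.pr := by
  intro x hx
  have ha : σ.a ∈ A ∪ σ.pr := mem_union_right _ (mem_pr.2 (Or.inl rfl))
  have hb : σ.b ∈ A ∪ σ.pr := mem_union_right _ (mem_pr.2 (Or.inr rfl))
  rcases mem_pr.1 hx with rfl | rfl
  · have e : σ.p ≠ σ.b := fun e => disjoint_left.1 hXR (hA h1) (e ▸ h.bR σ hσ)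
    exact two_le_dg (mem_union_left _ h1) hb e (h.ap σ hσ) (h.ab σ hσ)
  · have e : σ.q ≠ σ.a := fun e => disjoint_left.1 hXR (hA h2) (e ▸ h.aR σ hσ)
    exact two_le_dg (mem_union_left _ h2) ha e (h.bq σ hσ) (h.ab σ hσ).symm

/-- the pairs of the second level over `σ` -/
noncomputable def ovr (P : Finset (Rc V)) (σ : Rc V) : Finset (Rc V) :=
  P.filter (fun ρ => ρ.p = σ.a ∧ ρ.q = σ.b)

/-- Case 1: a pair of the first level with many pairs over it. -/
lemma Dec.case1 (h : Dec G X R Y P) (hXR : Disjoint X R)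
    (htight : ∀ F ⊆ R, Hang G X F → F.card ≤ 6 → D G (X ∪ F) = D G X + 3 * F.card)
    {σ : Rc V} (hσ : σ ∈ P) (h1 : σ.p ∈ X) (h2 : σ.q ∈ X) {κ m : ℕ}
    (hbig : m + κ + 2 ≤ (ovr P σ).card) :
    ∃ Z ⊆ R, Cl G Z ∧ Z.card = 6 ∧ D G Z ≤ 14 ∧ Sup G R Z κ m := by
  have hoP : ovr P σ ⊆ P := filter_subset _ _
  have hop : ∀ ρ ∈ ovr P σ, ρ.p = σ.a ∧ ρ.q = σ.b := fun ρ hρ => (mem_filter.1 hρ).2
  obtain ⟨ρ₁, hρ₁, ρ₂, hρ₂, hne⟩ := one_lt_card.1 (show 1 < (ovr P σ).card by omega)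
  have n1 := h.neq (hoP hρ₁) (hop ρ₁ hρ₁).1
  have n2 := h.neq (hoP hρ₂) (hop ρ₂ hρ₂).1
  have d1 := h.dj ρ₁ (hoP hρ₁) σ hσ n1
  have d2 := h.dj ρ₂ (hoP hρ₂) σ hσ n2
  have d3 := h.dj ρ₁ (hoP hρ₁) ρ₂ (hoP hρ₂) hne
  have hg1 := h.hang2 (hoP hρ₁) hσ (hop ρ₁ hρ₁).1 (hop ρ₁ hρ₁).2
  have hg2 := h.hang2 (hoP hρ₂) hσ (hop ρ₂ hρ₂).1 (hop ρ₂ hρ₂).2
  set Z := σ.pr ∪ (ρ₁.pr ∪ ρ₂.pr) with hZ
  have hZR : Z ⊆ R := union_subset (h.prR hσ) (union_subset (h.prR (hoP hρ₁)) (h.prR (hoP hρ₂)))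
  have hZcl : Cl G Z := by
    intro x hx
    rcases mem_union.1 hx with hx | hx
    · have ha : σ.a ∈ Z := mem_union_left _ (mem_pr.2 (Or.inl rfl))
      have hb : σ.b ∈ Z := mem_union_left _ (mem_pr.2 (Or.inr rfl))
      have ha1 : ρ₁.a ∈ Z := mem_union_right _ (mem_union_left _ (mem_pr.2 (Or.inl rfl)))
      have hb1 : ρ₁.b ∈ Z := mem_union_right _ (mem_union_left _ (mem_pr.2 (Or.inr rfl)))
      rcases mem_pr.1 hx with rfl | rfl
      · have e : σ.b ≠ ρ₁.a := fun e => disjoint_left.1 d1 (mem_pr.2 (Or.inl rfl))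
          (mem_pr.2 (Or.inr e.symm))
        have e2 := h.ap ρ₁ (hoP hρ₁)
        rw [(hop ρ₁ hρ₁).1] at e2
        exact two_le_dg hb ha1 e (h.ab σ hσ) e2.symm
      · have e : σ.a ≠ ρ₁.b := fun e => disjoint_left.1 d1 (mem_pr.2 (Or.inr rfl))
          (mem_pr.2 (Or.inl e.symm))
        have e2 := h.bq ρ₁ (hoP hρ₁)
        rw [(hop ρ₁ hρ₁).2] at e2
        exact two_le_dg ha hb1 e (h.ab σ hσ).symm e2.symm
    · rcases mem_union.1 hx with hx | hx
      · exact (hg1 x hx).trans (dg_mono (union_subset_union_right subset_union_left) x)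
      · exact (hg2 x hx).trans (dg_mono (union_subset_union_right subset_union_right) x)
  have hZc : Z.card = 6 := by
    rw [hZ, card_union_of_disjoint (disjoint_union_right.2 ⟨d1.symm, d2.symm⟩),
      card_union_of_disjoint d3, h.pr_card2 hσ, h.pr_card2 (hoP hρ₁), h.pr_card2 (hoP hρ₂)]
  refine ⟨Z, hZR, hZcl, hZc, ?_, ?_⟩
  · have t1 := htight Z hZR (fun x hx => (hZcl x hx).trans (dg_mono subset_union_right x))
      (by omega)
    rw [hZc, D_union (disjoint_of_subset_right hZR hXR)] at t1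
    have t2 : 2 ≤ ∑ y ∈ Z, dg G X y := by
      calc 2 = ∑ _y ∈ σ.pr, 1 := by rw [← card_eq_sum_ones, h.pr_card2 hσ]
        _ ≤ ∑ y ∈ σ.pr, dg G X y := by
            apply sum_le_sum
            intro y hy
            rcases mem_pr.1 hy with rfl | rfl
            · exact one_le_dg h1 (h.ap σ hσ)
            · exact one_le_dg h2 (h.bq σ hσ)
        _ ≤ ∑ y ∈ Z, dg G X y := sum_le_sum_of_subset subset_union_left
    omega
  · intro Φ hΦ t ht hteven
    set C := ((ovr P σ).erase ρ₁).erase ρ₂ with hC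
    have hCo : C ⊆ ovr P σ := (erase_subset _ _).trans (erase_subset _ _)
    have hCc : (ovr P σ).card ≤ C.card + 2 := by
      have h1 := card_erase_add_one hρ₁
      have h2 : ((ovr P σ).erase ρ₁).card ≤ C.card + 1 := by
        rw [hC]
        have := pred_card_le_card_erase (a := ρ₂) (s := (ovr P σ).erase ρ₁)
        omega
      omega
    have hCd : ∀ i ∈ C, ∀ j ∈ C, i ≠ j → Disjoint i.pr j.pr := fun i hi j hj hij =>
      h.dj i (hoP (hCo hi)) j (hoP (hCo hj)) hij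
    have hfew := few_meet C Rc.pr Φ hCd
    obtain ⟨u, hu⟩ := hteven
    obtain ⟨S, hS, hSc⟩ := exists_subset_card_eq
      (s := C.filter (fun i => Disjoint i.pr Φ)) (n := u) (by omega)
    have hSC : S ⊆ C := hS.trans (filter_subset _ _)
    have hSP : S ⊆ P := hSC.trans (hCo.trans hoP)
    refine ⟨S.biUnion Rc.pr, ?_, ?_, ?_, ?_, ?_⟩
    · exact biUnion_subset.2 (fun ρ hρ => h.prR (hSP hρ))
    · rw [disjoint_biUnion_left]
      intro ρ hρ
      have hρC := hSC hρ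
      rw [hC, mem_erase, mem_erase] at hρC
      have nσ := h.neq (hSP hρ) (hop ρ (hCo (hSC hρ))).1
      rw [hZ, disjoint_union_right, disjoint_union_right]
      exact ⟨h.dj ρ (hSP hρ) σ hσ nσ, h.dj ρ (hSP hρ) ρ₁ (hoP hρ₁) hρC.2.1,
        h.dj ρ (hSP hρ) ρ₂ (hoP hρ₂) hρC.1⟩
    · rw [disjoint_biUnion_left]
      intro ρ hρ
      exact (mem_filter.1 (hS hρ)).2
    · apply Hang.biUnion
      intro ρ hρ
      have hρo := hCo (hSC hρ)
      exact (h.hang2 (hSP hρ) hσ (hop ρ hρo).1 (hop ρ hρo).2).mono subset_union_left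
    · rw [h.card_biUnion hSP, hSc]; omega

/-- pairs of the first level at `x, y` -/
noncomputable def fst (P : Finset (Rc V)) (x y : V) : Finset (Rc V) :=
  P.filter (fun σ => σ.p = x ∧ σ.q = y)

/-- all pairs belonging to `x, y` -/
noncomputable def fam (P : Finset (Rc V)) (x y : V) : Finset (Rc V) :=
  P.filter (fun ρ => ρ ∈ fst P x y ∨ ∃ σ ∈ fst P x y, ρ.p = σ.a ∧ ρ.q = σ.b)

lemma fam_sub (P : Finset (Rc V)) (x y : V) :
    fam P x y ⊆ (fst P x y).biUnion (fun σ => insert σ (ovr P σ)) := by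
  intro ρ hρ
  obtain ⟨h1, h2⟩ := mem_filter.1 hρ
  rcases h2 with h2 | ⟨σ, hσ, h2⟩
  · exact mem_biUnion.2 ⟨ρ, h2, mem_insert_self _ _⟩
  · exact mem_biUnion.2 ⟨σ, hσ, mem_insert_of_mem (mem_filter.2 ⟨h1, h2⟩)⟩

lemma card_biUnion_insert {U : Finset (Rc V)} {Q : ℕ}
    (hQ : ∀ σ ∈ U, (ovr P σ).card + 1 ≤ Q) :
    (U.biUnion (fun σ => insert σ (ovr P σ))).card ≤ U.card * Q := by
  calc _ ≤ ∑ σ ∈ U, (insert σ (ovr P σ)).card := card_biUnion_le
    _ ≤ ∑ _σ ∈ U, Q := by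
        apply sum_le_sum
        intro σ hσ
        exact (card_insert_le _ _).trans (hQ σ hσ)
    _ = _ := by simp

/-- Case 2: many pairs belong to `x, y`, few over each pair of the first level. -/
lemma Dec.case2 (h : Dec G X R Y P) (hXR : Disjoint X R)
    (htight : ∀ F ⊆ R, Hang G X F → F.card ≤ 6 → D G (X ∪ F) = D G X + 3 * F.card)
    {x y : V} (hx : x ∈ X) (hy : y ∈ X) {κ m Q : ℕ}
    (hsmall : ∀ σ ∈ fst P x y, (ovr P σ).card + 1 ≤ Q)
    (hbig : (κ + 8) * Q + κ + 6 + m < (fam P x y).card) :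
    ∃ Z ⊆ X ∪ R, Cl G Z ∧ ((Z.card = 6 ∧ D G Z ≤ 14) ∨ (Z.card = 5 ∧ D G Z ≤ 12)) ∧
      Sup G R Z κ m := by
  have hUP : fst P x y ⊆ P := filter_subset _ _
  have hUp : ∀ σ ∈ fst P x y, σ.p = x ∧ σ.q = y := fun σ hσ => (mem_filter.1 hσ).2
  have hfam := (card_le_card (fam_sub P x y)).trans (card_biUnion_insert hsmall)
  have hU2 : 1 < (fst P x y).card := by
    by_contra hcon
    push Not at hcon
    have h1 : (fst P x y).card * Q ≤ 1 * Q := Nat.mul_le_mul_right _ hcon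
    have h2 : 1 * Q ≤ (κ + 8) * Q := Nat.mul_le_mul_right _ (by omega)
    omega
  obtain ⟨σ₁, hσ₁, σ₂, hσ₂, hne⟩ := one_lt_card.1 hU2
  have d3 := h.dj σ₁ (hUP hσ₁) σ₂ (hUP hσ₂) hne
  set A : Finset V := {x, y} with hA
  have hAX : A ⊆ X := by
    intro z hz
    rw [hA, mem_insert, mem_singleton] at hz
    rcases hz with rfl | rfl
    · exact hx
    · exact hy
  have hxA : x ∈ A := by rw [hA]; simp
  have hyA : y ∈ A := by rw [hA]; simp
  have hhang : ∀ σ ∈ fst P x y, Hang G A σ.pr := by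
    intro σ hσ
    obtain ⟨e1, e2⟩ := hUp σ hσ
    exact h.hangA hXR (hUP hσ) hAX (by rw [e1]; exact hxA) (by rw [e2]; exact hyA)
  set F := σ₁.pr ∪ σ₂.pr with hF
  have hFR : F ⊆ R := union_subset (h.prR (hUP hσ₁)) (h.prR (hUP hσ₂))
  have hFc : F.card = 4 := by
    rw [hF, card_union_of_disjoint d3, h.pr_card2 (hUP hσ₁), h.pr_card2 (hUP hσ₂)]
  have hFh : Hang G A F := (hhang σ₁ hσ₁).union (hhang σ₂ hσ₂)
  have hAF : Disjoint A F := disjoint_of_subset_left hAX (disjoint_of_subset_right hFR hXR)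
  set Z := A ∪ F with hZ
  have hZU : Z ⊆ X ∪ R := union_subset_union hAX hFR
  have hZcl : Cl G Z := by
    intro z hz
    rcases mem_union.1 hz with hz | hz
    · have e1 := h.ap σ₁ (hUP hσ₁)
      have e2 := h.ap σ₂ (hUP hσ₂)
      have e3 := h.bq σ₁ (hUP hσ₁)
      have e4 := h.bq σ₂ (hUP hσ₂)
      rw [(hUp σ₁ hσ₁).1] at e1
      rw [(hUp σ₂ hσ₂).1] at e2
      rw [(hUp σ₁ hσ₁).2] at e3
      rw [(hUp σ₂ hσ₂).2] at e4
      rw [hA, mem_insert, mem_singleton] at hz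
      rcases hz with rfl | rfl
      · apply two_le_dg (y := σ₁.a) (z := σ₂.a) _ _ _ e1.symm e2.symm
        · exact mem_union_right _ (mem_union_left _ (mem_pr.2 (Or.inl rfl)))
        · exact mem_union_right _ (mem_union_right _ (mem_pr.2 (Or.inl rfl)))
        · intro e
          exact disjoint_left.1 d3 (mem_pr.2 (Or.inl rfl)) (mem_pr.2 (Or.inl e))
      · apply two_le_dg (y := σ₁.b) (z := σ₂.b) _ _ _ e3.symm e4.symm
        · exact mem_union_right _ (mem_union_left _ (mem_pr.2 (Or.inr rfl)))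
        · exact mem_union_right _ (mem_union_right _ (mem_pr.2 (Or.inr rfl)))
        · intro e
          exact disjoint_left.1 d3 (mem_pr.2 (Or.inr rfl)) (mem_pr.2 (Or.inr e))
    · exact hFh z hz
  have hZc : Z.card = A.card + 4 := by rw [hZ, card_union_of_disjoint hAF, hFc]
  have hDZ : D G Z ≤ D G A + 12 := by
    have t1 := htight F hFR (hFh.mono hAX) (by omega)
    rw [hFc, D_union (disjoint_of_subset_right hFR hXR)] at t1
    have t2 := D_union (G := G) hAF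
    have t3 : ∑ y ∈ F, dg G A y ≤ ∑ y ∈ F, dg G X y :=
      sum_le_sum (fun y _ => dg_mono hAX y)
    rw [← hZ] at t2
    omega
  refine ⟨Z, hZU, hZcl, ?_, ?_⟩
  · by_cases hxy : x = y
    · right
      have hA1 : A = {x} := by rw [hA, hxy]; simp
      have hc1 : A.card = 1 := by rw [hA1]; exact card_singleton x
      have hD0 : D G A = 0 := by rw [hA1]; exact D_singleton x
      omega
    · left
      have hc2 : A.card = 2 := card_pair hxy
      have hD2 : D G A ≤ 2 := by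
        rw [hA, D_insert (by simpa using hxy), D_singleton]
        have := dg_le_card (G := G) {y} x
        rw [card_singleton] at this
        omega
      omega
  · intro Φ hΦ t ht hteven
    set Ψ := Φ ∪ Z with hΨ
    have hAc : A.card ≤ 2 := card_le_two
    have hΨc : Ψ.card ≤ κ + 6 := by
      have := card_union_le Φ Z
      rw [hΨ]
      omega
    set I' := (fam P x y).filter (fun ρ => Disjoint ρ.pr Ψ ∧
      ∀ σ ∈ fst P x y, (ρ = σ ∨ (ρ.p = σ.a ∧ ρ.q = σ.b)) → Disjoint σ.pr Ψ) with hI'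
    have hfP : fam P x y ⊆ P := filter_subset _ _
    have hcount : (fam P x y).card ≤ I'.card + (κ + 6) + (κ + 6) * Q := by
      have hsub : fam P x y ⊆ I' ∪ ((fam P x y).filter (fun ρ => ¬ Disjoint ρ.pr Ψ) ∪
          ((fst P x y).filter (fun σ => ¬ Disjoint σ.pr Ψ)).biUnion
            (fun σ => insert σ (ovr P σ))) := by
        intro ρ hρ
        by_cases g1 : Disjoint ρ.pr Ψ
        · by_cases g2 : ∀ σ ∈ fst P x y, (ρ = σ ∨ (ρ.p = σ.a ∧ ρ.q = σ.b)) → Disjoint σ.pr Ψ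
          · exact mem_union_left _ (mem_filter.2 ⟨hρ, g1, g2⟩)
          · push Not at g2
            obtain ⟨σ, hσ, g3, g4⟩ := g2
            apply mem_union_right
            apply mem_union_right
            refine mem_biUnion.2 ⟨σ, mem_filter.2 ⟨hσ, g4⟩, ?_⟩
            rcases g3 with g3 | g3
            · rw [g3]; exact mem_insert_self _ _
            · exact mem_insert_of_mem (mem_filter.2 ⟨hfP hρ, g3⟩)
        · exact mem_union_right _ (mem_union_left _ (mem_filter.2 ⟨hρ, g1⟩))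
      have c1 : ((fam P x y).filter (fun ρ => ¬ Disjoint ρ.pr Ψ)).card ≤ κ + 6 := by
        have e1 := few_meet (fam P x y) Rc.pr Ψ (fun i hi j hj hij =>
          h.dj i (hfP hi) j (hfP hj) hij)
        have e2 := card_filter_add_card_filter_not (s := fam P x y) (fun i => Disjoint i.pr Ψ)
        omega
      have c2 : ((fst P x y).filter (fun σ => ¬ Disjoint σ.pr Ψ)).card ≤ κ + 6 := by
        have e1 := few_meet (fst P x y) Rc.pr Ψ (fun i hi j hj hij =>
          h.dj i (hUP hi) j (hUP hj) hij)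
        have e2 := card_filter_add_card_filter_not (s := fst P x y) (fun i => Disjoint i.pr Ψ)
        omega
      have c3 : (((fst P x y).filter (fun σ => ¬ Disjoint σ.pr Ψ)).biUnion
            (fun σ => insert σ (ovr P σ))).card ≤ (κ + 6) * Q := by
        refine (card_biUnion_insert (Q := Q) (fun σ hσ => hsmall σ (mem_filter.1 hσ).1)).trans ?_
        exact Nat.mul_le_mul_right _ c2
      calc (fam P x y).card ≤ _ := card_le_card hsub
        _ ≤ I'.card + _ := card_union_le _ _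
        _ ≤ I'.card + (_ + _) := Nat.add_le_add_left (card_union_le _ _) _
        _ ≤ I'.card + ((κ + 6) + (κ + 6) * Q) := by
            apply Nat.add_le_add_left
            exact Nat.add_le_add c1 c3
        _ = _ := by ring
    obtain ⟨u, hu⟩ := hteven
    have hle : (κ + 6) * Q ≤ (κ + 8) * Q := Nat.mul_le_mul_right _ (by omega)
    obtain ⟨S, hSI, hSc, hSr⟩ := select I' (fun ρ => ρ ∈ fst P x y)
      (fun ρ σ => ρ.p = σ.a ∧ ρ.q = σ.b) (by
        intro ρ hρ hρU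
        obtain ⟨hρf, g1, g2⟩ := mem_filter.1 hρ
        obtain ⟨hρP, g3⟩ := mem_filter.1 hρf
        rcases g3 with g3 | ⟨σ, hσ, g3⟩
        · exact absurd g3 hρU
        · refine ⟨σ, ?_, hσ, g3⟩
          rw [hI', mem_filter]
          refine ⟨mem_filter.2 ⟨hUP hσ, Or.inl hσ⟩, g2 σ hσ (Or.inr g3), ?_⟩
          intro τ hτ g4
          rcases g4 with g4 | g4
          · rw [← g4]; exact g2 σ hσ (Or.inr g3)
          · exfalso
            have e1 := g4.1
            rw [(hUp σ hσ).1] at e1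
            exact disjoint_left.1 hXR hx (e1 ▸ h.aR τ (hUP hτ))) u (by omega)
    have hSP : S ⊆ P := hSI.trans ((filter_subset _ _).trans hfP)
    have hSd : ∀ ρ ∈ S, Disjoint ρ.pr Ψ := fun ρ hρ => (mem_filter.1 (hSI hρ)).2.1
    refine ⟨S.biUnion Rc.pr, ?_, ?_, ?_, ?_, ?_⟩
    · exact biUnion_subset.2 (fun ρ hρ => h.prR (hSP hρ))
    · rw [disjoint_biUnion_left]
      intro ρ hρ
      exact disjoint_of_subset_right subset_union_right (hSd ρ hρ)
    · rw [disjoint_biUnion_left]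
      intro ρ hρ
      exact disjoint_of_subset_right subset_union_left (hSd ρ hρ)
    · intro z hz
      obtain ⟨ρ, hρ, hzρ⟩ := mem_biUnion.1 hz
      by_cases hρU : ρ ∈ fst P x y
      · exact (hhang ρ hρU z hzρ).trans (dg_mono (union_subset_union subset_union_left
          (subset_biUnion_of_mem Rc.pr hρ)) z)
      · obtain ⟨σ, hσ, hσU, g1, g2⟩ := hSr ρ hρ hρU
        refine (h.hang2 (hSP hρ) (hSP hσ) g1 g2 z hzρ).trans (dg_mono ?_ z)
        apply union_subset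
        · exact (subset_biUnion_of_mem Rc.pr hσ).trans subset_union_right
        · exact (subset_biUnion_of_mem Rc.pr hρ).trans subset_union_right
    · rw [h.card_biUnion hSP, hSc]; omega

/-- **Supply.** -/
theorem supply (h : Dec G X R (X ∪ R) P) (hXR : Disjoint X R)
    (htight : ∀ F ⊆ R, Hang G X F → F.card ≤ 6 → D G (X ∪ F) = D G X + 3 * F.card)
    {κ m : ℕ}
    (hbig : 2 * (X.card * X.card * ((κ + 8) * (m + κ + 2) + κ + 6 + m)) < R.card) :
    ∃ Z ⊆ X ∪ R, Cl G Z ∧ ((Z.card = 6 ∧ D G Z ≤ 14) ∨ (Z.card = 5 ∧ D G Z ≤ 12)) ∧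
      Sup G R Z κ m := by
  by_cases hc : ∃ σ ∈ P, σ.p ∈ X ∧ σ.q ∈ X ∧ m + κ + 2 ≤ (ovr P σ).card
  · obtain ⟨σ, hσ, h1, h2, h3⟩ := hc
    obtain ⟨Z, z1, z2, z3, z4, z5⟩ := h.case1 hXR htight hσ h1 h2 h3
    exact ⟨Z, z1.trans subset_union_right, z2, Or.inl ⟨z3, z4⟩, z5⟩
  · push Not at hc
    set K := (κ + 8) * (m + κ + 2) + κ + 6 + m with hK
    obtain ⟨x, hx, y, hy, hxy⟩ : ∃ x ∈ X, ∃ y ∈ X, K < (fam P x y).card := by
      by_contra hcon
      push Not at hcon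
      have h1 : R ⊆ P.biUnion Rc.pr := by
        intro v hv
        obtain ⟨ρ, hρ, e⟩ := h.cov v (mem_union_right _ hv) hv
        exact mem_biUnion.2 ⟨ρ, hρ, mem_pr.2 e⟩
      have h2 := card_le_card h1
      rw [h.card_biUnion Subset.rfl] at h2
      have h3 : P ⊆ X.biUnion (fun x => X.biUnion (fun y => fam P x y)) := by
        intro ρ hρ
        rcases h.root ρ hρ with ⟨g1, g2⟩ | ⟨σ, hσ, g1, g2, g3, g4⟩
        · exact mem_biUnion.2 ⟨ρ.p, g1, mem_biUnion.2 ⟨ρ.q, g2, mem_filter.2 ⟨hρ, Or.inl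
            (mem_filter.2 ⟨hρ, rfl, rfl⟩)⟩⟩⟩
        · exact mem_biUnion.2 ⟨σ.p, g3, mem_biUnion.2 ⟨σ.q, g4, mem_filter.2 ⟨hρ, Or.inr
            ⟨σ, mem_filter.2 ⟨hσ, rfl, rfl⟩, g1, g2⟩⟩⟩⟩
      have h4 : P.card ≤ X.card * X.card * K := by
        calc P.card ≤ (X.biUnion (fun x => X.biUnion (fun y => fam P x y))).card :=
              card_le_card h3
          _ ≤ ∑ x ∈ X, (X.biUnion (fun y => fam P x y)).card := card_biUnion_le
          _ ≤ ∑ x ∈ X, ∑ y ∈ X, (fam P x y).card := sum_le_sum (fun x _ => card_biUnion_le)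
          _ ≤ ∑ _x ∈ X, ∑ _y ∈ X, K := sum_le_sum (fun x hx => sum_le_sum (fun y hy =>
              hcon x hx y hy))
          _ = _ := by simp; ring
      omega
    exact h.case2 hXR htight hx hy (Q := m + κ + 2) (by
      intro σ hσ
      obtain ⟨g1, g2, g3⟩ := mem_filter.1 hσ
      have := hc σ g1 (g2 ▸ hx) (g3 ▸ hy)
      omega) hxy

end Pool.Agent.Lib.MP_d31508_co.Sharp
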