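import Pool.Agent.Lib.MP_d31508_co.Sharp.Parity

set_option linter.unusedSectionVars false

/-!
# Covered closed sets and tight roots
-/

namespace Pool.Agent.Lib.MP_d31508_co.Sharp

open Finset Classical
open Pool.Agent.Lib.MP_d31508_co.Asy (dg Cl D)

variable {V : Type} [Fintype V] {G : SimpleGraph V}

/-- covered sets above `X` inside `X ∪ R` -/
structure Cov (G : SimpleGraph V) (X R : Finset V) (L : ℕ) (Y : Finset V) : Prop where
  sub : X ⊆ Y
  le : Y ⊆ X ∪ R
  cov : ∀ y ∈ Y, y ∉ X → ∃ E ⊆ Y, E ⊆ R ∧ y ∈ E ∧ E.card ≤ L ∧ Hang G X E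

lemma Cov.cl {X R Y : Finset V} {L : ℕ} (h : Cov G X R L Y) (hX : Cl G X) : Cl G Y := by
  intro y hy
  by_cases hyX : y ∈ X
  · exact (hX y hyX).trans (dg_mono h.sub y)
  · obtain ⟨E, e1, -, e3, -, e5⟩ := h.cov y hy hyX
    exact (e5 y e3).trans (dg_mono (union_subset h.sub e1) y)

lemma Cov.self (X R : Finset V) (L : ℕ) : Cov G X R L X :=
  ⟨Subset.rfl, subset_union_left, fun _ h1 h2 => absurd h1 h2⟩

lemma Cov.union {X R Y E : Finset V} {L : ℕ} (h : Cov G X R L Y) (hER : E ⊆ R)
    (hE : ∀ v ∈ E, ∃ E' ⊆ E, v ∈ E' ∧ E'.card ≤ L ∧ Hang G X E') : Cov G X R L (Y ∪ E) := by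
  refine ⟨h.sub.trans subset_union_left, union_subset h.le (hER.trans subset_union_right), ?_⟩
  intro y hy hyX
  by_cases hyY : y ∈ Y
  · obtain ⟨E', e1, e2, e3, e4, e5⟩ := h.cov y hyY hyX
    exact ⟨E', e1.trans subset_union_left, e2, e3, e4, e5⟩
  · have : y ∈ E := by
      rcases mem_union.1 hy with h | h
      · exact absurd h hyY
      · exact h
    obtain ⟨E', e1, e3, e4, e5⟩ := hE y this
    exact ⟨E', e1.trans subset_union_right, e1.trans hER, e3, e4, e5⟩

/-- parity above covered sets -/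
lemma Cov.par {X R Y F : Finset V} {L Λ : ℕ} (h : Cov G X R L Y)
    (hpar : ∀ E ⊆ R, Hang G X E → E.card ≤ Λ → Even E.card)
    (hFR : F ⊆ R) (hYF : Disjoint Y F) (hF : Hang G Y F) (hc : (2 * L + 1) * F.card ≤ Λ) :
    Even F.card := by
  obtain ⟨U, u1, u2, u3, u4, -, u6⟩ := localise (G := G) (X := X) (Y := Y) (R := R)
    (F₀ := ∅) (F := F) h.cov (Hang_empty Y) (by rw [empty_union]; exact hF)
  rw [empty_union] at u3 u6
  have hd : Disjoint U F := disjoint_of_subset_left u1 hYF
  have h1 : (U ∪ F).card = U.card + F.card := card_union_of_disjoint hd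
  have h2 : (2 * L + 1) * F.card = 2 * L * F.card + F.card := by ring
  obtain ⟨a, ha⟩ := hpar U u2 u4 (by omega)
  obtain ⟨b, hb⟩ := hpar (U ∪ F) (union_subset u2 hFR) u6 (by omega)
  exact ⟨b - a, by omega⟩

/-- density at most `3/2` between closed sets near a covered set -/
lemma Cov.chain2 {X R Y A A' : Finset V} {L Λ : ℕ} (h : Cov G X R L Y)
    (hpar : ∀ E ⊆ R, Hang G X E → E.card ≤ Λ → Even E.card)
    (hYA : Y ⊆ A) (hAA : A ⊆ A') (hA' : A' ⊆ X ∪ R) (hA : Cl G A) (hA'c : Cl G A')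
    (hc : (2 * L + 1) * (A' \ Y).card ≤ Λ) : D G A' ≤ D G A + 3 * (A' \ A).card := by
  have key : ∀ Z, Y ⊆ Z → Z ⊆ A' → Cl G Z → Even (Z \ Y).card := by
    intro Z h1 h2 h3
    apply h.par hpar (F := Z \ Y)
    · intro x hx
      obtain ⟨hx1, hx2⟩ := mem_sdiff.1 hx
      rcases mem_union.1 (hA' (h2 hx1)) with h4 | h4
      · exact absurd (h.sub h4) hx2
      · exact h4
    · exact disjoint_sdiff
    · exact Cl.hang h3 h1
    · refine le_trans (Nat.mul_le_mul_left _ (card_le_card ?_)) hc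
      exact sdiff_subset_sdiff h2 Subset.rfl
  have h1 := chain (G := G) (X := A) (Z := A') (s := 2) le_rfl hA hA'c hAA (by
    intro Z Z' z1 z2 z3 z4 z5 z6
    obtain ⟨a, ha⟩ := key Z (hYA.trans z1) (z2.trans z3) z4
    obtain ⟨b, hb⟩ := key Z' ((hYA.trans z1).trans z2) z3 z5
    have e : (Z' \ Y).card = (Z' \ Z).card + (Z \ Y).card := by
      rw [card_sdiff_of_subset ((hYA.trans z1).trans z2), card_sdiff_of_subset z2,
        card_sdiff_of_subset (hYA.trans z1)]
      have := card_le_card z2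
      have := card_le_card (hYA.trans z1)
      omega
    have hne : 0 < (Z' \ Z).card := by
      rw [card_pos, sdiff_nonempty]
      intro hs
      exact z6 (Subset.antisymm z2 hs)
    omega)
  omega

/-- global density above a covered set -/
lemma Cov.dens {X R Y : Finset V} {L Λ : ℕ} (h : Cov G X R L Y) (hX : Cl G X)
    (hcov : ∀ v ∈ R, ∃ E ⊆ R, v ∈ E ∧ E.card ≤ L ∧ Hang G X E)
    (hpar : ∀ E ⊆ R, Hang G X E → E.card ≤ Λ → Even E.card)
    (hΛ : (2 * L + 1) * (2 * L * L + L + 1) ≤ Λ) :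
    D G (X ∪ R) ≤ D G Y + 3 * (R \ Y).card := by
  have e1 : Y ∪ (R \ Y) = X ∪ R := by
    ext x
    simp only [mem_union, mem_sdiff]
    constructor
    · rintro (h1 | h1)
      · exact mem_union.1 (h.le h1)
      · exact Or.inr h1.1
    · rintro (h1 | h1)
      · exact Or.inl (h.sub h1)
      · by_cases h2 : x ∈ Y
        · exact Or.inl h2
        · exact Or.inr ⟨h1, h2⟩
  have h1 := density (G := G) (X := Y) (R := R \ Y) (s := 2) (L := L) le_rfl (h.cl hX)
    disjoint_sdiff (by
      intro v hv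
      obtain ⟨hvR, hvY⟩ := mem_sdiff.1 hv
      obtain ⟨E, a1, a2, a3, a4⟩ := hcov v hvR
      refine ⟨E \ Y, sdiff_subset_sdiff a1 Subset.rfl, mem_sdiff.2 ⟨a2, hvY⟩,
        (card_le_card sdiff_subset).trans a3, ?_⟩
      intro x hx
      have h5 := (a4.mono h.sub) x (mem_sdiff.1 hx).1
      rwa [union_sdiff_self_eq_union])
    (by
      intro E F hE hF hEF hFn hFs hEc hE1 hE2
      have b1 := h.par hpar (hE.trans sdiff_subset) (disjoint_of_subset_right hE disjoint_sdiff)
        hE1 (by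
          refine le_trans (Nat.mul_le_mul_left _ ?_) hΛ
          omega)
      have b2 := h.par hpar (F := E ∪ F) (union_subset (hE.trans sdiff_subset)
        (hF.trans sdiff_subset)) (disjoint_of_subset_right (union_subset hE hF) disjoint_sdiff)
        hE2 (by
          refine le_trans (Nat.mul_le_mul_left _ ?_) hΛ
          have := card_union_le E F
          omega)
      rw [card_union_of_disjoint hEF] at b2
      have := card_pos.2 hFn
      obtain ⟨a, ha⟩ := b1
      obtain ⟨b, hb⟩ := b2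
      omega)
  rw [e1] at h1
  omega

/-- **Tight roots**: a covered set above which all small closed extensions have density exactly
`3/2`. -/
theorem exists_tight {X R : Finset V} {L Λ s P : ℕ} (hX : Cl G X) (hXR : Disjoint X R)
    (hcov : ∀ v ∈ R, ∃ E ⊆ R, v ∈ E ∧ E.card ≤ L ∧ Hang G X E)
    (hpar : ∀ E ⊆ R, Hang G X E → E.card ≤ Λ → Even E.card)
    (hΛ : (2 * L + 1) * (2 * L * L + L + 1) ≤ Λ) (hs : (2 * L + 1) * (L * s) ≤ Λ)
    (hP : L * s < P) (hlow : 3 * (X ∪ R).card ≤ D G (X ∪ R) + 3) :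
    ∃ Y, Cov G X R L Y ∧ Y.card ≤ P * (X.card * X.card + 3) + X.card ∧
      ∀ F ⊆ R, Disjoint Y F → Hang G Y F → F.card ≤ s → D G (Y ∪ F) = D G Y + 3 * F.card := by
  obtain ⟨Y, hY, hmin⟩ := exists_min_image ((X ∪ R).powerset.filter (fun Y => Cov G X R L Y))
    (fun Y => (P : ℤ) * D G Y + Y.card - 3 * P * Y.card)
    ⟨X, mem_filter.2 ⟨mem_powerset.2 subset_union_left, Cov.self X R L⟩⟩
  obtain ⟨-, hYc⟩ := mem_filter.1 hY
  refine ⟨Y, hYc, ?_, ?_⟩
  · -- size
    have h1 := hmin X (mem_filter.2 ⟨mem_powerset.2 subset_union_left, Cov.self X R L⟩)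
    have h2 := D_le_sq (G := G) X
    have h3 := hYc.dens hX hcov hpar hΛ
    have h4 : (X ∪ R).card = Y.card + (R \ Y).card := by
      have e1 : X ∪ R = Y ∪ (R \ Y) := by
        ext x
        simp only [mem_union, mem_sdiff]
        constructor
        · rintro (h1 | h1)
          · exact Or.inl (hYc.sub h1)
          · by_cases h2 : x ∈ Y
            · exact Or.inl h2
            · exact Or.inr ⟨h1, h2⟩
        · rintro (h1 | h1)
          · exact mem_union.1 (hYc.le h1)
          · exact Or.inr h1.1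
      rw [e1, card_union_of_disjoint disjoint_sdiff]
    have h5 : 3 * Y.card ≤ D G Y + 3 := by omega
    have h6 : (P : ℤ) * (3 * Y.card) ≤ P * (D G Y + 3) := by
      apply mul_le_mul_of_nonneg_left _ (by positivity)
      exact_mod_cast h5
    have h7 : (P : ℤ) * D G X ≤ P * (X.card * X.card) := by
      apply mul_le_mul_of_nonneg_left _ (by positivity)
      exact_mod_cast h2
    have h8 : (0 : ℤ) ≤ 3 * P * X.card := by positivity
    have h9 : (Y.card : ℤ) ≤ P * (X.card * X.card + 3) + X.card := by nlinarith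
    exact_mod_cast h9
  · intro F hFR hYF hF hFs
    have hYcl := hYc.cl hX
    -- cover of `F`
    choose! c c1 c2 c3 c4 using hcov
    set C := F.biUnion c with hC
    have hCR : C ⊆ R := biUnion_subset.2 (fun v hv => c1 v (hFR hv))
    have hFC : F ⊆ C := fun v hv => mem_biUnion.2 ⟨v, hv, c2 v (hFR hv)⟩
    have hCc : C.card ≤ L * F.card := by
      calc C.card ≤ ∑ v ∈ F, (c v).card := card_biUnion_le
        _ ≤ ∑ _v ∈ F, L := sum_le_sum (fun v hv => c3 v (hFR hv))
        _ = L * F.card := by simp [mul_comm]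
    have hY' : Cov G X R L (Y ∪ C) := hYc.union hCR (by
      intro v hv
      obtain ⟨w, hw, hvw⟩ := mem_biUnion.1 hv
      exact ⟨c w, subset_biUnion_of_mem c hw, hvw, c3 w (hFR hw), c4 w (hFR hw)⟩)
    have hY'cl := hY'.cl hX
    have hYFcl : Cl G (Y ∪ F) := hF.cl hYcl
    have hLs : L * F.card ≤ L * s := Nat.mul_le_mul_left _ hFs
    have hsd : ((Y ∪ C) \ Y).card ≤ L * s := by
      refine le_trans (card_le_card ?_) (hCc.trans hLs)
      intro x hx
      obtain ⟨h1, h2⟩ := mem_sdiff.1 hx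
      rcases mem_union.1 h1 with h | h
      · exact absurd h h2
      · exact h
    have hsd2 : (2 * L + 1) * ((Y ∪ C) \ Y).card ≤ Λ :=
      (Nat.mul_le_mul_left _ hsd).trans hs
    have hsub : Y ∪ F ⊆ Y ∪ C := union_subset_union_right hFC
    have e1 : D G (Y ∪ F) ≤ D G Y + 3 * ((Y ∪ F) \ Y).card := by
      apply hYc.chain2 hpar Subset.rfl subset_union_left
        (union_subset hYc.le (hFR.trans subset_union_right)) hYcl hYFcl
      refine le_trans (Nat.mul_le_mul_left _ (card_le_card ?_)) hsd2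
      exact sdiff_subset_sdiff hsub Subset.rfl
    have e2 : D G (Y ∪ C) ≤ D G (Y ∪ F) + 3 * ((Y ∪ C) \ (Y ∪ F)).card :=
      hYc.chain2 hpar subset_union_left hsub hY'.le hYFcl hY'cl hsd2
    have e3 : ((Y ∪ F) \ Y).card = F.card := by
      rw [union_sdiff_cancel_left hYF]
    have e4 : (Y ∪ C).card = (Y ∪ F).card + ((Y ∪ C) \ (Y ∪ F)).card := by
      rw [card_sdiff_of_subset hsub]
      have := card_le_card hsub
      omega
    have e5 : (Y ∪ F).card = Y.card + F.card := card_union_of_disjoint hYF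
    have e6 := hmin (Y ∪ C) (by
      rw [mem_filter, mem_powerset]
      exact ⟨hY'.le, hY'⟩)
    -- minimality
    have e7 : (Y ∪ C).card ≤ Y.card + L * s := by
      have : (Y ∪ C).card = Y.card + ((Y ∪ C) \ Y).card := by
        rw [card_sdiff_of_subset subset_union_left]
        have := card_le_card (subset_union_left (s₁ := Y) (s₂ := C))
        omega
      omega
    have e8 : (D G Y : ℤ) - 3 * Y.card ≤ D G (Y ∪ C) - 3 * (Y ∪ C).card := by
      by_contra hcon
      push Not at hcon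
      have h1 : (D G (Y ∪ C) : ℤ) - 3 * (Y ∪ C).card + 1 ≤ D G Y - 3 * Y.card := by omega
      have h2 : (P : ℤ) * (D G (Y ∪ C) - 3 * (Y ∪ C).card + 1) ≤ P * (D G Y - 3 * Y.card) :=
        mul_le_mul_of_nonneg_left h1 (by positivity)
      have h3 : ((Y ∪ C).card : ℤ) ≤ Y.card + L * s := by exact_mod_cast e7
      have h4 : (L * s : ℤ) < P := by exact_mod_cast hP
      nlinarith
    omega

end Pool.Agent.Lib.MP_d31508_co.Sharp
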