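import Pool.Agent.Lib.MP_d31508_co.Sharp.PropM

set_option linter.unusedSectionVars false

/-!
# The upper bound for graphs without closed `m`-sets
-/

namespace Pool.Agent.Lib.MP_d31508_co.Sharp

open Finset Classical
open Pool.Agent.Lib.MP_d31508_co.Asy (dg Cl D)

variable {V : Type} [Fintype V] {G : SimpleGraph V}

theorem upper {q r m : ℕ} (hq : 1 ≤ q)
    (hr : Fintype.card V * (2 * q) ^ r < (2 * q + 1) ^ r)
    (hr2 : Fintype.card V * 2 ^ r < (2 + 1) ^ r)
    (hm : Phi q r ≤ m) (hG : ∀ S : Finset V, S.card = m → ¬ Cl G S) :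
    q * D G univ ≤ (3 * q + 2) * Fintype.card V ∨
    q * (q * D G univ) ≤ (q + 1) * m * ((q + 1) * m) + 2 * q * (q + 1) * Fintype.card V := by
  obtain ⟨B, hBu, hval, hker⟩ := kernel_exists (G := G) (q + 1) q ∅ univ
  simp only [empty_union, card_univ] at hval
  have hBn : B.card ≤ Fintype.card V := card_le_univ B
  by_cases hB : (q + 1) * m ≤ q * B.card
  · left
    by_contra hcon
    push Not at hcon
    obtain ⟨Z, -, h1, h2⟩ := propM hq hr hr2 hker hB hm (by
      have : q * B.card ≤ q * Fintype.card V := Nat.mul_le_mul_left _ hBn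
      nlinarith)
    exact hG Z h2 h1
  · right
    push Not at hB
    have h1 := D_le_sq (G := G) B
    have h2 : q * B.card * (q * B.card) ≤ (q + 1) * m * ((q + 1) * m) :=
      Nat.mul_le_mul hB.le hB.le
    have h3 : q * (q * D G B) ≤ q * (q * (B.card * B.card)) :=
      Nat.mul_le_mul_left _ (Nat.mul_le_mul_left _ h1)
    have h4 : q * (q * D G univ + 2 * (q + 1) * B.card) ≤
        q * (q * D G B + 2 * (q + 1) * Fintype.card V) := Nat.mul_le_mul_left _ hval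
    calc q * (q * D G univ) ≤ q * (q * D G univ + 2 * (q + 1) * B.card) :=
          Nat.mul_le_mul_left _ (Nat.le_add_right _ _)
      _ ≤ q * (q * D G B + 2 * (q + 1) * Fintype.card V) := h4
      _ = q * (q * D G B) + 2 * q * (q + 1) * Fintype.card V := by ring
      _ ≤ q * (q * (B.card * B.card)) + 2 * q * (q + 1) * Fintype.card V :=
          Nat.add_le_add_right h3 _
      _ = q * B.card * (q * B.card) + 2 * q * (q + 1) * Fintype.card V := by ring
      _ ≤ _ := Nat.add_le_add_right h2 _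

/-- the choice of `r` -/
lemma r_choice {q n l : ℕ} (hq : 1 ≤ q) (hn : n < 2 ^ l) :
    n * (2 * q) ^ (2 * q * l) < (2 * q + 1) ^ (2 * q * l) := by
  have h1 : 2 * (2 * q) ^ (2 * q) ≤ (2 * q + 1) ^ (2 * q) := by
    -- Bernoulli
    have hb := one_add_mul_le_pow (a := (1 / (2 * q : ℝ))) (by
      have : (0 : ℝ) ≤ 1 / (2 * q : ℝ) := by positivity
      linarith) (2 * q)
    have hq0 : (0 : ℝ) < 2 * q := by positivity
    have e1 : (1 : ℝ) + ((2 * q : ℕ) : ℝ) * (1 / (2 * q : ℝ)) = 2 := by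
      push_cast
      field_simp
      norm_num
    rw [e1] at hb
    have e2 : ((2 * q : ℝ)) ^ (2 * q) * (1 + 1 / (2 * q : ℝ)) ^ (2 * q) = (2 * q + 1 : ℝ) ^ (2 * q) := by
      rw [← mul_pow]
      congr 1
      field_simp
    have h : (2 : ℝ) * (2 * q) ^ (2 * q) ≤ (2 * q + 1) ^ (2 * q) := by
      rw [← e2]
      have : (0 : ℝ) ≤ (2 * q : ℝ) ^ (2 * q) := by positivity
      nlinarith
    exact_mod_cast h
  have h2 : 2 ^ l * (2 * q) ^ (2 * q * l) ≤ (2 * q + 1) ^ (2 * q * l) := by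
    rw [pow_mul (2 * q) (2 * q) l, pow_mul (2 * q + 1) (2 * q) l, ← mul_pow]
    exact Nat.pow_le_pow_left h1 l
  have h3 : 0 < (2 * q) ^ (2 * q * l) := by positivity
  exact lt_of_lt_of_le (Nat.mul_lt_mul_of_pos_right hn h3) h2

lemma r_choice2 {q n l : ℕ} (hq : 1 ≤ q) (hn : n < 2 ^ l) :
    n * 2 ^ (2 * q * l) < (2 + 1) ^ (2 * q * l) := by
  have h1 : 2 ^ l * 2 ^ (2 * q * l) ≤ (2 + 1) ^ (2 * q * l) := by
    have e : (2 : ℕ) ^ l * 2 ^ (2 * q * l) ≤ 2 ^ (3 * (q * l)) := by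
      rw [← pow_add]
      apply Nat.pow_le_pow_right (by norm_num)
      nlinarith [Nat.mul_le_mul_right l hq]
    refine e.trans ?_
    have e2 : (2 : ℕ) ^ (3 * (q * l)) = 8 ^ (q * l) := by rw [pow_mul]; norm_num
    have e3 : (2 + 1 : ℕ) ^ (2 * q * l) = 9 ^ (q * l) := by
      rw [mul_assoc, pow_mul]; norm_num
    rw [e2, e3]
    exact Nat.pow_le_pow_left (by norm_num) _
  have h3 : 0 < 2 ^ (2 * q * l) := by positivity
  exact lt_of_lt_of_le (Nat.mul_lt_mul_of_pos_right hn h3) h1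

/-- the size of the threshold -/
lemma Phi_le {q l : ℕ} (hq : 1 ≤ q) (hl : 1 ≤ l) :
    Phi q (2 * q * l) ≤ 578 * 24 ^ 4 * 363 ^ 16 * q ^ 37 * l ^ 32 := by
  have hql : 1 ≤ q * l := Nat.mul_le_mul hq hl
  set r := 2 * q * l with hr
  have a1 : 4 * r + 3 ≤ 11 * (q * l) := by rw [hr]; nlinarith
  have a2 : L2 r ≤ 363 * (q * l) ^ 2 := by
    unfold L2
    have h1 : (4 * r + 3) * (4 * r + 3) ≤ 11 * (q * l) * (11 * (q * l)) := Nat.mul_le_mul a1 a1
    have h2 : 4 * r + 3 ≤ 121 * (q * l) ^ 2 := by nlinarith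
    nlinarith
  have a3 : 4 * r + 3 ≤ L2 r := by unfold L2; omega
  have a3' : 1 ≤ L2 r := by unfold L2; omega
  set L := L2 r with hL
  have a4 : NN r ≤ 2 * L ^ 2 := by
    unfold NN
    have h1 : L * 1 ≤ L * L := Nat.mul_le_mul_left _ a3'
    have : L2 r * L2 r = L * L := rfl
    nlinarith
  have a5 : MM r ≤ 8 * L ^ 3 := by
    unfold MM
    calc (L2 r + 1) * 2 * NN r ≤ (2 * L) * 2 * (2 * L ^ 2) := by
          apply Nat.mul_le_mul _ a4
          apply Nat.mul_le_mul_right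
          omega
      _ = _ := by ring
  have a6 : SS r ≤ 24 * L ^ 4 := by
    unfold SS
    calc MM r * (L2 r + 2) ≤ (8 * L ^ 3) * (3 * L) := Nat.mul_le_mul a5 (by omega)
      _ = _ := by ring
  have hS := SS_pos r
  have a7 : TT q r ≤ 16 * q ^ 2 * SS r := by
    unfold TT
    apply Nat.mul_le_mul_right
    nlinarith
  have a8 : TT q r * SS r + SS r ≤ 17 * q ^ 2 * SS r ^ 2 := by
    have h1 : TT q r * SS r ≤ 16 * q ^ 2 * SS r * SS r := Nat.mul_le_mul_right _ a7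
    have h2 : SS r ≤ q ^ 2 * SS r ^ 2 := by
      calc SS r = 1 * (SS r * 1) := by ring
        _ ≤ q ^ 2 * (SS r * SS r) := Nat.mul_le_mul (Nat.one_le_pow _ _ hq)
            (Nat.mul_le_mul_left _ hS)
        _ = _ := by ring
    nlinarith
  have a9 : Phi q r ≤ 578 * q ^ 5 * SS r ^ 4 := by
    unfold Phi
    have h1 : (TT q r * SS r + SS r) * (TT q r * SS r + SS r) ≤
        (17 * q ^ 2 * SS r ^ 2) * (17 * q ^ 2 * SS r ^ 2) := Nat.mul_le_mul a8 a8
    have h2 : q * ((TT q r * SS r + SS r) * (TT q r * SS r + SS r)) ≤ 289 * (q ^ 5 * SS r ^ 4) := by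
      calc _ ≤ q * ((17 * q ^ 2 * SS r ^ 2) * (17 * q ^ 2 * SS r ^ 2)) := Nat.mul_le_mul_left _ h1
        _ = _ := by ring
    have h3 : 1 ≤ q ^ 5 * SS r ^ 4 := Nat.mul_le_mul (Nat.one_le_pow _ _ hq) (Nat.one_le_pow _ _ hS)
    nlinarith
  calc Phi q r ≤ 578 * q ^ 5 * SS r ^ 4 := a9
    _ ≤ 578 * q ^ 5 * (24 * (363 * (q * l) ^ 2) ^ 4) ^ 4 := by
        apply Nat.mul_le_mul_left
        apply Nat.pow_le_pow_left
        exact a6.trans (Nat.mul_le_mul_left _ (Nat.pow_le_pow_left a2 _))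
    _ = _ := by ring

end Pool.Agent.Lib.MP_d31508_co.Sharp
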