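import Pool.Agent.Lib.MP_d31508_co.Sharp.PropB
import Pool.Agent.Lib.MP_d31508_co.Sharp.Upper

set_option linter.unusedSectionVars false

/-!
# The exact upper bound for all graphs without closed `m`-sets
-/

namespace Pool.Agent.Lib.MP_d31508_co.Sharp

open Finset Classical
open Pool.Agent.Lib.MP_d31508_co.Asy (dg Cl D)

variable {V : Type} [Fintype V] {G : SimpleGraph V}

/-- the lower bound for the kernel -/
def Big (q r m : ℕ) : ℕ :=
  2 * (Y3 q r * Y3 q r * ((L2 r + 9) * (m + L2 r + 3) + (L2 r + 7) + m)) +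
      2 * (A3 q r * A3 q r) + 6 + Y3 q r + A3 q r

theorem upperB {q r m : ℕ} (hq : 3 ≤ q)
    (hr : Fintype.card V * (2 * q) ^ r < (2 * q + 1) ^ r)
    (hr2 : Fintype.card V * 2 ^ r < (2 + 1) ^ r)
    (hr3 : Fintype.card V * 3 ^ r < (3 + 1) ^ r)
    (hG : ∀ S : Finset V, S.card = m → ¬ Cl G S) (hm1 : Phi q r ≤ m) (hm2 : PhiB q r ≤ m)
    (hn : (q + 1) * m * ((q + 1) * m) + 3 * q * q ≤ q * ((q - 2) * Fintype.card V))
    (hBig : q * (Big q r m + 4) ≤ (q - 2) * Fintype.card V) :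
    (Even m → D G univ + 3 ≤ 3 * Fintype.card V) ∧
    (Odd m → D G univ + 4 ≤ 3 * Fintype.card V) := by
  obtain ⟨p, rfl⟩ : ∃ p, q = p + 3 := ⟨q - 3, by omega⟩
  have e2 : p + 3 - 2 = p + 1 := by omega
  rw [e2] at hn hBig
  -- it suffices to treat the case of many edges
  by_cases hD : 3 * Fintype.card V ≤ D G univ + 3
  swap
  · exact ⟨fun _ => by omega, fun _ => by omega⟩
  obtain ⟨B, hBu, hval, hker⟩ := kernel_exists (G := G) (p + 3 + 1) (p + 3) ∅ univ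
  simp only [empty_union, card_univ] at hval
  have hBn : B.card ≤ Fintype.card V := card_le_univ B
  set n := Fintype.card V with hndef
  obtain ⟨c, hc⟩ : ∃ c, n = B.card + c := ⟨n - B.card, by omega⟩
  have hD' : (p + 3) * (3 * n) ≤ (p + 3) * (D G univ + 3) := Nat.mul_le_mul_left _ hD
  by_cases hB : (p + 3 + 1) * m ≤ (p + 3) * B.card
  swap
  · -- small kernel
    exfalso
    push Not at hB
    have h1 := D_le_sq (G := G) B
    have h2 : (p + 3) * B.card * ((p + 3) * B.card) < (p + 3 + 1) * m * ((p + 3 + 1) * m) :=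
      Nat.mul_lt_mul'' hB hB
    have h3 : (p + 3) * D G B ≤ (p + 3) * (B.card * B.card) := Nat.mul_le_mul_left _ h1
    have h4 : (p + 1) * n ≤ (p + 3) * (B.card * B.card) + 3 * (p + 3) := by
      linarith [Nat.zero_le (p * B.card), Nat.zero_le B.card]
    have h5 : (p + 3) * ((p + 1) * n) ≤
        (p + 3) * ((p + 3) * (B.card * B.card) + 3 * (p + 3)) := Nat.mul_le_mul_left _ h4
    have h6 : (p + 3) * ((p + 3) * (B.card * B.card) + 3 * (p + 3)) =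
        (p + 3) * B.card * ((p + 3) * B.card) + 3 * (p + 3) * (p + 3) := by ring
    rw [h6] at h5
    omega
  -- the density of the kernel
  have hGB : ∀ Z ⊆ B, Cl G Z → Z.card ≠ m := fun Z _ h1 h2 => hG Z h2 h1
  have hM : (p + 3) * D G B < (3 * (p + 3) + 2) * B.card := by
    by_contra hcon
    push Not at hcon
    obtain ⟨Z, z1, z2, z3⟩ := propM (by omega) hr hr2 hker hB hm1 hcon
    exact hGB Z z1 z2 z3
  have hBbig : (p + 1) * n ≤ (p + 3) * B.card + 3 * (p + 3) := by linarith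
  have hBig' : Big (p + 3) r m < B.card := by
    have h1 : (p + 3) * (Big (p + 3) r m + 4) ≤ (p + 3) * (B.card + 3) := by linarith
    have := Nat.le_of_mul_le_mul_left h1 (by omega)
    omega
  have hDB : 3 * B.card ≤ D G B + 3 := by
    have h1 : (p + 3) * (3 * B.card) ≤ (p + 3) * (D G B + 3) := by
      rw [hc] at hD' hval
      linarith [Nat.zero_le (p * c), Nat.zero_le c]
    exact Nat.le_of_mul_le_mul_left h1 (by omega)
  obtain ⟨b1, b2⟩ := propB (by omega) hr hr3 hker hB hGB hm2 hDB hBig'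
  constructor
  · intro he
    have h1 := b1 he
    have h2 : (p + 3) * (D G B + 3) ≤ (p + 3) * (3 * B.card) := Nat.mul_le_mul_left _ h1
    have h3 : (p + 3) * (D G univ + 3) ≤ (p + 3) * (3 * n) := by
      rw [hc] at hval ⊢
      linarith [Nat.zero_le (p * c), Nat.zero_le c]
    exact Nat.le_of_mul_le_mul_left h3 (by omega)
  · intro ho
    have h1 := b2 ho
    have h2 : (p + 3) * (D G B + 4) ≤ (p + 3) * (3 * B.card) := Nat.mul_le_mul_left _ h1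
    have h3 : (p + 3) * (D G univ + 4) ≤ (p + 3) * (3 * n) := by
      rw [hc] at hval ⊢
      linarith [Nat.zero_le (p * c), Nat.zero_le c]
    exact Nat.le_of_mul_le_mul_left h3 (by omega)

lemma r_choice3 {q n l : ℕ} (hq : 3 ≤ q) (hn : n < 2 ^ l) :
    n * 3 ^ (2 * q * l) < (3 + 1) ^ (2 * q * l) := by
  have h1 : 2 ^ l * 3 ^ (2 * q * l) ≤ (3 + 1) ^ (2 * q * l) := by
    have e : (2 : ℕ) ^ l * 3 ^ (2 * q * l) ≤ 2 ^ (2 * q * l) * (2 ^ (2 * q * l)) := by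
      have k1 : (2 * 3 ^ 6 : ℕ) ≤ 4 ^ 6 := by norm_num
      have k2 : (2 : ℕ) ^ l * 3 ^ (6 * l) ≤ 4 ^ (6 * l) := by
        rw [pow_mul 3 6 l, pow_mul 4 6 l, ← mul_pow]
        exact Nat.pow_le_pow_left k1 l
      obtain ⟨d, hd⟩ : ∃ d, 2 * q * l = 6 * l + d := by
        obtain ⟨q', rfl⟩ : ∃ q', q = 3 + q' := ⟨q - 3, by omega⟩
        exact ⟨2 * q' * l, by ring⟩
      rw [hd, pow_add 3, ← mul_pow]
      norm_num
      rw [pow_add 4]
      calc 2 ^ l * (3 ^ (6 * l) * 3 ^ d) = (2 ^ l * 3 ^ (6 * l)) * 3 ^ d := by ring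
        _ ≤ 4 ^ (6 * l) * 4 ^ d := Nat.mul_le_mul k2 (Nat.pow_le_pow_left (by norm_num) d)
    refine e.trans (le_of_eq ?_)
    rw [← mul_pow]
    norm_num
  have h3 : 0 < 3 ^ (2 * q * l) := by positivity
  exact lt_of_lt_of_le (Nat.mul_lt_mul_of_pos_right hn h3) h1

/-- the constant -/
def cA : ℕ := 17 * 5286 ^ 2

lemma A3_le {q r : ℕ} (hq : 1 ≤ q) : A3 q r ≤ cA * q ^ 2 * (4 * r + 3) ^ 16 ∧
    4 * r + 3 ≤ A3 q r ∧ L2 r + 3 ≤ A3 q r ∧ L2 r + 9 ≤ 12 * (4 * r + 3) ^ 2 := by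
  set L := 4 * r + 3 with hL
  have hL1 : 1 ≤ L := by omega
  have hL3 : 3 ≤ L := by omega
  have p1 : ∀ a b : ℕ, a ≤ b → L ^ a ≤ L ^ b := fun a b h => Nat.pow_le_pow_right hL1 h
  have q1 : 1 ≤ L ^ 2 := Nat.one_le_pow _ _ hL1
  have hL2 : L2 r ≤ 3 * L ^ 2 := by
    have : L2 r = 2 * L * L + L := rfl
    nlinarith [p1 1 2 (by norm_num)]
  have hLam : Lam r = 30 * L ^ 3 := rfl
  have hN : N3 r ≤ 73 * L ^ 4 := by
    have e : N3 r = L2 r * (L2 r + 1) + 2 * Lam r + L := rfl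
    have h1 : L2 r * (L2 r + 1) ≤ (3 * L ^ 2) * (4 * L ^ 2) := Nat.mul_le_mul hL2 (by omega)
    have h2 : (3 * L ^ 2) * (4 * L ^ 2) = 12 * L ^ 4 := by ring
    have h3 := p1 3 4 (by norm_num)
    have h4 := p1 1 4 (by norm_num)
    rw [pow_one] at h4
    omega
  have hM : M3 r ≤ 876 * L ^ 6 := by
    unfold M3
    calc (L2 r + 1) * 3 * N3 r ≤ (4 * L ^ 2) * 3 * (73 * L ^ 4) :=
          Nat.mul_le_mul (Nat.mul_le_mul_right _ (by omega)) hN
      _ = 876 * L ^ 6 := by ring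
  have hS : S3 r ≤ 5286 * L ^ 8 := by
    unfold S3
    have h1 : M3 r * (L2 r + 3) ≤ 876 * L ^ 6 * (6 * L ^ 2) := Nat.mul_le_mul hM (by omega)
    have h2 : 876 * L ^ 6 * (6 * L ^ 2) = 5256 * L ^ 8 := by ring
    have h3 := p1 3 8 (by norm_num)
    rw [hLam]
    omega
  have hS1 := S3_pos r
  have hT : T3 q r ≤ 16 * q ^ 2 * S3 r := by
    unfold T3
    apply Nat.mul_le_mul_right
    nlinarith
  have hA : A3 q r ≤ 17 * q ^ 2 * S3 r ^ 2 := by
    have e : A3 q r = T3 q r * S3 r + S3 r := rfl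
    have h1 : T3 q r * S3 r ≤ 16 * q ^ 2 * S3 r * S3 r := Nat.mul_le_mul_right _ hT
    have h2 : S3 r ≤ q ^ 2 * S3 r ^ 2 := by
      calc S3 r = 1 * (S3 r * 1) := by ring
        _ ≤ q ^ 2 * (S3 r * S3 r) := Nat.mul_le_mul (Nat.one_le_pow _ _ hq)
            (Nat.mul_le_mul_left _ hS1)
        _ = _ := by ring
    rw [e]
    linarith
  have hSA : S3 r ≤ A3 q r := Nat.le_add_left _ _
  have hNS := N3_le_S3 r
  have hLN : L2 r + 3 ≤ N3 r := by
    have e : N3 r = L2 r * (L2 r + 1) + 2 * Lam r + L := rfl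
    have e2 : L2 r = 2 * L * L + L := rfl
    have h1 : 1 * (L2 r + 1) ≤ L2 r * (L2 r + 1) := Nat.mul_le_mul_right _ (by omega)
    omega
  have hLL : L ≤ L2 r := by
    have e2 : L2 r = 2 * L * L + L := rfl
    omega
  have hL9 : 9 ≤ L ^ 2 := by
    calc 9 = 3 ^ 2 := by norm_num
      _ ≤ L ^ 2 := Nat.pow_le_pow_left hL3 2
  refine ⟨?_, by omega, by omega, by omega⟩
  calc A3 q r ≤ 17 * q ^ 2 * S3 r ^ 2 := hA
    _ ≤ 17 * q ^ 2 * (5286 * L ^ 8) ^ 2 := Nat.mul_le_mul_left _ (Nat.pow_le_pow_left hS 2)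
    _ = cA * q ^ 2 * L ^ 16 := by unfold cA; ring

/-- the final constant -/
def cB : ℕ := 150000 * cA ^ 4 * 11 ^ 70

lemma Big_le {q l m : ℕ} (hq : 1 ≤ q) (hl : 1 ≤ l) (hm : PhiB q (2 * q * l) ≤ m) :
    Big q (2 * q * l) m ≤ cB * q ^ 78 * l ^ 70 * m := by
  set r := 2 * q * l with hr
  obtain ⟨a1, a2, a3, a4⟩ := A3_le (q := q) (r := r) hq
  set L := 4 * r + 3 with hL
  set A := A3 q r with hA
  have hAm : 4 * (A * A) + 13 ≤ m := hm
  have hA1 : 1 ≤ A := by omega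
  have hAA : A * 1 ≤ A * A := Nat.mul_le_mul_left _ hA1
  have hL1 : 1 ≤ L ^ 2 := Nat.one_le_pow _ _ (by omega)
  have hY : Y3 q r ≤ 45 * L ^ 2 * A ^ 2 := by
    have e : Y3 q r = (10 * L ^ 2 + 1) * (A * A + 3) + A := rfl
    have h1 : (10 * L ^ 2 + 1) * (A * A + 3) ≤ (11 * L ^ 2) * (4 * (A * A)) :=
      Nat.mul_le_mul (by omega) (by omega)
    have h2 : 1 * (A * A) ≤ L ^ 2 * (A * A) := Nat.mul_le_mul_right _ hL1
    rw [e]
    nlinarith
  have hE : (L2 r + 9) * (m + L2 r + 3) + (L2 r + 7) + m ≤ 37 * L ^ 2 * m := by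
    have h1 : (L2 r + 9) * (m + L2 r + 3) ≤ (12 * L ^ 2) * (2 * m) :=
      Nat.mul_le_mul a4 (by omega)
    have h2 : L ^ 2 * 1 ≤ L ^ 2 * m := Nat.mul_le_mul_left _ (by omega)
    have h3 : 1 * m ≤ L ^ 2 * m := Nat.mul_le_mul_right _ hL1
    nlinarith
  have hY2 : Y3 q r * Y3 q r ≤ 2025 * L ^ 4 * A ^ 4 := by
    calc Y3 q r * Y3 q r ≤ (45 * L ^ 2 * A ^ 2) * (45 * L ^ 2 * A ^ 2) := Nat.mul_le_mul hY hY
      _ = _ := by ring
  have hmain : Big q r m ≤ 150000 * (L ^ 6 * A ^ 4 * m) := by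
    unfold Big
    have h1 : Y3 q r * Y3 q r * ((L2 r + 9) * (m + L2 r + 3) + (L2 r + 7) + m) ≤
        74925 * (L ^ 6 * A ^ 4 * m) := by
      calc _ ≤ (2025 * L ^ 4 * A ^ 4) * (37 * L ^ 2 * m) := Nat.mul_le_mul hY2 hE
        _ = _ := by ring
    have hA4 : A ^ 2 ≤ A ^ 4 := Nat.pow_le_pow_right hA1 (by norm_num)
    have hL26 : L ^ 2 ≤ L ^ 6 := Nat.pow_le_pow_right (by omega) (by norm_num)
    have hL6 : 1 ≤ L ^ 6 := Nat.one_le_pow _ _ (by omega)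
    have h2 : L ^ 2 * A ^ 2 * 1 ≤ L ^ 6 * A ^ 4 * m :=
      Nat.mul_le_mul (Nat.mul_le_mul hL26 hA4) (by omega)
    have h3 : A ^ 2 ≤ L ^ 2 * A ^ 2 := Nat.le_mul_of_pos_left _ (by omega)
    have h4 : A * A = A ^ 2 := by ring
    have h5 : 1 ≤ A ^ 2 := Nat.one_le_pow _ _ hA1
    rw [← hA]
    have h6 : 45 * L ^ 2 * A ^ 2 = 45 * (L ^ 2 * A ^ 2) := by ring
    omega
  have hA4 : A ^ 4 ≤ cA ^ 4 * q ^ 8 * L ^ 64 := by
    calc A ^ 4 ≤ (cA * q ^ 2 * L ^ 16) ^ 4 := Nat.pow_le_pow_left a1 4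
      _ = _ := by ring
  have hLq : L ≤ 11 * (q * l) := by
    have : 1 ≤ q * l := Nat.mul_le_mul hq hl
    rw [hL, hr]; nlinarith
  have hL70 : L ^ 70 ≤ 11 ^ 70 * q ^ 70 * l ^ 70 := by
    calc L ^ 70 ≤ (11 * (q * l)) ^ 70 := Nat.pow_le_pow_left hLq 70
      _ = _ := by rw [mul_pow, mul_pow, ← mul_assoc]
  calc Big q r m ≤ 150000 * (L ^ 6 * A ^ 4 * m) := hmain
    _ ≤ 150000 * (L ^ 6 * (cA ^ 4 * q ^ 8 * L ^ 64) * m) := by
        apply Nat.mul_le_mul_left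
        apply Nat.mul_le_mul_right
        exact Nat.mul_le_mul_left _ hA4
    _ = 150000 * cA ^ 4 * q ^ 8 * m * L ^ 70 := by ring
    _ ≤ 150000 * cA ^ 4 * q ^ 8 * m * (11 ^ 70 * q ^ 70 * l ^ 70) := Nat.mul_le_mul_left _ hL70
    _ = cB * q ^ 78 * l ^ 70 * m := by
        unfold cB
        generalize (11 : ℕ) ^ 70 = c
        ring

lemma PhiB_le {q l : ℕ} (hq : 1 ≤ q) (hl : 1 ≤ l) :
    PhiB q (2 * q * l) ≤ cB * q ^ 78 * l ^ 70 := by
  set r := 2 * q * l with hr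
  obtain ⟨a1, a2, a3, a4⟩ := A3_le (q := q) (r := r) hq
  set L := 4 * r + 3 with hL
  set A := A3 q r with hA
  have hA1 : 1 ≤ A := by omega
  have hAA : 1 ≤ A * A := Nat.mul_le_mul hA1 hA1
  have h0 : PhiB q r ≤ 17 * (A * A) := by
    have e : PhiB q r = 4 * (A * A) + 13 := rfl
    omega
  have hLq : L ≤ 11 * (q * l) := by
    have : 1 ≤ q * l := Nat.mul_le_mul hq hl
    rw [hL, hr]; nlinarith
  have hc : 1 ≤ cA := by unfold cA; norm_num
  have hL32 : L ^ 32 ≤ 11 ^ 70 * q ^ 74 * l ^ 70 := by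
    calc L ^ 32 ≤ (11 * (q * l)) ^ 32 := Nat.pow_le_pow_left hLq 32
      _ = 11 ^ 32 * q ^ 32 * l ^ 32 := by rw [mul_pow, mul_pow, ← mul_assoc]
      _ ≤ 11 ^ 70 * q ^ 74 * l ^ 70 := Nat.mul_le_mul (Nat.mul_le_mul
          (Nat.pow_le_pow_right (by norm_num) (by norm_num))
          (Nat.pow_le_pow_right hq (by norm_num))) (Nat.pow_le_pow_right hl (by norm_num))
  calc PhiB q r ≤ 17 * (A * A) := h0
    _ ≤ 17 * ((cA * q ^ 2 * L ^ 16) * (cA * q ^ 2 * L ^ 16)) :=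
        Nat.mul_le_mul_left _ (Nat.mul_le_mul a1 a1)
    _ = 17 * (cA ^ 2 * q ^ 4) * L ^ 32 := by ring
    _ ≤ 17 * (cA ^ 2 * q ^ 4) * (11 ^ 70 * q ^ 74 * l ^ 70) := Nat.mul_le_mul_left _ hL32
    _ ≤ 150000 * (cA ^ 4 * q ^ 4) * (11 ^ 70 * q ^ 74 * l ^ 70) := by
        apply Nat.mul_le_mul_right
        apply Nat.mul_le_mul (by norm_num)
        apply Nat.mul_le_mul_right
        exact Nat.pow_le_pow_right hc (by norm_num)
    _ = cB * q ^ 78 * l ^ 70 := by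
        unfold cB
        generalize (11 : ℕ) ^ 70 = c
        ring

end Pool.Agent.Lib.MP_d31508_co.Sharp
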