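import Pool.Agent.Lib.MP_d31508_co.Sharp.UpperM
import Pool.Agent.Lib.MP_d31508_co.Sharp.Contract

set_option linter.unusedSectionVars false

/-!
# The upper bound in terms of the extremal function for girth
-/

namespace Pool.Agent.Lib.MP_d31508_co.Sharp

open Finset Classical
open Pool.Agent.Lib.MP_d31508_co.Asy (dg Cl D)

variable {V : Type} [Fintype V] {G : SimpleGraph V}

/-- the core of a near-clique, with the deficiency of the other vertices -/
lemma core_exists2 {B : Finset V} {d s : ℕ} (h : B.card * B.card ≤ D G B + s * (d + 1)) :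
    ∃ K ⊆ B, (∀ v ∈ K, K.card ≤ dg G K v + d) ∧ (B \ K).card ≤ s ∧
      D G B + d * (B \ K).card + B.card ≤ B.card * B.card := by
  set K := B.filter (fun v => B.card ≤ dg G B v + d) with hK
  have hKB : K ⊆ B := filter_subset _ _
  refine ⟨K, hKB, ?_, ?_, ?_⟩
  · intro v hv
    have e1 := (mem_filter.1 hv).2
    have e2 : dg G B v ≤ dg G K v + (B \ K).card := by
      have := dg_union_le (G := G) K (B \ K) v
      rw [union_sdiff_of_subset hKB] at this
      exact this.trans (Nat.add_le_add_left (dg_le_card _ v) _)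
    have e3 := card_sdiff_add_card_eq_card hKB
    omega
  · have h1 : (B \ K).card * (d + 1) + D G B ≤ B.card * B.card := by
      have e : ∑ v ∈ B, (dg G B v + if v ∈ B \ K then d + 1 else 0) ≤ ∑ _v ∈ B, B.card := by
        apply sum_le_sum
        intro v hv
        split_ifs with h
        · obtain ⟨h1, h2⟩ := mem_sdiff.1 h
          rw [hK, mem_filter] at h2
          push Not at h2
          have := h2 h1
          omega
        · exact dg_le_card B v
      rw [sum_add_distrib, ← sum_filter] at e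
      have e2 : B.filter (fun v => v ∈ B \ K) = B \ K := by
        ext v
        simp only [mem_filter]
        exact ⟨fun h => h.2, fun h => ⟨(mem_sdiff.1 h).1, h⟩⟩
      rw [e2] at e
      simp only [sum_const, smul_eq_mul] at e
      have e3 : D G B = ∑ v ∈ B, dg G B v := rfl
      omega
    have h2 : (B \ K).card * (d + 1) ≤ s * (d + 1) := by omega
    exact Nat.le_of_mul_le_mul_right h2 (by omega)
  · have e : ∑ v ∈ B, ((dg G B v + if v ∈ B \ K then d else 0) + 1) ≤ ∑ _v ∈ B, B.card := by
      apply sum_le_sum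
      intro v hv
      have h0 : dg G B v + 1 ≤ B.card := by
        have h3 : dg G B v ≤ (B.erase v).card := by
          unfold dg
          apply card_le_card
          intro y hy
          obtain ⟨h1, h2⟩ := mem_filter.1 hy
          exact mem_erase.2 ⟨h2.ne', h1⟩
        rw [card_erase_of_mem hv] at h3
        have h4 := card_pos.2 ⟨v, hv⟩
        omega
      split_ifs with h
      · obtain ⟨h1, h2⟩ := mem_sdiff.1 h
        rw [hK, mem_filter] at h2
        push Not at h2
        have := h2 h1
        omega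
      · exact h0
    rw [sum_add_distrib, sum_add_distrib, ← sum_filter] at e
    have e2 : B.filter (fun v => v ∈ B \ K) = B \ K := by
      ext v
      simp only [mem_filter]
      exact ⟨fun h => h.2, fun h => ⟨(mem_sdiff.1 h).1, h⟩⟩
    rw [e2] at e
    simp only [sum_const, smul_eq_mul, mul_one] at e
    have e3 : D G B = ∑ v ∈ B, dg G B v := rfl
    rw [mul_comm d]
    omega

/-- removing a vertex of small degree -/
lemma remove_vertex {N g j : ℕ} (hV : Fintype.card V = N + 1)
    (h1 : ∀ Y : Finset V, Y.Nonempty → Cl G Y → g ≤ Y.card)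
    (hj : (N + 1) * 3 ^ j < 4 ^ (j + 1)) (hg : 4 * (3 + j) + 3 < g) :
    D G univ ≤ 2 * exG N g + 4 := by
  obtain ⟨v, hv⟩ : ∃ v, dg G univ v ≤ 2 := by
    by_contra hcon
    push Not at hcon
    have h3 : 3 * (N + 1) ≤ D G univ := by
      unfold D
      calc 3 * (N + 1) = ∑ _v : V, 3 := by simp [hV, mul_comm]
        _ ≤ _ := sum_le_sum (fun v _ => hcon v)
    obtain ⟨R, -, hval, hker⟩ := kernel_exists (G := G) (3 + 1) 3 ∅ univ
    simp only [empty_union, card_univ, hV] at hval
    have hRne : R.Nonempty := by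
      rw [nonempty_iff_ne_empty]
      rintro rfl
      rw [D_empty, card_empty] at hval
      omega
    obtain ⟨v, hv⟩ := hRne
    obtain ⟨E, -, e2, e3, e4⟩ := cover2 hker (disjoint_empty_left R)
      (by rw [hV]; exact hj) v hv
    have e5 : Cl G E := by
      have := e4.cl Cl_empty
      rwa [empty_union] at this
    have := h1 E ⟨v, e2⟩ e5
    omega
  -- the graph without `v`
  let F' : SimpleGraph {x : V // x ≠ v} := G.comap (Function.Embedding.subtype _)
  have hadj : ∀ x y, G.Adj (Function.Embedding.subtype (fun x => x ≠ v) x)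
    (Function.Embedding.subtype (fun x => x ≠ v) y) ↔ F'.Adj x y := fun x y => Iff.rfl
  have hcard : Fintype.card {x : V // x ≠ v} = N := by
    rw [Fintype.card_subtype_compl, hV]
    simp
  have h3 := le_exG (g := g) hcard F' (by
    intro Y hY hcl
    have h4 : Cl G (Y.map (Function.Embedding.subtype _)) := by
      intro x hx
      obtain ⟨y, hy, rfl⟩ := mem_map.1 hx
      rw [dg_map _ hadj]
      exact hcl y hy
    have h5 := h1 _ (hY.map) h4
    rwa [card_map] at h5)
  have h4 : D G ((univ : Finset {x : V // x ≠ v}).map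
    (Function.Embedding.subtype _)) = D F' univ := D_map _ hadj univ
  have h5 : (univ : Finset {x : V // x ≠ v}).map (Function.Embedding.subtype _) =
      univ.erase v := by
    ext x
    simp
  rw [h5] at h4
  have h6 := D_insert (G := G) (notMem_erase v univ)
  rw [insert_erase (mem_univ v)] at h6
  have h7 : dg G (univ.erase v) v ≤ dg G univ v := dg_mono (erase_subset _ _) v
  omega

lemma exG_succ {N g j : ℕ} (hj : (N + 1) * 3 ^ j < 4 ^ (j + 1)) (hg : 4 * (3 + j) + 3 < g) :
    exG (N + 1) g ≤ exG N g + 2 := by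
  obtain ⟨F, h1, h2⟩ := exG_attained (N + 1) g
  have h3 := remove_vertex (V := Fin (N + 1)) (G := F) (N := N) (g := g) (j := j) (by simp) h1 hj hg
  omega

lemma exG_add {n N g j : ℕ} (hj : n * 3 ^ j < 4 ^ (j + 1)) (hg : 4 * (3 + j) + 3 < g) :
    ∀ i, N + i ≤ n → exG (N + i) g ≤ exG N g + 2 * i := by
  intro i
  induction i with
  | zero => intro _; simp
  | succ i ih =>
    intro h
    have h1 := exG_succ (N := N + i) (g := g) (j := j)
      (lt_of_le_of_lt (Nat.mul_le_mul_right _ (by omega)) hj) hg
    have h2 := ih (by omega)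
    have e : N + (i + 1) = N + i + 1 := by ring
    rw [e]
    omega

/-- stars -/
lemma exG_star {N g : ℕ} (hN : 1 ≤ N) : N - 1 ≤ exG N g := by
  have h0 : PG 1 0 g := by
    refine ⟨⊥, by simp, ?_⟩
    intro Y hY hcl
    obtain ⟨x, hx⟩ := hY
    have := hcl x hx
    unfold dg at this
    simp at this
  obtain ⟨G, h1, h2⟩ := PG_pend (p := N - 1) le_rfl h0
  have h3 := le_exG (N := N) (g := g) (by rw [Fintype.card_fin]; omega) G h2
  omega

/-- **The near-clique case, with girth.** -/
theorem near_clique_girth {B : Finset V} {m s d j' : ℕ} (hB : Cl G B)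
    (hG : ∀ S : Finset V, S.card = m → ¬ Cl G S)
    (hBm : B.card ≤ m + s) (hcore : B.card * B.card ≤ D G B + s * (d + 1))
    (hcore2 : (m - 1) * (m - 1) ≤ D G B + s * (d + 1))
    (hnum1 : 2 * m + 6 * s ≤ 3 * B.card) (hm : 10 ≤ m)
    (hd4 : 4 ≤ d) (n1 : 3 * d + 6 + s ≤ B.card) (n2 : 6 * s + 3 * m ≤ 4 * B.card)
    (n3 : d + m + 2 + 2 * s ≤ 2 * B.card) (hmn : m ≤ Fintype.card V)
    (hj' : Fintype.card V * 3 ^ j' < 4 ^ (j' + 1)) (hg : 4 * (3 + j') + 3 < m - 2) :
    D G univ ≤ (m - 1) * (m - 2) + 2 * exG (Fintype.card V - (m - 2)) (m - 2) := by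
  obtain ⟨K, hKB, hK, hBK⟩ := core_exists hcore
  have hKc := card_sdiff_add_card_eq_card hKB
  -- no closed set slightly larger than `m`
  have key : ∀ C : Finset V, B ⊆ C → Cl G C → C.card ≤ m + s → C.card ≤ m - 1 := by
    intro C hBC hC hCc
    by_contra hcon
    push Not at hcon
    have hne : C.card ≠ m := fun h => hG C h hC
    obtain ⟨t, ht⟩ : ∃ t, C.card = m + t := ⟨C.card - m, by omega⟩
    have hCK := card_sdiff_add_card_eq_card (hKB.trans hBC)
    obtain ⟨S, -, hS, hSc⟩ := absorb (m := m) (t := t) (d := d) hC (hKB.trans hBC) ht hK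
      (by omega) (by omega)
    exact hG S hSc hS
  have hB1 := key B Subset.rfl hB hBm
  obtain ⟨C, hC, hmax⟩ := exists_max_image
    ((univ : Finset V).powerset.filter (fun C => B ⊆ C ∧ Cl G C ∧ C.card ≤ m - 1)) card
    ⟨B, mem_filter.2 ⟨by simp, Subset.rfl, hB, hB1⟩⟩
  obtain ⟨-, hBC, hCcl, hCm⟩ := mem_filter.1 hC
  have hout : ∀ C' : Finset V, C ⊆ C' → C ≠ C' → Cl G C' → m < C'.card := by
    intro C' h1 h2 h3
    by_contra hcon
    push Not at hcon
    have hne : C'.card ≠ m := fun h => hG C' h h3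
    have h4 := hmax C' (mem_filter.2 ⟨by simp, hBC.trans h1, h3, by omega⟩)
    have h5 : C.card < C'.card := card_lt_card (h1.ssubset_of_ne h2)
    omega
  have hBCc := card_le_card hBC
  have hcoreC : C.card * C.card ≤ D G C + s * (d + 1) := by
    have h1 : C.card * C.card ≤ (m - 1) * (m - 1) := Nat.mul_le_mul hCm hCm
    have h2 := D_mono (G := G) hBC
    omega
  obtain ⟨K', hKC, hK', hCK, hdef⟩ := core_exists2 hcoreC
  have hKc' := card_sdiff_add_card_eq_card hKC
  have hone : ∀ v, v ∉ C → dg G C v ≤ 1 := by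
    intro v hv
    by_contra hcon
    push Not at hcon
    have h1 : Cl G (insert v C) := by
      intro x hx
      rcases mem_insert.1 hx with rfl | hx
      · rw [dg_insert_self]; exact hcon
      · exact (hCcl x hx).trans (dg_mono (subset_insert _ _) x)
    have h2 := hout _ (subset_insert v C) (fun h => hv (h ▸ mem_insert_self v C)) h1
    rw [card_insert_of_notMem hv] at h2
    omega
  have hD := ctr_D hKC hone
  have hgirth := ctr_girth hG hCcl hKC hK' hCK hout hCm (by omega) (by omega) (by omega)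
  have hex := le_exG (ctr_card (K := K')) _ hgirth
  set n := Fintype.card V with hn
  have hCn : C.card ≤ n := card_le_univ C
  obtain ⟨y, hy⟩ : ∃ y, m - 1 = C.card + y := ⟨m - 1 - C.card, by omega⟩
  obtain ⟨z, hz⟩ : ∃ z, (C \ K').card = z := ⟨_, rfl⟩
  have hadd := exG_add (n := n) (N := n - (m - 2)) (g := m - 2) hj' hg (y + z) (by omega)
  have e1 : n - K'.card + 1 = n - (m - 2) + (y + z) := by omega
  rw [e1] at hex
  rw [hz] at hdef
  have h1 : 4 * z ≤ d * z := Nat.mul_le_mul_right _ hd4
  obtain ⟨x, hx⟩ : ∃ x, C.card = x + 5 := ⟨C.card - 5, by omega⟩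
  have e2 : m - 1 = x + 5 + y := by omega
  have e3 : m - 2 = x + 4 + y := by omega
  have e4 : (m - 1) * (m - 2) = (x + 5 + y) * (x + 4 + y) := by rw [e2, e3]
  rw [e4]
  rw [hx] at hdef
  nlinarith [Nat.zero_le (x * y), Nat.zero_le (y * y)]

end Pool.Agent.Lib.MP_d31508_co.Sharp
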