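import Pool.Agent.Lib.MP_d31508_co.Sharp.UpperG

set_option linter.unusedSectionVars false

/-!
# The upper bound with girth for all graphs without closed `m`-sets, all `n`
-/

namespace Pool.Agent.Lib.MP_d31508_co.Sharp

open Finset Classical
open Pool.Agent.Lib.MP_d31508_co.Asy (dg Cl D)

variable {V : Type} [Fintype V] {G : SimpleGraph V}

/-- sparse graphs satisfy the first alternative -/
lemma first_altG {Dn m n : ℕ} (hm : 2 ≤ m) (hmn : m ≤ n)
    (h : Dn + 2 * (m - 1) ≤ (m - 1) * (m - 2) + 2 * n) :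
    Dn ≤ (m - 1) * (m - 2) + 2 * exG (n - (m - 2)) (m - 2) := by
  have h1 := exG_star (N := n - (m - 2)) (g := m - 2) (by omega)
  generalize (m - 1) * (m - 2) = b at *
  omega

/-- **The upper bound.** -/
theorem upper_girth {r m j' : ℕ}
    (hr : Fintype.card V * (2 * 1000) ^ r < (2 * 1000 + 1) ^ r)
    (hr2 : Fintype.card V * 2 ^ r < (2 + 1) ^ r)
    (hr3 : Fintype.card V * 3 ^ r < (3 + 1) ^ r)
    (hG : ∀ S : Finset V, S.card = m → ¬ Cl G S) (hm1 : Phi 1000 r ≤ m)
    (hm2 : PhiB 1000 r ≤ m) (hm3 : 100000 ≤ m) (hmn : m ≤ Fintype.card V)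
    (hBig : 4 * (Big 1000 r m + 4) ≤ m * m)
    (hj' : Fintype.card V * 3 ^ j' < 4 ^ (j' + 1)) (hg : 4 * (3 + j') + 3 < m - 2) :
    (D G univ ≤ (m - 1) * (m - 2) + 2 * exG (Fintype.card V - (m - 2)) (m - 2)) ∨
    ((Even m → D G univ + 3 ≤ 3 * Fintype.card V) ∧
      (Odd m → D G univ + 4 ≤ 3 * Fintype.card V)) := by
  obtain ⟨B, hBu, hval, hker⟩ := kernel_exists (G := G) (1000 + 1) 1000 ∅ univ
  simp only [empty_union, card_univ] at hval
  set n := Fintype.card V with hndef
  have hBn : B.card ≤ n := card_le_univ B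
  have hGB : ∀ Z ⊆ B, Cl G Z → Z.card ≠ m := fun Z _ h1 h2 => hG Z h2 h1
  obtain ⟨μ, hμ⟩ : ∃ μ, m = μ + 4 := ⟨m - 4, by omega⟩
  have e1 : m - 1 = μ + 3 := by omega
  have e2 : m - 2 = μ + 2 := by omega
  have hprod : (m - 1) * (m - 2) = μ * μ + 5 * μ + 6 := by rw [e1, e2]; ring
  by_cases hB : (1000 + 1) * m ≤ 1000 * B.card
  · -- large kernel
    have hM : 1000 * D G B < (3 * 1000 + 2) * B.card := by
      by_contra hcon
      push Not at hcon
      obtain ⟨Z, z1, z2, z3⟩ := propM (by norm_num) hr hr2 hker hB hm1 hcon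
      exact hGB Z z1 z2 z3
    by_cases h2n : 2 * n ≤ m * m
    · left
      apply first_altG (by omega) hmn
      rw [hprod, e1]
      have h3 : 1000 * D G univ ≤ 3002 * n := by omega
      have h4 : m * m = μ * μ + 8 * μ + 16 := by rw [hμ]; ring
      have h5 : 99996 * μ ≤ μ * μ := Nat.mul_le_mul_right _ (by omega)
      omega
    · right
      push Not at h2n
      by_cases hD : 3 * n ≤ D G univ + 3
      · have hbb : 1000 * (Big 1000 r m + 4) ≤ 998 * n := by omega
        exact large_case (p := 997) hr hr2 hr3 hval hker hG hm1 hm2 hB hD hbb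
      · exact ⟨fun _ => by omega, fun _ => by omega⟩
  · -- small kernel
    push Not at hB
    by_cases hD : 3 * n ≤ D G univ + 4
    swap
    · right
      exact ⟨fun _ => by omega, fun _ => by omega⟩
    left
    by_cases hD2 : D G univ + 2 * (m - 1) ≤ (m - 1) * (m - 2) + 2 * n
    · exact first_altG (by omega) hmn hD2
    push Not at hD2
    have hD2' := hD2
    rw [hprod, e1] at hD2
    -- squares
    have hBB := D_le_sq (G := G) B
    have hsq : 1000 * B.card * (1000 * B.card) ≤ (1000 + 1) * m * ((1000 + 1) * m) :=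
      Nat.mul_le_mul hB.le hB.le
    have hsq2 : 1000000 * (B.card * B.card) ≤ 1002001 * (m * m) := by
      have a1 : 1000 * B.card * (1000 * B.card) = 1000000 * (B.card * B.card) := by ring
      have a2 : (1000 + 1) * m * ((1000 + 1) * m) = 1002001 * (m * m) := by ring
      omega
    have hmm : m * m = μ * μ + 8 * μ + 16 := by rw [hμ]; ring
    have hμμ : 99996 * μ ≤ μ * μ := Nat.mul_le_mul_right _ (by omega)
    -- `n < 2 m^2`
    have hn2 : n < 2 * (m * m) := by
      by_contra hcon
      push Not at hcon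
      omega
    -- `D B` is large
    have hDB : 1000 * (μ * μ + 3 * μ) ≤ 1000 * D G B + 4 * (m * m) := by omega
    have hB9 : 9 * m ≤ 10 * B.card := by
      by_contra hcon
      push Not at hcon
      have h2 : 10 * B.card * (10 * B.card) ≤ 9 * m * (9 * m) := Nat.mul_le_mul hcon.le hcon.le
      have a1 : 10 * B.card * (10 * B.card) = 100 * (B.card * B.card) := by ring
      have a2 : 9 * m * (9 * m) = 81 * (m * m) := by ring
      omega
    obtain ⟨a, ha⟩ : ∃ a, m / 16 = a := ⟨_, rfl⟩
    have hc2 : a * a * 2 ≤ m / 16 * (m / 8 + 1) := by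
      rw [ha]
      have : 2 * a ≤ m / 8 + 1 := by omega
      calc a * a * 2 = a * (2 * a) := by ring
        _ ≤ _ := Nat.mul_le_mul_left _ this
    have hc3 : m ≤ 16 * a + 15 := by omega
    have hc4 : m * m ≤ (16 * a + 15) * (16 * a + 15) := Nat.mul_le_mul hc3 hc3
    have hc5 : (16 * a + 15) * (16 * a + 15) = 256 * (a * a) + 480 * a + 225 := by ring
    have hc6 : 6249 * a ≤ a * a := Nat.mul_le_mul_right _ (by omega)
    have hm1sq : (m - 1) * (m - 1) = μ * μ + 6 * μ + 9 := by rw [e1]; ring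
    apply near_clique_girth (B := B) (s := m / 16) (d := m / 8) (j' := j') (ker_cl hker) hG
    · omega
    · omega
    · rw [hm1sq]; omega
    · omega
    · omega
    · omega
    · omega
    · omega
    · omega
    · exact hmn
    · exact hj'
    · exact hg

end Pool.Agent.Lib.MP_d31508_co.Sharp
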