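import Pool.Agent.Lib.MP_d31508_co.Sharp.UpperB
import Pool.Agent.Lib.MP_d31508_co.Sharp.Absorb

set_option linter.unusedSectionVars false

/-!
# The upper bound for all graphs without closed `m`-sets, all `n`
-/

namespace Pool.Agent.Lib.MP_d31508_co.Sharp

open Finset Classical
open Pool.Agent.Lib.MP_d31508_co.Asy (dg Cl D)

variable {V : Type} [Fintype V] {G : SimpleGraph V}

/-- kernels are closed -/
lemma ker_cl {B : Finset V} {q : ℕ} (hker : Ker G (q + 1) q ∅ B) : Cl G B := by
  intro v hv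
  have h1 := ker_sdiff hker (disjoint_empty_left B) (singleton_subset_iff.2 hv)
    (singleton_nonempty v)
  rw [D_singleton, card_singleton, sum_dg_comm, sum_singleton, empty_union] at h1
  have h2 : dg G (B \ {v}) v ≤ dg G B v := dg_mono sdiff_subset v
  by_contra h
  have h3 : dg G (B \ {v}) v ≤ 1 := by omega
  have h4 : q * (0 + 2 * dg G (B \ {v}) v) ≤ q * (0 + 2 * 1) :=
    Nat.mul_le_mul_left _ (by omega)
  nlinarith

/-- the case of a large kernel and many edges -/
lemma large_case {B : Finset V} {p r m : ℕ}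
    (hr : Fintype.card V * (2 * (p + 3)) ^ r < (2 * (p + 3) + 1) ^ r)
    (hr2 : Fintype.card V * 2 ^ r < (2 + 1) ^ r)
    (hr3 : Fintype.card V * 3 ^ r < (3 + 1) ^ r)
    (hval : (p + 3) * D G univ + 2 * (p + 3 + 1) * B.card ≤
      (p + 3) * D G B + 2 * (p + 3 + 1) * Fintype.card V)
    (hker : Ker G (p + 3 + 1) (p + 3) ∅ B)
    (hG : ∀ S : Finset V, S.card = m → ¬ Cl G S) (hm1 : Phi (p + 3) r ≤ m)
    (hm2 : PhiB (p + 3) r ≤ m) (hB : (p + 3 + 1) * m ≤ (p + 3) * B.card)
    (hD : 3 * Fintype.card V ≤ D G univ + 3)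
    (hBig : (p + 3) * (Big (p + 3) r m + 4) ≤ (p + 1) * Fintype.card V) :
    (Even m → D G univ + 3 ≤ 3 * Fintype.card V) ∧
    (Odd m → D G univ + 4 ≤ 3 * Fintype.card V) := by
  have hBn : B.card ≤ Fintype.card V := card_le_univ B
  set n := Fintype.card V with hndef
  obtain ⟨c, hc⟩ : ∃ c, n = B.card + c := ⟨n - B.card, by omega⟩
  have hD' : (p + 3) * (3 * n) ≤ (p + 3) * (D G univ + 3) := Nat.mul_le_mul_left _ hD
  have hGB : ∀ Z ⊆ B, Cl G Z → Z.card ≠ m := fun Z _ h1 h2 => hG Z h2 h1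
  have hM : (p + 3) * D G B < (3 * (p + 3) + 2) * B.card := by
    by_contra hcon
    push Not at hcon
    obtain ⟨Z, z1, z2, z3⟩ := propM (by omega) hr hr2 hker hB hm1 hcon
    exact hGB Z z1 z2 z3
  have hBbig : (p + 1) * n ≤ (p + 3) * B.card + 3 * (p + 3) := by linarith
  have hBig' : Big (p + 3) r m < B.card := by
    have h1 : (p + 3) * (Big (p + 3) r m + 4) ≤ (p + 3) * (B.card + 3) := by linarith
    have := Nat.le_of_mul_le_mul_left h1 (by omega)
    omega
  have hDB : 3 * B.card ≤ D G B + 3 := by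
    have h1 : (p + 3) * (3 * B.card) ≤ (p + 3) * (D G B + 3) := by
      rw [hc] at hD' hval
      linarith [Nat.zero_le (p * c), Nat.zero_le c]
    exact Nat.le_of_mul_le_mul_left h1 (by omega)
  obtain ⟨b1, b2⟩ := propB (by omega) hr hr3 hker hB hGB hm2 hDB hBig'
  constructor
  · intro he
    have h1 := b1 he
    have h2 : (p + 3) * (D G B + 3) ≤ (p + 3) * (3 * B.card) := Nat.mul_le_mul_left _ h1
    have h3 : (p + 3) * (D G univ + 3) ≤ (p + 3) * (3 * n) := by
      rw [hc] at hval ⊢
      linarith [Nat.zero_le (p * c), Nat.zero_le c]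
    exact Nat.le_of_mul_le_mul_left h3 (by omega)
  · intro ho
    have h1 := b2 ho
    have h2 : (p + 3) * (D G B + 4) ≤ (p + 3) * (3 * B.card) := Nat.mul_le_mul_left _ h1
    have h3 : (p + 3) * (D G univ + 4) ≤ (p + 3) * (3 * n) := by
      rw [hc] at hval ⊢
      linarith [Nat.zero_le (p * c), Nat.zero_le c]
    exact Nat.le_of_mul_le_mul_left h3 (by omega)

/-- sparse graphs satisfy the first alternative -/
lemma first_alt {Dn m n Q : ℕ} (hmn : m ≤ n + 1)
    (h : Dn + 2 * (m - 1) ≤ (m - 1) * (m - 2) + 2 * n) :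
    Q * Dn + 2 * (Q + 1) * (m - 1) ≤ Q * ((m - 1) * (m - 2)) + 2 * (Q + 1) * n := by
  have h1 : Q * (Dn + 2 * (m - 1)) ≤ Q * ((m - 1) * (m - 2) + 2 * n) := Nat.mul_le_mul_left _ h
  have h2 : m - 1 ≤ n := by omega
  generalize m - 1 = a at *
  generalize (a * (m - 2)) = b at *
  nlinarith

/-- **The upper bound.** -/
theorem upper_main {r m Q j : ℕ}
    (hr : Fintype.card V * (2 * 1000) ^ r < (2 * 1000 + 1) ^ r)
    (hr2 : Fintype.card V * 2 ^ r < (2 + 1) ^ r)
    (hr3 : Fintype.card V * 3 ^ r < (3 + 1) ^ r)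
    (hG : ∀ S : Finset V, S.card = m → ¬ Cl G S) (hm1 : Phi 1000 r ≤ m)
    (hm2 : PhiB 1000 r ≤ m) (hm3 : 100000 ≤ m) (hmn : m ≤ Fintype.card V)
    (hBig : 4 * (Big 1000 r m + 4) ≤ m * m)
    (hQ : 1 ≤ Q) (hj : Fintype.card V * Q ^ j < (Q + 1) ^ (j + 1))
    (hQj : 4 * (Q + j) + 3 ≤ m / 16) :
    (Q * D G univ + 2 * (Q + 1) * (m - 1) ≤
      Q * ((m - 1) * (m - 2)) + 2 * (Q + 1) * Fintype.card V) ∨
    ((Even m → D G univ + 3 ≤ 3 * Fintype.card V) ∧
      (Odd m → D G univ + 4 ≤ 3 * Fintype.card V)) := by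
  obtain ⟨B, hBu, hval, hker⟩ := kernel_exists (G := G) (1000 + 1) 1000 ∅ univ
  simp only [empty_union, card_univ] at hval
  set n := Fintype.card V with hndef
  have hBn : B.card ≤ n := card_le_univ B
  have hGB : ∀ Z ⊆ B, Cl G Z → Z.card ≠ m := fun Z _ h1 h2 => hG Z h2 h1
  obtain ⟨μ, hμ⟩ : ∃ μ, m = μ + 4 := ⟨m - 4, by omega⟩
  have e1 : m - 1 = μ + 3 := by omega
  have e2 : m - 2 = μ + 2 := by omega
  have hprod : (m - 1) * (m - 2) = μ * μ + 5 * μ + 6 := by rw [e1, e2]; ring
  by_cases hB : (1000 + 1) * m ≤ 1000 * B.card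
  · -- large kernel
    have hM : 1000 * D G B < (3 * 1000 + 2) * B.card := by
      by_contra hcon
      push Not at hcon
      obtain ⟨Z, z1, z2, z3⟩ := propM (by norm_num) hr hr2 hker hB hm1 hcon
      exact hGB Z z1 z2 z3
    by_cases h2n : 2 * n ≤ m * m
    · left
      apply first_alt (by omega)
      rw [hprod, e1]
      have h3 : 1000 * D G univ ≤ 3002 * n := by omega
      have h4 : m * m = μ * μ + 8 * μ + 16 := by rw [hμ]; ring
      have h5 : 99996 * μ ≤ μ * μ := Nat.mul_le_mul_right _ (by omega)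
      omega
    · right
      push Not at h2n
      by_cases hD : 3 * n ≤ D G univ + 3
      · have hbb : 1000 * (Big 1000 r m + 4) ≤ 998 * n := by omega
        exact large_case (p := 997) hr hr2 hr3 hval hker hG hm1 hm2 hB hD hbb
      · exact ⟨fun _ => by omega, fun _ => by omega⟩
  · -- small kernel
    push Not at hB
    by_cases hD : 3 * n ≤ D G univ + 4
    swap
    · right
      exact ⟨fun _ => by omega, fun _ => by omega⟩
    left
    by_cases hD2 : D G univ + 2 * (m - 1) ≤ (m - 1) * (m - 2) + 2 * n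
    · exact first_alt (by omega) hD2
    push Not at hD2
    rw [hprod, e1] at hD2
    -- squares
    have hBB := D_le_sq (G := G) B
    have hsq : 1000 * B.card * (1000 * B.card) ≤ (1000 + 1) * m * ((1000 + 1) * m) :=
      Nat.mul_le_mul hB.le hB.le
    have hsq2 : 1000000 * (B.card * B.card) ≤ 1002001 * (m * m) := by
      have a1 : 1000 * B.card * (1000 * B.card) = 1000000 * (B.card * B.card) := by ring
      have a2 : (1000 + 1) * m * ((1000 + 1) * m) = 1002001 * (m * m) := by ring
      omega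
    have hmm : m * m = μ * μ + 8 * μ + 16 := by rw [hμ]; ring
    have hμμ : 99996 * μ ≤ μ * μ := Nat.mul_le_mul_right _ (by omega)
    -- `n < 2 m^2`
    have hn2 : n < 2 * (m * m) := by
      by_contra hcon
      push Not at hcon
      omega
    -- `D B` is large
    have hDB : 1000 * (μ * μ + 3 * μ) ≤ 1000 * D G B + 4 * (m * m) := by omega
    apply near_clique (B := B) (s := m / 16) (d := m / 8) (ker_cl hker) hG
    · omega
    · -- core
      have h1 : m / 16 * 16 ≤ m := Nat.div_mul_le_self m 16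
      obtain ⟨a, ha⟩ : ∃ a, m / 16 = a := ⟨_, rfl⟩
      have h2 : a * a * 2 ≤ m / 16 * (m / 8 + 1) := by
        rw [ha]
        have : 2 * a ≤ m / 8 + 1 := by omega
        calc a * a * 2 = a * (2 * a) := by ring
          _ ≤ _ := Nat.mul_le_mul_left _ this
      have h3 : m ≤ 16 * a + 15 := by omega
      have h4 : m * m ≤ (16 * a + 15) * (16 * a + 15) := Nat.mul_le_mul h3 h3
      have h5 : (16 * a + 15) * (16 * a + 15) = 256 * (a * a) + 480 * a + 225 := by ring
      have h6 : 6249 * a ≤ a * a := Nat.mul_le_mul_right _ (by omega)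
      omega
    · -- `|B| ≥ 0.9 m`
      have h1 : 9 * m ≤ 10 * B.card := by
        by_contra hcon
        push Not at hcon
        have h2 : 10 * B.card * (10 * B.card) ≤ 9 * m * (9 * m) := Nat.mul_le_mul hcon.le hcon.le
        have a1 : 10 * B.card * (10 * B.card) = 100 * (B.card * B.card) := by ring
        have a2 : 9 * m * (9 * m) = 81 * (m * m) := by ring
        omega
      omega
    · have h1 : 9 * m ≤ 10 * B.card := by
        by_contra hcon
        push Not at hcon
        have h2 : 10 * B.card * (10 * B.card) ≤ 9 * m * (9 * m) := Nat.mul_le_mul hcon.le hcon.le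
        have a1 : 10 * B.card * (10 * B.card) = 100 * (B.card * B.card) := by ring
        have a2 : 9 * m * (9 * m) = 81 * (m * m) := by ring
        omega
      omega
    · omega
    · exact hQ
    · exact hj
    · exact hQj

end Pool.Agent.Lib.MP_d31508_co.Sharp
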